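import Pool.Agent.Lib_MP_9e452d_n.NDefs

/-!
# Piece NBase: basic facts about `FF`, `EE`, `II`, `mu`, `nu`

Everything follows from `frob`, `q0` and algebraic closedness. `(-1) ^ q = -1` because `0 = (1 + (-1)) ^ q` (and
`0 ^ q = 0`). `X ^ q - X` and `X ^ (q ^ 2) - X` are monic with derivative `-1` (as `(q : K) = 0`), so they are
separable, split over `K`, and have `q`, `q ^ 2` simple roots
(`Polynomial.nodup_roots`, `IsAlgClosed.splits`, `Polynomial.C_leadingCoeff_mul_prod_multiset_X_sub_C` or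
`Polynomial.prod_multiset_X_sub_C_of_monic_of_roots_card_eq`).
-/

set_option autoImplicit false

namespace Pool.Agent.SpreadN

open Polynomial

variable {K : Type*} [Field K] [DecidableEq K] {q : ℕ} {A : Finset (K × K)}

theorem OCov.neg_one_pow (h : OCov q A) : (-1 : K) ^ q = -1 := by
  have h0 : ((1 : K) + (-1)) ^ q = 1 ^ q + (-1) ^ q := h.frob 1 (-1)
  have hq : q ≠ 0 := by have := h.hq; omega
  rw [add_neg_cancel, zero_pow hq, one_pow] at h0
  exact (neg_eq_of_add_eq_zero_right h0.symm).symm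

theorem OCov.neg_pow (h : OCov q A) (x : K) : (-x) ^ q = - x ^ q := by
  rw [_root_.neg_pow, h.neg_one_pow, neg_one_mul]

theorem OCov.sub_pow (h : OCov q A) (x y : K) : (x - y) ^ q = x ^ q - y ^ q := by
  rw [sub_eq_add_neg, h.frob, h.neg_pow, ← sub_eq_add_neg]

theorem OCov.two_pow (h : OCov q A) : (2 : K) ^ q = 2 := by
  rw [← one_add_one_eq_two, h.frob, one_pow]

/-- a sum of `q`-th powers, for finite sums -/
theorem OCov.sum_pow (h : OCov q A) {ι : Type*} (s : Finset ι) (f : ι → K) : (∑ i ∈ s, f i) ^ q = ∑ i ∈ s, f i ^ q := by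
  classical
  have hq : q ≠ 0 := by have := h.hq; omega
  induction s using Finset.induction_on with
  | empty => simp [hq]
  | insert a s ha ih => rw [Finset.sum_insert ha, Finset.sum_insert ha, h.frob, ih]

theorem mem_FF (hq : 2 ≤ q) {x : K} : x ∈ FF K q ↔ x ^ q = x := by
  unfold FF
  rw [Multiset.mem_toFinset, mem_roots (FiniteField.X_pow_card_sub_X_ne_zero K (by omega))]
  simp [sub_eq_zero]

theorem mem_EE (hq : 2 ≤ q) {x : K} : x ∈ EE K q ↔ x ^ (q ^ 2) = x := by
  unfold EE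
  have h2 : 1 < q ^ 2 := Nat.one_lt_pow (by omega) (by omega)
  rw [Multiset.mem_toFinset, mem_roots (FiniteField.X_pow_card_sub_X_ne_zero K h2)]
  simp [sub_eq_zero]

theorem mem_II (hq : 2 ≤ q) {x : K} : x ∈ II K q ↔ x ^ (q ^ 2) = x ∧ x ^ q ≠ x := by
  unfold II
  rw [Finset.mem_sdiff, mem_EE hq, mem_FF hq]

theorem FF_subset (hq : 2 ≤ q) : FF K q ⊆ EE K q := by
  intro x hx
  rw [mem_FF hq] at hx
  rw [mem_EE hq, pow_two, pow_mul, hx, hx]

theorem pow_pow_q {x : K} (hq : 2 ≤ q) (hx : x ∈ EE K q) : (x ^ q) ^ q = x := by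
  rw [mem_EE hq] at hx
  rw [← pow_mul, ← pow_two, hx]

theorem pow_mem_EE {x : K} (hq : 2 ≤ q) (hx : x ∈ EE K q) : x ^ q ∈ EE K q := by
  rw [mem_EE hq] at hx ⊢
  rw [← pow_mul, mul_comm, pow_mul, hx]

/-- the `q`-th power map is injective -/
theorem OCov.pow_inj (h : OCov q A) {x y : K} (hxy : x ^ q = y ^ q) : x = y := by
  have h0 : (x - y) ^ q = 0 := by rw [h.sub_pow, hxy, sub_self]
  exact sub_eq_zero.1 (pow_eq_zero_iff (by have := h.hq; omega) |>.1 h0)

theorem OCov.pow_mem_II (h : OCov q A) {x : K} (hx : x ∈ II K q) : x ^ q ∈ II K q := by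
  have hq : 2 ≤ q := by have := h.hq; omega
  rw [mem_II hq] at hx ⊢
  have hE : x ∈ EE K q := (mem_EE hq).2 hx.1
  refine ⟨(mem_EE hq).1 (pow_mem_EE hq hE), fun h' => hx.2 (h.pow_inj h')⟩

theorem OCov.bil_pow (h : OCov q A) {a : K × K} (h1 : a.1 ^ q = a.1) (h2 : a.2 ^ q = a.2) (x y : K) :
    bil a x y ^ q = bil a (x ^ q) (y ^ q) := by
  unfold bil
  rw [h.frob, h.frob, mul_pow, mul_pow, h.frob, h1, h2]

/-- for `x` in `EE`, the value `bil a x (x ^ q)` is rational -/
theorem OCov.bil_rat (h : OCov q A) {a : K × K} (h1 : a.1 ^ q = a.1) (h2 : a.2 ^ q = a.2) {x : K} (hx : x ∈ EE K q) :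
    bil a x (x ^ q) ^ q = bil a x (x ^ q) := by
  have hq : 2 ≤ q := by have := h.hq; omega
  rw [h.bil_pow h1 h2, pow_pow_q hq hx]
  unfold bil
  ring

theorem OCov.mu_pow (h : OCov q A) {x : K} (hx : x ∈ EE K q) : mu q A (x ^ q) = mu q A x := by
  have hq : 2 ≤ q := by have := h.hq; omega
  unfold mu
  rw [pow_pow_q hq hx]
  congr 1
  refine Finset.filter_congr (fun a _ => ?_)
  have : bil a (x ^ q) x = bil a x (x ^ q) := by unfold bil; ring
  rw [this]

theorem OCov.nu_pow (h : OCov q A) (x : K) : nu A (x ^ q) = nu A x := by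
  unfold nu
  congr 1
  refine Finset.filter_congr (fun a ha => ?_)
  rw [← h.bil_pow (h.rat1 a ha) (h.rat2 a ha)]
  exact pow_eq_zero_iff (by have := h.hq; omega)

theorem OCov.nu_eq_mu (h : OCov q A) {x : K} (hx : x ∈ FF K q) : nu A x = mu q A x := by
  have hq : 2 ≤ q := by have := h.hq; omega
  rw [mem_FF hq] at hx
  unfold nu mu
  rw [hx]

/-- If `x ^ 2 + 2 B x + C = 0` with rational `B, C` and `x` irrational, then `x ^ q` is the other root, so
`2 B = -(x + x ^ q)` and `C = x ^ (q + 1)`; so there is at most one such `a`. -/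
theorem OCov.nu_le_one (h : OCov q A) {x : K} (hx : x ∈ II K q) : nu A x ≤ 1 := by
  have hq : 2 ≤ q := by have := h.hq; omega
  rw [mem_II hq] at hx
  unfold nu
  rw [Finset.card_le_one]
  intro a ha b hb
  rw [Finset.mem_filter] at ha hb
  have e1 : 2 * (a.1 - b.1) * x + (a.2 - b.2) = 0 := by
    have h1 := ha.2
    have h2 := hb.2
    unfold bil at h1 h2
    linear_combination h1 - h2
  have e2 : 2 * (a.1 - b.1) * x ^ q + (a.2 - b.2) = 0 := by
    have h3 : (2 * (a.1 - b.1) * x + (a.2 - b.2)) ^ q = 0 := by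
      rw [e1]; exact zero_pow (by omega)
    rw [h.frob, mul_pow, mul_pow, h.two_pow, h.sub_pow, h.sub_pow, h.rat1 a ha.1, h.rat1 b hb.1,
      h.rat2 a ha.1, h.rat2 b hb.1] at h3
    exact h3
  have e3 : 2 * (a.1 - b.1) * (x ^ q - x) = 0 := by linear_combination e2 - e1
  have e4 : a.1 - b.1 = 0 := by
    rcases mul_eq_zero.1 e3 with h4 | h4
    · exact (mul_eq_zero.1 h4).resolve_left h.two
    · exact absurd (sub_eq_zero.1 h4) hx.2
  have e5 : a.2 - b.2 = 0 := by
    rw [e4] at e1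
    linear_combination e1
  exact Prod.ext (sub_eq_zero.1 e4) (sub_eq_zero.1 e5)

/-- from `int` -/
theorem OCov.nu_ne_zero (h : OCov q A) {x : K} (hx : x ∈ II K q) (hmu : mu q A x = 0) : nu A x ≠ 0 := by
  have hq : 2 ≤ q := by have := h.hq; omega
  rw [mem_II hq] at hx
  unfold mu at hmu
  rw [Finset.card_eq_zero, Finset.filter_eq_empty_iff] at hmu
  rcases h.int x hx.1 hx.2 with ⟨a, ha, h0⟩ | ⟨a, ha, h0⟩
  · exact absurd h0 (hmu ha)
  · unfold nu
    intro hc
    rw [Finset.card_eq_zero, Finset.filter_eq_empty_iff] at hc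
    exact hc ha h0

variable [IsAlgClosed K]

private theorem nb_roots {n : ℕ} (h0 : (n : K) = 0) (hn : 1 < n) :
    (X ^ n - X : K[X]).roots.Nodup ∧ (X ^ n - X : K[X]).roots.card = n := by
  have hsep : (X ^ n - X : K[X]).Separable :=
    galois_poly_separable (ringChar K) n ((ringChar.spec K n).1 h0)
  refine ⟨nodup_roots hsep, ?_⟩
  rw [← (IsAlgClosed.splits (X ^ n - X : K[X])).natDegree_eq_card_roots]
  exact FiniteField.X_pow_card_sub_X_natDegree_eq K hn

private theorem nb_card {n : ℕ} (h0 : (n : K) = 0) (hn : 1 < n) :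
    (X ^ n - X : K[X]).roots.toFinset.card = n := by
  obtain ⟨h1, h2⟩ := nb_roots h0 hn
  rw [Multiset.toFinset_card_of_nodup h1, h2]

private theorem nb_prod {n : ℕ} (h0 : (n : K) = 0) (hn : 1 < n) :
    ∏ x ∈ (X ^ n - X : K[X]).roots.toFinset, (X - C x) = (X ^ n - X : K[X]) := by
  obtain ⟨h1, h2⟩ := nb_roots h0 hn
  have hmon : (X ^ n - X : K[X]).Monic := by
    refine monic_X_pow_sub ?_
    rw [degree_X]
    exact_mod_cast hn
  have h3 := prod_multiset_X_sub_C_of_monic_of_roots_card_eq hmon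
    (by rw [h2, FiniteField.X_pow_card_sub_X_natDegree_eq K hn])
  conv_rhs => rw [← h3]
  rw [Finset.prod, Multiset.toFinset_val, Multiset.dedup_eq_self.2 h1]

theorem OCov.card_FF (h : OCov q A) : (FF K q).card = q := by
  exact nb_card h.q0 (by have := h.hq; omega)

theorem OCov.card_EE (h : OCov q A) : (EE K q).card = q ^ 2 := by
  exact nb_card (by rw [Nat.cast_pow, h.q0]; exact zero_pow (by omega))
    (Nat.one_lt_pow (by omega) (by have := h.hq; omega))

theorem OCov.prod_FF (h : OCov q A) : ∏ x ∈ FF K q, (X - C x) = (X ^ q - X : K[X]) := by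
  exact nb_prod h.q0 (by have := h.hq; omega)

theorem OCov.prod_EE (h : OCov q A) : ∏ x ∈ EE K q, (X - C x) = (X ^ (q ^ 2) - X : K[X]) := by
  exact nb_prod (by rw [Nat.cast_pow, h.q0]; exact zero_pow (by omega))
    (Nat.one_lt_pow (by omega) (by have := h.hq; omega))

end Pool.Agent.SpreadN
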