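import Pool.Agent.Lib_MP_9e452d_n.NFCov

/-!
# Piece NCBa: polynomials in two variables of bounded total degree

`f : F[X][X]` (outer variable `Y`) has total degree at most `h` if its coefficient of `Y ^ j` has degree at most
`h - j` and vanishes for `j > h`. Its value at `(p, s)` is `(f.eval (C s)).eval p`.
-/

set_option autoImplicit false

namespace Pool.Agent.SpreadN

open Polynomial

variable {F : Type*} [Field F]

/-- total degree at most `h` -/
def TD (h : ℕ) (f : F[X][X]) : Prop := ∀ i j : ℕ, h < i + j → (f.coeff j).coeff i = 0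

/-- the value at `(p, s)` -/
noncomputable def ev2 (f : F[X][X]) (p s : F) : F := (f.eval (C s)).eval p

/-- the restriction to the conic `(t ^ 2, 2 t)` -/
noncomputable def con (f : F[X][X]) : F[X] := f.eval₂ (Polynomial.compRingHom (X ^ 2)) (C 2 * X)

/-- the homogenization of degree `h` -/
noncomputable def hom3 (h : ℕ) (f : F[X][X]) : MvPolynomial (Fin 3) F :=
  ∑ j ∈ Finset.range (h + 1), ∑ i ∈ Finset.range (h + 1 - j),
    MvPolynomial.C ((f.coeff j).coeff i) * MvPolynomial.X 0 ^ i * MvPolynomial.X 1 ^ j * MvPolynomial.X 2 ^ (h - i - j)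

theorem hom3_deg (h : ℕ) (f : F[X][X]) : (hom3 h f).totalDegree ≤ h := by
  unfold hom3
  apply MvPolynomial.totalDegree_finsetSum_le
  intro j hj
  apply MvPolynomial.totalDegree_finsetSum_le
  intro i hi
  rw [Finset.mem_range] at hj hi
  have h0 : (MvPolynomial.C ((f.coeff j).coeff i) : MvPolynomial (Fin 3) F).totalDegree ≤ 0 := by
    rw [MvPolynomial.totalDegree_C]
  have h1 : ((MvPolynomial.X 0 : MvPolynomial (Fin 3) F) ^ i).totalDegree ≤ i := by
    refine (MvPolynomial.totalDegree_pow _ _).trans ?_
    rw [MvPolynomial.totalDegree_X, mul_one]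
  have h2 : ((MvPolynomial.X 1 : MvPolynomial (Fin 3) F) ^ j).totalDegree ≤ j := by
    refine (MvPolynomial.totalDegree_pow _ _).trans ?_
    rw [MvPolynomial.totalDegree_X, mul_one]
  have h3 : ((MvPolynomial.X 2 : MvPolynomial (Fin 3) F) ^ (h - i - j)).totalDegree ≤ h - i - j := by
    refine (MvPolynomial.totalDegree_pow _ _).trans ?_
    rw [MvPolynomial.totalDegree_X, mul_one]
  have e1 := MvPolynomial.totalDegree_mul (MvPolynomial.C ((f.coeff j).coeff i) : MvPolynomial (Fin 3) F)
    (MvPolynomial.X 0 ^ i)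
  have e2 := MvPolynomial.totalDegree_mul (MvPolynomial.C ((f.coeff j).coeff i) * MvPolynomial.X 0 ^ i :
    MvPolynomial (Fin 3) F) (MvPolynomial.X 1 ^ j)
  have e3 := MvPolynomial.totalDegree_mul (MvPolynomial.C ((f.coeff j).coeff i) * MvPolynomial.X 0 ^ i *
    MvPolynomial.X 1 ^ j : MvPolynomial (Fin 3) F) (MvPolynomial.X 2 ^ (h - i - j))
  omega

theorem hom3_smul (h : ℕ) (f : F[X][X]) (l : F) (v : Fin 3 → F) :
    MvPolynomial.eval (l • v) (hom3 h f) = l ^ h * MvPolynomial.eval v (hom3 h f) := by
  unfold hom3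
  simp only [map_sum, map_mul, map_pow, MvPolynomial.eval_C, MvPolynomial.eval_X, Finset.mul_sum,
    Pi.smul_apply, smul_eq_mul]
  apply Finset.sum_congr rfl
  intro j hj
  apply Finset.sum_congr rfl
  intro i hi
  rw [Finset.mem_range] at hj hi
  have hh : h = i + j + (h - i - j) := by omega
  have hl : l ^ h = l ^ i * l ^ j * l ^ (h - i - j) := by
    rw [← pow_add, ← pow_add, ← hh]
  rw [hl, mul_pow, mul_pow, mul_pow]
  ring

private lemma natDegree_outer {h : ℕ} {f : F[X][X]} (hf : TD h f) : f.natDegree < h + 1 := by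
  rw [Nat.lt_succ_iff, Polynomial.natDegree_le_iff_coeff_eq_zero]
  intro j hj
  ext i
  rw [hf i j (by omega), coeff_zero]

private lemma natDegree_inner {h : ℕ} {f : F[X][X]} (hf : TD h f) {j : ℕ} (_hj : j < h + 1) :
    (f.coeff j).natDegree < h + 1 - j := by
  have h1 : (f.coeff j).natDegree ≤ h - j := by
    rw [Polynomial.natDegree_le_iff_coeff_eq_zero]
    intro i hi
    exact hf i j (by omega)
  omega

theorem hom3_eval {h : ℕ} {f : F[X][X]} (hf : TD h f) (p s : F) :
    MvPolynomial.eval ![p, s, 1] (hom3 h f) = ev2 f p s := by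
  unfold hom3 ev2
  rw [Polynomial.eval_eq_sum_range' (natDegree_outer hf), Polynomial.eval_finsetSum, map_sum]
  apply Finset.sum_congr rfl
  intro j hj
  rw [Finset.mem_range] at hj
  rw [Polynomial.eval_mul, Polynomial.eval_pow, Polynomial.eval_C,
    Polynomial.eval_eq_sum_range' (natDegree_inner hf hj), map_sum, Finset.sum_mul]
  apply Finset.sum_congr rfl
  intro i hi
  simp only [map_mul, map_pow, MvPolynomial.eval_C, MvPolynomial.eval_X]
  simp

theorem hom3_eval_inf (h : ℕ) (f : F[X][X]) :
    MvPolynomial.eval ![1, 0, 0] (hom3 h f) = (f.coeff 0).coeff h := by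
  unfold hom3
  simp only [map_sum, map_mul, map_pow, MvPolynomial.eval_C, MvPolynomial.eval_X]
  rw [Finset.sum_eq_single 0]
  · rw [Finset.sum_eq_single h]
    · simp
    · intro i hi hih
      rw [Finset.mem_range] at hi
      have h1 : h - i - 0 ≠ 0 := by omega
      simp [h1]
      right
      omega
    · intro hcon
      exact absurd (Finset.mem_range.2 (by omega)) hcon
  · intro j _ hj0
    apply Finset.sum_eq_zero
    intro i _
    simp [hj0]
  · intro hcon
    exact absurd (Finset.mem_range.2 (by omega)) hcon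

theorem con_eval (f : F[X][X]) (t : F) : (con f).eval t = ev2 f (t ^ 2) (2 * t) := by
  unfold con ev2
  have h1 : (Polynomial.evalRingHom t) (f.eval₂ (Polynomial.compRingHom (X ^ 2)) (C 2 * X)) =
      f.eval₂ ((Polynomial.evalRingHom t).comp (Polynomial.compRingHom (X ^ 2)))
        (Polynomial.evalRingHom t (C 2 * X)) := Polynomial.hom_eval₂ _ _ _ _
  have h2 : (Polynomial.evalRingHom (t ^ 2)) (f.eval₂ (RingHom.id _) (C (2 * t))) =
      f.eval₂ ((Polynomial.evalRingHom (t ^ 2)).comp (RingHom.id _))
        (Polynomial.evalRingHom (t ^ 2) (C (2 * t))) := Polynomial.hom_eval₂ _ _ _ _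
  have h3 : (Polynomial.evalRingHom t).comp (Polynomial.compRingHom (X ^ 2)) =
      (Polynomial.evalRingHom (t ^ 2)).comp (RingHom.id F[X]) := by
    apply RingHom.ext
    intro q
    simp [Polynomial.eval_comp]
  have h4 : Polynomial.evalRingHom t (C 2 * X) = Polynomial.evalRingHom (t ^ 2) (C (2 * t)) := by
    simp
  rw [h3, h4, ← h2] at h1
  exact h1

private lemma con_eq_sum {h : ℕ} {f : F[X][X]} (hf : TD h f) :
    con f = ∑ j ∈ Finset.range (h + 1), (f.coeff j).comp (X ^ 2) * (C 2 * X) ^ j := by
  unfold con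
  rw [Polynomial.eval₂_eq_sum_range' _ (natDegree_outer hf)]
  rfl

private lemma con_term {h : ℕ} {f : F[X][X]} (hf : TD h f) {j : ℕ} (hj : j < h + 1) :
    ((f.coeff j).comp (X ^ 2) * (C 2 * X) ^ j : F[X]).natDegree ≤ 2 * h - j := by
  have h1 := natDegree_inner hf hj
  have h2 : ((f.coeff j).comp (X ^ 2 : F[X])).natDegree ≤ (f.coeff j).natDegree * 2 := by
    refine (Polynomial.natDegree_comp_le).trans ?_
    rw [Polynomial.natDegree_X_pow]
  have h3 : ((C 2 * X : F[X]) ^ j).natDegree ≤ j := by
    refine (Polynomial.natDegree_pow_le).trans ?_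
    have h4 : (C 2 * X : F[X]).natDegree ≤ 1 := by
      refine (Polynomial.natDegree_C_mul_le _ _).trans ?_
      exact Polynomial.natDegree_X_le
    nlinarith
  have h5 := Polynomial.natDegree_mul_le (p := (f.coeff j).comp (X ^ 2 : F[X])) (q := (C 2 * X : F[X]) ^ j)
  omega

theorem con_natDegree {h : ℕ} {f : F[X][X]} (hf : TD h f) : (con f).natDegree ≤ 2 * h := by
  rw [con_eq_sum hf]
  apply Polynomial.natDegree_sum_le_of_forall_le
  intro j hj
  rw [Finset.mem_range] at hj
  have := con_term hf hj
  omega

theorem con_coeff {h : ℕ} {f : F[X][X]} (hf : TD h f) : (con f).coeff (2 * h) = (f.coeff 0).coeff h := by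
  rw [con_eq_sum hf, Polynomial.finsetSum_coeff, Finset.sum_eq_single 0]
  · rw [pow_zero, mul_one, ← Polynomial.expand_eq_comp_X_pow]
    rw [Polynomial.coeff_expand (by norm_num)]
    simp
  · intro j hj hj0
    rw [Finset.mem_range] at hj
    apply Polynomial.coeff_eq_zero_of_natDegree_lt
    have := con_term hf hj
    omega
  · intro hcon
    exact absurd (Finset.mem_range.2 (by omega)) hcon

private lemma div_exists (h : ℕ) : ∀ (m : ℕ) (f : F[X][X]), f.natDegree ≤ m → TD h f →
    ∃ (g : F[X][X]) (r0 r1 : F[X]), TD (h - 2) g ∧ (h < 2 → g = 0) ∧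
      f = (X ^ 2 - C (C 4 * X)) * g + C r0 + C r1 * X := by
  intro m
  induction m using Nat.strong_induction_on with
  | _ m ih =>
    intro f hfm hf
    by_cases hd : f.natDegree ≤ 1
    · refine ⟨0, f.coeff 0, f.coeff 1, ?_, fun _ => rfl, ?_⟩
      · intro i j _
        simp
      · have := Polynomial.eq_X_add_C_of_natDegree_le_one hd
        rw [mul_zero, zero_add, add_comm]
        exact this
    · push Not at hd
      have hh2 : 2 ≤ h := by
        have := natDegree_outer hf
        omega
      set f2 : F[X][X] := f.divX.divX with hf2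
      have hf2c : ∀ j, f2.coeff j = f.coeff (j + 2) := by
        intro j
        rw [hf2, Polynomial.coeff_divX, Polynomial.coeff_divX]
      have hfdec : f = C (f.coeff 0) + C (f.coeff 1) * X + X ^ 2 * f2 := by
        have e1 := Polynomial.divX_mul_X_add f
        have e2 := Polynomial.divX_mul_X_add f.divX
        rw [Polynomial.coeff_divX, zero_add] at e2
        calc f = f.divX * X + C (f.coeff 0) := e1.symm
          _ = (f.divX.divX * X + C (f.coeff 1)) * X + C (f.coeff 0) := by rw [e2]
          _ = C (f.coeff 0) + C (f.coeff 1) * X + X ^ 2 * f2 := by rw [hf2]; ring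
      set f' : F[X][X] := C (f.coeff 0) + C (f.coeff 1) * X + C (C 4 * X) * f2 with hf'
      have hTD2 : TD (h - 2) f2 := by
        intro i j hij
        rw [hf2c]
        exact hf i (j + 2) (by omega)
      have hcf' : ∀ j, f'.coeff j = (C (f.coeff 0) : F[X][X]).coeff j +
          (C (f.coeff 1) * X : F[X][X]).coeff j + (C 4 * X) * f2.coeff j := by
        intro j
        rw [hf', Polynomial.coeff_add, Polynomial.coeff_add]
        congr 1
        exact Polynomial.coeff_C_mul _
      have hTD' : TD h f' := by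
        intro i j hij
        rw [hcf', Polynomial.coeff_add, Polynomial.coeff_add]
        have t1 : ((C (f.coeff 0) : F[X][X]).coeff j).coeff i = 0 := by
          rw [Polynomial.coeff_C]
          split_ifs with hj
          · subst hj
            exact hf i 0 hij
          · simp
        have t2 : ((C (f.coeff 1) * X : F[X][X]).coeff j).coeff i = 0 := by
          rw [Polynomial.coeff_C_mul, Polynomial.coeff_X]
          split_ifs with hj
          · rw [mul_one]
            subst hj
            exact hf i 1 hij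
          · simp
        have t3 : ((C 4 * X) * f2.coeff j : F[X]).coeff i = 0 := by
          rw [mul_assoc, Polynomial.coeff_C_mul]
          rcases i with _ | i
          · simp
          · rw [Polynomial.coeff_X_mul, hTD2 i j (by omega), mul_zero]
        rw [t1, t2, t3]
        ring
      have hnd : f'.natDegree < m := by
        have h3 : f'.natDegree ≤ m - 1 := by
          rw [Polynomial.natDegree_le_iff_coeff_eq_zero]
          intro j hj
          have hj2 : 2 ≤ j := by omega
          rw [hcf', Polynomial.coeff_C, Polynomial.coeff_C_mul, Polynomial.coeff_X]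
          have hj0 : j ≠ 0 := by omega
          have hj1 : (1:ℕ) ≠ j := by omega
          have h4 : f2.coeff j = 0 := by
            rw [hf2c]
            apply Polynomial.coeff_eq_zero_of_natDegree_lt
            omega
          rw [h4]
          simp [hj0, hj1]
        omega
      obtain ⟨g', r0, r1, hg', _, heq⟩ := ih f'.natDegree hnd f' le_rfl hTD'
      refine ⟨f2 + g', r0, r1, ?_, fun hlt => absurd hlt (by omega), ?_⟩
      · intro i j hij
        rw [Polynomial.coeff_add, Polynomial.coeff_add, hTD2 i j hij, hg' i j hij, add_zero]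
      · have h5 : f = (X ^ 2 - C (C 4 * X)) * f2 + f' := by
          rw [hf']
          conv_lhs => rw [hfdec]
          ring
        rw [h5, heq]
        ring

private lemma con_add (f g : F[X][X]) : con (f + g) = con f + con g := by
  unfold con
  exact Polynomial.eval₂_add _ _

private lemma con_mul (f g : F[X][X]) : con (f * g) = con f * con g := by
  unfold con
  exact Polynomial.eval₂_mul _ _

private lemma con_C (r : F[X]) : con (C r) = r.comp (X ^ 2) := by
  unfold con
  rw [Polynomial.eval₂_C]
  rfl

private lemma con_X : con (X : F[X][X]) = C 2 * X := by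
  unfold con
  rw [Polynomial.eval₂_X]

private lemma con_conic : con (X ^ 2 - C (C 4 * X) : F[X][X]) = 0 := by
  unfold con
  rw [Polynomial.eval₂_sub, Polynomial.eval₂_pow, Polynomial.eval₂_X, Polynomial.eval₂_C]
  rw [Polynomial.coe_compRingHom_apply, Polynomial.mul_comp, Polynomial.C_comp, Polynomial.X_comp, mul_pow,
    ← Polynomial.C_pow]
  norm_num

/-- If `con f = 0` then `f = (Y ^ 2 - 4 X) g` with `g` of total degree at most `h - 2` (and `f = 0` if `h < 2`).
Write `f = ∑ f_j Y ^ j` and put `g_j = ∑ k, (4 X) ^ k f_(j + 2 + 2 k)` (a finite sum); then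
`f = (Y ^ 2 - 4 X) g + r_0 + r_1 Y` with `r_0 = f_0 + 4 X g_0` and `r_1 = f_1 + 4 X g_1` in `F[X]`, and
`con f = r_0(X ^ 2) + 2 X r_1(X ^ 2) = 0` implies `r_0 = r_1 = 0` (even and odd part, `2 ≠ 0`). For `h < 2` all `g_j`
are zero. (Or: division with remainder by the monic polynomial `Y ^ 2 - 4 X`.) -/
theorem div_conic (h2 : (2 : F) ≠ 0) {h : ℕ} {f : F[X][X]} (hf : TD h f) (h0 : con f = 0) :
    f = 0 ∨ (2 ≤ h ∧ ∃ g : F[X][X], TD (h - 2) g ∧ f = (X ^ 2 - C (C 4 * X)) * g) := by
  obtain ⟨g, r0, r1, hg, hg0, hfg⟩ := div_exists h f.natDegree f le_rfl hf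
  have h1 : r0.comp (X ^ 2) + r1.comp (X ^ 2) * (C 2 * X) = 0 := by
    have h3 : con f = con (X ^ 2 - C (C 4 * X) : F[X][X]) * con g + con (C r0) + con (C r1) * con X := by
      conv_lhs => rw [hfg]
      rw [con_add, con_add, con_mul, con_mul]
    rw [h0, con_conic, zero_mul, zero_add, con_C, con_C, con_X] at h3
    exact h3.symm
  have hexp : ∀ r : F[X], r.comp (X ^ 2) = Polynomial.expand F 2 r := fun r =>
    (Polynomial.expand_eq_comp_X_pow 2).symm
  rw [hexp, hexp] at h1
  have hr0 : r0 = 0 := by
    ext i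
    have h4 := congrArg (fun q : F[X] => q.coeff (2 * i)) h1
    simp only [Polynomial.coeff_add, Polynomial.coeff_zero] at h4
    have h5 : (Polynomial.expand F 2 r0).coeff (2 * i) = r0.coeff i := by
      rw [Polynomial.coeff_expand (by norm_num)]
      simp
    have h6 : (Polynomial.expand F 2 r1 * (C 2 * X)).coeff (2 * i) = 0 := by
      rcases i with _ | i
      · simp [Polynomial.mul_coeff_zero]
      · have h7 : Polynomial.expand F 2 r1 * (C 2 * X) = C 2 * (Polynomial.expand F 2 r1 * X) := by ring
        have h8 : 2 * (i + 1) = (2 * i + 1) + 1 := by ring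
        rw [h7, h8, Polynomial.coeff_C_mul, Polynomial.coeff_mul_X, Polynomial.coeff_expand (by norm_num)]
        have h9 : ¬ 2 ∣ 2 * i + 1 := by omega
        simp [h9]
    rw [h5, h6, add_zero] at h4
    rw [h4, coeff_zero]
  have hr1 : r1 = 0 := by
    rw [hr0, map_zero, zero_add] at h1
    ext i
    have h7 : Polynomial.expand F 2 r1 * (C 2 * X) = C 2 * (Polynomial.expand F 2 r1 * X) := by ring
    rw [h7] at h1
    have h4 := congrArg (fun q : F[X] => q.coeff (2 * i + 1)) h1
    simp only [Polynomial.coeff_zero] at h4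
    rw [Polynomial.coeff_C_mul, Polynomial.coeff_mul_X, Polynomial.coeff_expand (by norm_num)] at h4
    simp only [dvd_mul_right, if_true] at h4
    rw [Nat.mul_div_cancel_left _ (by norm_num)] at h4
    rw [coeff_zero]
    exact (mul_eq_zero.1 h4).resolve_left h2
  rw [hr0, hr1] at hfg
  simp only [map_zero, zero_mul, add_zero] at hfg
  by_cases hh : h < 2
  · left
    rw [hfg, hg0 hh, mul_zero]
  · right
    exact ⟨by omega, g, hg, hfg⟩

end Pool.Agent.SpreadN
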