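import Pool.Agent.Lib_MP_9e452d_n.NCBa

/-!
# Piece NCBb: dimension count, and lines through pairs of points of the conic
-/

set_option autoImplicit false

namespace Pool.Agent.SpreadN

open Polynomial

variable {F : Type*} [Field F]

private theorem ncbb_card (h : ℕ) :
    2 * ∑ j ∈ Finset.range (h + 1), (h + 1 - j) = (h + 1) * (h + 2) := by
  induction h with
  | zero => simp
  | succ h ih =>
    rw [Finset.sum_range_succ']
    have e : ∀ j ∈ Finset.range (h + 1), h + 1 + 1 - (j + 1) = h + 1 - j := by
      intro j _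
      omega
    rw [Finset.sum_congr rfl e, mul_add, ih]
    simp only [Nat.sub_zero]
    ring

/-- The `(h + 1) (h + 2) / 2`-dimensional space of the `f` with `TD h f` (coefficient functions on the pairs
`(i, j)` with `i + j ≤ h`) is mapped injectively to the functions on `T`. -/
theorem inj_count (T : Finset (F × F)) (h : ℕ)
    (hinj : ∀ f : F[X][X], TD h f → (∀ p ∈ T, ev2 f p.1 p.2 = 0) → f = 0) : (h + 1) * (h + 2) ≤ 2 * T.card := by
  classical
  let D : Finset (Σ _ : ℕ, ℕ) := (Finset.range (h + 1)).sigma (fun j => Finset.range (h + 1 - j))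
  let φ : (D → F) →ₗ[F] (T → F) :=
    { toFun := fun c p => ∑ d : D, c d * (p.1.1 ^ d.1.2 * p.1.2 ^ d.1.1)
      map_add' := fun c c' => by
        funext p
        simp only [Pi.add_apply, add_mul, Finset.sum_add_distrib]
      map_smul' := fun a c => by
        funext p
        simp only [Pi.smul_apply, smul_eq_mul, RingHom.id_apply, Finset.mul_sum, mul_assoc] }
  have hφ : Function.Injective φ := by
    rw [← LinearMap.ker_eq_bot, LinearMap.ker_eq_bot']
    intro c hc
    let f : F[X][X] := ∑ d : D, monomial d.1.1 (monomial d.1.2 (c d))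
    have hco : ∀ i j : ℕ, (f.coeff j).coeff i =
        ∑ d : D, if d.1.1 = j then (if d.1.2 = i then c d else 0) else 0 := by
      intro i j
      simp only [f, finsetSum_coeff]
      refine Finset.sum_congr rfl (fun d _ => ?_)
      rw [coeff_monomial]
      by_cases h1 : d.1.1 = j
      · rw [if_pos h1, if_pos h1, coeff_monomial]
      · rw [if_neg h1, if_neg h1, coeff_zero]
    have hTD : TD h f := by
      intro i j hij
      rw [hco]
      refine Finset.sum_eq_zero (fun d _ => ?_)
      by_cases h1 : d.1.1 = j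
      · by_cases h2 : d.1.2 = i
        · exfalso
          have hd := Finset.mem_sigma.1 d.2
          have h3 := Finset.mem_range.1 hd.1
          have h4 := Finset.mem_range.1 hd.2
          omega
        · rw [if_pos h1, if_neg h2]
      · rw [if_neg h1]
    have hev : ∀ p s : F, ev2 f p s = ∑ d : D, c d * (p ^ d.1.2 * s ^ d.1.1) := by
      intro p s
      unfold ev2
      simp only [f, eval_finsetSum, eval_monomial, eval_mul, eval_pow, eval_C]
      refine Finset.sum_congr rfl (fun d _ => by ring)
    have hf0 : f = 0 := hinj f hTD (fun p hp => by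
      rw [hev]
      exact congrFun hc ⟨p, hp⟩)
    funext d
    have h5 := hco d.1.2 d.1.1
    rw [hf0, coeff_zero, coeff_zero, Finset.sum_eq_single d] at h5
    · rw [if_pos rfl, if_pos rfl] at h5
      exact h5.symm
    · intro d' _ hne
      by_cases h1 : d'.1.1 = d.1.1
      · by_cases h2 : d'.1.2 = d.1.2
        · exact absurd (Subtype.ext (Sigma.ext h1 (heq_of_eq h2))) hne
        · rw [if_pos h1, if_neg h2]
      · rw [if_neg h1]
    · intro h6
      exact absurd (Finset.mem_univ d) h6
  have h1 := LinearMap.finrank_le_finrank_of_injective hφ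
  rw [Module.finrank_fintype_fun_eq_card, Module.finrank_fintype_fun_eq_card, Fintype.card_coe,
    Fintype.card_coe] at h1
  have h2 : 2 * D.card = (h + 1) * (h + 2) := by
    simp only [D, Finset.card_sigma, Finset.card_range]
    exact ncbb_card h
  omega

/-- the points of the conic, as vectors -/
def cv : Option F → (Fin 3 → F)
  | none => ![1, 0, 0]
  | some t => ![t ^ 2, 2 * t, 1]

/-- the bilinear pairing -/
def dot (w v : Fin 3 → F) : F := w 0 * v 0 + w 1 * v 1 + w 2 * v 2

private theorem dot_none (w : Fin 3 → F) : dot w (cv none) = w 0 := by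
  simp [dot, cv]

private theorem dot_some (w : Fin 3 → F) (t : F) : dot w (cv (some t)) = w 0 * t ^ 2 + w 1 * (2 * t) + w 2 := by
  simp [dot, cv]

/-- Two (or fewer) points of the conic are on a line which does not contain a third point of the conic
(cross product of `cv o1`, `cv o2`; Vandermonde determinant). -/
theorem exists_line (h2 : (2 : F) ≠ 0) (o o1 o2 : Option F) (h1 : o1 ≠ o) (h2' : o2 ≠ o) :
    ∃ w : Fin 3 → F, dot w (cv o) ≠ 0 ∧ dot w (cv o1) = 0 ∧ dot w (cv o2) = 0 := by
  rcases o1 with _ | a <;> rcases o2 with _ | b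
  · -- none none
    refine ⟨![0, 0, 1], ?_, ?_, ?_⟩
    · rcases o with _ | t
      · exact absurd rfl h1
      · rw [dot_some]; simp
    · rw [dot_none]; simp
    · rw [dot_none]; simp
  · -- none, some b
    refine ⟨![0, 1 / 2, -b], ?_, ?_, ?_⟩
    · rcases o with _ | t
      · exact absurd rfl h1
      · have hb : t ≠ b := fun h => h2' (by rw [h])
        rw [dot_some]
        have : (![0, 1 / 2, -b] : Fin 3 → F) 0 * t ^ 2 + (![0, 1 / 2, -b] : Fin 3 → F) 1 * (2 * t) +
            (![0, 1 / 2, -b] : Fin 3 → F) 2 = t - b := by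
          simp
          field_simp
          ring
        rw [this]
        exact sub_ne_zero.2 hb
    · rw [dot_none]; simp
    · rw [dot_some]
      simp
      field_simp
      ring
  · -- some a, none
    refine ⟨![0, 1 / 2, -a], ?_, ?_, ?_⟩
    · rcases o with _ | t
      · exact absurd rfl h2'
      · have hb : t ≠ a := fun h => h1 (by rw [h])
        rw [dot_some]
        have : (![0, 1 / 2, -a] : Fin 3 → F) 0 * t ^ 2 + (![0, 1 / 2, -a] : Fin 3 → F) 1 * (2 * t) +
            (![0, 1 / 2, -a] : Fin 3 → F) 2 = t - a := by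
          simp
          field_simp
          ring
        rw [this]
        exact sub_ne_zero.2 hb
    · rw [dot_some]
      simp
      field_simp
      ring
    · rw [dot_none]; simp
  · -- some a, some b
    have hd : ∀ t : F, dot ![1, -(a + b) / 2, a * b] (cv (some t)) = (t - a) * (t - b) := by
      intro t
      rw [dot_some]
      simp
      field_simp
      ring
    refine ⟨![1, -(a + b) / 2, a * b], ?_, ?_, ?_⟩
    · rcases o with _ | t
      · rw [dot_none]; simp
      · rw [hd]
        exact mul_ne_zero (sub_ne_zero.2 (fun h => h1 (by rw [h]))) (sub_ne_zero.2 (fun h => h2' (by rw [h])))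
    · rw [hd]; simp
    · rw [hd]; simp

/-- induction on `k`, with `exists_line` for two points of `S` -/
theorem exists_lines [DecidableEq F] (h2 : (2 : F) ≠ 0) (o : Option F) (k : ℕ) (S : Finset (Option F)) (ho : o ∉ S)
    (hk : S.card ≤ 2 * k) : ∃ w : Fin k → (Fin 3 → F), (∀ i, dot (w i) (cv o) ≠ 0) ∧
      ∀ o' ∈ S, ∃ i, dot (w i) (cv o') = 0 := by
  induction k generalizing S with
  | zero =>
    have hS : S = ∅ := Finset.card_eq_zero.1 (by omega)
    refine ⟨fun _ => 0, fun i => i.elim0, fun o' ho' => ?_⟩
    rw [hS] at ho'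
    exact absurd ho' (Finset.notMem_empty _)
  | succ k ih =>
    obtain ⟨o1, o2, h1, h2', hc⟩ : ∃ o1 o2 : Option F, o1 ≠ o ∧ o2 ≠ o ∧ ((S.erase o1).erase o2).card ≤ 2 * k := by
      rcases S.eq_empty_or_nonempty with hS | ⟨o1, ho1⟩
      · have hx : ∃ x : Option F, x ≠ o := by
          rcases o with _ | t
          · exact ⟨some 0, by simp⟩
          · exact ⟨none, by simp⟩
        obtain ⟨x, hx⟩ := hx
        refine ⟨x, x, hx, hx, ?_⟩
        rw [hS]
        simp
      · have h1 : o1 ≠ o := fun h => ho (h ▸ ho1)
        have hc1 := Finset.card_erase_of_mem ho1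
        rcases (S.erase o1).eq_empty_or_nonempty with hS1 | ⟨o2, ho2⟩
        · refine ⟨o1, o1, h1, h1, ?_⟩
          rw [hS1]
          simp
        · have h2' : o2 ≠ o := fun h => ho (h ▸ Finset.mem_of_mem_erase ho2)
          have hc2 := Finset.card_erase_of_mem ho2
          refine ⟨o1, o2, h1, h2', ?_⟩
          omega
    obtain ⟨w0, hw0, hw1, hw2⟩ := exists_line h2 o o1 o2 h1 h2'
    obtain ⟨w, hw, hwS⟩ := ih ((S.erase o1).erase o2)
      (fun h => ho (Finset.mem_of_mem_erase (Finset.mem_of_mem_erase h))) hc
    refine ⟨Fin.cons w0 w, fun i => ?_, fun o' ho' => ?_⟩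
    · refine Fin.cases ?_ (fun i => ?_) i
      · rw [Fin.cons_zero]; exact hw0
      · rw [Fin.cons_succ]; exact hw i
    · by_cases he1 : o' = o1
      · exact ⟨0, by rw [Fin.cons_zero, he1]; exact hw1⟩
      · by_cases he2 : o' = o2
        · exact ⟨0, by rw [Fin.cons_zero, he2]; exact hw2⟩
        · obtain ⟨i, hi⟩ := hwS o' (Finset.mem_erase.2 ⟨he2, Finset.mem_erase.2 ⟨he1, ho'⟩⟩)
          exact ⟨i.succ, by rw [Fin.cons_succ]; exact hi⟩

end Pool.Agent.SpreadN
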