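import Pool.Agent.Lib_MP_9e452d_n.NCBb

/-!
# Piece NCBc: the Chevalley-Warning argument
-/

set_option autoImplicit false

namespace Pool.Agent.SpreadN

open Polynomial

variable {F : Type*} [Field F] [Fintype F] [DecidableEq F]

/-- the points of the projective line that are not fixed by any element of `A` (`∞ = none` is one) -/
def fG (A : Finset (F × F)) : Finset (Option F) :=
  insert none ((Finset.univ.filter (fun s : F => ∀ a ∈ A, s ^ 2 + 2 * a.1 * s + a.2 ≠ 0)).image some)

theorem fG_card (A : Finset (F × F)) : (fG A).card = fz A + 1 := by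
  unfold fG fz
  rw [Finset.card_insert_of_notMem, Finset.card_image_of_injective _ (Option.some_injective F)]
  intro h
  rw [Finset.mem_image] at h
  obtain ⟨s, _, hs⟩ := h
  exact absurd hs (by simp)

/-- a linear form as a polynomial -/
private noncomputable def lf (w : Fin 3 → F) : MvPolynomial (Fin 3) F :=
  MvPolynomial.C (w 0) * MvPolynomial.X 0 + MvPolynomial.C (w 1) * MvPolynomial.X 1 +
    MvPolynomial.C (w 2) * MvPolynomial.X 2

omit [Fintype F] [DecidableEq F] in
private theorem lf_eval (w v : Fin 3 → F) : MvPolynomial.eval v (lf w) = dot w v := by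
  simp [lf, dot]

omit [Fintype F] [DecidableEq F] in
private theorem lf_deg (w : Fin 3 → F) : (lf w).totalDegree ≤ 1 := by
  have hx : ∀ (a : F) (j : Fin 3), (MvPolynomial.C a * MvPolynomial.X j : MvPolynomial (Fin 3) F).totalDegree ≤ 1 := by
    intro a j
    refine (MvPolynomial.totalDegree_mul _ _).trans ?_
    rw [MvPolynomial.totalDegree_C, MvPolynomial.totalDegree_X]
  exact (MvPolynomial.totalDegree_add _ _).trans (max_le ((MvPolynomial.totalDegree_add _ _).trans
      (max_le (hx _ _) (hx _ _))) (hx _ _))

omit [Fintype F] [DecidableEq F] in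
private theorem dot_smul' (w v : Fin 3 → F) (l : F) : dot w (l • v) = l * dot w v := by
  simp only [dot, Pi.smul_apply, smul_eq_mul]
  ring

omit [Fintype F] [DecidableEq F] in
private theorem dot_vec (a b c : F) (v : Fin 3 → F) : dot ![a, b, c] v = a * v 0 + b * v 1 + c * v 2 := by
  simp [dot]

omit [Fintype F] [DecidableEq F] in
private theorem cv_ne (o : Option F) : cv o ≠ 0 := by
  intro h
  rcases o with _ | t
  · have := congrFun h 0
    simp [cv] at this
  · have := congrFun h 2
    simp [cv] at this

/-- Let `S` be the set of the `s : F` fixed by some element of `A` (so `S.card + fz A = q`), and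
`G(v) = ∏ a ∈ A, (v 0 + B v 1 + C v 2) * ∏ s ∈ S, (v 0 - s v 1 + s ^ 2 v 2) * H(v)`, of total degree at most
`(q - 2) + (q - fz A) + fz A = 2 q - 2 < 3 (q - 1)`, so `∑ v, G(v) = 0` (`MvPolynomial.sum_eval_eq_zero`; see
`core` in `Lib_MP_9e452d/Core.lean` for the same argument) and `G(l v) = l ^ (2 q - 2) G(v) = G(v)` for `l ≠ 0`.
`G(v) = 0` unless `v` is a nonzero multiple of `cv o`:
* `v = 0`: the first product (`q - 2 ≥ 1` factors) vanishes.
* `v 2 ≠ 0`: let `v = l ![p, s, 1]`. If `s ^ 2 - 4 p` is not a square, put `b = -s/2`, `c = p` (`b ^ 2 - c` is not a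
  square): either `(b, c) ∈ fT A` and `H(v) = 0`, or some `a ∈ A` has `p + B s + C = 0`. If
  `s ^ 2 - 4 p = 0` then `v = l cv (some t)` with `t = s / 2`: if `t` is fixed, the second product vanishes,
  otherwise `some t ∈ fG A`, and either it is `o` or `H(v) = 0` by `hoth`. If `s ^ 2 - 4 p` is a nonzero square then
  `p = t1 t2`, `s = t1 + t2` with `t1 ≠ t2`: if one of them is fixed the second product vanishes, otherwise `ext`.
* `v 2 = 0`, `v 1 ≠ 0`: `v = l ![s, 1, 0]`; if `s` is fixed the second product vanishes, otherwise `extinf`.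
* `v = l ![1, 0, 0] = l cv none`.
So `0 = ∑ v, G(v) = (q - 1) G(cv o) = - G(cv o)`, and both products do not vanish at `cv o` (`o ∈ fG A`:
`v 0 + B v 1 + C v 2 = t ^ 2 + 2 B t + C ≠ 0`, `v 0 - s v 1 + s ^ 2 v 2 = (t - s) ^ 2 ≠ 0`; at `none` all factors
are `1`), so `H(cv o) = 0`. -/
theorem cw1 {A : Finset (F × F)} (hA : FCov A) (H : MvPolynomial (Fin 3) F) (hdeg : H.totalDegree ≤ fz A)
    (hhom : ∀ (l : F) (v : Fin 3 → F), MvPolynomial.eval (l • v) H = l ^ (fz A) * MvPolynomial.eval v H)
    (hT : ∀ p ∈ fT A, MvPolynomial.eval ![p.2, -2 * p.1, 1] H = 0) (o : Option F) (ho : o ∈ fG A)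
    (hoth : ∀ o' ∈ fG A, o' ≠ o → MvPolynomial.eval (cv o') H = 0) : MvPolynomial.eval (cv o) H = 0 := by
  classical
  have h2 : (2 : F) ≠ 0 := Ring.two_ne_zero hA.two
  set q := Fintype.card F with hq
  have hq3 : 3 ≤ q := by
    have h3 := FiniteField.odd_card_of_char_ne_two hA.two
    have h4 : 1 < Fintype.card F := Fintype.one_lt_card
    rw [← hq] at h3 h4
    omega
  have hAc : A.card + 2 = q := hA.card
  set Z := Finset.univ.filter (fun s : F => ∀ a ∈ A, s ^ 2 + 2 * a.1 * s + a.2 ≠ 0) with hZ
  have hfz : fz A = Z.card := rfl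
  set S := Finset.univ.filter (fun s : F => ¬ ∀ a ∈ A, s ^ 2 + 2 * a.1 * s + a.2 ≠ 0) with hS
  have hSZ : Z.card + S.card = q := by
    rw [hZ, hS, Finset.card_filter_add_card_filter_not, Finset.card_univ]
  have hZm : ∀ t, t ∈ Z ↔ ∀ a ∈ A, t ^ 2 + 2 * a.1 * t + a.2 ≠ 0 := by
    intro t
    rw [hZ, Finset.mem_filter]
    exact ⟨fun h => h.2, fun h => ⟨Finset.mem_univ _, h⟩⟩
  have hSm : ∀ t, t ∉ Z → t ∈ S := by
    intro t ht
    rw [hS, Finset.mem_filter]
    exact ⟨Finset.mem_univ _, fun h => ht ((hZm t).2 h)⟩
  have hSZ' : ∀ t, t ∈ S → t ∉ Z := by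
    intro t ht h
    rw [hS, Finset.mem_filter] at ht
    exact ht.2 ((hZm t).1 h)
  have hGm : ∀ t, t ∈ Z → some t ∈ fG A := by
    intro t ht
    unfold fG
    exact Finset.mem_insert_of_mem (Finset.mem_image_of_mem _ ht)
  have hGn : (none : Option F) ∈ fG A := Finset.mem_insert_self _ _
  have hGi : ∀ t, some t ∈ fG A → t ∈ Z := by
    intro t ht
    unfold fG at ht
    rcases Finset.mem_insert.1 ht with h | h
    · exact absurd h (by simp)
    · obtain ⟨s, hs, hst⟩ := Finset.mem_image.1 h
      rw [← Option.some_injective F hst]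
      exact hs
  -- the polynomial
  set f : MvPolynomial (Fin 3) F := ((∏ a ∈ A, lf ![1, a.1, a.2]) * (∏ s ∈ S, lf ![1, -s, s ^ 2])) * H with hf
  have hfdeg : f.totalDegree ≤ 2 * (q - 1) := by
    have h3 : (∏ a ∈ A, lf ![1, a.1, a.2]).totalDegree ≤ A.card := by
      refine (MvPolynomial.totalDegree_finsetProd _ _).trans ?_
      refine (Finset.sum_le_card_nsmul _ _ 1 (fun i _ => lf_deg _)).trans ?_
      rw [smul_eq_mul, mul_one]
    have h4 : (∏ s ∈ S, lf ![1, -s, s ^ 2]).totalDegree ≤ S.card := by
      refine (MvPolynomial.totalDegree_finsetProd _ _).trans ?_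
      refine (Finset.sum_le_card_nsmul _ _ 1 (fun i _ => lf_deg _)).trans ?_
      rw [smul_eq_mul, mul_one]
    have h6 := MvPolynomial.totalDegree_mul ((∏ a ∈ A, lf ![1, a.1, a.2]) * (∏ s ∈ S, lf ![1, -s, s ^ 2])) H
    have h7 := MvPolynomial.totalDegree_mul (∏ a ∈ A, lf ![1, a.1, a.2]) (∏ s ∈ S, lf ![1, -s, s ^ 2])
    rw [← hf] at h6
    omega
  have hsum0 : ∑ z : Fin 3 → F, MvPolynomial.eval z f = 0 := by
    apply MvPolynomial.sum_eval_eq_zero
    rw [Fintype.card_fin]
    omega
  have heval : ∀ z, MvPolynomial.eval z f =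
      ((∏ a ∈ A, dot ![1, a.1, a.2] z) * (∏ s ∈ S, dot ![1, -s, s ^ 2] z)) * MvPolynomial.eval z H := by
    intro z
    rw [hf, map_mul, map_mul, map_prod, map_prod]
    simp only [lf_eval]
  have hmul : ∀ (l : F) (v : Fin 3 → F), l ≠ 0 → MvPolynomial.eval (l • v) f = MvPolynomial.eval v f := by
    intro l v hl0
    rw [heval, heval, hhom]
    simp only [dot_smul', Finset.prod_mul_distrib, Finset.prod_const]
    have h3 : l ^ (2 * (q - 1)) = 1 := by
      rw [mul_comm, pow_mul, hq, FiniteField.pow_card_sub_one_eq_one l hl0, one_pow]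
    have h4 : l ^ (2 * (q - 1)) = l ^ A.card * l ^ S.card * l ^ fz A := by
      rw [← pow_add, ← pow_add]
      congr 1
      omega
    calc _ = (l ^ A.card * l ^ S.card * l ^ fz A) * (((∏ a ∈ A, dot ![1, a.1, a.2] v) *
          (∏ s ∈ S, dot ![1, -s, s ^ 2] v)) * MvPolynomial.eval v H) := by ring
      _ = _ := by rw [← h4, h3, one_mul]
  have hz1 : ∀ z, (∃ a ∈ A, dot ![1, a.1, a.2] z = 0) → MvPolynomial.eval z f = 0 := by
    rintro z ⟨a, ha, h⟩
    rw [heval, Finset.prod_eq_zero ha h]
    ring
  have hz2 : ∀ z, (∃ s ∈ S, dot ![1, -s, s ^ 2] z = 0) → MvPolynomial.eval z f = 0 := by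
    rintro z ⟨s, hs, h⟩
    rw [heval, Finset.prod_eq_zero hs h]
    ring
  have hz3 : ∀ z, MvPolynomial.eval z H = 0 → MvPolynomial.eval z f = 0 := by
    intro z h
    rw [heval, h, mul_zero]
  have hco : ∀ o', o' ≠ o → (∀ t, o' = some t → t ∈ Z) → MvPolynomial.eval (cv o') f = 0 := by
    intro o' hne ht
    apply hz3
    apply hoth o' _ hne
    rcases o' with _ | t
    · exact hGn
    · exact hGm t (ht t rfl)
  -- normalised points
  have hn1 : ∀ p s : F, ¬ (∃ t : F, ![p, s, 1] = cv (some t) ∧ some t = o) → MvPolynomial.eval ![p, s, 1] f = 0 := by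
    intro p s hno
    by_cases hsq : IsSquare (s ^ 2 - 4 * p)
    · obtain ⟨r, hr⟩ := hsq
      have e1 : p = ((s + r) / 2) * ((s - r) / 2) := by
        field_simp
        linear_combination -hr
      have e2 : s = (s + r) / 2 + (s - r) / 2 := by
        field_simp
        ring
      set t1 := (s + r) / 2 with ht1
      set t2 := (s - r) / 2 with ht2
      by_cases hm1 : t1 ∈ Z
      · by_cases hm2 : t2 ∈ Z
        · by_cases hne : t1 = t2
          · have e3 : ![p, s, 1] = cv (some t1) := by
              rw [← hne] at e1 e2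
              funext i
              fin_cases i
              · simp only [cv, Fin.zero_eta, Matrix.cons_val_zero]
                rw [e1]; ring
              · simp only [cv, Fin.mk_one, Matrix.cons_val_one, Matrix.cons_val_zero]
                linear_combination e2
              · simp [cv]
            rw [e3]
            apply hco
            · intro h
              exact hno ⟨t1, e3, h⟩
            · intro t ht
              rw [← Option.some_injective F ht]
              exact hm1
          · obtain ⟨a, ha, hh⟩ := hA.ext t1 t2 hne ((hZm t1).1 hm1) ((hZm t2).1 hm2)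
            apply hz1
            refine ⟨a, ha, ?_⟩
            rw [dot_vec]
            simp only [Matrix.cons_val_zero, Matrix.cons_val_one, Matrix.cons_val]
            rw [← e1, ← e2] at hh
            linear_combination hh
        · apply hz2
          refine ⟨t2, hSm _ hm2, ?_⟩
          rw [dot_vec]
          simp only [Matrix.cons_val_zero, Matrix.cons_val_one, Matrix.cons_val]
          linear_combination e1 - t2 * e2
      · apply hz2
        refine ⟨t1, hSm _ hm1, ?_⟩
        rw [dot_vec]
        simp only [Matrix.cons_val_zero, Matrix.cons_val_one, Matrix.cons_val]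
        linear_combination e1 - t1 * e2
    · by_cases hex : ∃ a ∈ A, dot ![1, a.1, a.2] ![p, s, 1] = 0
      · exact hz1 _ hex
      · push Not at hex
        have hns : ¬ IsSquare ((-s / 2) ^ 2 - p) := by
          rintro ⟨r, hr⟩
          apply hsq
          refine ⟨2 * r, ?_⟩
          have e0 : (-s / 2) ^ 2 * 4 = s ^ 2 := by
            field_simp
            ring
          linear_combination 4 * hr - e0
        have hmem : (-s / 2, p) ∈ fT A := by
          unfold fT
          rw [Finset.mem_filter]
          refine ⟨Finset.mem_univ _, hns, ?_⟩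
          intro a ha h
          apply hex a ha
          rw [dot_vec]
          simp only [Matrix.cons_val_zero, Matrix.cons_val_one, Matrix.cons_val]
          have e0 : 2 * a.1 * (-s / 2) = - (a.1 * s) := by
            field_simp
          rw [e0] at h
          linear_combination h
        have h5 := hT _ hmem
        apply hz3
        have e0 : -2 * (-s / 2) = s := by
          field_simp
        simp only [e0] at h5
        exact h5
  have hn2 : ∀ s : F, MvPolynomial.eval ![s, 1, 0] f = 0 := by
    intro s
    by_cases hm : s ∈ Z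
    · obtain ⟨a, ha, hh⟩ := hA.extinf s ((hZm s).1 hm)
      apply hz1
      refine ⟨a, ha, ?_⟩
      rw [dot_vec]
      simp only [Matrix.cons_val_zero, Matrix.cons_val_one, Matrix.cons_val]
      linear_combination hh
    · apply hz2
      refine ⟨s, hSm _ hm, ?_⟩
      rw [dot_vec]
      simp only [Matrix.cons_val_zero, Matrix.cons_val_one, Matrix.cons_val]
      ring
  have hn3 : o ≠ none → MvPolynomial.eval ![1, 0, 0] f = 0 := by
    intro h
    exact hco none (fun h' => h h'.symm) (fun t ht => absurd ht (by simp))
  have hvan : ∀ z, (∀ l : F, l ≠ 0 → z ≠ l • cv o) → MvPolynomial.eval z f = 0 := by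
    intro z hz
    by_cases hv2 : z 2 = 0
    · by_cases hv1 : z 1 = 0
      · by_cases hv0 : z 0 = 0
        · -- z = 0
          have hz0 : z = 0 := by
            funext i
            fin_cases i
            · exact hv0
            · exact hv1
            · exact hv2
          have hne : A.Nonempty := by
            rw [← Finset.card_pos]
            omega
          obtain ⟨a, ha⟩ := hne
          apply hz1
          refine ⟨a, ha, ?_⟩
          rw [hz0, dot_vec]
          simp
        · have e3 : z = z 0 • ![1, 0, 0] := by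
            funext i
            fin_cases i
            · simp
            · simpa using hv1
            · simpa using hv2
          rw [e3, hmul _ _ hv0]
          apply hn3
          intro h
          apply hz (z 0) hv0
          rw [h]
          exact e3
      · have e3 : z = z 1 • ![z 0 / z 1, 1, 0] := by
          funext i
          fin_cases i
          · simp
            field_simp
          · simp
          · simpa using hv2
        rw [e3, hmul _ _ hv1]
        exact hn2 _
    · have e3 : z = z 2 • ![z 0 / z 2, z 1 / z 2, 1] := by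
        funext i
        fin_cases i
        · simp
          field_simp
        · simp
          field_simp
        · simp
      have e4 : MvPolynomial.eval z f = MvPolynomial.eval ![z 0 / z 2, z 1 / z 2, 1] f := by
        conv_lhs => rw [e3]
        exact hmul _ _ hv2
      rw [e4]
      apply hn1
      rintro ⟨t, ht, hto⟩
      apply hz (z 2) hv2
      rw [← hto, ← ht]
      exact e3
  -- the sum
  have hsum1 : ∑ z : Fin 3 → F, MvPolynomial.eval z f =
      ∑ l ∈ (Finset.univ.erase (0 : F)), MvPolynomial.eval (l • cv o) f := by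
    symm
    rw [← Finset.sum_image (f := fun z => MvPolynomial.eval z f) (g := fun l : F => l • cv o)
      (fun l _ l' _ h => smul_left_injective F (cv_ne o) h)]
    apply Finset.sum_subset (Finset.subset_univ _)
    intro z _ hz
    apply hvan
    intro l hl0 h
    apply hz
    rw [Finset.mem_image]
    exact ⟨l, Finset.mem_erase.2 ⟨hl0, Finset.mem_univ _⟩, h.symm⟩
  rw [hsum0, Finset.sum_congr rfl (fun l hl0 => hmul l _ (Finset.ne_of_mem_erase hl0)), Finset.sum_const,
    Finset.card_erase_of_mem (Finset.mem_univ _), Finset.card_univ] at hsum1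
  have h5 : ((Fintype.card F - 1 : ℕ) : F) = -1 := by
    rw [Nat.cast_sub (by omega), FiniteField.cast_card_eq_zero]
    simp
  rw [nsmul_eq_mul, h5] at hsum1
  have h6 : MvPolynomial.eval (cv o) f = 0 := by linear_combination hsum1
  rw [heval] at h6
  rcases mul_eq_zero.1 h6 with h7 | h7
  · exfalso
    rcases mul_eq_zero.1 h7 with h8 | h8
    · obtain ⟨a, ha, h9⟩ := Finset.prod_eq_zero_iff.1 h8
      rw [dot_vec] at h9
      rcases o with _ | t
      · simp [cv] at h9
      · have h10 := (hZm t).1 (hGi t ho) a ha
        apply h10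
        simp only [cv, Matrix.cons_val_zero, Matrix.cons_val_one, Matrix.cons_val] at h9
        linear_combination h9
    · obtain ⟨s, hs, h9⟩ := Finset.prod_eq_zero_iff.1 h8
      rw [dot_vec] at h9
      rcases o with _ | t
      · simp [cv] at h9
      · have h10 := hGi t ho
        have h11 : (t - s) ^ 2 = 0 := by
          simp only [cv, Matrix.cons_val_zero, Matrix.cons_val_one, Matrix.cons_val] at h9
          linear_combination h9
        have h12 : t - s = 0 := by
          exact pow_eq_zero_iff (two_ne_zero) |>.1 h11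
        have h13 : t = s := sub_eq_zero.1 h12
        rw [h13] at h10
        exact hSZ' s hs h10
  · exact h7

end Pool.Agent.SpreadN
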