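import Pool.Agent.Lib_MP_9e452d_n.NCBc

/-!
# Piece NCBd: the bound `(z + 1) (z + 3) ≤ 8 t`
-/

set_option autoImplicit false

namespace Pool.Agent.SpreadN

open Polynomial

variable {F : Type*} [Field F] [Fintype F] [DecidableEq F]

private theorem two_ne {A : Finset (F × F)} (hA : FCov A) : (2 : F) ≠ 0 := Ring.two_ne_zero hA.two

omit [Fintype F] [DecidableEq F] in
private theorem ev2_mul (g : F[X][X]) (p s : F) :
    ev2 ((X ^ 2 - C (C 4 * X)) * g) p s = (s ^ 2 - 4 * p) * ev2 g p s := by
  unfold ev2
  simp [eval_mul, eval_sub, eval_pow, eval_C, eval_X]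

/-- step 1: the homogenization vanishes at the free points of the conic -/
private theorem hom3_zero {A : Finset (F × F)} (hA : FCov A) (h : ℕ) (hz : 2 * h ≤ fz A) (f : F[X][X])
    (hf : TD h f) (hfT : ∀ p ∈ fT A, ev2 f p.2 (-2 * p.1) = 0) (o : Option F) (ho : o ∈ fG A) :
    MvPolynomial.eval (cv o) (hom3 h f) = 0 := by
  have h2 := two_ne hA
  obtain ⟨w, hw1, hw2⟩ := exists_lines h2 o (fz A - h) ((fG A).erase o) (Finset.notMem_erase o _)
    (by rw [Finset.card_erase_of_mem ho, fG_card]; omega)
  set L : Fin (fz A - h) → MvPolynomial (Fin 3) F := fun i =>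
    MvPolynomial.C (w i 0) * MvPolynomial.X 0 + MvPolynomial.C (w i 1) * MvPolynomial.X 1 +
      MvPolynomial.C (w i 2) * MvPolynomial.X 2 with hL
  have hLe : ∀ i v, MvPolynomial.eval v (L i) = dot (w i) v := by
    intro i v
    rw [hL]
    simp [dot]
  have hLd : ∀ i, (L i).totalDegree ≤ 1 := by
    intro i
    have hx : ∀ (a : F) (j : Fin 3), (MvPolynomial.C a * MvPolynomial.X j : MvPolynomial (Fin 3) F).totalDegree ≤ 1 := by
      intro a j
      refine (MvPolynomial.totalDegree_mul _ _).trans ?_
      rw [MvPolynomial.totalDegree_C, MvPolynomial.totalDegree_X]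
    refine (MvPolynomial.totalDegree_add _ _).trans (max_le ((MvPolynomial.totalDegree_add _ _).trans
      (max_le (hx _ _) (hx _ _))) (hx _ _))
  have hev : ∀ v, MvPolynomial.eval v (hom3 h f * ∏ i, L i) =
      MvPolynomial.eval v (hom3 h f) * ∏ i, dot (w i) v := by
    intro v
    rw [map_mul, map_prod]
    simp only [hLe]
  have key := cw1 hA (hom3 h f * ∏ i, L i) ?_ ?_ ?_ o ho ?_
  · rw [hev] at key
    rcases mul_eq_zero.1 key with h3 | h3
    · exact h3
    · rw [Finset.prod_eq_zero_iff] at h3
      obtain ⟨i, _, hi⟩ := h3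
      exact absurd hi (hw1 i)
  · refine (MvPolynomial.totalDegree_mul _ _).trans ?_
    have h3 : (∏ i, L i).totalDegree ≤ fz A - h := by
      refine (MvPolynomial.totalDegree_finset_prod _ _).trans ?_
      refine (Finset.sum_le_sum fun i _ => hLd i).trans ?_
      simp
    have := hom3_deg h f
    omega
  · intro l v
    rw [hev, hev, hom3_smul]
    have h3 : ∏ i, dot (w i) (l • v) = l ^ (fz A - h) * ∏ i, dot (w i) v := by
      have h4 : ∀ i, dot (w i) (l • v) = l * dot (w i) v := by
        intro i
        unfold dot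
        simp only [Pi.smul_apply, smul_eq_mul]
        ring
      rw [Finset.prod_congr rfl fun i _ => h4 i, Finset.prod_mul_distrib, Finset.prod_const,
        Finset.card_univ, Fintype.card_fin]
    rw [h3]
    have h5 : fz A = h + (fz A - h) := by omega
    calc l ^ h * MvPolynomial.eval v (hom3 h f) * (l ^ (fz A - h) * ∏ i, dot (w i) v) =
        l ^ (h + (fz A - h)) * (MvPolynomial.eval v (hom3 h f) * ∏ i, dot (w i) v) := by
          rw [pow_add]; ring
      _ = _ := by rw [← h5]
  · intro p hp
    rw [hev, hom3_eval hf, hfT p hp, zero_mul]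
  · intro o' ho' hne
    obtain ⟨i, hi⟩ := hw2 o' (Finset.mem_erase.2 ⟨hne, ho'⟩)
    rw [hev, Finset.prod_eq_zero (Finset.mem_univ i) hi, mul_zero]

/-- step 2: the restriction to the conic is zero -/
private theorem con_zero {A : Finset (F × F)} (hA : FCov A) (h : ℕ) (hz : 2 * h ≤ fz A) (f : F[X][X])
    (hf : TD h f) (hfT : ∀ p ∈ fT A, ev2 f p.2 (-2 * p.1) = 0) : con f = 0 := by
  have hv := hom3_zero hA h hz f hf hfT
  have hnone : (con f).coeff (2 * h) = 0 := by
    rw [con_coeff hf, ← hom3_eval_inf]
    exact hv none (by unfold fG; exact Finset.mem_insert_self _ _)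
  rcases Nat.eq_zero_or_pos h with h0 | h0
  · subst h0
    have h1 := con_natDegree hf
    have h2 : con f = C ((con f).coeff 0) := eq_C_of_natDegree_le_zero (by simpa using h1)
    rw [h2]
    simpa using hnone
  · apply eq_zero_of_natDegree_lt_card_of_eval_eq_zero' (con f)
      (Finset.univ.filter (fun s : F => ∀ a ∈ A, s ^ 2 + 2 * a.1 * s + a.2 ≠ 0))
    · intro t ht
      rw [con_eval, ← hom3_eval hf]
      exact hv (some t) (by
        unfold fG
        exact Finset.mem_insert_of_mem (Finset.mem_image_of_mem _ ht))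
    · have h1 := con_natDegree hf
      have h2 : (con f).natDegree ≠ 2 * h ∨ con f = 0 := by
        by_contra hcon
        push Not at hcon
        apply hcon.2
        rw [← leadingCoeff_eq_zero, leadingCoeff, hcon.1]
        exact hnone
      have h3 : (con f).natDegree < 2 * h := by
        rcases h2 with h2 | h2
        · omega
        · rw [h2, natDegree_zero]
          omega
      have h4 : (Finset.univ.filter (fun s : F => ∀ a ∈ A, s ^ 2 + 2 * a.1 * s + a.2 ≠ 0)).card = fz A := rfl
      omega

/-- Strong induction on `h`: let `k = fz A - h ≥ h`. For `o ∈ fG A` choose `w : Fin k → _` by `exists_lines` for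
`S = (fG A).erase o` (`S.card = fz A ≤ 2 k`), and apply `cw1` to
`H = hom3 h f * ∏ i, (w i 0 X_0 + w i 1 X_1 + w i 2 X_2)`: so `hom3 h f` vanishes at all `cv o`, `o ∈ fG A`. So
`con f` has degree at most `2 h`, its coefficient of `X ^ (2 h)` is zero and it has `fz A ≥ 2 h` zeros: `con f = 0`. By
`div_conic` `f = 0` or `f = (Y ^ 2 - 4 X) g`, and `g` also vanishes on the points of `fT A` (there
`s ^ 2 - 4 p = 4 (b ^ 2 - c) ≠ 0`), so `g = 0` by induction. -/
theorem inj_fT {A : Finset (F × F)} (hA : FCov A) (h : ℕ) (hz : 2 * h ≤ fz A) (f : F[X][X]) (hf : TD h f)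
    (hfT : ∀ p ∈ fT A, ev2 f p.2 (-2 * p.1) = 0) : f = 0 := by
  induction h using Nat.strong_induction_on generalizing f with
  | _ h ih =>
    have h2 := two_ne hA
    rcases div_conic h2 hf (con_zero hA h hz f hf hfT) with h0 | ⟨hh, g, hg, hfg⟩
    · exact h0
    · have hg0 : g = 0 := by
        refine ih (h - 2) (by omega) (by omega) g hg ?_
        intro p hp
        have h3 := hfT p hp
        rw [hfg, ev2_mul] at h3
        rcases mul_eq_zero.1 h3 with h4 | h4
        · exfalso
          unfold fT at hp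
          rw [Finset.mem_filter] at hp
          apply hp.2.1
          have h5 : p.1 ^ 2 - p.2 = 0 := by
            have h6 : (2 : F) * 2 * (p.1 ^ 2 - p.2) = 0 := by
              have e : (2 : F) * 2 * (p.1 ^ 2 - p.2) = (-2 * p.1) ^ 2 - 4 * p.2 := by ring
              rw [e]
              exact h4
            rcases mul_eq_zero.1 h6 with h7 | h7
            · exact absurd h7 (mul_ne_zero h2 h2)
            · exact h7
          rw [h5]
          exact IsSquare.zero
        · exact h4
      rw [hfg, hg0, mul_zero]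

/-- `inj_fT` and `inj_count` (for the image of `fT A` under `(b, c) ↦ (c, -2 b)`), with `h = fz A / 2`:
`(h + 1) (h + 2) ≤ 2 t`. -/
theorem cb {A : Finset (F × F)} (hA : FCov A) : (fz A + 1) * (fz A + 3) ≤ 8 * (fT A).card := by
  have h1 := inj_count ((fT A).image (fun p => (p.2, -2 * p.1))) (fz A / 2) (by
    intro f hf hv
    refine inj_fT hA (fz A / 2) (by omega) f hf fun p hp => ?_
    exact hv (p.2, -2 * p.1) (Finset.mem_image_of_mem _ hp))
  have h2 : ((fT A).image (fun p : F × F => (p.2, -2 * p.1))).card ≤ (fT A).card := Finset.card_image_le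
  have h3 : (fz A / 2 + 1) * (fz A / 2 + 2) ≤ 2 * (fT A).card := h1.trans (by omega)
  have h4 : fz A ≤ 2 * (fz A / 2) + 1 := by omega
  have h5 : (fz A + 1) * (fz A + 3) ≤ (2 * (fz A / 2) + 1 + 1) * (2 * (fz A / 2) + 1 + 3) :=
    Nat.mul_le_mul (by omega) (by omega)
  have h6 : (2 * (fz A / 2) + 1 + 1) * (2 * (fz A / 2) + 1 + 3) = 4 * ((fz A / 2 + 1) * (fz A / 2 + 2)) := by
    ring
  omega

end Pool.Agent.SpreadN
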