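import Mathlib

/-!
# MP_9e452d_al: the setting for `s(PGL(2, q)) = q - 2`, `q` large

`K` is an algebraically closed field, `q` the order of a finite subfield `FF K q` (given by `x ^ q = x`), `EE K q` is
the field with `q ^ 2` elements and `II K q = EE \ FF`. A pair `a = (B, C)` with `B ^ 2 ≠ C` stands for the symmetric
form `bil a x y = x y + B (x + y) + C`, that is for the involution `x ↦ - (B x + C) / (x + B)`.
-/

set_option autoImplicit false

namespace Pool.Agent.SpreadN

open Polynomial

/-- the symmetric form attached to `a = (B, C)` -/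
def bil {K : Type*} [Field K] (a : K × K) (x y : K) : K := x * y + a.1 * (x + y) + a.2

/-- the discriminant of `a = (B, C)` -/
def dl {K : Type*} [Field K] (a : K × K) : K := a.1 ^ 2 - a.2

/-- `A` is a set of `q - 2` involutions which covers all internal points -/
structure OCov {K : Type*} [Field K] (q : ℕ) (A : Finset (K × K)) : Prop where
  hq : 3 ≤ q
  q0 : (q : K) = 0
  two : (2 : K) ≠ 0
  frob : ∀ x y : K, (x + y) ^ q = x ^ q + y ^ q
  cardA : A.card + 2 = q
  rat1 : ∀ a ∈ A, a.1 ^ q = a.1
  rat2 : ∀ a ∈ A, a.2 ^ q = a.2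
  nd : ∀ a ∈ A, dl a ≠ 0
  int : ∀ x : K, x ^ (q ^ 2) = x → x ^ q ≠ x → (∃ a ∈ A, bil a x (x ^ q) = 0) ∨ ∃ a ∈ A, bil a x x = 0

/-- the field with `q` elements -/
noncomputable def FF (K : Type*) [Field K] [DecidableEq K] (q : ℕ) : Finset K := (X ^ q - X : K[X]).roots.toFinset

/-- the field with `q ^ 2` elements -/
noncomputable def EE (K : Type*) [Field K] [DecidableEq K] (q : ℕ) : Finset K :=
  (X ^ (q ^ 2) - X : K[X]).roots.toFinset

/-- the elements of the field with `q ^ 2` elements which are not in the field with `q` elements -/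
noncomputable def II (K : Type*) [Field K] [DecidableEq K] (q : ℕ) : Finset K := EE K q \ FF K q

variable {K : Type*} [Field K] [DecidableEq K]

/-- the number of `a` in `A` whose involution maps `x` to `x ^ q` -/
def mu (q : ℕ) (A : Finset (K × K)) (x : K) : ℕ := (A.filter (fun a => bil a x (x ^ q) = 0)).card

/-- the number of `a` in `A` whose involution fixes `x` -/
def nu (A : Finset (K × K)) (x : K) : ℕ := (A.filter (fun a => bil a x x = 0)).card

/-- number of rational points not fixed by any `a` -/
noncomputable def nZ (q : ℕ) (A : Finset (K × K)) : ℕ := ((FF K q).filter (fun x => mu q A x = 0)).card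
/-- number of irrational `x` with `mu x = 0` -/
noncomputable def nW (q : ℕ) (A : Finset (K × K)) : ℕ := ((II K q).filter (fun x => mu q A x = 0)).card
/-- number of irrational `x` with `mu x ≠ 0` which are fixed by some `a` -/
noncomputable def nJ (q : ℕ) (A : Finset (K × K)) : ℕ := ((II K q).filter (fun x => mu q A x ≠ 0 ∧ nu A x ≠ 0)).card
/-- excess over the irrational points -/
noncomputable def nQ (q : ℕ) (A : Finset (K × K)) : ℕ := ∑ x ∈ II K q, (mu q A x - 1)
/-- excess over the rational points -/
noncomputable def nG (q : ℕ) (A : Finset (K × K)) : ℕ := ∑ x ∈ FF K q, (mu q A x - 1)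

/-- polynomial with the roots counted by `nZ` -/
noncomputable def pZ (q : ℕ) (A : Finset (K × K)) : K[X] := ∏ x ∈ (FF K q).filter (fun x => mu q A x = 0), (X - C x)
/-- polynomial with the roots counted by `nW` -/
noncomputable def pW (q : ℕ) (A : Finset (K × K)) : K[X] := ∏ x ∈ (II K q).filter (fun x => mu q A x = 0), (X - C x)
/-- polynomial with the roots counted by `nJ` -/
noncomputable def pJ (q : ℕ) (A : Finset (K × K)) : K[X] :=
  ∏ x ∈ (II K q).filter (fun x => mu q A x ≠ 0 ∧ nu A x ≠ 0), (X - C x)
/-- polynomial of degree `nQ` -/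
noncomputable def pQ (q : ℕ) (A : Finset (K × K)) : K[X] := ∏ x ∈ II K q, (X - C x) ^ (mu q A x - 1)
/-- polynomial of degree `nG` -/
noncomputable def pG (q : ℕ) (A : Finset (K × K)) : K[X] := ∏ x ∈ FF K q, (X - C x) ^ (mu q A x - 1)
/-- the polynomial `M`: all `x` in the field with `q ^ 2` elements with `mu x = 0` -/
noncomputable def pM (q : ℕ) (A : Finset (K × K)) : K[X] := pZ q A * pW q A
/-- the polynomial `g`: all `x` in the field with `q ^ 2` elements, with multiplicity `mu x - 1` -/
noncomputable def pg (q : ℕ) (A : Finset (K × K)) : K[X] := pG q A * pQ q A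

/-- the polynomial of degree `q + 1` with roots the `x` that are mapped to `x ^ q` by `a` -/
noncomputable def La (q : ℕ) (a : K × K) : K[X] := (X + C a.1) ^ (q + 1) - C (dl a)

/-- the transform of the polynomial `f`, as a form of degree `k`, under the involution `a` -/
noncomputable def tw (a : K × K) (k : ℕ) (f : K[X]) : K[X] :=
  ∑ i ∈ Finset.range (k + 1), C (f.coeff i) * (-(C a.1 * X + C a.2)) ^ i * (X + C a.1) ^ (k - i)

end Pool.Agent.SpreadN
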