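import Pool.Agent.Lib_MP_9e452d_n.NLine

/-!
# Piece NTw: the transform `tw`
-/

set_option autoImplicit false

namespace Pool.Agent.SpreadN

open Polynomial

variable {K : Type*} [Field K]

theorem tw_natDegree (a : K × K) (k : ℕ) (f : K[X]) : (tw a k f).natDegree ≤ k := by
  unfold tw
  refine natDegree_sum_le_of_forall_le _ _ fun i hi => ?_
  have hik : i ≤ k := Nat.lt_succ_iff.mp (Finset.mem_range.mp hi)
  have h1 : (-(C a.1 * X + C a.2) : K[X]).natDegree ≤ 1 := by
    rw [natDegree_neg]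
    exact natDegree_linear_le
  have h2 : ((-(C a.1 * X + C a.2) : K[X]) ^ i).natDegree ≤ i := by
    refine le_trans natDegree_pow_le ?_
    calc i * (-(C a.1 * X + C a.2) : K[X]).natDegree ≤ i * 1 := Nat.mul_le_mul_left _ h1
      _ = i := mul_one i
  have h3 : ((X + C a.1 : K[X]) ^ (k - i)).natDegree ≤ k - i := by
    refine le_trans natDegree_pow_le ?_
    rw [natDegree_X_add_C, mul_one]
  have h4 : (C (f.coeff i) * (-(C a.1 * X + C a.2)) ^ i : K[X]).natDegree ≤ i :=
    le_trans (natDegree_C_mul_le _ _) h2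
  calc (C (f.coeff i) * (-(C a.1 * X + C a.2)) ^ i * (X + C a.1) ^ (k - i) : K[X]).natDegree
      ≤ (C (f.coeff i) * (-(C a.1 * X + C a.2)) ^ i : K[X]).natDegree +
        ((X + C a.1 : K[X]) ^ (k - i)).natDegree := natDegree_mul_le
    _ ≤ i + (k - i) := add_le_add h4 h3
    _ = k := by omega

private theorem tw_eval_eq (a : K × K) (k : ℕ) (f : K[X]) (x : K) : (tw a k f).eval x =
    ∑ i ∈ Finset.range (k + 1), f.coeff i * (-(a.1 * x + a.2)) ^ i * (x + a.1) ^ (k - i) := by
  unfold tw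
  rw [eval_finsetSum]
  refine Finset.sum_congr rfl fun i _ => ?_
  simp only [eval_mul, eval_C, eval_pow, eval_neg, eval_add, eval_X]

/-- `(x + B) y = - (B x + C)` if `bil a x y = 0` -/
theorem tw_eval (a : K × K) {k : ℕ} {f : K[X]} (hf : f.natDegree ≤ k) {x y : K} (hxy : bil a x y = 0) :
    (tw a k f).eval x = (x + a.1) ^ k * f.eval y := by
  have h1 : -(a.1 * x + a.2) = (x + a.1) * y := by
    unfold bil at hxy
    linear_combination -hxy
  rw [tw_eval_eq, eval_eq_sum_range' (Nat.lt_succ_iff.mpr hf), Finset.mul_sum]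
  refine Finset.sum_congr rfl fun i hi => ?_
  have hik : i ≤ k := Nat.lt_succ_iff.mp (Finset.mem_range.mp hi)
  have h2 : (x + a.1) ^ k = (x + a.1) ^ i * (x + a.1) ^ (k - i) := by
    rw [← pow_add, Nat.add_sub_cancel' hik]
  rw [h1, h2, mul_pow]
  ring

/-- at `x = - B` only the term with `i = k` survives -/
theorem tw_eval_neg (a : K × K) (k : ℕ) (f : K[X]) : (tw a k f).eval (- a.1) = f.coeff k * dl a ^ k := by
  have h1 : -(a.1 * (- a.1) + a.2) = dl a := by
    unfold dl
    ring
  rw [tw_eval_eq, Finset.sum_range_succ, Finset.sum_eq_zero, zero_add, Nat.sub_self, pow_zero,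
    mul_one, h1]
  intro i hi
  have hik : i < k := Finset.mem_range.mp hi
  rw [neg_add_cancel, zero_pow (by omega), mul_zero]

theorem tw_eval_neg_of_lt (a : K × K) {k : ℕ} {f : K[X]} (hf : f.natDegree < k) : (tw a k f).eval (- a.1) = 0 := by
  rw [tw_eval_neg, coeff_eq_zero_of_natDegree_lt hf, zero_mul]

end Pool.Agent.SpreadN
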