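import Pool.Agent.Lib_MP_9e452d_n.NKey
import Pool.Agent.Lib_MP_9e452d_n.NTw

/-!
# Piece NEa: `La` divides the difference `dl ^ 2 g^a M - g M^a`
-/

set_option autoImplicit false

namespace Pool.Agent.SpreadN

open Polynomial

variable {K : Type*} [Field K] [DecidableEq K] {q : ℕ} {A : Finset (K × K)} [IsAlgClosed K]

/-- Write `e = nG + nQ = natDegree pg`; `natDegree pM = q + 2 + e`. Let `x` in `EE` with `bil a x y = 0`, `y = x ^ q`;
then `(x + B) (y + B) = dl a =: D ≠ 0` and `(x + B) ^ (q + 1) = D`. By `tw_eval`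
`D ^ 2 (x+B)^e g(y) M(x) - g(x) (x+B)^(q+3+e) M(y) = (x+B)^e (D ^ 2 g(y) M(x) - D (x+B)^2 g(x) M(y))
= (x+B)^(e+1) D ((y+B) g(y) M(x) - (x+B) g(x) M(y)) = 0` by `dir`. So the polynomial vanishes at the `q + 1` roots of
`La` (`La_eq`: a product of different linear factors), so `La` divides it. The degree of the left side is at most
`q + 3 + 2 e`, so the quotient has degree at most `2 e + 2`. -/
theorem OCov.exists_r (h : OCov q A) {a : K × K} (ha : a ∈ A) : ∃ r : K[X],
    r.natDegree ≤ 2 * (nG q A + nQ q A) + 2 ∧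
    C (dl a ^ 2) * tw a (nG q A + nQ q A) (pg q A) * pM q A
      - pg q A * tw a (q + 3 + nG q A + nQ q A) (pM q A) = La q a * r := by
  have h1 := h.rat1 a ha
  have h2 := h.rat2 a ha
  have hd := h.nd a ha
  set e := nG q A + nQ q A with he
  have hgd : (pg q A).natDegree ≤ e := by rw [pg_natDegree]
  have hMd : (pM q A).natDegree = q + 2 + e := by rw [h.pM_natDegree]; omega
  have hk : q + 3 + nG q A + nQ q A = q + 3 + e := by omega
  rw [hk]
  have hMd' : (pM q A).natDegree ≤ q + 3 + e := by omega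
  set P : K[X] := C (dl a ^ 2) * tw a e (pg q A) * pM q A - pg q A * tw a (q + 3 + e) (pM q A) with hP
  have hroot : ∀ x ∈ (EE K q).filter (fun x => bil a x (x ^ q) = 0), P.eval x = 0 := by
    intro x hx
    obtain ⟨hxE, hxb⟩ := Finset.mem_filter.mp hx
    have e1 := (bil_eq_zero_iff a x (x ^ q)).mp hxb
    have e2 : (x + a.1) ^ (q + 1) = dl a := by
      have := h.eval_La h1 x
      rw [hxb] at this
      simp only [La, eval_sub, eval_pow, eval_add, eval_X, eval_C] at this
      exact sub_eq_zero.mp this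
    have e3 := h.dir ha hxE hxb
    have t1 := tw_eval a hgd hxb
    have t2 := tw_eval a hMd' hxb
    have e4 : (x + a.1) ^ (q + 3 + e) = dl a * (x + a.1) ^ (e + 2) := by
      rw [← e2, ← pow_add]
      congr 1
      omega
    simp only [hP, eval_sub, eval_mul, eval_C]
    rw [t1, t2, e4]
    have e5 : dl a ^ 2 = dl a * ((x + a.1) * (x ^ q + a.1)) := by rw [e1]; ring
    rw [e5]
    linear_combination (-(dl a * (x + a.1) ^ (e + 1))) * e3
  have hdvd : La q a ∣ P := by
    rw [h.La_eq h1 h2 hd]
    refine Finset.prod_dvd_of_coprime ?_ ?_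
    · intro x _ y _ hxy
      exact Polynomial.pairwise_coprime_X_sub_C (s := fun z : K => z) (fun _ _ hh => hh) hxy
    · intro x hx
      rw [dvd_iff_isRoot]
      exact hroot x hx
  obtain ⟨r, hr⟩ := hdvd
  refine ⟨r, ?_, hr⟩
  rcases eq_or_ne r 0 with h0 | h0
  · rw [h0, natDegree_zero]; omega
  have hdeg : P.natDegree = q + 1 + r.natDegree := by
    rw [hr, (La_monic q a).natDegree_mul' h0, La_natDegree]
  have hle : P.natDegree ≤ q + 3 + 2 * e := by
    rw [hP]
    refine (natDegree_sub_le _ _).trans (max_le ?_ ?_)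
    · refine natDegree_mul_le.trans ?_
      have b1 : (C (dl a ^ 2) * tw a e (pg q A)).natDegree ≤ e :=
        (natDegree_C_mul_le _ _).trans (tw_natDegree a e _)
      omega
    · refine natDegree_mul_le.trans ?_
      have b2 := tw_natDegree a (q + 3 + e) (pM q A)
      omega
  omega

end Pool.Agent.SpreadN
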