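import Pool.Agent.Lib_MP_9e452d_n.NExtA

/-!
# Piece NExt: the extactic polynomial vanishes
-/

set_option autoImplicit false

namespace Pool.Agent.SpreadN

open Polynomial

variable {K : Type*} [Field K] [Infinite K]

/-- `ext G u v x` as a polynomial in `y` -/
private noncomputable def EX (G u v : K[X]) (x : K) : K[X] :=
  (C x - X) * ((G * (X * C (u.eval x) + C (v.eval x))) ^ 2 *
        (C ((derivative G).eval x) * (C x * u + v) + C (G.eval x) * u)
      + (C (G.eval x) * (C x * u + v)) ^ 2 *
        (derivative G * (X * C (u.eval x) + C (v.eval x)) + G * C (u.eval x))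
      - (G * (X * C (u.eval x) + C (v.eval x))) * (C (G.eval x) * (C x * u + v)) *
        (G * (X * C ((derivative u).eval x) + C ((derivative v).eval x))
          + C (G.eval x) * (C x * derivative u + derivative v)))
    + C 2 * (G * (X * C (u.eval x) + C (v.eval x))) * (C (G.eval x) * (C x * u + v)) *
        (G * (X * C (u.eval x) + C (v.eval x)) - C (G.eval x) * (C x * u + v))

omit [Infinite K] in
private theorem EX_eval (G u v : K[X]) (x y : K) : (EX G u v x).eval y = ext G u v x y := by
  simp only [EX, ext, eval_add, eval_mul, eval_sub, eval_pow, eval_C, eval_X]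

omit [Infinite K] in
private theorem ext_swap (G u v : K[X]) (x y : K) : ext G u v x y = - ext G u v y x := by
  simp only [ext]
  ring

omit [Infinite K] in
private theorem EX_deg (G u v : K[X]) (d : ℕ) (hG : G.natDegree + 3 ≤ d)
    (hu : u.natDegree + 1 ≤ d) (hv : v.natDegree ≤ d) (x : K) : (EX G u v x).natDegree ≤ 3 * d - 2 := by
  have hdG : (derivative G).natDegree + 3 ≤ d := by
    have := natDegree_derivative_le G
    omega
  have hdu : (derivative u).natDegree + 1 ≤ d := by
    have := natDegree_derivative_le u
    omega
  have hdv : (derivative v).natDegree ≤ d - 1 := by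
    have := natDegree_derivative_le v
    omega
  obtain ⟨e, rfl⟩ : ∃ e, d = e + 3 := ⟨d - 3, by omega⟩
  have l1 : ∀ p q : K, (X * C p + C q : K[X]).natDegree ≤ 1 := by
    intro p q
    refine (natDegree_add_le _ _).trans (max_le ?_ ?_)
    · refine natDegree_mul_le.trans ?_
      simp
    · simp
  have hP : ∀ p q : K, (G * (X * C p + C q)).natDegree ≤ e + 1 := by
    intro p q
    refine natDegree_mul_le.trans ?_
    have := l1 p q
    omega
  have hS : (C x * u + v).natDegree ≤ e + 3 := by
    refine (natDegree_add_le _ _).trans (max_le ?_ hv)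
    refine (natDegree_C_mul_le _ _).trans ?_
    omega
  have hS' : (C x * derivative u + derivative v).natDegree ≤ e + 2 := by
    refine (natDegree_add_le _ _).trans (max_le ?_ (by omega))
    refine (natDegree_C_mul_le _ _).trans ?_
    omega
  have hQ : (C (G.eval x) * (C x * u + v)).natDegree ≤ e + 3 := (natDegree_C_mul_le _ _).trans hS
  have hQy : (C (G.eval x) * (C x * derivative u + derivative v)).natDegree ≤ e + 2 :=
    (natDegree_C_mul_le _ _).trans hS'
  have hQx : (C ((derivative G).eval x) * (C x * u + v) + C (G.eval x) * u).natDegree ≤ e + 3 := by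
    refine (natDegree_add_le _ _).trans (max_le ((natDegree_C_mul_le _ _).trans hS) ?_)
    refine (natDegree_C_mul_le _ _).trans ?_
    omega
  have hPy : (derivative G * (X * C (u.eval x) + C (v.eval x)) + G * C (u.eval x)).natDegree ≤ e := by
    refine (natDegree_add_le _ _).trans (max_le ?_ ?_)
    · by_cases hG0 : G.natDegree = 0
      · rw [derivative_of_natDegree_zero hG0, zero_mul, natDegree_zero]
        omega
      · refine natDegree_mul_le.trans ?_
        have := l1 (u.eval x) (v.eval x)
        have := natDegree_derivative_le G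
        omega
    · refine (natDegree_mul_C_le _ _).trans ?_
      omega
  have hm : ∀ {f g : K[X]} {m n k : ℕ}, f.natDegree ≤ m → g.natDegree ≤ n → m + n ≤ k → (f * g).natDegree ≤ k :=
    fun h1 h2 h3 => (natDegree_mul_le_of_le h1 h2).trans h3
  have hs : ∀ {f g : K[X]} {k : ℕ}, f.natDegree ≤ k → g.natDegree ≤ k → (f - g).natDegree ≤ k :=
    fun h1 h2 => (natDegree_sub_le _ _).trans (max_le h1 h2)
  have ha : ∀ {f g : K[X]} {k : ℕ}, f.natDegree ≤ k → g.natDegree ≤ k → (f + g).natDegree ≤ k :=
    fun h1 h2 => (natDegree_add_le _ _).trans (max_le h1 h2)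
  have hsq : ∀ {f : K[X]} {m k : ℕ}, f.natDegree ≤ m → 2 * m ≤ k → (f ^ 2).natDegree ≤ k :=
    fun h1 h2 => (natDegree_pow_le_of_le 2 h1).trans h2
  have hX : (C x - X : K[X]).natDegree ≤ 1 := hs (by simp) (by simp)
  have hPP := hP (u.eval x) (v.eval x)
  have hPx := hP ((derivative u).eval x) ((derivative v).eval x)
  unfold EX
  have h2 : (C 2 : K[X]).natDegree ≤ 0 := by simp
  refine ha ?_ ?_
  · refine hm (m := 1) (n := 3 * e + 6) hX ?_ (by omega)
    refine hs (ha ?_ ?_) ?_
    · exact hm (m := 2 * (e + 1)) (n := e + 3) (hsq hPP le_rfl) hQx (by omega)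
    · exact hm (m := 2 * (e + 3)) (n := e) (hsq hQ le_rfl) hPy (by omega)
    · refine hm (m := 2 * e + 4) (n := e + 2) ?_ ?_ (by omega)
      · exact hm hPP hQ (by omega)
      · exact ha (hPx.trans (by omega)) hQy
  · refine hm (m := 2 * e + 4) (n := e + 3) ?_ ?_ (by omega)
    · refine hm (m := e + 1) (n := e + 3) ?_ hQ (by omega)
      exact hm h2 hPP (by omega)
    · exact hs (hPP.trans (by omega)) hQ

/-- For all but finitely many `x` the values `a(x) = dl a / (x + B) - B`, `a ∈ A`, are different (for `a ≠ b` the
equation `a(x) = b(x)` is a nontrivial equation of degree at most 2), so `ext G u v x`, a polynomial in `y` of degree at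
most `3 d - 2`, has at least `A.card` zeros and vanishes. For fixed `y` it is then a polynomial in `x` with infinitely
many zeros. -/
theorem ext_zero (A : Finset (K × K)) (hA : ∀ a ∈ A, dl a ≠ 0) (G u v : K[X]) (d : ℕ) (hG : G.natDegree + 3 ≤ d)
    (hu : u.natDegree + 1 ≤ d) (hv : v.natDegree ≤ d) (hcard : 3 * d < A.card + 2)
    (hode : ∀ a ∈ A, ∀ x y : K, bil a x y = 0 → G.eval x * (x + a.1) * (x * u.eval y + v.eval y) =
      G.eval y * (y + a.1) * (y * u.eval x + v.eval x)) (x y : K) : ext G u v x y = 0 := by
  classical
  -- the exceptional x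
  set T : Set K := (⋃ a ∈ A, {-a.1}) ∪ ⋃ a ∈ A, ⋃ b ∈ A,
    {x : K | a ≠ b ∧ ∃ y, bil a x y = 0 ∧ bil b x y = 0} with hT
  have hTfin : T.Finite := by
    refine Set.Finite.union ?_ ?_
    · exact A.finite_toSet.biUnion fun a _ => Set.finite_singleton _
    · refine A.finite_toSet.biUnion fun a _ => A.finite_toSet.biUnion fun b _ => ?_
      by_cases hab : a.1 = b.1
      · refine Set.Finite.subset Set.finite_empty ?_
        rintro x ⟨hne, y, h1, h2⟩
        refine hne (Prod.ext hab ?_)
        simp only [bil] at h1 h2
        rw [hab] at h1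
        linear_combination h1 - h2
      · set c : K := (a.2 - b.2) / (a.1 - b.1) with hc
        have hd : a.1 - b.1 ≠ 0 := sub_ne_zero.mpr hab
        set p : K[X] := X ^ 2 + C c * X - C (a.2 - a.1 * c) with hp
        have hp0 : p ≠ 0 := by
          intro h0
          have : p.coeff 2 = 1 := by
            simp [hp, coeff_X_pow]
          rw [h0] at this
          simp at this
        refine Set.Finite.subset (p.roots.toFinset.finite_toSet) ?_
        rintro x ⟨hne, y, h1, h2⟩
        have e1 : x + y = -c := by
          rw [hc, eq_neg_iff_add_eq_zero]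
          field_simp
          simp only [bil] at h1 h2
          linear_combination h1 - h2
        have hy : y = -c - x := by linear_combination e1
        have : p.eval x = 0 := by
          simp only [hp, eval_add, eval_sub, eval_pow, eval_X, eval_mul, eval_C]
          simp only [bil] at h1
          rw [hy] at h1
          linear_combination -h1
        simp only [Finset.mem_coe, Multiset.mem_toFinset, mem_roots hp0, IsRoot.def]
        exact this
  have main : ∀ x ∉ T, ∀ y, ext G u v x y = 0 := by
    intro x hx
    have hx1 : ∀ a ∈ A, x + a.1 ≠ 0 := by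
      intro a ha h0
      refine hx (Or.inl ?_)
      simp only [Set.mem_iUnion, Set.mem_singleton_iff]
      exact ⟨a, ha, by linear_combination h0⟩
    have hb : ∀ a ∈ A, bil a x (dl a / (x + a.1) - a.1) = 0 := by
      intro a ha
      have h0 : (x + a.1) * (dl a / (x + a.1)) = dl a := mul_div_cancel₀ _ (hx1 a ha)
      simp only [bil, dl] at h0 ⊢
      linear_combination h0
    have hz : EX G u v x = 0 := by
      by_contra hne
      have hinj : Set.InjOn (fun a : K × K => dl a / (x + a.1) - a.1) A := by
        intro a ha b hb' hab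
        by_contra hne'
        refine hx (Or.inr ?_)
        simp only [Set.mem_iUnion, Set.mem_ofPred_eq]
        refine ⟨a, ha, b, hb', hne', _, hb a ha, ?_⟩
        have := hb b hb'
        simp only at hab
        rw [hab]
        exact this
      have hle : A.card ≤ (EX G u v x).roots.toFinset.card := by
        refine Finset.card_le_card_of_injOn _ ?_ hinj
        intro a ha
        simp only [Finset.mem_coe, Multiset.mem_toFinset, mem_roots hne, IsRoot.def]
        rw [EX_eval]
        exact ext_curve G u v a (hA a ha) (hode a ha) x _ (hb a ha)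
      have h1 : (EX G u v x).roots.toFinset.card ≤ 3 * d - 2 :=
        (Multiset.toFinset_card_le _).trans ((card_roots' _).trans (EX_deg G u v d hG hu hv x))
      omega
    intro y
    rw [← EX_eval, hz, eval_zero]
  have hz : EX G u v y = 0 := by
    refine eq_zero_of_infinite_isRoot _ (Set.Infinite.mono ?_ hTfin.infinite_compl)
    intro x hx
    change (EX G u v y).eval x = 0
    rw [EX_eval, ext_swap, main x hx y, neg_zero]
  rw [ext_swap, ← EX_eval, hz, eval_zero, neg_zero]

omit [Infinite K] in
/-- at a zero of `y u(x) + v(x)` only one term of `ext` survives -/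
theorem ext_at (G u v : K[X]) (x y : K) (hE : ext G u v x y = 0) (hxy : y * u.eval x + v.eval x = 0) :
    (x - y) * (G.eval x * (x * u.eval y + v.eval y)) ^ 2 * (G.eval y * u.eval x) = 0 := by
  simp only [ext, hxy] at hE
  linear_combination hE

end Pool.Agent.SpreadN
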