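import Pool.Agent.Lib_MP_9e452d_n.NTw

/-!
# Piece NExtA: the extactic expression vanishes on a curve
-/

set_option autoImplicit false
set_option linter.unusedSimpArgs false

namespace Pool.Agent.SpreadN

open Polynomial

variable {K : Type*} [Field K] [Infinite K]

/-- The extactic expression. With `P = G(y) (y u(x) + v(x))`, `Q = G(x) (x u(y) + v(y))` and the derivatives
`Px, Py, Qx, Qy` it is `(x - y) (P^2 Qx + Q^2 Py - P Q (Px + Qy)) + 2 P Q (P - Q)`. -/
noncomputable def ext (G u v : K[X]) (x y : K) : K :=
  (x - y) * ((G.eval y * (y * u.eval x + v.eval x)) ^ 2 *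
        ((derivative G).eval x * (x * u.eval y + v.eval y) + G.eval x * u.eval y)
      + (G.eval x * (x * u.eval y + v.eval y)) ^ 2 *
        ((derivative G).eval y * (y * u.eval x + v.eval x) + G.eval y * u.eval x)
      - (G.eval y * (y * u.eval x + v.eval x)) * (G.eval x * (x * u.eval y + v.eval y)) *
        (G.eval y * (y * (derivative u).eval x + (derivative v).eval x)
          + G.eval x * (x * (derivative u).eval y + (derivative v).eval y)))
    + 2 * (G.eval y * (y * u.eval x + v.eval x)) * (G.eval x * (x * u.eval y + v.eval y)) *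
        (G.eval y * (y * u.eval x + v.eval x) - G.eval x * (x * u.eval y + v.eval y))

/-- `s ^ n f (c / s - B)` as a polynomial in `s` -/
private noncomputable def TT (n : ℕ) (c B : K) (f : K[X]) : K[X] :=
  ∑ i ∈ Finset.range (n + 1), C (f.coeff i) * (C c - C B * X) ^ i * X ^ (n - i)

omit [Infinite K] in
private theorem TT_eval {n : ℕ} {c B : K} {f : K[X]} (hf : f.natDegree ≤ n) {s : K} (hs : s ≠ 0) :
    (TT n c B f).eval s = s ^ n * f.eval (c / s - B) := by
  rw [TT, eval_finsetSum, eval_eq_sum_range' (Nat.lt_succ_of_le hf), Finset.mul_sum]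
  refine Finset.sum_congr rfl fun i hi => ?_
  have hi' : i ≤ n := Nat.lt_succ_iff.mp (Finset.mem_range.mp hi)
  simp only [eval_mul, eval_C, eval_pow, eval_sub, eval_X]
  have e1 : c - B * s = s * (c / s - B) := by field_simp
  have e2 : s ^ n = s ^ i * s ^ (n - i) := by rw [← pow_add]; congr 1; omega
  rw [e1, mul_pow, e2]
  ring

omit [Infinite K] in
private theorem TT_eval_one {n : ℕ} {c B : K} {f : K[X]} (hf : f.natDegree ≤ n) :
    (TT n c B f).eval 1 = f.eval (c - B) := by
  rw [TT_eval hf one_ne_zero]; simp

omit [Infinite K] in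
private theorem TT_deriv_one {n : ℕ} {c B : K} {f : K[X]} (hf : f.natDegree ≤ n) :
    (derivative (TT n c B f)).eval 1 = n * f.eval (c - B) - c * (derivative f).eval (c - B) := by
  have h1 : (derivative f).eval (c - B) = ∑ i ∈ Finset.range (n + 1), f.coeff i * (i * (c - B) ^ (i - 1)) := by
    conv_lhs => rw [f.as_sum_range' (n + 1) (Nat.lt_succ_of_le hf)]
    rw [derivative_sum, eval_finsetSum]
    refine Finset.sum_congr rfl fun i _ => ?_
    rw [derivative_monomial, eval_monomial]
    ring
  rw [TT, derivative_sum, eval_finsetSum, h1, eval_eq_sum_range' (Nat.lt_succ_of_le hf), Finset.mul_sum,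
    Finset.mul_sum, ← Finset.sum_sub_distrib]
  refine Finset.sum_congr rfl fun i hi => ?_
  have hi' : i ≤ n := Nat.lt_succ_iff.mp (Finset.mem_range.mp hi)
  have e3 : (((n - i : ℕ) : K)) = (n : K) - (i : K) := by push_cast [Nat.cast_sub hi']; ring
  simp only [derivative_mul, derivative_C, derivative_pow, derivative_sub, derivative_X, zero_mul, zero_add,
    eval_add, eval_mul, eval_C, eval_pow, eval_sub, eval_X, mul_one, one_pow, map_natCast, eval_natCast, eval_zero,
    eval_one, zero_sub, e3, eval_neg]
  rcases i with _ | i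
  · simp
    ring
  · simp only [Nat.add_sub_cancel]
    rw [pow_succ (c - B) i]
    push_cast
    ring

/-- On one curve. Let `F(x, y) = Q (x + B) - P (y + B)`; it vanishes at all `(x, y)` with `bil a x y = 0`, that is
`(x + B) (y + B) = dl a`. Differentiate along the curve: with `t = x + B ≠ 0`, the points
`(t s - B, (y + B) / s - B)`, `s ≠ 0`, are on the curve; multiplied with a power of `s` this is a polynomial in `s`
which vanishes for all `s ≠ 0`, so it is zero and so is its derivative at `s = 1` (or use dual numbers: the polynomial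
identity `Pol = 0` obtained with `tw` holds at `x + t ε`). The result is
`(x+B) (Qx (x+B) + Q - Px (y+B)) - (y+B) (Qy (x+B) - Py (y+B) - P) = 0`, that is
`(x+B)^2 Qx + (x+B) Q - (x+B) (y+B) (Px + Qy) + (y+B)^2 Py + (y+B) P = 0`. (1)
From `Q (x + B) = P (y + B)` we get `(x + B) (P - Q) = P (x - y)` and `(y + B) (P - Q) = Q (x - y)`. Multiply (1) by
`(P - Q)^2`:
`(x-y)^2 (P^2 Qx - P Q (Px + Qy) + Q^2 Py) + 2 P Q (x - y) (P - Q) = 0`, which is `(x - y)` times the claim. If `x = y`
the claim holds as then `P = Q`. (For `x ≠ y` cancel.) -/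
theorem ext_curve (G u v : K[X]) (a : K × K) (had : dl a ≠ 0)
    (hode : ∀ x y : K, bil a x y = 0 → G.eval x * (x + a.1) * (x * u.eval y + v.eval y) =
      G.eval y * (y + a.1) * (y * u.eval x + v.eval x)) (x y : K) (hxy : bil a x y = 0) : ext G u v x y = 0 := by
  set B := a.1 with hB
  have hbil : ∀ x y : K, bil a x y = (x + B) * (y + B) - dl a := by
    intro x y
    simp only [bil, dl, hB]
    ring
  set t := x + B with ht
  set c := y + B with hc
  have htc : t * c = dl a := by
    have := hbil x y
    rw [hxy] at this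
    linear_combination -this
  have ht0 : t ≠ 0 := by
    intro h0
    rw [h0, zero_mul] at htc
    exact had htc.symm
  obtain ⟨n, hn1, hn2, hn3⟩ : ∃ n : ℕ, G.natDegree ≤ n ∧ u.natDegree ≤ n ∧ v.natDegree ≤ n :=
    ⟨G.natDegree + u.natDegree + v.natDegree, by omega, by omega, by omega⟩
  set X1 : K[X] := C t * X - C B with hX1
  set Pol : K[X] := G.comp X1 * (C t * X) * (X1 * TT n c B u + TT n c B v) * X ^ (n + 2)
    - TT n c B G * C c * ((C c - C B * X) * u.comp X1 + X * v.comp X1) * X ^ n with hPol
  have hPol0 : Pol = 0 := by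
    refine eq_zero_of_infinite_isRoot Pol ?_
    refine Set.Infinite.mono (s := ({0} : Set K)ᶜ) ?_ (Set.finite_singleton (0 : K)).infinite_compl
    · intro s hs
      have hs : s ≠ 0 := by simpa using hs
      have hb : bil a (t * s - B) (c / s - B) = 0 := by
        rw [hbil]
        have e0 : t * s * (c / s) = t * c := by field_simp
        linear_combination e0 + htc
      have h1 := hode _ _ hb
      change Pol.eval s = 0
      simp only [hPol, hX1, eval_sub, eval_mul, eval_add, eval_comp, eval_C, eval_X, eval_pow, TT_eval hn1 hs,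
        TT_eval hn2 hs, TT_eval hn3 hs]
      have e1 : c - B * s = s * (c / s - B) := by field_simp
      have e2 : c = s * (c / s - B + B) := by field_simp; ring
      have e3 : t * s - B + B = t * s := by ring
      rw [e3] at h1
      rw [e1]
      set y' := c / s - B with hy'
      rw [e2]
      linear_combination (s ^ n * s ^ (n + 2)) * h1
  have hder : (derivative Pol).eval 1 = 0 := by rw [hPol0]; simp
  have hcB : c - B = y := by rw [hc]; ring
  have htB : t - B = x := by rw [ht]; ring
  have h0 := hode x y hxy
  rw [← ht, ← hc] at h0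
  simp only [hPol, hX1, derivative_sub, derivative_mul, derivative_add, derivative_C, derivative_X, derivative_X_pow,
    derivative_comp, eval_sub, eval_mul, eval_add, eval_comp, eval_C, eval_X, eval_pow, TT_eval_one hn1,
    TT_eval_one hn2, TT_eval_one hn3, TT_deriv_one hn1, TT_deriv_one hn2, TT_deriv_one hn3, one_pow, mul_one,
    zero_mul, zero_add, sub_zero, mul_zero, add_zero, one_mul, hcB, htB, eval_zero, eval_one, map_natCast,
    eval_natCast, zero_sub, map_add, map_ofNat, eval_neg] at hder
  set P := G.eval y * (y * u.eval x + v.eval x) with hP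
  set Q := G.eval x * (x * u.eval y + v.eval y) with hQ
  have hQP : Q * t = P * c := by rw [hP, hQ]; linear_combination h0
  set Qx := (derivative G).eval x * (x * u.eval y + v.eval y) + G.eval x * u.eval y with hQx
  set Py := (derivative G).eval y * (y * u.eval x + v.eval x) + G.eval y * u.eval x with hPy
  set Px := G.eval y * (y * (derivative u).eval x + (derivative v).eval x) with hPx
  set Qy := G.eval x * (x * (derivative u).eval y + (derivative v).eval y) with hQy
  have key : t ^ 2 * Qx + t * Q - t * c * (Px + Qy) + c ^ 2 * Py + c * P = 0 := by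
    rw [hQx, hPy, hPx, hQy, hQ, hP]
    have hcy : c = y + B := hc
    have htx : t = x + B := ht
    have hn' : ((n + 2 : ℕ) : K) = (n : K) + 2 := by push_cast; ring
    rw [hn'] at hder
    rw [hQ, hP] at hQP
    have hB' : B = c - y := by rw [hcy]; ring
    rw [hB'] at hder
    linear_combination hder - (2 * (n : K) + 2) * hQP
  by_cases hxy' : x = y
  · subst hxy'
    simp only [ext]
    ring
  · have h3 : (x - y) * ext G u v x y = 0 := by
      have e1 : (P - Q) * t = P * (x - y) := by
        have : t - c = x - y := by rw [ht, hc]; ring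
        linear_combination -hQP + P * this
      have e2 : (P - Q) * c = Q * (x - y) := by
        have : t - c = x - y := by rw [ht, hc]; ring
        linear_combination -hQP + Q * this
      have : (x - y) * ext G u v x y = (P - Q) ^ 2 * (t ^ 2 * Qx + t * Q - t * c * (Px + Qy) + c ^ 2 * Py + c * P) := by
        simp only [ext]
        rw [← hP, ← hQ, ← hQx, ← hPy, ← hPx, ← hQy]
        have f1 : (P - Q) ^ 2 * t ^ 2 = P ^ 2 * (x - y) ^ 2 := by rw [← mul_pow, e1, mul_pow]
        have f2 : (P - Q) ^ 2 * c ^ 2 = Q ^ 2 * (x - y) ^ 2 := by rw [← mul_pow, e2, mul_pow]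
        have f3 : (P - Q) ^ 2 * (t * c) = P * Q * (x - y) ^ 2 := by
          linear_combination (P - Q) * c * e1 + P * (x - y) * e2
        have f4 : (P - Q) ^ 2 * t = (P - Q) * P * (x - y) := by linear_combination (P - Q) * e1
        have f5 : (P - Q) ^ 2 * c = (P - Q) * Q * (x - y) := by linear_combination (P - Q) * e2
        linear_combination (-Qx) * f1 - Py * f2 + (Px + Qy) * f3 - Q * f4 - P * f5
      rw [this, key, mul_zero]
    exact (mul_eq_zero.mp h3).resolve_left (sub_ne_zero.mpr hxy')

end Pool.Agent.SpreadN
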