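import Mathlib

/-!
# MP_9e452d_al: the normalised covering sets over the finite field `F`
-/

set_option autoImplicit false

namespace Pool.Agent.SpreadN

/-- `A` is a set of `q - 2` pairs `(B, C)`, `B ^ 2 ≠ C` (involutions `x y + B (x + y) + C = 0` which do not fix `∞`);
`int`: each monic irreducible quadratic `x ^ 2 + 2 b x + c` belongs to `A` or is orthogonal to an element of `A`;
`ext`, `extinf`: two points of the projective line which are not fixed by any element of `A` are exchanged by an element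
of `A`. -/
structure FCov {F : Type*} [Field F] [Fintype F] (A : Finset (F × F)) : Prop where
  two : ringChar F ≠ 2
  card : A.card + 2 = Fintype.card F
  nd : ∀ a ∈ A, a.1 ^ 2 ≠ a.2
  int : ∀ b c : F, ¬ IsSquare (b ^ 2 - c) → (b, c) ∈ A ∨ ∃ a ∈ A, c - 2 * a.1 * b + a.2 = 0
  ext : ∀ s t : F, s ≠ t → (∀ a ∈ A, s ^ 2 + 2 * a.1 * s + a.2 ≠ 0) → (∀ a ∈ A, t ^ 2 + 2 * a.1 * t + a.2 ≠ 0) →
    ∃ a ∈ A, s * t + a.1 * (s + t) + a.2 = 0
  extinf : ∀ s : F, (∀ a ∈ A, s ^ 2 + 2 * a.1 * s + a.2 ≠ 0) → ∃ a ∈ A, s + a.1 = 0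

variable {F : Type*} [Field F] [Fintype F] [DecidableEq F]

/-- the number of elements of `F` which are not fixed -/
def fz (A : Finset (F × F)) : ℕ := (Finset.univ.filter (fun s : F => ∀ a ∈ A, s ^ 2 + 2 * a.1 * s + a.2 ≠ 0)).card

/-- the internal points (monic irreducible quadratics `x ^ 2 + 2 b x + c`) which are on no line of `A` -/
def fT (A : Finset (F × F)) : Finset (F × F) :=
  Finset.univ.filter (fun p : F × F => ¬ IsSquare (p.1 ^ 2 - p.2) ∧ ∀ a ∈ A, p.2 - 2 * a.1 * p.1 + a.2 ≠ 0)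

end Pool.Agent.SpreadN
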