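import Pool.Agent.Lib_MP_9e452d.Core

/-!
# Piece NFc: the final counting

Notation of `Lib_MP_9e452d/Count.lean`: vectors `z : Fin 3 → F`, `D z = z 0 ^ 2 + z 1 z 2`,
`B a z = 2 a 0 z 0 + a 1 z 2 + a 2 z 1` (the polarisation, `B a a = 2 D a`), `q = card F`.
-/

set_option autoImplicit false

namespace Pool.Agent.SpreadN

open Pool.Agent.SpreadPGL

variable {F : Type*} [Field F]

/-- eigenvectors of a traceless matrix with square `D` (copied from `Lib_MP_9e452d/Mates.lean`) -/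
private theorem nfc_exists_eig (h2 : (2 : F) ≠ 0) (z : Fin 3 → F) (hz0 : D z ≠ 0)
    (hz : IsSquare (D z)) :
    ∃ v0 v1 w0 w1 s : F, v0 * w1 - v1 * w0 ≠ 0 ∧ s ≠ 0 ∧ z 0 = s * (v0 * w1 + v1 * w0) ∧
      z 1 = s * (-2 * v0 * w0) ∧ z 2 = s * (2 * v1 * w1) := by
  obtain ⟨r, hr⟩ := hz
  have hr0 : r ≠ 0 := by
    intro h
    rw [h, mul_zero] at hr
    exact hz0 hr
  unfold D at hr
  by_cases h1 : z 1 = 0
  · have h0 : z 0 ≠ 0 := by
      intro h0
      apply hz0
      unfold D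
      rw [h0, h1]; ring
    refine ⟨2 * z 0, z 2, 0, 1, 1 / 2, ?_, by simpa using h2, ?_, ?_, ?_⟩
    · simpa using ⟨h2, h0⟩
    · field_simp; ring
    · rw [h1]; ring
    · field_simp
  · refine ⟨z 1, r - z 0, z 1, -r - z 0, -1 / (2 * z 1), ?_, ?_, ?_, ?_, ?_⟩
    · have : z 1 * (-r - z 0) - (r - z 0) * z 1 = -(2 * (r * z 1)) := by ring
      rw [this]
      exact neg_ne_zero.2 (mul_ne_zero h2 (mul_ne_zero hr0 h1))
    · exact div_ne_zero (neg_ne_zero.2 one_ne_zero) (mul_ne_zero h2 h1)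
    · field_simp; ring
    · field_simp
    · field_simp; linear_combination hr

private theorem nfc_B_self (a : Fin 3 → F) : B a a = 2 * D a := by
  unfold B D; ring

/-- An isometry which maps `(1, 0, 0)` to a multiple of `c`, if `D c` is a nonzero square. By `exists_eig`
(in `Lib_MP_9e452d/Mates.lean`, copy its statement and proof here if you do not want to import that file)
`c = s (v0 w1 + v1 w0, -2 v0 w0, 2 v1 w1)`, with `D c = s ^ 2 (v0 w1 - v1 w0) ^ 2`, orthogonal to the isotropic vectors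
`e1 = (v0 v1, -v0 ^ 2, v1 ^ 2)`, `e2 = (w0 w1, -w0 ^ 2, w1 ^ 2)` with
`B e1 e2 = -(v0 w1 - v1 w0) ^ 2`. Take `ψ z = (z 0 / r) c + z 1 e1 - (z 2 / (v0 w1 - v1 w0) ^ 2) e2` with
`r ^ 2 = D c`. -/
theorem exists_isometry (h2 : (2 : F) ≠ 0) (c : Fin 3 → F) (hc0 : D c ≠ 0) (hc : IsSquare (D c)) :
    ∃ (ψ : (Fin 3 → F) ≃ₗ[F] (Fin 3 → F)) (r : F), r ≠ 0 ∧ ψ ![r, 0, 0] = c ∧ (∀ z, D (ψ z) = D z) ∧
      ∀ y z, B (ψ y) (ψ z) = B y z := by
  obtain ⟨v0, v1, w0, w1, s, hΔ, hs, e0, e1, e2⟩ := nfc_exists_eig h2 c hc0 hc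
  set g : F := (v0 * w1 - v1 * w0)⁻¹ with hg
  have hg1 : (v0 * w1 - v1 * w0) * g = 1 := mul_inv_cancel₀ hΔ
  set a0 : Fin 3 → F := ![g * (v0 * w1 + v1 * w0), g * (-2 * v0 * w0), g * (2 * v1 * w1)] with ha0
  set a1 : Fin 3 → F := ![v0 * v1, -v0 ^ 2, v1 ^ 2] with ha1
  set a2 : Fin 3 → F := ![-(g ^ 2 * (w0 * w1)), g ^ 2 * w0 ^ 2, -(g ^ 2 * w1 ^ 2)] with ha2
  set φ : (Fin 3 → F) →ₗ[F] (Fin 3 → F) :=
    (LinearMap.proj (R := F) (φ := fun _ : Fin 3 => F) 0).smulRight a0 +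
      (LinearMap.proj (R := F) (φ := fun _ : Fin 3 => F) 1).smulRight a1 +
      (LinearMap.proj (R := F) (φ := fun _ : Fin 3 => F) 2).smulRight a2 with hφ
  have hφa : ∀ z, φ z = z 0 • a0 + z 1 • a1 + z 2 • a2 := fun z => rfl
  have hφ0 : ∀ z, φ z 0 = z 0 * (g * (v0 * w1 + v1 * w0)) + z 1 * (v0 * v1) +
      z 2 * (-(g ^ 2 * (w0 * w1))) := by
    intro z; rw [hφa]; simp [ha0, ha1, ha2]
  have hφ1 : ∀ z, φ z 1 = z 0 * (g * (-2 * v0 * w0)) + z 1 * (-v0 ^ 2) +
      z 2 * (g ^ 2 * w0 ^ 2) := by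
    intro z; rw [hφa]; simp [ha0, ha1, ha2]
  have hφ2 : ∀ z, φ z 2 = z 0 * (g * (2 * v1 * w1)) + z 1 * (v1 ^ 2) +
      z 2 * (-(g ^ 2 * w1 ^ 2)) := by
    intro z; rw [hφa]; simp [ha0, ha1, ha2]
  have hB : ∀ y z, B (φ y) (φ z) = B y z := by
    intro y z
    unfold B
    rw [hφ0, hφ1, hφ2, hφ0, hφ1, hφ2, hg]
    field_simp
    ring
  have hD : ∀ z, D (φ z) = D z := by
    intro z
    have := hB z z
    rw [nfc_B_self, nfc_B_self] at this
    exact mul_left_cancel₀ h2 this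
  have hinj : Function.Injective φ := by
    rw [← LinearMap.ker_eq_bot, LinearMap.ker_eq_bot']
    intro z hz
    have h3 : ∀ y, B z y = 0 := by
      intro y
      rw [← hB, hz]
      unfold B; simp
    have k0 := h3 ![1, 0, 0]
    have k1 := h3 ![0, 1, 0]
    have k2 := h3 ![0, 0, 1]
    unfold B at k0 k1 k2
    simp at k0 k1 k2
    funext i
    fin_cases i
    · rcases k0 with h | h
      · exact absurd h h2
      · simpa using h
    · simpa using k2
    · simpa using k1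
  refine ⟨LinearEquiv.ofInjectiveEndo φ hinj, s * (v0 * w1 - v1 * w0), mul_ne_zero hs hΔ, ?_, ?_, ?_⟩
  · rw [LinearEquiv.coe_ofInjectiveEndo]
    funext i
    fin_cases i
    · show φ _ 0 = c 0
      rw [hφ0, e0]
      simp only [Matrix.cons_val_zero, Matrix.cons_val_one, Matrix.cons_val]
      linear_combination s * (v0 * w1 + v1 * w0) * hg1
    · show φ _ 1 = c 1
      rw [hφ1, e1]
      simp only [Matrix.cons_val_zero, Matrix.cons_val_one, Matrix.cons_val]
      linear_combination s * (-2 * v0 * w0) * hg1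
    · show φ _ 2 = c 2
      rw [hφ2, e2]
      simp only [Matrix.cons_val_zero, Matrix.cons_val_one, Matrix.cons_val]
      linear_combination s * (2 * v1 * w1) * hg1
  · intro z
    rw [LinearEquiv.coe_ofInjectiveEndo]
    exact hD z
  · intro y z
    rw [LinearEquiv.coe_ofInjectiveEndo]
    exact hB y z

variable [Fintype F] [DecidableEq F]

/-- The number of vectors with `D z = ν`, `ν` not a square, on the line of `b`, when `D b` is a nonzero square:
after `exists_isometry` the line is `z 0 = 0` and the equation is `z 1 z 2 = ν`. -/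
theorem line_ext (h2 : (2 : F) ≠ 0) (b : Fin 3 → F) (hb0 : D b ≠ 0) (hb : IsSquare (D b)) (ν : F) (hν : ν ≠ 0) :
    Fintype.card F - 1 ≤ (Finset.univ.filter (fun z : Fin 3 → F => D z = ν ∧ B b z = 0)).card := by
  obtain ⟨ψ, r, hr, hψr, hψD, hψB⟩ := exists_isometry h2 b hb0 hb
  rw [← Fintype.card_units, ← Finset.card_univ]
  refine Finset.card_le_card_of_injOn (fun t : Fˣ => ψ ![0, (t : F), ν * ((t⁻¹ : Fˣ) : F)]) ?_ ?_
  · intro t _
    simp only [Finset.coe_filter, Finset.mem_univ, true_and, Set.mem_setOf_eq]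
    refine ⟨?_, ?_⟩
    · rw [hψD]
      unfold D
      simp only [Matrix.cons_val_zero, Matrix.cons_val_one, Matrix.cons_val]
      have : (t : F) * ((t⁻¹ : Fˣ) : F) = 1 := Units.mul_inv t
      linear_combination ν * this
    · rw [← hψr, hψB]
      unfold B
      simp
  · intro t _ u _ htu
    have h := ψ.injective htu
    have h1 := congrFun h 1
    simp only [Matrix.cons_val_one, Matrix.cons_val_zero] at h1
    exact Units.ext h1

end Pool.Agent.SpreadN
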