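import Pool.Agent.Lib_MP_9e452d.Core

/-!
# Piece NFc2: the number of vectors on an internal line (notation of `Lib_MP_9e452d/Count.lean`)
-/

set_option autoImplicit false

namespace Pool.Agent.SpreadN

open Pool.Agent.SpreadPGL

variable {F : Type*} [Field F]

variable [Fintype F] [DecidableEq F]

private theorem norm_card_eq {c : F} (hc : ¬ IsSquare c) (ν : F) (hν : ν ≠ 0) :
    Fintype.card F + 1 ≤ (Finset.univ.filter (fun p : F × F => p.1 ^ 2 - c * p.2 ^ 2 = ν)).card := by
  classical
  have hsum : Fintype.card F * Fintype.card F =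
      ∑ κ : F, (Finset.univ.filter (fun p : F × F => p.1 ^ 2 - c * p.2 ^ 2 = κ)).card := by
    have h := Finset.card_eq_sum_card_fiberwise (f := fun p : F × F => p.1 ^ 2 - c * p.2 ^ 2)
      (s := Finset.univ) (t := Finset.univ) (fun _ _ => Finset.mem_coe.2 (Finset.mem_univ _))
    rw [Finset.card_univ, Fintype.card_prod] at h
    exact h
  have hzero : (Finset.univ.filter (fun p : F × F => p.1 ^ 2 - c * p.2 ^ 2 = 0)).card ≤ 1 := by
    have hsub : Finset.univ.filter (fun p : F × F => p.1 ^ 2 - c * p.2 ^ 2 = 0) ⊆ {(0, 0)} := by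
      intro p hp
      rw [Finset.mem_filter] at hp
      have h := norm_zero hc hp.2
      rw [Finset.mem_singleton]
      exact Prod.ext h.1 h.2
    refine (Finset.card_le_card hsub).trans ?_
    rw [Finset.card_singleton]
  have hq : 1 < Fintype.card F := Fintype.one_lt_card
  have hmem : ν ∈ (Finset.univ : Finset F).erase 0 := Finset.mem_erase.2 ⟨hν, Finset.mem_univ _⟩
  rw [← Finset.add_sum_erase _ _ (Finset.mem_univ (0 : F)), ← Finset.add_sum_erase _ _ hmem] at hsum
  have hS : ∑ κ ∈ ((Finset.univ : Finset F).erase 0).erase ν,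
      (Finset.univ.filter (fun p : F × F => p.1 ^ 2 - c * p.2 ^ 2 = κ)).card ≤
      (((Finset.univ : Finset F).erase 0).erase ν).card * (Fintype.card F + 1) := by
    rw [← smul_eq_mul]
    exact Finset.sum_le_card_nsmul _ _ _ (fun κ _ => norm_card hc κ)
  rw [Finset.card_erase_of_mem hmem, Finset.card_erase_of_mem (Finset.mem_univ _), Finset.card_univ] at hS
  obtain ⟨m, hm⟩ : ∃ m, Fintype.card F = m + 2 := ⟨Fintype.card F - 2, by omega⟩
  rw [hm] at hsum hS ⊢
  have h3 : m + 2 - 1 - 1 = m := by omega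
  rw [h3] at hS
  nlinarith

/-- The same when `D b` is not a square (then `b 2 ≠ 0`): `(z 0, z 2) ↦ (z 0 - b 0 z 2 / b 2, z 2 / b 2)` is a
bijection from the plane `B b z = 0` to `F × F` which transforms `D` into `x ^ 2 - D b y ^ 2`. By `norm_card` each
of the `q - 1` nonzero values is taken at most `q + 1` times, and all together they are taken `q ^ 2 - 1` times
(`x ^ 2 - D b y ^ 2 = 0` only for `x = y = 0`, `norm_zero`). So each is taken exactly `q + 1` times. -/
theorem line_int (h2 : (2 : F) ≠ 0) (b : Fin 3 → F) (hb : ¬ IsSquare (D b)) (ν : F) (hν : ν ≠ 0) :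
    Fintype.card F + 1 ≤ (Finset.univ.filter (fun z : Fin 3 → F => D z = ν ∧ B b z = 0)).card := by
  classical
  have hb2 : b 2 ≠ 0 := by
    intro h
    apply hb
    unfold D
    rw [h, mul_zero, add_zero]
    exact ⟨b 0, sq _⟩
  refine (norm_card_eq hb ν hν).trans ?_
  refine Finset.card_le_card_of_injOn
    (fun p => ![p.1 + b 0 * p.2, -(2 * b 0 * (p.1 + b 0 * p.2) + b 1 * (b 2 * p.2)) / b 2, b 2 * p.2]) ?_ ?_
  · rintro ⟨x, y⟩ h
    simp only [Finset.coe_filter, Finset.mem_univ, true_and, Set.mem_ofPred_eq] at h ⊢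
    have e0 : (![x + b 0 * y, -(2 * b 0 * (x + b 0 * y) + b 1 * (b 2 * y)) / b 2, b 2 * y] : Fin 3 → F) 0 =
        x + b 0 * y := rfl
    have e1 : (![x + b 0 * y, -(2 * b 0 * (x + b 0 * y) + b 1 * (b 2 * y)) / b 2, b 2 * y] : Fin 3 → F) 1 =
        -(2 * b 0 * (x + b 0 * y) + b 1 * (b 2 * y)) / b 2 := rfl
    have e2 : (![x + b 0 * y, -(2 * b 0 * (x + b 0 * y) + b 1 * (b 2 * y)) / b 2, b 2 * y] : Fin 3 → F) 2 =
        b 2 * y := rfl
    constructor
    · rw [← h]
      unfold D
      rw [e0, e1, e2]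
      field_simp
      ring
    · unfold B
      rw [e0, e1, e2]
      field_simp
      ring
  · rintro ⟨x, y⟩ h ⟨x', y'⟩ h' hh
    have f0 : x + b 0 * y = x' + b 0 * y' := congrFun hh 0
    have f2 : b 2 * y = b 2 * y' := congrFun hh 2
    have hy : y = y' := mul_left_cancel₀ hb2 f2
    subst hy
    have hx : x = x' := add_right_cancel f0
    rw [hx]

end Pool.Agent.SpreadN
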