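import Pool.Agent.Lib_MP_9e452d_n.NFc
import Pool.Agent.Lib_MP_9e452d_n.NFc2

/-!
# Piece NFc3: a vector on two lines
-/

set_option autoImplicit false

namespace Pool.Agent.SpreadN

open Pool.Agent.SpreadPGL

variable {F : Type*} [Field F]

variable [Fintype F] [DecidableEq F]

omit [Fintype F] [DecidableEq F] in
/-- The equation for `z 2` if `z 1 = -σ ^ 2 z 2`. -/
private theorem nfc3_eq {b z : Fin 3 → F} {ν σ : F} (hD : D z = ν) (hB : B b z = 0)
    (hσ : σ ^ 2 * z 2 = -z 1) :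
    ((b 1 - σ ^ 2 * b 2) ^ 2 - 4 * b 0 ^ 2 * σ ^ 2) * z 2 ^ 2 = 4 * b 0 ^ 2 * ν := by
  have h1 : z 1 = -(σ ^ 2 * z 2) := by rw [hσ, neg_neg]
  have h3 : 2 * b 0 * z 0 = -((b 1 - σ ^ 2 * b 2) * z 2) := by
    unfold B at hB
    rw [h1] at hB
    linear_combination hB
  have h4 : z 0 ^ 2 + z 1 * z 2 = ν := hD
  rw [← h4, h1]
  have h5 : 4 * b 0 ^ 2 * z 0 ^ 2 = ((b 1 - σ ^ 2 * b 2) * z 2) ^ 2 := by
    have h6 : 4 * b 0 ^ 2 * z 0 ^ 2 = (2 * b 0 * z 0) ^ 2 := by ring
    rw [h6, h3]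
    ring
  linear_combination -h5

omit [Fintype F] [DecidableEq F] in
private theorem nfc3_two (h2 : (2 : F) ≠ 0) {b : Fin 3 → F} (hb0 : b 0 ≠ 0) {ν : F} (hν : ν ≠ 0)
    {z z' : Fin 3 → F} {σ : F} (hD : D z = ν) (hB : B b z = 0) (hσ : σ ^ 2 * z 2 = -z 1)
    (hD' : D z' = ν) (hB' : B b z' = 0) (hσ' : σ ^ 2 * z' 2 = -z' 1) : z' = z ∨ z' = -z := by
  have e1 := nfc3_eq hD hB hσ
  have e2 := nfc3_eq hD' hB' hσ'
  have h4 : (4 : F) ≠ 0 := by
    have : (4 : F) = 2 * 2 := by norm_num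
    rw [this]
    exact mul_ne_zero h2 h2
  have hk : (b 1 - σ ^ 2 * b 2) ^ 2 - 4 * b 0 ^ 2 * σ ^ 2 ≠ 0 := by
    intro h
    rw [h, zero_mul] at e1
    exact mul_ne_zero (mul_ne_zero h4 (pow_ne_zero 2 hb0)) hν e1.symm
  have h5 : z' 2 ^ 2 = z 2 ^ 2 := mul_left_cancel₀ hk (e2.trans e1.symm)
  have hb20 : 2 * b 0 ≠ 0 := mul_ne_zero h2 hb0
  rcases sq_eq_sq_iff_eq_or_eq_neg.mp h5 with h6 | h6
  · left
    have h7 : z' 1 = z 1 := by
      rw [← neg_inj, ← hσ', ← hσ, h6]
    have h8 : z' 0 = z 0 := by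
      refine mul_left_cancel₀ hb20 ?_
      unfold B at hB hB'
      rw [h6, h7] at hB'
      linear_combination hB' - hB
    funext k
    fin_cases k
    · exact h8
    · exact h7
    · exact h6
  · right
    have h7 : z' 1 = -z 1 := by
      rw [← hσ, ← neg_inj, ← hσ', h6]
      ring
    have h8 : z' 0 = -z 0 := by
      refine mul_left_cancel₀ hb20 ?_
      unfold B at hB hB'
      rw [h6, h7] at hB'
      linear_combination hB' + hB
    funext k
    fin_cases k
    · exact h8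
    · exact h7
    · exact h6

/-- The double counting. -/
private theorem nfc3_count (h2 : (2 : F) ≠ 0) (b : Fin 3 → F) (hb0 : b 0 ≠ 0) (ν : F)
    (hν : ¬ IsSquare ν) (hn : ∀ z : Fin 3 → F, D z = ν → B b z = 0 → IsSquare (-(z 1 * z 2)))
    (T : Finset F)
    (hT : ∀ (z : Fin 3 → F) (σ : F), D z = ν → B b z = 0 → σ ≠ 0 → σ ^ 2 * z 2 = -z 1 → σ ∈ T) :
    (Finset.univ.filter (fun z : Fin 3 → F => D z = ν ∧ B b z = 0)).card ≤ T.card := by
  classical
  have hν0 : ν ≠ 0 := fun h => hν (h ▸ IsSquare.zero)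
  have key : (Finset.univ.filter (fun z : Fin 3 → F => D z = ν ∧ B b z = 0)).card * 2 ≤
      T.card * 2 := by
    refine Finset.card_mul_le_card_mul (fun (z : Fin 3 → F) (σ : F) => σ ^ 2 * z 2 = -z 1) ?_ ?_
    · intro z hz
      obtain ⟨hD, hB⟩ := (Finset.mem_filter.mp hz).2
      obtain ⟨t, ht⟩ := hn z hD hB
      have h12 : z 1 * z 2 ≠ 0 := by
        intro h
        apply hν
        refine ⟨z 0, ?_⟩
        have h3 : z 0 ^ 2 + z 1 * z 2 = ν := hD
        rw [← h3, h, add_zero, sq]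
      have hz2 : z 2 ≠ 0 := right_ne_zero_of_mul h12
      have ht0 : t ≠ 0 := by
        rintro rfl
        rw [mul_zero, neg_eq_zero] at ht
        exact h12 ht
      have hσ0 : t / z 2 ≠ 0 := div_ne_zero ht0 hz2
      have hσ : (t / z 2) ^ 2 * z 2 = -z 1 := by
        field_simp
        linear_combination -ht
      have hσ' : (-(t / z 2)) ^ 2 * z 2 = -z 1 := by rw [neg_sq, hσ]
      have hne : t / z 2 ≠ -(t / z 2) := by
        intro h
        have h3 : 2 * (t / z 2) = 0 := by linear_combination h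
        exact (mul_ne_zero h2 hσ0) h3
      have hsub : ({t / z 2, -(t / z 2)} : Finset F) ⊆
          T.bipartiteAbove (fun (z : Fin 3 → F) (σ : F) => σ ^ 2 * z 2 = -z 1) z := by
        intro σ hs
        rw [Finset.mem_insert, Finset.mem_singleton] at hs
        rw [Finset.mem_bipartiteAbove]
        rcases hs with rfl | rfl
        · exact ⟨hT z _ hD hB hσ0 hσ, hσ⟩
        · exact ⟨hT z _ hD hB (neg_ne_zero.mpr hσ0) hσ', hσ'⟩
      have h3 := Finset.card_le_card hsub
      rwa [Finset.card_pair hne] at h3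
    · intro σ _
      rcases Finset.eq_empty_or_nonempty (Finset.bipartiteBelow
        (fun (z : Fin 3 → F) (σ : F) => σ ^ 2 * z 2 = -z 1)
        (Finset.univ.filter (fun z : Fin 3 → F => D z = ν ∧ B b z = 0)) σ) with h | ⟨z, hz⟩
      · rw [h, Finset.card_empty]
        exact Nat.zero_le _
      · rw [Finset.mem_bipartiteBelow, Finset.mem_filter] at hz
        have hsub : (Finset.bipartiteBelow
            (fun (z : Fin 3 → F) (σ : F) => σ ^ 2 * z 2 = -z 1)
            (Finset.univ.filter (fun z : Fin 3 → F => D z = ν ∧ B b z = 0)) σ) ⊆ {z, -z} := by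
          intro z' hz'
          rw [Finset.mem_bipartiteBelow, Finset.mem_filter] at hz'
          rw [Finset.mem_insert, Finset.mem_singleton]
          exact nfc3_two h2 hb0 hν0 hz.1.2.1 hz.1.2.2 hz.2 hz'.1.2.1 hz'.1.2.2 hz'.2
        exact (Finset.card_le_card hsub).trans Finset.card_le_two
  exact Nat.le_of_mul_le_mul_right key (by norm_num)

/-- Let `c = (1, 0, 0)`. Each `b` not proportional to `c` and with `b 0 ≠ 0`, `D b ≠ 0`, has a vector `z` on its line
with `D z = ν` such that `-(z 1 z 2)` is not a square (`ν` is not a square). Suppose not. For every `z` on the line with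
`D z = ν`, `z 1 z 2 ≠ 0` (otherwise `ν = z 0 ^ 2`), so `z 1 = -μ z 2` with `μ` a nonzero square, and `z` is determined
by `μ` up to sign (`2 b 0 z 0 = -(b 1 - μ b 2) z 2`). So there are at most `2 (q - 1) / 2 = q - 1` such `z`, which
contradicts `line_int` if `D b` is not a square; and if `D b = δ ^ 2` then by `line_ext` every nonzero square `μ`
occurs. But if `b 2 ≠ 0`, let `s = (b 0 ± δ) / b 2`, not both of these are zero (their sum is `2 b 0 / b 2`), and take
`μ = s ^ 2 ≠ 0`: then `(μ b 2 - b 1) ^ 2 = 4 b 0 ^ 2 μ` (as `b 2 s ^ 2 - 2 b 0 s - b 1 = 0`), and `D z` would be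
`0`. If `b 2 = 0`, then `b 1 ≠ 0` and the same holds for `μ = b 1 ^ 2 / (4 b 0 ^ 2)`. -/
theorem exists_cross (h2 : ringChar F ≠ 2) (b : Fin 3 → F) (hb0 : b 0 ≠ 0) (hbD : D b ≠ 0)
    (hbc : b 1 ≠ 0 ∨ b 2 ≠ 0) (ν : F) (hν : ¬ IsSquare ν) :
    ∃ z : Fin 3 → F, D z = ν ∧ B b z = 0 ∧ ¬ IsSquare (-(z 1 * z 2)) := by
  classical
  have h20 : (2 : F) ≠ 0 := Ring.two_ne_zero h2
  have hν0 : ν ≠ 0 := fun h => hν (h ▸ IsSquare.zero)
  have h4 : (4 : F) ≠ 0 := by
    have : (4 : F) = 2 * 2 := by norm_num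
    rw [this]
    exact mul_ne_zero h20 h20
  have hq : 2 ≤ Fintype.card F := Fintype.one_lt_card
  by_contra hcon
  push Not at hcon
  by_cases hb : IsSquare (D b)
  · -- the exceptional `s`
    obtain ⟨s, hs0, hs⟩ : ∃ s : F, s ≠ 0 ∧ (b 1 - s ^ 2 * b 2) ^ 2 = 4 * b 0 ^ 2 * s ^ 2 := by
      by_cases hb2 : b 2 = 0
      · have hb1 : b 1 ≠ 0 := by
          rcases hbc with h | h
          · exact h
          · exact absurd hb2 h
        refine ⟨b 1 / (2 * b 0), div_ne_zero hb1 (mul_ne_zero h20 hb0), ?_⟩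
        rw [hb2]
        field_simp
        ring
      · obtain ⟨δ, hδ⟩ := hb
        have hroot : ∀ ε : F, ε ^ 2 = δ * δ → (b 1 - ((b 0 + ε) / b 2) ^ 2 * b 2) ^ 2 =
            4 * b 0 ^ 2 * ((b 0 + ε) / b 2) ^ 2 := by
          intro ε hε
          have h5 : b 0 ^ 2 + b 1 * b 2 = ε ^ 2 := by
            rw [hε]
            exact hδ
          have h6 : b 1 = (ε ^ 2 - b 0 ^ 2) / b 2 := by
            rw [eq_div_iff hb2]
            linear_combination h5
          rw [h6]
          field_simp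
          ring
        by_cases h5 : b 0 + δ = 0
        · refine ⟨(b 0 + -δ) / b 2, div_ne_zero ?_ hb2, hroot (-δ) (by ring)⟩
          intro h6
          have h7 : 2 * b 0 = 0 := by linear_combination h5 + h6
          exact mul_ne_zero h20 hb0 h7
        · exact ⟨(b 0 + δ) / b 2, div_ne_zero h5 hb2, hroot δ (by ring)⟩
    have h5 := nfc3_count h20 b hb0 ν hν hcon ((Finset.univ.erase 0).erase s) (by
      intro z σ hD hB hσ0 hσ
      refine Finset.mem_erase.mpr ⟨?_, Finset.mem_erase.mpr ⟨hσ0, Finset.mem_univ _⟩⟩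
      rintro rfl
      have e := nfc3_eq hD hB hσ
      rw [hs, sub_self, zero_mul] at e
      exact mul_ne_zero (mul_ne_zero h4 (pow_ne_zero 2 hb0)) hν0 e.symm)
    have h6 := line_ext h20 b hbD hb ν hν0
    rw [Finset.card_erase_of_mem (Finset.mem_erase.mpr ⟨hs0, Finset.mem_univ _⟩),
      Finset.card_erase_of_mem (Finset.mem_univ _), Finset.card_univ] at h5
    omega
  · have h5 := nfc3_count h20 b hb0 ν hν hcon (Finset.univ.erase 0) (by
      intro z σ _ _ hσ0 _
      exact Finset.mem_erase.mpr ⟨hσ0, Finset.mem_univ _⟩)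
    have h6 := line_int h20 b hb ν hν0
    rw [Finset.card_erase_of_mem (Finset.mem_univ _), Finset.card_univ] at h5
    omega

end Pool.Agent.SpreadN
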