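import Pool.Agent.Lib_MP_9e452d_n.NFd0

/-!
# Piece NFd2: the final counting, nonsplit case
-/

set_option autoImplicit false

namespace Pool.Agent.SpreadN

open Pool.Agent.SpreadPGL

variable {F : Type*} [Field F] [Fintype F] [DecidableEq F] {ι : Type*} [Fintype ι] [DecidableEq ι]

/-- The case where `D c` is not a square: some multiple `z0` of `c` has `D z0 = ν`. By `line_int` there are at least
`q + 1` vectors `z` in `S` with `B c z = 0`; each is a multiple of some `a i`, and each `i` has at most two such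
multiples; so at least `(q + 1) / 2` of the `i` satisfy `B (a i) z0 = 0`. The terms at `z0` and `-z0` are at least
`(q - 1) / 2`. -/
theorem fc_nonsplit (h2 : ringChar F ≠ 2) (a : ι → (Fin 3 → F)) (c : Fin 3 → F) (hc : ¬ IsSquare (D c))
    (Hc : ∀ z : Fin 3 → F, ¬ IsSquare (D z) → B c z = 0 → ∃ i, ∃ t : F, z = t • a i) (ν : F) (hν : ¬ IsSquare ν) :
    Fintype.card F ≤ 2 * (∑ z ∈ Finset.univ.filter (fun z : Fin 3 → F => D z = ν), exc a z) + 7 := by
  have h20 : (2 : F) ≠ 0 := Ring.two_ne_zero h2
  have hν0 : ν ≠ 0 := fun h => hν (h ▸ IsSquare.zero)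
  have hDc0 : D c ≠ 0 := fun h => hc (h ▸ IsSquare.zero)
  -- the multiple `z0` of `c`
  obtain ⟨w, hw⟩ := nsq_mul hc hν
  have hz0 : D ((w / D c) • c) = ν := by
    rw [D_smul, div_pow, sq w, ← hw]
    field_simp
  set z0 : Fin 3 → F := (w / D c) • c with hz0def
  set I : Finset ι := Finset.univ.filter (fun i => B (a i) z0 = 0) with hI
  set L : Finset (Fin 3 → F) := Finset.univ.filter (fun z : Fin 3 → F => D z = ν ∧ B c z = 0) with hL
  have hLcard : Fintype.card F + 1 ≤ L.card := line_int h20 c hc ν hν0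
  have hex : ∀ z ∈ L, ∃ i, ∃ t : F, z = t • a i := by
    intro z hz
    have hz' := (Finset.mem_filter.1 hz).2
    exact Hc z (by rw [hz'.1]; exact hν) hz'.2
  have hLne : L.Nonempty := by
    rw [← Finset.card_pos]
    omega
  obtain ⟨z₁, hz₁⟩ := hLne
  obtain ⟨i₁, _⟩ := hex z₁ hz₁
  let f : (Fin 3 → F) → ι := fun z => if h : ∃ i, ∃ t : F, z = t • a i then h.choose else i₁
  have hf : ∀ z ∈ L, ∃ t : F, z = t • a (f z) := by
    intro z hz
    have h := hex z hz
    have hfz : f z = h.choose := dif_pos h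
    rw [hfz]
    exact h.choose_spec
  have hfI : ∀ z ∈ L, f z ∈ I := by
    intro z hz
    obtain ⟨t, ht⟩ := hf z hz
    have hz' := (Finset.mem_filter.1 hz).2
    have ht0 : t ≠ 0 := by
      rintro rfl
      rw [ht, D_smul] at hz'
      exact hν0 (by rw [← hz'.1]; ring)
    rw [hI, Finset.mem_filter]
    refine ⟨Finset.mem_univ _, ?_⟩
    have h1 : B c (t • a (f z)) = 0 := by
      rw [← ht]
      exact hz'.2
    rw [B_smul] at h1
    have h3 : B c (a (f z)) = 0 := (mul_eq_zero.1 h1).resolve_left ht0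
    rw [hz0def, B_smul, B_comm, h3, mul_zero]
  have hfib : ∀ i ∈ I, (L.filter (fun z => f z = i)).card ≤ 2 := by
    intro i _
    rcases (L.filter (fun z => f z = i)).eq_empty_or_nonempty with he | ⟨y, hy⟩
    · rw [he]
      simp
    · have hsub : L.filter (fun z => f z = i) ⊆ {y, -y} := by
        intro z hz
        obtain ⟨hyL, hyi⟩ := Finset.mem_filter.1 hy
        obtain ⟨hzL, hzi⟩ := Finset.mem_filter.1 hz
        obtain ⟨t, ht⟩ := hf y hyL
        obtain ⟨s, hs⟩ := hf z hzL
        rw [hyi] at ht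
        rw [hzi] at hs
        have hyD := (Finset.mem_filter.1 hyL).2.1
        have hzD := (Finset.mem_filter.1 hzL).2.1
        rw [ht, D_smul] at hyD
        rw [hs, D_smul] at hzD
        have hDa : D (a i) ≠ 0 := by
          intro h0
          rw [h0, mul_zero] at hyD
          exact hν0 hyD.symm
        have hsq : s ^ 2 = t ^ 2 := mul_right_cancel₀ hDa (hzD.trans hyD.symm)
        rw [Finset.mem_insert, Finset.mem_singleton]
        rcases sq_eq_sq_iff_eq_or_eq_neg.1 hsq with h | h
        · left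
          rw [hs, ht, h]
        · right
          rw [hs, ht, h, neg_smul]
      exact (Finset.card_le_card hsub).trans Finset.card_le_two
  have hcount : L.card ≤ 2 * I.card := Finset.card_le_mul_card_image_of_maps_to hfI 2 hfib
  have hterm : exc a z0 ≤ ∑ z ∈ Finset.univ.filter (fun z : Fin 3 → F => D z = ν), exc a z :=
    Finset.single_le_sum (f := fun z => exc a z) (fun _ _ => Nat.zero_le _)
      (Finset.mem_filter.2 ⟨Finset.mem_univ _, hz0⟩)
  have hexc : I.card - 1 ≤ exc a z0 := by
    unfold exc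
    rw [hI]
    omega
  omega

end Pool.Agent.SpreadN
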