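import Pool.Agent.Lib_MP_9e452d_n.NFd1
import Pool.Agent.Lib_MP_9e452d_n.NFd2

/-!
# Piece NFd: the final counting
-/

set_option autoImplicit false

namespace Pool.Agent.SpreadN

open Pool.Agent.SpreadPGL

variable {F : Type*} [Field F] [Fintype F] [DecidableEq F] {ι : Type*} [Fintype ι] [DecidableEq ι]

/-- `fc_nonsplit`, or `fc_split` for the family `ψ⁻¹ (a i)` with the isometry of `exists_isometry` (the sum of the
`exc` is invariant: reindex with `ψ`). -/
theorem fc (h2 : ringChar F ≠ 2) (hι : Fintype.card ι + 2 = Fintype.card F) (a : ι → (Fin 3 → F))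
    (hD : ∀ i, D (a i) ≠ 0) (hinj : ∀ i j (t : F), a i = t • a j → i = j)
    (K1 : ∀ z, ¬ IsSquare (D z) → ∃ i, B (a i) z = 0 ∨ ∃ t : F, z = t • a i) (c : Fin 3 → F) (hc : D c ≠ 0)
    (Hc : ∀ z : Fin 3 → F, ¬ IsSquare (D z) → B c z = 0 → ∃ i, ∃ t : F, z = t • a i) (ν : F) (hν : ¬ IsSquare ν) :
    Fintype.card F ≤ 2 * (∑ z ∈ Finset.univ.filter (fun z : Fin 3 → F => D z = ν), exc a z) + 7 := by
  by_cases hcs : IsSquare (D c)
  · have h2' : (2 : F) ≠ 0 := Ring.two_ne_zero h2
    obtain ⟨ψ, r, hr, hψc, hψD, hψB⟩ := exists_isometry h2' c hc hcs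
    have hDs : ∀ z, D (ψ.symm z) = D z := fun z => by
      have h := hψD (ψ.symm z); rw [LinearEquiv.apply_symm_apply] at h; exact h.symm
    have hBs : ∀ y z, B (ψ.symm y) z = B y (ψ z) := fun y z => by
      have h := hψB (ψ.symm y) z; rw [LinearEquiv.apply_symm_apply] at h; exact h.symm
    have hmul : ∀ (z y : Fin 3 → F) (t : F), z = t • ψ.symm y ↔ ψ z = t • y := fun z y t => by
      constructor
      · intro h; rw [h, map_smul, LinearEquiv.apply_symm_apply]
      · intro h
        have h' := congrArg ψ.symm h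
        rw [LinearEquiv.symm_apply_apply, map_smul] at h'
        exact h'
    have key := fc_split h2 hι (fun i => ψ.symm (a i)) (fun i => by rw [hDs]; exact hD i)
      (fun i j t h => hinj i j t (by
        have h' := (hmul _ _ _).1 h
        rwa [LinearEquiv.apply_symm_apply] at h'))
      (fun z hz => by
        obtain ⟨i, hi⟩ := K1 (ψ z) (by rw [hψD]; exact hz)
        refine ⟨i, ?_⟩
        rcases hi with hi | ⟨t, ht⟩
        · left; rw [hBs]; exact hi
        · right; exact ⟨t, (hmul _ _ _).2 ht⟩)
      (fun z hz hz0 => by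
        obtain ⟨i, t, ht⟩ := Hc (ψ z) (by rw [hψD]; exact hz) (by
          rw [← hψc, hψB]
          simp [B, hz0])
        exact ⟨i, t, (hmul _ _ _).2 ht⟩) ν hν
    have hexc : ∀ z, exc (fun i => ψ.symm (a i)) z = exc a (ψ z) := fun z => by
      unfold exc
      congr 2
      · congr 1
        ext i
        simp only [Finset.mem_filter, Finset.mem_univ, true_and]
        rw [hBs]
      · congr 1
        ext i
        simp only [Finset.mem_filter, Finset.mem_univ, true_and]
        exact exists_congr (fun t => hmul _ _ _)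
    have hsum : (∑ z ∈ Finset.univ.filter (fun z : Fin 3 → F => D z = ν), exc (fun i => ψ.symm (a i)) z) =
        ∑ z ∈ Finset.univ.filter (fun z : Fin 3 → F => D z = ν), exc a z := by
      refine Finset.sum_bij (fun z _ => ψ z) ?_ ?_ ?_ ?_
      · intro z hz
        simp only [Finset.mem_filter, Finset.mem_univ, true_and] at hz ⊢
        rw [hψD]; exact hz
      · intro x _ y _ h; exact ψ.injective h
      · intro z hz
        simp only [Finset.mem_filter, Finset.mem_univ, true_and] at hz
        refine ⟨ψ.symm z, ?_, ψ.apply_symm_apply z⟩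
        simp only [Finset.mem_filter, Finset.mem_univ, true_and]
        rw [hDs]; exact hz
      · intro z _; exact hexc z
    rw [hsum] at key
    exact key
  · exact fc_nonsplit h2 a c hcs Hc ν hν

end Pool.Agent.SpreadN
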