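import Pool.Agent.Lib_MP_9e452d_n.NFc3

/-!
# Piece NFd0: the excess (definition)
-/

set_option autoImplicit false

namespace Pool.Agent.SpreadN

open Pool.Agent.SpreadPGL

variable {F : Type*} [Field F] [Fintype F] [DecidableEq F] {ι : Type*} [Fintype ι] [DecidableEq ι]

/-- the excess at `z` -/
def exc (a : ι → (Fin 3 → F)) (z : Fin 3 → F) : ℕ :=
  (Finset.univ.filter (fun i => B (a i) z = 0)).card + (Finset.univ.filter (fun i => ∃ t : F, z = t • a i)).card - 1

end Pool.Agent.SpreadN
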