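import Pool.Agent.Lib_MP_9e452d_n.NFd0

/-!
# Piece NFd1: the final counting, split case
-/

set_option autoImplicit false

namespace Pool.Agent.SpreadN

open Pool.Agent.SpreadPGL

variable {F : Type*} [Field F] [Fintype F] [DecidableEq F] {ι : Type*} [Fintype ι] [DecidableEq ι]

/-- A set of vectors which is contained in `{z, -z}` has at most two elements. -/
private theorem fs_two (P : Finset (Fin 3 → F)) (h : ∀ z ∈ P, ∀ z' ∈ P, z' = z ∨ z' = -z) :
    P.card ≤ 2 := by
  rcases P.eq_empty_or_nonempty with he | ⟨z, hz⟩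
  · rw [he, Finset.card_empty]; omega
  · have hsub : P ⊆ {z, -z} := by
      intro z' hz'
      rw [Finset.mem_insert, Finset.mem_singleton]
      exact h z hz z' hz'
    exact (Finset.card_le_card hsub).trans Finset.card_le_two

private theorem fs_pm {c x y ν : F} (hc : c * x ^ 2 = ν) (hc' : c * y ^ 2 = ν) (hν : ν ≠ 0) :
    y = x ∨ y = -x := by
  have hc0 : c ≠ 0 := by
    rintro rfl
    exact hν (by rw [← hc, zero_mul])
  have h1 : c * ((y - x) * (y + x)) = 0 := by linear_combination hc' - hc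
  rcases mul_eq_zero.1 ((mul_eq_zero.1 h1).resolve_left hc0) with h | h
  · exact Or.inl (sub_eq_zero.1 h)
  · exact Or.inr (eq_neg_of_add_eq_zero_left h)

private theorem fs_ext {z z' : Fin 3 → F} (h0 : z 0 = z' 0) (h1 : z 1 = z' 1) (h2 : z 2 = z' 2) :
    z = z' := by
  funext i
  fin_cases i
  · exact h0
  · exact h1
  · exact h2

/-- the vectors of the first kind -/
private theorem fs_cardA (h2 : (2 : F) ≠ 0) (b : Fin 3 → F) (hb : b 0 ≠ 0) (μ ν : F) (hν : ν ≠ 0) :
    (Finset.univ.filter (fun z : Fin 3 → F => (D z = ν ∧ z 1 = -μ * z 2) ∧ B b z = 0)).card ≤ 2 := by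
  apply fs_two
  intro z hz z' hz'
  rw [Finset.mem_filter] at hz hz'
  obtain ⟨-, ⟨hD, h1⟩, hB⟩ := hz
  obtain ⟨-, ⟨hD', h1'⟩, hB'⟩ := hz'
  have h20 : 2 * b 0 ≠ 0 := mul_ne_zero h2 hb
  have e0 : ∀ w : Fin 3 → F, w 1 = -μ * w 2 → B b w = 0 → w 0 = (μ * b 2 - b 1) / (2 * b 0) * w 2 := by
    intro w hw1 hwB
    unfold B at hwB
    rw [hw1] at hwB
    field_simp
    linear_combination hwB
  have k0 := e0 z h1 hB
  have k0' := e0 z' h1' hB'
  set k := (μ * b 2 - b 1) / (2 * b 0) with hk
  have d1 : (k ^ 2 - μ) * (z 2) ^ 2 = ν := by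
    rw [← hD]
    unfold D
    rw [k0, h1]
    ring
  have d1' : (k ^ 2 - μ) * (z' 2) ^ 2 = ν := by
    rw [← hD']
    unfold D
    rw [k0', h1']
    ring
  rcases fs_pm d1 d1' hν with h | h
  · left
    exact fs_ext (by rw [k0, k0', h]) (by rw [h1, h1', h]) h
  · right
    refine fs_ext ?_ ?_ h
    · rw [Pi.neg_apply, k0, k0', h]; ring
    · rw [Pi.neg_apply, h1, h1', h]; ring

/-- the multiples of a vector -/
private theorem fs_cardB (b : Fin 3 → F) (ν : F) (hν : ν ≠ 0) :
    (Finset.univ.filter (fun z : Fin 3 → F => D z = ν ∧ ∃ t : F, z = t • b)).card ≤ 2 := by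
  apply fs_two
  intro z hz z' hz'
  rw [Finset.mem_filter] at hz hz'
  obtain ⟨-, hD, t, ht⟩ := hz
  obtain ⟨-, hD', t', ht'⟩ := hz'
  have d1 : D b * t ^ 2 = ν := by rw [← hD, ht, D_smul]; ring
  have d1' : D b * t' ^ 2 = ν := by rw [← hD', ht', D_smul]; ring
  rcases fs_pm d1 d1' hν with h | h
  · left; rw [ht, ht', h]
  · right; rw [ht, ht', h, neg_smul]

/-- the vectors of the third kind -/
private theorem fs_cardC (μ ν : F) (hν : ν ≠ 0) :
    (Finset.univ.filter (fun z : Fin 3 → F => (D z = ν ∧ z 1 = -μ * z 2) ∧ z 0 = 0)).card ≤ 2 := by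
  apply fs_two
  intro z hz z' hz'
  rw [Finset.mem_filter] at hz hz'
  obtain ⟨-, ⟨hD, h1⟩, h0⟩ := hz
  obtain ⟨-, ⟨hD', h1'⟩, h0'⟩ := hz'
  have d1 : (-μ) * (z 2) ^ 2 = ν := by
    rw [← hD]
    unfold D
    rw [h0, h1]
    ring
  have d1' : (-μ) * (z' 2) ^ 2 = ν := by
    rw [← hD']
    unfold D
    rw [h0', h1']
    ring
  rcases fs_pm d1 d1' hν with h | h
  · left
    exact fs_ext (by rw [h0, h0']) (by rw [h1, h1', h]) h
  · right
    refine fs_ext ?_ ?_ h
    · rw [Pi.neg_apply, h0, h0', neg_zero]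
    · rw [Pi.neg_apply, h1, h1', h]; ring

/-- the number of solutions of `(x - s y) (x + s y) = ν` -/
private theorem fs_hyp (h2 : (2 : F) ≠ 0) (s ν : F) (hs : s ≠ 0) :
    Fintype.card F - 1 ≤
      (Finset.univ.filter (fun z : Fin 3 → F => D z = ν ∧ z 1 = -(s ^ 2) * z 2)).card := by
  have h1 : Fintype.card F - 1 = (Finset.univ.erase (0 : F)).card := by
    rw [Finset.card_erase_of_mem (Finset.mem_univ _), Finset.card_univ]
  rw [h1]
  refine Finset.card_le_card_of_injOn
    (fun u => ![(u + ν / u) / 2, -(s ^ 2) * ((ν / u - u) / (2 * s)), (ν / u - u) / (2 * s)]) ?_ ?_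
  · intro u hu
    have hu0 : u ≠ 0 := (Finset.mem_erase.1 hu).1
    rw [Finset.mem_coe, Finset.mem_filter]
    refine ⟨Finset.mem_univ _, ?_, ?_⟩
    · simp only [D, Matrix.cons_val_zero, Matrix.cons_val_one, Matrix.cons_val]
      field_simp
      ring
    · simp only [Matrix.cons_val_one, Matrix.cons_val]
  · intro u hu u' hu' e
    have hu0 : u ≠ 0 := (Finset.mem_erase.1 hu).1
    have hu0' : u' ≠ 0 := (Finset.mem_erase.1 hu').1
    have e0 := congrFun e 0
    have e2 := congrFun e 2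
    simp only [Matrix.cons_val_zero, Matrix.cons_val] at e0 e2
    have f0 : u + ν / u = u' + ν / u' := by
      have := congrArg (fun x => x * 2) e0
      simpa [div_mul_cancel₀ _ h2] using this
    have f2 : ν / u - u = ν / u' - u' := by
      have := congrArg (fun x => x * (2 * s)) e2
      simpa [div_mul_cancel₀ _ (mul_ne_zero h2 hs)] using this
    have f3 : 2 * (u - u') = 0 := by linear_combination f0 - f2
    exact sub_eq_zero.1 ((mul_eq_zero.1 f3).resolve_left h2)

/-- The case `c = (r, 0, 0)`. Let `S` be the set of the `z` with `D z = ν`, `J` the set of the `i` with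
`a i 0 ≠ 0` and `j = J.card`. For a nonsquare `λ` the vector `(0, λ, 1)` is proportional to some `a i` by `Hc`,
which is not in `J`; call it `i(λ)`.
(1) `q ≤ 4 j + 3`. The `i` outside `J` have `a i 1 / a i 2 ∈ F^*` (as `D (a i) ≠ 0`), all different by `hinj`, so some
`μ ≠ 0` is not of this form (their number is at most `q - 2`), and `μ` is a square, `μ = s ^ 2`. There are at least
`q - 1` vectors `z` in `S` with `z 1 = -μ z 2`: `(z 0 - s z 2) (z 0 + s z 2) = ν`. For each such `z` (`z 2 ≠ 0`), by `K1`,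
either some `i` has `B (a i) z = 0`, and then `i ∈ J` (else `a i` is proportional to `(0, μ, 1)`), and
`z 0 = (μ a i 2 - a i 1) z 2 / (2 a i 0)`, so at most two such `z` for each `i ∈ J`; or `z = t • a i`; if `i ∈ J` at most
two such `z` for each `i` (`t ^ 2 D (a i) = ν`); if `i ∉ J` then `z 0 = 0`, at most two such `z` in all
(`- μ z 2 ^ 2 = ν`). So `q - 1 ≤ 2 j + 2 j + 2`.
(2) `2 (j - 1) ≤ ∑ z ∈ S, exc a z`. All terms `exc` are sums minus one with positive sum (`K1`). Let `z` in `S` with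
`λ = -z 1 / z 2` not a square. Then `B (a i(λ)) z = 0` and `exc a z ≥ #{i ∈ J : B (a i) z = 0}`. Summing over these
`z` and exchanging the sums, each `i ∈ J` with `a i` not proportional to `(1, 0, 0)` (all but at most one)
contributes at least two, by `exists_cross` (`z` and `-z`).
So `q ≤ 4 j + 3 ≤ 2 ∑ exc + 7`. -/
theorem fc_split (h2 : ringChar F ≠ 2) (hι : Fintype.card ι + 2 = Fintype.card F) (a : ι → (Fin 3 → F))
    (hD : ∀ i, D (a i) ≠ 0) (hinj : ∀ i j (t : F), a i = t • a j → i = j)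
    (K1 : ∀ z, ¬ IsSquare (D z) → ∃ i, B (a i) z = 0 ∨ ∃ t : F, z = t • a i)
    (Hc : ∀ z : Fin 3 → F, ¬ IsSquare (D z) → z 0 = 0 → ∃ i, ∃ t : F, z = t • a i) (ν : F) (hν : ¬ IsSquare ν) :
    Fintype.card F ≤ 2 * (∑ z ∈ Finset.univ.filter (fun z : Fin 3 → F => D z = ν), exc a z) + 7 := by
  classical
  have h2' : (2 : F) ≠ 0 := Ring.two_ne_zero h2
  have hν0 : ν ≠ 0 := fun h => hν (h ▸ IsSquare.zero)
  set J : Finset ι := Finset.univ.filter (fun i => a i 0 ≠ 0) with hJ
  have memJ : ∀ i, i ∈ J ↔ a i 0 ≠ 0 := fun i => by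
    rw [hJ, Finset.mem_filter]
    exact ⟨fun h => h.2, fun h => ⟨Finset.mem_univ _, h⟩⟩
  have hnJ : ∀ i, i ∉ J → a i 0 = 0 := fun i hi => by
    by_contra h
    exact hi ((memJ i).2 h)
  have hn12 : ∀ i, i ∉ J → a i 1 ≠ 0 ∧ a i 2 ≠ 0 := by
    intro i hi
    have h0 := hnJ i hi
    have h1 := hD i
    unfold D at h1
    rw [h0] at h1
    refine ⟨fun h => h1 ?_, fun h => h1 ?_⟩
    · rw [h]; ring
    · rw [h]; ring
  -- the vector of a nonsquare
  have hlam : ∀ lam : F, ¬ IsSquare lam → ∃ i, i ∉ J ∧ a i 1 = lam * a i 2 := by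
    intro lam hl
    have hd : D (![0, lam, 1] : Fin 3 → F) = lam := by
      simp [D]
    obtain ⟨i, t, ht⟩ := Hc ![0, lam, 1] (by rw [hd]; exact hl) (by simp)
    have e0 := congrFun ht 0
    have e1 := congrFun ht 1
    have e2 := congrFun ht 2
    simp only [Matrix.cons_val_zero, Matrix.cons_val_one, Matrix.cons_val, Pi.smul_apply,
      smul_eq_mul] at e0 e1 e2
    have t0 : t ≠ 0 := by
      rintro rfl
      rw [zero_mul] at e2
      exact one_ne_zero e2
    refine ⟨i, ?_, ?_⟩
    · rw [memJ]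
      intro h
      exact h ((mul_eq_zero.1 e0.symm).resolve_left t0)
    · apply mul_left_cancel₀ t0
      linear_combination lam * e2 - e1
  -- part 1
  have part1 : Fintype.card F ≤ 4 * J.card + 3 := by
    -- a ratio which does not occur
    obtain ⟨μ, hμ0, hμ⟩ : ∃ μ : F, μ ≠ 0 ∧ ∀ i, i ∉ J → a i 1 ≠ μ * a i 2 := by
      by_contra hcon
      push Not at hcon
      choose g hg1 hg2 using hcon
      have h3 : Fintype.card Fˣ ≤ Fintype.card ι := by
        refine Fintype.card_le_of_injective (fun x : Fˣ => g x x.ne_zero) ?_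
        intro x y e
        have e1 := hg2 x x.ne_zero
        have e2 := hg2 y y.ne_zero
        have e0 : g x x.ne_zero = g y y.ne_zero := e
        rw [← e0] at e2
        have e3 := (hn12 _ (hg1 x x.ne_zero)).2
        rw [e1] at e2
        exact Units.ext (mul_right_cancel₀ e3 e2)
      rw [Fintype.card_units] at h3
      have h4 : 0 < Fintype.card F := Fintype.card_pos
      omega
    have hsq : IsSquare μ := by
      by_contra h
      obtain ⟨i, hi, he⟩ := hlam μ h
      exact hμ i hi he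
    obtain ⟨s, hs⟩ := hsq
    have hs0 : s ≠ 0 := by
      rintro rfl
      exact hμ0 (by rw [hs, mul_zero])
    have hs2 : μ = s ^ 2 := by rw [hs, sq]
    set T := Finset.univ.filter (fun z : Fin 3 → F => D z = ν ∧ z 1 = -μ * z 2) with hT
    have hTc : Fintype.card F - 1 ≤ T.card := by
      rw [hT, hs2]
      exact fs_hyp h2' s ν hs0
    have hsub : T ⊆ (J.biUnion (fun i => Finset.univ.filter
          (fun z : Fin 3 → F => (D z = ν ∧ z 1 = -μ * z 2) ∧ B (a i) z = 0))) ∪
        (J.biUnion (fun i => Finset.univ.filter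
          (fun z : Fin 3 → F => D z = ν ∧ ∃ t : F, z = t • a i))) ∪
        (Finset.univ.filter (fun z : Fin 3 → F => (D z = ν ∧ z 1 = -μ * z 2) ∧ z 0 = 0)) := by
      intro z hz
      rw [hT, Finset.mem_filter] at hz
      obtain ⟨-, hzD, hz1⟩ := hz
      have hz2 : z 2 ≠ 0 := by
        intro h
        unfold D at hzD
        rw [hz1, h] at hzD
        apply hν
        exact ⟨z 0, by rw [← hzD]; ring⟩
      rw [Finset.mem_union, Finset.mem_union, Finset.mem_biUnion, Finset.mem_biUnion]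
      obtain ⟨i, hi⟩ := K1 z (by rw [hzD]; exact hν)
      rcases hi with hi | ⟨t, ht⟩
      · left; left
        refine ⟨i, ?_, Finset.mem_filter.2 ⟨Finset.mem_univ _, ⟨hzD, hz1⟩, hi⟩⟩
        by_contra hiJ
        have h0 := hnJ i hiJ
        unfold B at hi
        rw [h0, hz1] at hi
        have h5 : (a i 1 - μ * a i 2) * z 2 = 0 := by linear_combination hi
        exact hμ i hiJ (sub_eq_zero.1 ((mul_eq_zero.1 h5).resolve_right hz2))
      · by_cases hiJ : i ∈ J
        · left; right
          exact ⟨i, hiJ, Finset.mem_filter.2 ⟨Finset.mem_univ _, hzD, t, ht⟩⟩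
        · right
          refine Finset.mem_filter.2 ⟨Finset.mem_univ _, ⟨hzD, hz1⟩, ?_⟩
          rw [ht, Pi.smul_apply, hnJ i hiJ, smul_zero]
    have hA : (J.biUnion (fun i => Finset.univ.filter
          (fun z : Fin 3 → F => (D z = ν ∧ z 1 = -μ * z 2) ∧ B (a i) z = 0))).card ≤ J.card * 2 :=
      Finset.card_biUnion_le_card_mul _ _ _ fun i hi => fs_cardA h2' (a i) ((memJ i).1 hi) μ ν hν0
    have hB : (J.biUnion (fun i => Finset.univ.filter
          (fun z : Fin 3 → F => D z = ν ∧ ∃ t : F, z = t • a i))).card ≤ J.card * 2 :=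
      Finset.card_biUnion_le_card_mul _ _ _ fun i _ => fs_cardB (a i) ν hν0
    have hC := fs_cardC μ ν hν0
    have h6 := (Finset.card_le_card hsub).trans ((Finset.card_union_le _ _).trans
      (Nat.add_le_add (Finset.card_union_le _ _) le_rfl))
    have h4 : 0 < Fintype.card F := Fintype.card_pos
    omega
  -- part 2
  set S := Finset.univ.filter (fun z : Fin 3 → F => D z = ν) with hS
  set S' := S.filter (fun z : Fin 3 → F => ¬ IsSquare (-(z 1 * z 2))) with hS'
  set J' := J.filter (fun i => a i 1 ≠ 0 ∨ a i 2 ≠ 0) with hJ'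
  have hJ1 : J.card ≤ J'.card + 1 := by
    have h3 : J'.card + (J.filter (fun i => ¬ (a i 1 ≠ 0 ∨ a i 2 ≠ 0))).card = J.card :=
      Finset.card_filter_add_card_filter_not (s := J) (fun i => a i 1 ≠ 0 ∨ a i 2 ≠ 0)
    have h4 : (J.filter (fun i => ¬ (a i 1 ≠ 0 ∨ a i 2 ≠ 0))).card ≤ 1 := by
      rw [Finset.card_le_one]
      intro i hi i' hi'
      rw [Finset.mem_filter, memJ] at hi hi'
      obtain ⟨hi0, hi1⟩ := hi
      obtain ⟨hi0', hi1'⟩ := hi'
      push Not at hi1 hi1'
      refine hinj i i' (a i 0 / a i' 0) (fs_ext ?_ ?_ ?_)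
      · rw [Pi.smul_apply, smul_eq_mul, div_mul_cancel₀ _ hi0']
      · rw [Pi.smul_apply, smul_eq_mul, hi1.1, hi1'.1, mul_zero]
      · rw [Pi.smul_apply, smul_eq_mul, hi1.2, hi1'.2, mul_zero]
    omega
  have hexc : ∀ z ∈ S', (J.filter (fun i => B (a i) z = 0)).card ≤ exc a z := by
    intro z hz
    rw [hS', Finset.mem_filter] at hz
    have hz12 : z 1 * z 2 ≠ 0 := by
      intro h
      exact hz.2 (by rw [h, neg_zero]; exact IsSquare.zero)
    have hz2 : z 2 ≠ 0 := right_ne_zero_of_mul hz12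
    have hns : ¬ IsSquare (-(z 1) / z 2) := by
      rintro ⟨r, hr⟩
      apply hz.2
      refine ⟨r * z 2, ?_⟩
      have : -(z 1) = r * r * z 2 := by rw [← hr]; field_simp
      linear_combination z 2 * this
    obtain ⟨i, hi, he⟩ := hlam _ hns
    have hBi : B (a i) z = 0 := by
      unfold B
      rw [hnJ i hi, he]
      field_simp
      ring
    have hsub : insert i (J.filter (fun i => B (a i) z = 0)) ⊆
        Finset.univ.filter (fun i => B (a i) z = 0) := by
      intro k hk
      rw [Finset.mem_insert] at hk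
      rcases hk with rfl | hk
      · exact Finset.mem_filter.2 ⟨Finset.mem_univ _, hBi⟩
      · exact Finset.mem_filter.2 ⟨Finset.mem_univ _, (Finset.mem_filter.1 hk).2⟩
    have hcard := Finset.card_le_card hsub
    rw [Finset.card_insert_of_notMem (fun h => hi (Finset.mem_filter.1 h).1)] at hcard
    unfold exc
    omega
  have hsum1 : ∑ z ∈ S', (J.filter (fun i => B (a i) z = 0)).card ≤ ∑ z ∈ S, exc a z :=
    (Finset.sum_le_sum hexc).trans
      (Finset.sum_le_sum_of_subset (Finset.filter_subset _ _))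
  have hsum2 : ∑ z ∈ S', (J.filter (fun i => B (a i) z = 0)).card =
      ∑ i ∈ J, (S'.filter (fun z => B (a i) z = 0)).card := by
    simp only [Finset.card_filter]
    exact Finset.sum_comm
  have hcross : ∀ i ∈ J', 2 ≤ (S'.filter (fun z => B (a i) z = 0)).card := by
    intro i hi
    rw [hJ', Finset.mem_filter] at hi
    obtain ⟨z, hzD, hzB, hzn⟩ := exists_cross h2 (a i) ((memJ i).1 hi.1) (hD i) hi.2 ν hν
    have hmem : ∀ w : Fin 3 → F, D w = ν → B (a i) w = 0 → ¬ IsSquare (-(w 1 * w 2)) →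
        w ∈ S'.filter (fun z => B (a i) z = 0) := by
      intro w h1 h3 h4
      rw [Finset.mem_filter, hS', Finset.mem_filter, hS, Finset.mem_filter]
      exact ⟨⟨⟨Finset.mem_univ _, h1⟩, h4⟩, h3⟩
    have hz2 : z 2 ≠ 0 := by
      intro h
      apply hzn
      rw [h, mul_zero, neg_zero]
      exact IsSquare.zero
    have hne : z ≠ (-1 : F) • z := by
      intro h
      have h3 := congrFun h 2
      rw [Pi.smul_apply, smul_eq_mul] at h3
      have h4 : 2 * z 2 = 0 := by linear_combination h3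
      exact hz2 ((mul_eq_zero.1 h4).resolve_left h2')
    have h5 : ({z, (-1 : F) • z} : Finset (Fin 3 → F)) ⊆ S'.filter (fun z => B (a i) z = 0) := by
      intro w hw
      rw [Finset.mem_insert, Finset.mem_singleton] at hw
      rcases hw with rfl | rfl
      · exact hmem _ hzD hzB hzn
      · refine hmem _ ?_ ?_ ?_
        · rw [D_smul, hzD]; ring
        · rw [B_smul, hzB, mul_zero]
        · rw [Pi.smul_apply, Pi.smul_apply, smul_eq_mul, smul_eq_mul]
          have : -(-1 * z 1 * (-1 * z 2)) = -(z 1 * z 2) := by ring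
          rw [this]
          exact hzn
    calc 2 = ({z, (-1 : F) • z} : Finset (Fin 3 → F)).card := (Finset.card_pair hne).symm
      _ ≤ _ := Finset.card_le_card h5
  have hsum3 : J'.card * 2 ≤ ∑ i ∈ J, (S'.filter (fun z => B (a i) z = 0)).card :=
    calc J'.card * 2 = ∑ _i ∈ J', 2 := by rw [Finset.sum_const, smul_eq_mul]
      _ ≤ ∑ i ∈ J', (S'.filter (fun z => B (a i) z = 0)).card := Finset.sum_le_sum hcross
      _ ≤ _ := Finset.sum_le_sum_of_subset (Finset.filter_subset _ _)
  omega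

end Pool.Agent.SpreadN
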