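import Pool.Agent.Lib_MP_9e452d_n.NSev

/-!
# Piece NFin: the involution `c` and the points of its polar line
-/

set_option autoImplicit false

namespace Pool.Agent.SpreadN

open Polynomial

variable {K : Type*} [Field K] [DecidableEq K] {q : ℕ} {A : Finset (K × K)} [IsAlgClosed K]

private theorem count_prod_le_one (s : Finset K) (y : K) :
    (∏ x ∈ s, (X - C x) : K[X]).rootMultiplicity y ≤ 1 := by
  rw [← count_roots, roots_prod_X_sub_C]
  exact Multiset.nodup_iff_count_le_one.mp s.nodup y

private theorem fin_lhs_monic (B : Finset K) : ((∏ x ∈ B, (X - C x)) * pM q A * pJ q A : K[X]).Monic :=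
  ((monic_prod_of_monic _ _ (fun x _ => monic_X_sub_C x)).mul pM_monic).mul pJ_monic

/-- the three degenerate possibilities. `u = 0`: compare degrees (`natDegree` of the left side of `huv` is
`B.card + q + 2 + nG + nQ + nJ`). -/
theorem OCov.not_u_zero (h : OCov q A) {B : Finset K} {u v : K[X]}
    (hv : v.natDegree ≤ B.card + 3 + (nG q A + nQ q A + nJ q A))
    (huv : (∏ x ∈ B, (X - C x)) * pM q A * pJ q A = X ^ q * u + v) : u ≠ 0 := by
  rintro rfl
  have hq := h.hq
  rw [mul_zero, zero_add] at huv
  have hZ : (∏ x ∈ B, (X - C x) : K[X]).Monic := monic_prod_of_monic _ _ (fun x _ => monic_X_sub_C x)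
  have hZd : (∏ x ∈ B, (X - C x) : K[X]).natDegree = B.card := by
    rw [natDegree_prod_of_monic _ _ (fun x _ => monic_X_sub_C x)]
    simp
  have hd := congrArg natDegree huv
  rw [Monic.natDegree_mul (hZ.mul pM_monic) pJ_monic, Monic.natDegree_mul hZ pM_monic, hZd, h.pM_natDegree,
    pJ_natDegree] at hd
  omega

/-- `v = -κ u`: with `κ = κ1 ^ q`, `(X - κ1) ^ q = X ^ q - κ` divides the left side of `huv`, a product of three
polynomials with simple roots, so a root has multiplicity at most 3; but `q > 3`. -/
theorem OCov.not_const (h : OCov q A) (hq : 3 < q) {B : Finset K} {u v : K[X]}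
    (huv : (∏ x ∈ B, (X - C x)) * pM q A * pJ q A = X ^ q * u + v) (κ : K) : v ≠ -C κ * u := by
  rintro rfl
  have hq3 := h.hq
  have hinf : Infinite K := IsAlgClosed.instInfinite
  obtain ⟨κ1, hκ⟩ := IsAlgClosed.exists_pow_nat_eq κ (show 0 < q by omega)
  have hpow : ((X - C κ1) ^ q : K[X]) = X ^ q - C κ := by
    apply Polynomial.funext
    intro r
    simp only [eval_pow, eval_sub, eval_X, eval_C]
    rw [h.sub_pow, hκ]
  have hdvd : ((X - C κ1) ^ q : K[X]) ∣ (∏ x ∈ B, (X - C x)) * pM q A * pJ q A := by
    rw [huv, hpow]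
    exact ⟨u, by ring⟩
  have hne := (fin_lhs_monic (q := q) (A := A) B).ne_zero
  have h1 : q ≤ ((∏ x ∈ B, (X - C x)) * pM q A * pJ q A : K[X]).rootMultiplicity κ1 :=
    (le_rootMultiplicity_iff hne).mpr hdvd
  rw [rootMultiplicity_mul hne, rootMultiplicity_mul (left_ne_zero_of_mul hne)] at h1
  have h2 : (pM q A).rootMultiplicity κ1 ≤ 2 := by
    have hm : pM q A ≠ 0 := pM_monic.ne_zero
    have h3 := count_prod_le_one ((FF K q).filter (fun x => mu q A x = 0)) κ1
    have h4 := count_prod_le_one ((II K q).filter (fun x => mu q A x = 0)) κ1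
    unfold pM at hm ⊢
    rw [rootMultiplicity_mul hm]
    unfold pZ pW
    omega
  have h5 : (pJ q A).rootMultiplicity κ1 ≤ 1 := count_prod_le_one _ κ1
  have h6 := count_prod_le_one B κ1
  have hq4 : q = 4 := by omega
  have h0 := h.q0
  rw [hq4] at h0
  apply h.two
  have : (2 : K) * 2 = 0 := by
    have e : ((4 : ℕ) : K) = 2 * 2 := by norm_num
    rw [← e]
    exact h0
  exact (mul_self_eq_zero.mp this)

/-- `v = -X u`: `X ^ q - X` divides the left side of `huv`, so each `x` in `FF` is in `B` or has `mu x = 0`. -/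
theorem OCov.not_X (h : OCov q A) {B : Finset K} (hB : B.card + nZ q A < q) {u v : K[X]}
    (huv : (∏ x ∈ B, (X - C x)) * pM q A * pJ q A = X ^ q * u + v) : v ≠ -X * u := by
  rintro rfl
  have hq3 := h.hq
  have hsub : FF K q ⊆ B ∪ (FF K q).filter (fun x => mu q A x = 0) := by
    intro x hx
    have hxq : x ^ q = x := (mem_FF (by omega)).mp hx
    have he := congrArg (eval x) huv
    simp only [eval_mul, eval_add, eval_pow, eval_X, eval_neg, hxq] at he
    have he0 : eval x (∏ x ∈ B, (X - C x)) * eval x (pM q A) * eval x (pJ q A) = 0 := by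
      rw [he]
      ring
    rcases mul_eq_zero.mp he0 with h1 | h1
    · rcases mul_eq_zero.mp h1 with h2 | h2
      · rw [eval_prod, Finset.prod_eq_zero_iff] at h2
        obtain ⟨y, hy, hyx⟩ := h2
        rw [eval_sub, eval_X, eval_C, sub_eq_zero] at hyx
        rw [hyx]
        exact Finset.mem_union_left _ hy
      · exact Finset.mem_union_right _ (Finset.mem_filter.mpr
          ⟨hx, (eval_pM_eq_zero (by omega) (FF_subset (by omega) hx)).mp h2⟩)
    · exact absurd h1 (eval_pJ_ne hx)
  have hc := (Finset.card_le_card hsub).trans (Finset.card_union_le _ _)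
  rw [h.card_FF] at hc
  change q ≤ B.card + nZ q A at hc
  omega

/-- The main case: `Z2 pM pJ = g (α X ^ (q + 1) + β (X ^ q + X) + γ)`. So each irrational `x` in `EE` which is a
root of the second factor `L` is a root of `pM` (then `mu x = 0` and `nu x ≠ 0`) or of `pJ` (then `nu x ≠ 0`).
`L` is separable (`L' = α X ^ q + β`; at a common root `α x ^ q = - β` and `β x ^ q = -γ`, so
`β ^ 2 = α γ`) and all its roots are in `EE`. Let `L1` be the polynomial with the coefficients
`α ^ q, β ^ q, γ ^ q`; for `x` in `EE` we have `L1(x) = L(x) ^ q`, so `L` divides `L1`. If `α ≠ 0` then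
`L1 = α ^ (q - 1) L`, so `β / α` and `γ / α` are rational: divide by `α`. If `α = 0` then `β ≠ 0` and
`L1 = β ^ (q - 1) L`: divide by `β`. -/
theorem OCov.line_c (h : OCov q A) {B : Finset K} (hB : B ⊆ FF K q) {g : K[X]} {α β γ : K}
    (hn : β ^ 2 ≠ α * γ)
    (huv : (∏ x ∈ B, (X - C x)) * pM q A * pJ q A = X ^ q * (g * (C α * X + C β)) + g * (C β * X + C γ)) :
    ∃ α β γ : K, α ^ q = α ∧ β ^ q = β ∧ γ ^ q = γ ∧ β ^ 2 ≠ α * γ ∧
      ∀ x ∈ II K q, α * x ^ (q + 1) + β * (x + x ^ q) + γ = 0 → nu A x ≠ 0 := by
  have hq3 := h.hq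
  have hinf : Infinite K := IsAlgClosed.instInfinite
  have h00 : ∀ x : K, (x + 0) ^ q = x ^ q := fun x => by rw [add_zero]
  set L : K[X] := C α * X ^ (q + 1) + C β * (X ^ q + X) + C γ with hL
  have hfac : (∏ x ∈ B, (X - C x)) * pM q A * pJ q A = L * g := by
    rw [huv, hL, pow_succ]
    ring
  have hevL : ∀ x : K, eval x L = α * x ^ (q + 1) + β * (x + x ^ q) + γ := by
    intro x
    simp only [hL, eval_add, eval_mul, eval_C, eval_pow, eval_X]
    ring
  -- the conclusion for the triple `α, β, γ`
  have hgood : ∀ x ∈ II K q, α * x ^ (q + 1) + β * (x + x ^ q) + γ = 0 → nu A x ≠ 0 := by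
    intro x hx h0
    have hxE : x ∈ EE K q := (Finset.mem_sdiff.mp hx).1
    have hxF : x ∉ FF K q := (Finset.mem_sdiff.mp hx).2
    have he := congrArg (eval x) hfac
    rw [eval_mul, eval_mul, eval_mul, hevL, h0, zero_mul] at he
    rcases mul_eq_zero.mp he with h1 | h1
    · rcases mul_eq_zero.mp h1 with h2 | h2
      · rw [eval_prod, Finset.prod_eq_zero_iff] at h2
        obtain ⟨y, hy, hyx⟩ := h2
        rw [eval_sub, eval_X, eval_C, sub_eq_zero] at hyx
        rw [hyx] at hxF
        exact absurd (hB hy) hxF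
      · exact h.nu_ne_zero hx ((eval_pM_eq_zero (by omega) hxE).mp h2)
    · unfold pJ at h1
      rw [eval_prod, Finset.prod_eq_zero_iff] at h1
      obtain ⟨y, hy, hyx⟩ := h1
      rw [eval_sub, eval_X, eval_C, sub_eq_zero] at hyx
      rw [hyx]
      exact (Finset.mem_filter.mp hy).2.2
  -- the roots of `L` are in `EE`
  have hroot : ∀ x : K, eval x L = 0 → x ∈ EE K q := by
    intro x h0
    have he := congrArg (eval x) hfac
    rw [eval_mul, eval_mul, eval_mul, h0, zero_mul] at he
    rcases mul_eq_zero.mp he with h1 | h1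
    · rcases mul_eq_zero.mp h1 with h2 | h2
      · rw [eval_prod, Finset.prod_eq_zero_iff] at h2
        obtain ⟨y, hy, hyx⟩ := h2
        rw [eval_sub, eval_X, eval_C, sub_eq_zero] at hyx
        rw [hyx]
        exact FF_subset (by omega) (hB hy)
      · unfold pM at h2
        rw [eval_mul] at h2
        rcases mul_eq_zero.mp h2 with h3 | h3
        · unfold pZ at h3
          rw [eval_prod, Finset.prod_eq_zero_iff] at h3
          obtain ⟨y, hy, hyx⟩ := h3
          rw [eval_sub, eval_X, eval_C, sub_eq_zero] at hyx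
          rw [hyx]
          exact FF_subset (by omega) (Finset.mem_filter.mp hy).1
        · unfold pW at h3
          rw [eval_prod, Finset.prod_eq_zero_iff] at h3
          obtain ⟨y, hy, hyx⟩ := h3
          rw [eval_sub, eval_X, eval_C, sub_eq_zero] at hyx
          rw [hyx]
          exact (Finset.mem_sdiff.mp (Finset.mem_filter.mp hy).1).1
    · unfold pJ at h1
      rw [eval_prod, Finset.prod_eq_zero_iff] at h1
      obtain ⟨y, hy, hyx⟩ := h1
      rw [eval_sub, eval_X, eval_C, sub_eq_zero] at hyx
      rw [hyx]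
      exact (Finset.mem_sdiff.mp (Finset.mem_filter.mp hy).1).1
  -- `L` is separable
  have hder : derivative L = C α * X ^ q + C β := by
    have hq0 : (q : K[X]) = 0 := by
      rw [← C_eq_natCast, h.q0, C_0]
    rw [hL]
    simp only [derivative_add, derivative_mul, derivative_C, derivative_X_pow, derivative_X, zero_mul, zero_add,
      Nat.cast_add, Nat.cast_one, h.q0, C_0, C_1, add_zero, mul_one, one_mul, Nat.add_sub_cancel, map_add]
  have hcop : ∀ x : K, eval x L = 0 → eval x (derivative L) ≠ 0 := by
    intro x h0 h1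
    rw [hder] at h1
    simp only [eval_add, eval_mul, eval_C, eval_pow, eval_X] at h1
    rw [hevL, pow_succ] at h0
    apply hn
    have e1 : β * x ^ q + γ = 0 := by linear_combination h0 - x * h1
    linear_combination β * h1 - α * e1
  have hL0 : L ≠ 0 := by
    intro h0
    have hc0 := hcop 0 (by rw [h0, eval_zero])
    rw [h0, derivative_zero, eval_zero] at hc0
    exact hc0 rfl
  have hnod : L.roots.Nodup := by
    rw [Multiset.nodup_iff_count_le_one]
    intro x
    rw [count_roots]
    by_contra hlt
    push Not at hlt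
    have := (one_lt_rootMultiplicity_iff_isRoot hL0).mp hlt
    exact hcop x this.1 this.2
  have hcard : L.roots.toFinset.card = L.natDegree := by
    rw [Multiset.toFinset_card_of_nodup hnod]
    exact (splits_iff_card_roots.mp (IsAlgClosed.splits L))
  have h0q : (0 : K) ^ q = 0 := zero_pow (by omega)
  -- the conjugate polynomial
  have hpol : ∀ ℓ : K, ((C (ℓ ^ (q - 1)) * L - (C (α ^ q) * X ^ (q + 1) + C (β ^ q) * (X ^ q + X) + C (γ ^ q))).degree
      < (L.natDegree : WithBot ℕ)) →
      C (ℓ ^ (q - 1)) * L = C (α ^ q) * X ^ (q + 1) + C (β ^ q) * (X ^ q + X) + C (γ ^ q) := by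
    intro ℓ hdeg
    apply eq_of_degree_sub_lt_of_eval_finset_eq L.roots.toFinset
    · rw [hcard]
      exact hdeg
    · intro x hx
      have hx0 : eval x L = 0 := by
        have := Multiset.mem_toFinset.mp hx
        exact (mem_roots hL0).mp this
      have hxE := hroot x hx0
      have hqq := pow_pow_q (by omega) hxE
      have hq' : (eval x L) ^ q = 0 := by rw [hx0, h0q]
      rw [hevL, h.frob, h.frob, mul_pow, mul_pow, h.frob, pow_succ, mul_pow, hqq] at hq'
      simp only [eval_mul, eval_C, hx0, mul_zero, eval_add, eval_pow, eval_X]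
      rw [pow_succ]
      linear_combination -hq'
  by_cases hα : α = 0
  · have hβ : β ≠ 0 := by
      rintro rfl
      apply hn
      rw [hα]
      ring
    have hLd : L.natDegree = q := by
      have e : L = C β * X ^ q + (C β * X + C γ) := by
        rw [hL, hα, C_0]
        ring
      rw [e, natDegree_add_eq_left_of_natDegree_lt]
      · exact natDegree_C_mul_X_pow q β hβ
      · rw [natDegree_C_mul_X_pow q β hβ]
        exact lt_of_le_of_lt natDegree_linear_le (by omega)
    have hp := hpol β (by
      rw [hLd]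
      have e : C (β ^ (q - 1)) * L - (C (α ^ q) * X ^ (q + 1) + C (β ^ q) * (X ^ q + X) + C (γ ^ q)) =
          C (β ^ (q - 1) * γ - γ ^ q) := by
        have e2 : β ^ q = β ^ (q - 1) * β := by rw [← pow_succ]; congr 1; omega
        rw [hL, hα, h0q, e2]
        simp only [C_0, C_mul, C_sub]
        ring
      rw [e]
      refine lt_of_le_of_lt degree_C_le ?_
      exact_mod_cast (show 0 < q by omega))
    have hγ : β ^ (q - 1) * γ = γ ^ q := by
      have he := congrArg (eval 0) hp
      rw [eval_mul, eval_C, hevL] at he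
      simp only [eval_add, eval_mul, eval_C, eval_pow, eval_X, h0q, zero_pow (show q + 1 ≠ 0 by omega), mul_zero,
        add_zero, zero_add] at he
      exact he
    have e2 : β ^ q = β ^ (q - 1) * β := by rw [← pow_succ]; congr 1; omega
    refine ⟨0, 1, γ / β, h0q, one_pow q, ?_, by simp, ?_⟩
    · rw [div_pow, e2, ← hγ]
      field_simp
    · intro x hx h0
      apply hgood x hx
      rw [hα]
      field_simp at h0
      linear_combination h0
  · have hLd : L.natDegree = q + 1 := by
      have e : L = C α * X ^ (q + 1) + (C β * X ^ q + (C β * X + C γ)) := by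
        rw [hL]
        ring
      have hlow : (C β * X ^ q + (C β * X + C γ) : K[X]).natDegree < q + 1 := by
        refine lt_of_le_of_lt (natDegree_add_le _ _) (max_lt ?_ ?_)
        · exact lt_of_le_of_lt (natDegree_C_mul_X_pow_le _ _) (by omega)
        · exact lt_of_le_of_lt natDegree_linear_le (by omega)
      rw [e, natDegree_add_eq_left_of_natDegree_lt]
      · exact natDegree_C_mul_X_pow (q + 1) α hα
      · rw [natDegree_C_mul_X_pow (q + 1) α hα]
        exact hlow
    have e2 : α ^ q = α ^ (q - 1) * α := by rw [← pow_succ]; congr 1; omega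
    have hp := hpol α (by
      rw [hLd]
      have e : C (α ^ (q - 1)) * L - (C (α ^ q) * X ^ (q + 1) + C (β ^ q) * (X ^ q + X) + C (γ ^ q)) =
          C (α ^ (q - 1) * β - β ^ q) * X ^ q + (C (α ^ (q - 1) * β - β ^ q) * X +
            C (α ^ (q - 1) * γ - γ ^ q)) := by
        rw [hL, e2]
        simp only [C_mul, C_sub]
        ring
      rw [e]
      refine lt_of_le_of_lt degree_le_natDegree ?_
      have : (C (α ^ (q - 1) * β - β ^ q) * X ^ q + (C (α ^ (q - 1) * β - β ^ q) * X +
            C (α ^ (q - 1) * γ - γ ^ q)) : K[X]).natDegree < q + 1 := by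
        refine lt_of_le_of_lt (natDegree_add_le _ _) (max_lt ?_ ?_)
        · exact lt_of_le_of_lt (natDegree_C_mul_X_pow_le _ _) (by omega)
        · exact lt_of_le_of_lt natDegree_linear_le (by omega)
      exact_mod_cast this)
    have hγ : α ^ (q - 1) * γ = γ ^ q := by
      have he := congrArg (eval 0) hp
      rw [eval_mul, eval_C, hevL] at he
      simp only [eval_add, eval_mul, eval_C, eval_pow, eval_X, h0q, zero_pow (show q + 1 ≠ 0 by omega), mul_zero,
        add_zero, zero_add] at he
      exact he
    have hβ : α ^ (q - 1) * β = β ^ q := by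
      have he := congrArg (fun p : K[X] => p.coeff 1) hp
      simp only [hL, coeff_C_mul, coeff_add, coeff_X_pow, coeff_X_one, coeff_C, show ¬ (1 : ℕ) = 0 by omega,
        show ¬ (1 = q + 1) by omega, show ¬ (1 = q) by omega, if_false, mul_zero, add_zero, zero_add, mul_one] at he
      exact he
    refine ⟨1, β / α, γ / α, one_pow q, ?_, ?_, ?_, ?_⟩
    · rw [div_pow, e2, ← hβ]
      field_simp
    · rw [div_pow, e2, ← hγ]
      field_simp
    · intro h0
      apply hn
      field_simp at h0
      linear_combination h0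
    · intro x hx h0
      apply hgood x hx
      field_simp at h0
      linear_combination h0

end Pool.Agent.SpreadN
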