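import Pool.Agent.Lib_MP_9e452d_n.NNum

/-!
# Piece NKey: the key identity and the direction relation
-/

set_option autoImplicit false

namespace Pool.Agent.SpreadN

open Polynomial

variable {K : Type*} [Field K] [DecidableEq K] {q : ℕ} {A : Finset (K × K)}

private theorem nk_prod_pow (h : OCov q A) (S : Finset K) (m : K → ℕ) (hS : ∀ x ∈ S, x ^ q ∈ S)
    (hm : ∀ x ∈ S, m (x ^ q) = m x) (y : K) :
    (∏ x ∈ S, (y - x) ^ m x) ^ q = ∏ x ∈ S, (y ^ q - x) ^ m x := by
  have hinj : ∀ a ∈ S, ∀ b ∈ S, a ^ q = b ^ q → a = b := fun a _ b _ hab => h.pow_inj hab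
  have himg : S.image (fun x => x ^ q) = S := by
    refine Finset.eq_of_subset_of_card_le ?_ ?_
    · intro z hz
      obtain ⟨x, hx, rfl⟩ := Finset.mem_image.1 hz
      exact hS x hx
    · rw [Finset.card_image_of_injOn fun a ha b hb hab => hinj a ha b hb hab]
  calc (∏ x ∈ S, (y - x) ^ m x) ^ q = ∏ x ∈ S, (y ^ q - x ^ q) ^ m (x ^ q) := by
        rw [← Finset.prod_pow]
        refine Finset.prod_congr rfl fun x hx => ?_
        rw [← pow_mul, mul_comm, pow_mul, h.sub_pow, hm x hx]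
    _ = ∏ z ∈ S.image (fun x => x ^ q), (y ^ q - z) ^ m z := by
        rw [Finset.prod_image hinj]
    _ = ∏ x ∈ S, (y ^ q - x) ^ m x := by rw [himg]

private theorem nk_pM_eval (x : K) : (pM q A).eval x =
    (∏ z ∈ (FF K q).filter (fun x => mu q A x = 0), (x - z) ^ (fun _ : K => 1) z) *
      ∏ z ∈ (II K q).filter (fun x => mu q A x = 0), (x - z) ^ (fun _ : K => 1) z := by
  unfold pM pZ pW
  rw [eval_mul, eval_prod, eval_prod]
  simp

private theorem nk_pg_eval (x : K) : (pg q A).eval x =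
    (∏ z ∈ FF K q, (x - z) ^ (mu q A z - 1)) * ∏ z ∈ II K q, (x - z) ^ (mu q A z - 1) := by
  unfold pg pG pQ
  rw [eval_mul, eval_prod, eval_prod]
  simp

/-- the polynomials are products over sets which are stable under `x ↦ x ^ q` (with `mu`, `nu` invariant) -/
theorem OCov.pM_pow (h : OCov q A) (x : K) : (pM q A).eval x ^ q = (pM q A).eval (x ^ q) := by
  have hq : 2 ≤ q := by have := h.hq; omega
  rw [nk_pM_eval, nk_pM_eval, mul_pow, nk_prod_pow h _ _ ?_ (fun _ _ => rfl),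
    nk_prod_pow h _ _ ?_ (fun _ _ => rfl)]
  · intro z hz
    rw [Finset.mem_filter] at hz ⊢
    refine ⟨h.pow_mem_II hz.1, ?_⟩
    rw [h.mu_pow (Finset.mem_sdiff.1 hz.1).1]
    exact hz.2
  · intro z hz
    rw [Finset.mem_filter] at hz
    have h1 := (mem_FF hq).1 hz.1
    rw [h1, Finset.mem_filter]
    exact hz

theorem OCov.pg_pow (h : OCov q A) (x : K) : (pg q A).eval x ^ q = (pg q A).eval (x ^ q) := by
  have hq : 2 ≤ q := by have := h.hq; omega
  rw [nk_pg_eval, nk_pg_eval, mul_pow, nk_prod_pow h _ _ ?_ ?_, nk_prod_pow h _ _ ?_ ?_]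
  · intro z hz
    exact h.pow_mem_II hz
  · intro z hz
    rw [h.mu_pow (Finset.mem_sdiff.1 hz).1]
  · intro z hz
    rw [(mem_FF hq).1 hz]
    exact hz
  · intro z hz
    rw [(mem_FF hq).1 hz]

/-- `pM` vanishes at `x` in `EE` exactly if `mu x = 0` -/
theorem eval_pM_eq_zero (hq : 2 ≤ q) {x : K} (hx : x ∈ EE K q) : (pM q A).eval x = 0 ↔ mu q A x = 0 := by
  rw [nk_pM_eval, mul_eq_zero, Finset.prod_eq_zero_iff, Finset.prod_eq_zero_iff]
  simp only [pow_one, sub_eq_zero, Finset.mem_filter]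
  constructor
  · rintro (⟨z, hz, rfl⟩ | ⟨z, hz, rfl⟩)
    · exact hz.2
    · exact hz.2
  · intro hmu
    by_cases hF : x ∈ FF K q
    · exact Or.inl ⟨x, ⟨hF, hmu⟩, rfl⟩
    · exact Or.inr ⟨x, ⟨Finset.mem_sdiff.2 ⟨hx, hF⟩, hmu⟩, rfl⟩

/-- `pg` vanishes at `x` in `EE` exactly if `2 ≤ mu x` -/
theorem eval_pg_eq_zero (hq : 2 ≤ q) {x : K} (hx : x ∈ EE K q) : (pg q A).eval x = 0 ↔ 2 ≤ mu q A x := by
  rw [nk_pg_eval, mul_eq_zero, Finset.prod_eq_zero_iff, Finset.prod_eq_zero_iff]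
  simp only [pow_eq_zero_iff', sub_eq_zero]
  constructor
  · rintro (⟨z, hz, rfl, hm⟩ | ⟨z, hz, rfl, hm⟩) <;> omega
  · intro hmu
    by_cases hF : x ∈ FF K q
    · exact Or.inl ⟨x, hF, rfl, by omega⟩
    · exact Or.inr ⟨x, Finset.mem_sdiff.2 ⟨hx, hF⟩, rfl, by omega⟩

variable [IsAlgClosed K]

/-- `∏ La = ∏ x ∈ EE, (X - C x) ^ mu x` by `La_eq`; multiply with `pM`. -/
theorem OCov.key (h : OCov q A) : pM q A * ∏ a ∈ A, La q a = (X ^ (q ^ 2) - X) * pg q A := by
  have hq : 2 ≤ q := by have := h.hq; omega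
  have hsplit : ∀ f : K → K[X], (∏ x ∈ FF K q, f x) * ∏ x ∈ II K q, f x = ∏ x ∈ EE K q, f x := by
    intro f
    rw [mul_comm]
    exact Finset.prod_sdiff (FF_subset hq)
  have h1 : pM q A = ∏ x ∈ EE K q, (if mu q A x = 0 then (X - C x) else 1) := by
    unfold pM pZ pW
    rw [Finset.prod_filter, Finset.prod_filter]
    exact hsplit _
  have h2 : pg q A = ∏ x ∈ EE K q, (X - C x) ^ (mu q A x - 1) := by
    unfold pg pG pQ
    exact hsplit _
  have h3 : ∏ a ∈ A, La q a = ∏ x ∈ EE K q, (X - C x) ^ mu q A x := by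
    calc ∏ a ∈ A, La q a = ∏ a ∈ A, ∏ x ∈ EE K q, (if bil a x (x ^ q) = 0 then (X - C x) else 1) := by
          refine Finset.prod_congr rfl fun a ha => ?_
          rw [h.La_eq (h.rat1 a ha) (h.rat2 a ha) (h.nd a ha), Finset.prod_filter]
      _ = ∏ x ∈ EE K q, ∏ a ∈ A, (if bil a x (x ^ q) = 0 then (X - C x) else 1) :=
          Finset.prod_comm
      _ = ∏ x ∈ EE K q, (X - C x) ^ mu q A x := by
          refine Finset.prod_congr rfl fun x _ => ?_
          rw [← Finset.prod_filter, Finset.prod_const]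
          rfl
  rw [h1, h2, h3, ← h.prod_EE, ← Finset.prod_mul_distrib, ← Finset.prod_mul_distrib]
  refine Finset.prod_congr rfl fun x _ => ?_
  by_cases hm : mu q A x = 0
  · rw [if_pos hm, hm, pow_zero]
  · rw [if_neg hm, one_mul, ← pow_succ', Nat.sub_add_cancel (Nat.one_le_iff_ne_zero.2 hm)]

/-- If `mu x = 1`, with `bil a x (x ^ q) = 0`: the derivative of `key` at `x` is
`pM(x) (x ^ q + B) r = - pg(x)` with `r = ∏ b ∈ A.erase a, bil b x (x ^ q)`, and `r ^ q = r` by `bil_rat`. -/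
theorem OCov.deriv_key (h : OCov q A) {a : K × K} (ha : a ∈ A) {x : K} (hx : x ∈ EE K q)
    (hax : bil a x (x ^ q) = 0) : ∃ r : K, r ^ q = r ∧
      (pM q A).eval x * (x ^ q + a.1) * r = - (pg q A).eval x := by
  have hq : 2 ≤ q := by have := h.hq; omega
  refine ⟨∏ b ∈ A.erase a, bil b x (x ^ q), ?_, ?_⟩
  · rw [← Finset.prod_pow]
    refine Finset.prod_congr rfl fun b hb => ?_
    have hb' := Finset.mem_of_mem_erase hb
    exact h.bil_rat (h.rat1 b hb') (h.rat2 b hb') hx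
  · have hkey := congrArg (fun P : K[X] => (derivative P).eval x) h.key
    have hprod : ∏ b ∈ A, La q b = La q a * ∏ b ∈ A.erase a, La q b :=
      (Finset.mul_prod_erase A (fun b => La q b) ha).symm
    have hev : (∏ b ∈ A.erase a, La q b).eval x = ∏ b ∈ A.erase a, bil b x (x ^ q) := by
      rw [eval_prod]
      exact Finset.prod_congr rfl fun b hb => h.eval_La (h.rat1 b (Finset.mem_of_mem_erase hb)) x
    have hxx : x ^ (q ^ 2) = x := (mem_EE hq).1 hx
    have hqq : ((q ^ 2 : ℕ) : K) = 0 := by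
      rw [Nat.cast_pow, h.q0, zero_pow two_ne_zero]
    have hLa0 : (La q a).eval x = 0 := by
      rw [h.eval_La (h.rat1 a ha), hax]
    have hLa1 := h.eval_deriv_La (h.rat1 a ha) x
    beta_reduce at hkey
    rw [hprod, derivative_mul, derivative_mul, derivative_mul, derivative_sub, derivative_X_pow,
      derivative_X, hqq] at hkey
    simp only [eval_add, eval_mul, eval_sub, eval_pow, eval_X, hLa0, hLa1, hev, hxx,
      map_zero, zero_mul, mul_zero, zero_add, add_zero, zero_sub, sub_self, eval_neg,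
      eval_one] at hkey
    linear_combination hkey

/-- The direction relation. If `2 ≤ mu x` both sides are zero. Otherwise use `deriv_key` at `x` and its `q`-th
power: `pM(x ^ q) (x + B) r = - pg(x ^ q)` (as `(x ^ q) ^ q = x`). In fact `deriv_key` and its `q`-th power give it
in all cases: both sides are `- pM(x) pM(x ^ q) (x + B) (x ^ q + B) r`. -/
theorem OCov.dir (h : OCov q A) {a : K × K} (ha : a ∈ A) {x : K} (hx : x ∈ EE K q) (hax : bil a x (x ^ q) = 0) :
    (pg q A).eval x * (pM q A).eval (x ^ q) * (x + a.1) =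
      (pg q A).eval (x ^ q) * (pM q A).eval x * (x ^ q + a.1) := by
  have hq : 2 ≤ q := by have := h.hq; omega
  obtain ⟨r, hr, h1⟩ := h.deriv_key ha hx hax
  have h2 : (pM q A).eval (x ^ q) * (x + a.1) * r = - (pg q A).eval (x ^ q) := by
    have h3 := congrArg (fun t : K => t ^ q) h1
    beta_reduce at h3
    rw [mul_pow, mul_pow, h.pM_pow, h.frob, pow_pow_q hq hx, h.rat1 a ha, hr, h.neg_pow,
      h.pg_pow] at h3
    exact h3
  linear_combination (pM q A).eval (x ^ q) * (x + a.1) * h1 - (pM q A).eval x * (x ^ q + a.1) * h2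

end Pool.Agent.SpreadN
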