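import Pool.Agent.Lib_MP_9e452d_n.NSev

/-!
# Piece NLac: the lacunary form
-/

set_option autoImplicit false

namespace Pool.Agent.SpreadN

open Polynomial

variable {K : Type*} [Field K] [DecidableEq K] {q : ℕ} {A : Finset (K × K)} [IsAlgClosed K]

omit [DecidableEq K] [IsAlgClosed K] in
private theorem prod_lin_dvd (s : Finset K) (P : K[X]) (hP : ∀ x ∈ s, P.eval x = 0) :
    ∏ x ∈ s, (X - C x) ∣ P := by
  refine Finset.prod_dvd_of_coprime ?_ ?_
  · intro x _ y _ hxy
    exact isCoprime_X_sub_C_of_isUnit_sub (sub_ne_zero.2 hxy).isUnit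
  · intro x hx
    exact dvd_iff_isRoot.2 (hP x hx)

/-- `P = pM pJ - pZ V` vanishes on `FF \ B`, so `Z2 P` with `Z2 = ∏ x ∈ B, (X - C x)` vanishes on `FF` and is
`(X ^ q - X) u` (`prod_FF`). The degree of `P` is at most `q + 2 + nG + nQ + nJ` (note
`nZ + natDegree V ≤ nG + 3 + nQ + nJ` by `rel2`), so `natDegree u ≤ B.card + 2 + nG + nQ + nJ`. Put
`v = Z2 pZ V - X u`. -/
theorem OCov.lacunary (h : OCov q A) (V : K[X]) (B : Finset K) (hV : 2 * V.natDegree ≤ nQ q A + nJ q A)
    (hB : B ⊆ FF K q)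
    (hBV : ∀ x ∈ FF K q, x ∉ B → (pM q A).eval x * (pJ q A).eval x = (pZ q A).eval x * V.eval x) :
    ∃ u v : K[X], u.natDegree ≤ B.card + 2 + (nG q A + nQ q A + nJ q A) ∧
      v.natDegree ≤ B.card + 3 + (nG q A + nQ q A + nJ q A) ∧
      (∏ x ∈ B, (X - C x)) * pM q A * pJ q A = X ^ q * u + v := by
  have hq3 := h.hq
  have hr2 := h.rel2
  have hcF := h.card_FF
  have hprod := h.prod_FF
  have hMd : (pM q A).natDegree = q + 2 + nG q A + nQ q A := h.pM_natDegree
  have hJd : (pJ q A).natDegree = nJ q A := pJ_natDegree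
  have hZd : (pZ q A).natDegree = nZ q A := pZ_natDegree
  have hZVd : (pZ q A * V).natDegree ≤ nG q A + 3 + nQ q A + nJ q A := by
    refine natDegree_mul_le.trans ?_
    omega
  have hMJd : (pM q A * pJ q A).natDegree ≤ q + 2 + (nG q A + nQ q A + nJ q A) := by
    refine natDegree_mul_le.trans ?_
    omega
  have hPd : (pM q A * pJ q A - pZ q A * V).natDegree ≤ q + 2 + (nG q A + nQ q A + nJ q A) := by
    refine (natDegree_sub_le _ _).trans (max_le hMJd (hZVd.trans ?_))
    omega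
  have hZ2d : (∏ x ∈ B, (X - C x) : K[X]).natDegree = B.card :=
    natDegree_finsetProd_X_sub_C_eq_card _ (fun x : K => x)
  have hFBc : (FF K q \ B).card + B.card = q := by
    rw [Finset.card_sdiff_add_card_eq_card hB, hcF]
  have hFBd : (∏ x ∈ FF K q \ B, (X - C x) : K[X]).natDegree = (FF K q \ B).card :=
    natDegree_finsetProd_X_sub_C_eq_card _ (fun x : K => x)
  have hFBm : (∏ x ∈ FF K q \ B, (X - C x) : K[X]).Monic :=
    monic_prod_of_monic _ _ (fun x _ => monic_X_sub_C x)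
  obtain ⟨u, hu⟩ := prod_lin_dvd (FF K q \ B) (pM q A * pJ q A - pZ q A * V) (by
    intro x hx
    rw [Finset.mem_sdiff] at hx
    rw [eval_sub, eval_mul, eval_mul, hBV x hx.1 hx.2, sub_self])
  have hud : u.natDegree ≤ B.card + 2 + (nG q A + nQ q A + nJ q A) := by
    by_cases hu0 : u = 0
    · rw [hu0, natDegree_zero]
      exact Nat.zero_le _
    · have h1 : (pM q A * pJ q A - pZ q A * V).natDegree = (FF K q \ B).card + u.natDegree := by
        rw [hu, hFBm.natDegree_mul' hu0, hFBd]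
      omega
  refine ⟨u, (∏ x ∈ B, (X - C x)) * (pZ q A * V) - X * u, hud, ?_, ?_⟩
  · refine (natDegree_sub_le _ _).trans (max_le ?_ ?_)
    · refine natDegree_mul_le.trans ?_
      rw [hZ2d]
      omega
    · refine natDegree_mul_le.trans ?_
      rw [natDegree_X]
      omega
  · have h2 : (∏ x ∈ FF K q \ B, (X - C x) : K[X]) * ∏ x ∈ B, (X - C x) = X ^ q - X := by
      rw [Finset.prod_sdiff hB, hprod]
    have h3 : pM q A * pJ q A = (∏ x ∈ FF K q \ B, (X - C x)) * u + pZ q A * V := by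
      rw [← hu]
      ring
    calc (∏ x ∈ B, (X - C x)) * pM q A * pJ q A = (∏ x ∈ B, (X - C x)) * (pM q A * pJ q A) := by ring
      _ = ((∏ x ∈ FF K q \ B, (X - C x) : K[X]) * ∏ x ∈ B, (X - C x)) * u +
          (∏ x ∈ B, (X - C x)) * (pZ q A * V) := by rw [h3]; ring
      _ = X ^ q * u + ((∏ x ∈ B, (X - C x)) * (pZ q A * V) - X * u) := by rw [h2]; ring

end Pool.Agent.SpreadN
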