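import Pool.Agent.Lib_MP_9e452d_n.NBase

/-!
# Piece NLine: the roots of `La` and of `x ^ 2 + 2 B x + C`

Here `a = (B, C)` is rational (`B ^ q = B`, `C ^ q = C`) and `dl a = B ^ 2 - C ≠ 0`; it need not be in `A`.
-/

set_option autoImplicit false

namespace Pool.Agent.SpreadN

open Polynomial

variable {K : Type*} [Field K] [DecidableEq K] {q : ℕ} {A : Finset (K × K)}

/-- `(x + B) ^ q = x ^ q + B`, so `(x + B) ^ (q + 1) - (B ^ 2 - C) = (x + B) (x ^ q + B) - B ^ 2 + C = bil a x (x ^ q)` -/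
theorem OCov.eval_La (h : OCov q A) {a : K × K} (h1 : a.1 ^ q = a.1) (x : K) :
    (La q a).eval x = bil a x (x ^ q) := by
  have h2 : (La q a).eval x = (x + a.1) ^ (q + 1) - dl a := by
    simp [La]
  rw [h2, pow_succ, h.frob, h1]
  unfold dl bil
  ring

/-- `(x + B) (y + B) = dl a` is the same as `bil a x y = 0` -/
theorem bil_eq_zero_iff (a : K × K) (x y : K) : bil a x y = 0 ↔ (x + a.1) * (y + a.1) = dl a := by
  unfold bil dl
  constructor
  · intro h
    linear_combination h
  · intro h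
    linear_combination h

/-- derivative of `La` at `x`: `(q + 1) (x + B) ^ q = x ^ q + B` -/
theorem OCov.eval_deriv_La (h : OCov q A) {a : K × K} (h1 : a.1 ^ q = a.1) (x : K) :
    (derivative (La q a)).eval x = x ^ q + a.1 := by
  have h2 : (derivative (La q a)).eval x = ((q : K) + 1) * (x + a.1) ^ q := by
    simp [La, derivative_pow]
  rw [h2, h.q0, h.frob, h1]
  ring

theorem La_monic (q : ℕ) (a : K × K) : (La q a).Monic := by
  unfold La
  refine Monic.sub_of_left ((monic_X_add_C a.1).pow (q + 1)) ?_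
  rw [degree_pow, degree_X_add_C]
  refine lt_of_le_of_lt degree_C_le ?_
  simp only [nsmul_eq_mul, mul_one]
  exact_mod_cast Nat.succ_pos q

theorem La_natDegree (q : ℕ) (a : K × K) : (La q a).natDegree = q + 1 := by
  unfold La
  rw [natDegree_sub_C, natDegree_pow, natDegree_X_add_C, mul_one]

private theorem dl_pow (h : OCov q A) {a : K × K} (h1 : a.1 ^ q = a.1) (h2 : a.2 ^ q = a.2) :
    (dl a) ^ q = dl a := by
  unfold dl
  rw [h.sub_pow, ← pow_mul, mul_comm 2 q, pow_mul, h1, h2]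

private theorem mem_EE_of_bil (h : OCov q A) {a : K × K} (h1 : a.1 ^ q = a.1) (h2 : a.2 ^ q = a.2)
    (hd : dl a ≠ 0) {x : K} (hx : bil a x (x ^ q) = 0) : x ∈ EE K q := by
  rw [mem_EE (by have := h.hq; omega)]
  have e1 : (x + a.1) * (x ^ q + a.1) = dl a := (bil_eq_zero_iff a x (x ^ q)).1 hx
  have e2 : (x ^ q + a.1) * ((x ^ q) ^ q + a.1) = dl a := by
    have e3 := congrArg (fun t => t ^ q) e1
    beta_reduce at e3
    rw [mul_pow, h.frob, h.frob, dl_pow h h1 h2, h1] at e3
    exact e3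
  have e4 : x ^ q + a.1 ≠ 0 := by
    intro h0
    rw [h0, mul_zero] at e1
    exact hd e1.symm
  have e5 : (x ^ q) ^ q + a.1 = x + a.1 := by
    apply mul_left_cancel₀ e4
    rw [e2, ← e1]
    ring
  have e6 : (x ^ q) ^ q = x := by linear_combination e5
  rw [pow_two, pow_mul]
  exact e6

variable [IsAlgClosed K]

private theorem La_roots (h : OCov q A) {a : K × K} (h1 : a.1 ^ q = a.1) (h2 : a.2 ^ q = a.2)
    (hd : dl a ≠ 0) : (La q a).roots.Nodup ∧
      (La q a).roots.toFinset = (EE K q).filter (fun x => bil a x (x ^ q) = 0) := by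
  have hne : La q a ≠ 0 := (La_monic q a).ne_zero
  constructor
  · rw [Multiset.nodup_iff_count_le_one]
    intro x
    rw [count_roots]
    by_contra hc
    rw [not_le] at hc
    have hr := (one_lt_rootMultiplicity_iff_isRoot hne).1 hc
    have r1 : bil a x (x ^ q) = 0 := by
      have := hr.1
      rw [IsRoot.def, h.eval_La h1] at this
      exact this
    have r2 : x ^ q + a.1 = 0 := by
      have := hr.2
      rw [IsRoot.def, h.eval_deriv_La h1] at this
      exact this
    have r3 := (bil_eq_zero_iff a x (x ^ q)).1 r1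
    rw [r2, mul_zero] at r3
    exact hd r3.symm
  · ext x
    rw [Multiset.mem_toFinset, mem_roots hne, IsRoot.def, h.eval_La h1, Finset.mem_filter]
    constructor
    · intro hx
      exact ⟨mem_EE_of_bil h h1 h2 hd hx, hx⟩
    · intro hx
      exact hx.2

/-- `La` is monic of degree `q + 1`, separable (a common root with the derivative gives `(x + B)^q = 0`, so
`dl a = 0`), and each of its roots is in `EE`: `(x + B) ^ (q + 1) = dl a` gives, `dl a` being rational,
`(x + B) ^ (q ^ 2 - 1) = (dl a) ^ (q - 1) = 1`; or: `x ^ q = i(x)` with the involution `i` of `a`, so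
`x ^ (q ^ 2) = i (x ^ q) = x`. So it is the product of `X - C x` over its `q + 1` roots. -/
theorem OCov.La_eq (h : OCov q A) {a : K × K} (h1 : a.1 ^ q = a.1) (h2 : a.2 ^ q = a.2) (hd : dl a ≠ 0) :
    La q a = ∏ x ∈ (EE K q).filter (fun x => bil a x (x ^ q) = 0), (X - C x) := by
  obtain ⟨hn, hf⟩ := La_roots h h1 h2 hd
  rw [← hf]
  have hcard : Multiset.card (La q a).roots = (La q a).natDegree :=
    (splits_iff_card_roots.1 (IsAlgClosed.splits (La q a)))
  have hp := prod_multiset_X_sub_C_of_monic_of_roots_card_eq (La_monic q a) hcard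
  rw [Finset.prod_eq_multiset_prod, Multiset.toFinset_val, Multiset.dedup_eq_self.2 hn]
  exact hp.symm

theorem OCov.La_card (h : OCov q A) {a : K × K} (h1 : a.1 ^ q = a.1) (h2 : a.2 ^ q = a.2) (hd : dl a ≠ 0) :
    ((EE K q).filter (fun x => bil a x (x ^ q) = 0)).card = q + 1 := by
  have e := h.La_eq h1 h2 hd
  have e2 := congrArg natDegree e
  rw [La_natDegree, natDegree_finsetProd_X_sub_C_eq_card] at e2
  exact e2.symm

private theorem Qa_roots (h : OCov q A) {a : K × K} (h1 : a.1 ^ q = a.1) (h2 : a.2 ^ q = a.2)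
    (hd : dl a ≠ 0) : ∃ s : K, s ^ 2 = dl a ∧ -a.1 + s ≠ -a.1 - s ∧
      (EE K q).filter (fun x => bil a x x = 0) = {-a.1 + s, -a.1 - s} := by
  obtain ⟨s, hs⟩ := IsAlgClosed.exists_pow_nat_eq (dl a) (n := 2) (by norm_num)
  have hs0 : s ≠ 0 := by
    rintro rfl
    apply hd
    rw [← hs]
    ring
  have hq2 : 2 ≤ q := by have := h.hq; omega
  have hsq : s ^ q = s ∨ s ^ q = -s := by
    have e1 : (s ^ q) ^ 2 = s ^ 2 := by
      rw [← pow_mul, mul_comm, pow_mul, hs, dl_pow h h1 h2]
    exact sq_eq_sq_iff_eq_or_eq_neg.1 e1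
  have hsqq : (s ^ q) ^ q = s := by
    rcases hsq with h3 | h3
    · rw [h3, h3]
    · rw [h3, h.neg_pow, h3, neg_neg]
  have hB : ∀ t : K, (t ^ q) ^ q = t → -a.1 + t ∈ EE K q := by
    intro t ht
    rw [mem_EE hq2, pow_two, pow_mul, h.frob, h.neg_pow, h1, h.frob, h.neg_pow, h1, ht]
  refine ⟨s, hs, ?_, ?_⟩
  · intro he
    have : (2 : K) * s = 0 := by linear_combination he
    rcases mul_eq_zero.1 this with h3 | h3
    · exact h.two h3
    · exact hs0 h3
  · ext x
    rw [Finset.mem_filter, Finset.mem_insert, Finset.mem_singleton, bil_eq_zero_iff]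
    constructor
    · rintro ⟨_, hx⟩
      have e1 : (x + a.1) ^ 2 = s ^ 2 := by rw [hs, ← hx]; ring
      rcases sq_eq_sq_iff_eq_or_eq_neg.1 e1 with h3 | h3
      · left; linear_combination h3
      · right; linear_combination h3
    · rintro (rfl | rfl)
      · refine ⟨hB s hsqq, ?_⟩
        rw [← hs]; ring
      · refine ⟨?_, ?_⟩
        · have := hB (-s) (by rw [h.neg_pow, h.neg_pow, hsqq])
          rwa [← sub_eq_add_neg] at this
        · rw [← hs]; ring

/-- The two roots of `x ^ 2 + 2 B x + C` are different (`dl a ≠ 0`, `2 ≠ 0`) and in `EE`: `(x + B) ^ 2 = dl a` gives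
`((x ^ q) + B) ^ 2 = dl a`, so `x ^ q + B = ± (x + B)`, so `x ^ (q ^ 2) = x`. -/
theorem OCov.Qa_eq (h : OCov q A) {a : K × K} (h1 : a.1 ^ q = a.1) (h2 : a.2 ^ q = a.2) (hd : dl a ≠ 0) :
    (X ^ 2 + C (2 * a.1) * X + C a.2 : K[X]) = ∏ x ∈ (EE K q).filter (fun x => bil a x x = 0), (X - C x) := by
  obtain ⟨s, hs, hne, hf⟩ := Qa_roots h h1 h2 hd
  rw [hf, Finset.prod_pair hne]
  have h3 : a.2 = a.1 ^ 2 - s ^ 2 := by
    rw [hs]; unfold dl; ring
  rw [h3]
  simp only [map_add, map_sub, map_neg, map_mul, map_pow, map_ofNat]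
  ring

theorem OCov.Qa_card (h : OCov q A) {a : K × K} (h1 : a.1 ^ q = a.1) (h2 : a.2 ^ q = a.2) (hd : dl a ≠ 0) :
    ((EE K q).filter (fun x => bil a x x = 0)).card = 2 := by
  obtain ⟨s, _, hne, hf⟩ := Qa_roots h h1 h2 hd
  rw [hf, Finset.card_pair hne]

end Pool.Agent.SpreadN
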