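import Pool.Agent.Lib_MP_9e452d_n.NKey
import Pool.Agent.Lib_MP_9e452d_n.NTw

/-!
# Piece NOde: the differential equation along the curves `y = a(x)`, in integrated form
-/

set_option autoImplicit false

namespace Pool.Agent.SpreadN

open Polynomial

variable {K : Type*} [Field K] [DecidableEq K] {q : ℕ} {A : Finset (K × K)} [IsAlgClosed K]

/-- Put `Z2 = ∏ x ∈ B, (X - C x)`, `G = pg Z2 pJ` (degree `d - 3`), `D = dl a` and
`Pol = G (X tw_d u + tw_d v) - D tw_(d-3) G (-(B X + C) u + (X + B) v)` with `tw_k = tw a k`; its degree is at most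
`2 d - 2`. For all `x, y` with `bil a x y = 0` (so `x + B ≠ 0`, `(x + B) (y + B) = D`, `(x + B) y = -(B x + C)`):
`(x+B)^d (G(x) (x+B) (x u(y) + v(y)) - G(y) (y+B) (y u(x) + v(x))) = (x+B) Pol(x)` by `tw_eval`.
At the `q + 1` roots `x` in `EE` of `La` and `y = x ^ q`, we have `y ^ q = x`, so
`x u(y) + v(y) = Z2(y) pM(y) pJ(y)` and `y u(x) + v(x) = Z2(x) pM(x) pJ(x)`, and the bracket vanishes by `dir`. As
`2 d - 2 < q + 1` (`La_card`), `Pol = 0`. -/
theorem OCov.ode (h : OCov q A) {B : Finset K} {u v : K[X]} {d : ℕ}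
    (hd : d = B.card + 3 + (nG q A + nQ q A + nJ q A)) (hdq : 2 * d ≤ q + 2)
    (hu : u.natDegree + 1 ≤ d) (hv : v.natDegree ≤ d)
    (huv : (∏ x ∈ B, (X - C x)) * pM q A * pJ q A = X ^ q * u + v) {a : K × K} (ha : a ∈ A) (x y : K)
    (hxy : bil a x y = 0) :
    (pg q A * (∏ x ∈ B, (X - C x)) * pJ q A).eval x * (x + a.1) * (x * u.eval y + v.eval y) =
      (pg q A * (∏ x ∈ B, (X - C x)) * pJ q A).eval y * (y + a.1) * (y * u.eval x + v.eval x) := by
  have hq2 : 2 ≤ q := by have := h.hq; omega
  have hd0 : dl a ≠ 0 := h.nd a ha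
  obtain ⟨m, rfl⟩ : ∃ m, d = m + 3 := ⟨B.card + (nG q A + nQ q A + nJ q A), by omega⟩
  set Z : K[X] := ∏ x ∈ B, (X - C x) with hZ
  set G : K[X] := pg q A * Z * pJ q A with hG
  have hZdeg : Z.natDegree = B.card := by
    rw [hZ]
    exact natDegree_finsetProd_X_sub_C_eq_card B (fun x : K => x)
  have hGdeg : G.natDegree ≤ m := by
    have e1 : (pg q A * Z * pJ q A).natDegree ≤ (pg q A).natDegree + Z.natDegree + (pJ q A).natDegree :=
      natDegree_mul_le.trans (Nat.add_le_add_right natDegree_mul_le _)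
    rw [pg_natDegree, hZdeg, pJ_natDegree] at e1
    rw [hG]
    omega
  have hu3 : u.natDegree ≤ m + 3 := by omega
  -- the polynomial
  set Pol : K[X] := G * (X * tw a (m + 3) u + tw a (m + 3) v) -
    C (dl a) * (tw a m G * (-(C a.1 * X + C a.2) * u + (X + C a.1) * v)) with hPol
  have hPolEval : ∀ s t : K, bil a s t = 0 → (s + a.1) * Pol.eval s = (s + a.1) ^ (m + 3) *
      (G.eval s * (s + a.1) * (s * u.eval t + v.eval t) -
        G.eval t * (t + a.1) * (t * u.eval s + v.eval s)) := by
    intro s t hst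
    have e1 := tw_eval a hu3 hst
    have e2 := tw_eval a hv hst
    have e3 := tw_eval a hGdeg hst
    have e4 : (s + a.1) * (t + a.1) = dl a := (bil_eq_zero_iff a s t).1 hst
    have e5 : -(a.1 * s + a.2) = (s + a.1) * t := by
      unfold bil at hst
      linear_combination -hst
    have e6 : Pol.eval s = G.eval s * (s * (tw a (m + 3) u).eval s + (tw a (m + 3) v).eval s) -
        dl a * ((tw a m G).eval s * (-(a.1 * s + a.2) * u.eval s + (s + a.1) * v.eval s)) := by
      rw [hPol]
      simp only [eval_sub, eval_mul, eval_add, eval_neg, eval_C, eval_X]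
    rw [e6, e1, e2, e3, e5, ← e4]
    ring
  have hPolRoot : ∀ s ∈ (EE K q).filter (fun x => bil a x (x ^ q) = 0), Pol.eval s = 0 := by
    intro s hs
    rw [Finset.mem_filter] at hs
    obtain ⟨hsE, hsb⟩ := hs
    have hdir := h.dir ha hsE hsb
    have hss : (s ^ q) ^ q = s := pow_pow_q hq2 hsE
    have e1 : s * u.eval (s ^ q) + v.eval (s ^ q) =
        Z.eval (s ^ q) * (pM q A).eval (s ^ q) * (pJ q A).eval (s ^ q) := by
      have e := congrArg (fun P : K[X] => P.eval (s ^ q)) huv
      simp only [eval_mul, eval_add, eval_pow, eval_X] at e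
      rw [hss] at e
      exact e.symm
    have e2 : s ^ q * u.eval s + v.eval s = Z.eval s * (pM q A).eval s * (pJ q A).eval s := by
      have e := congrArg (fun P : K[X] => P.eval s) huv
      simp only [eval_mul, eval_add, eval_pow, eval_X] at e
      exact e.symm
    have e3 := hPolEval s (s ^ q) hsb
    have e4 : (s + a.1) * (s ^ q + a.1) = dl a := (bil_eq_zero_iff a s (s ^ q)).1 hsb
    have e5 : s + a.1 ≠ 0 := by
      intro h0
      rw [h0, zero_mul] at e4
      exact hd0 e4.symm
    have e6 : G.eval s * (s + a.1) * (s * u.eval (s ^ q) + v.eval (s ^ q)) -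
        G.eval (s ^ q) * (s ^ q + a.1) * (s ^ q * u.eval s + v.eval s) = 0 := by
      rw [e1, e2, hG]
      simp only [eval_mul]
      linear_combination (Z.eval s * Z.eval (s ^ q) * (pJ q A).eval s * (pJ q A).eval (s ^ q)) * hdir
    rw [e6, mul_zero] at e3
    exact (mul_eq_zero.1 e3).resolve_left e5
  have hPolDeg : Pol.natDegree ≤ m + (m + 4) := by
    have t1 : (tw a (m + 3) u).natDegree ≤ m + 3 := tw_natDegree a _ _
    have t2 : (tw a (m + 3) v).natDegree ≤ m + 3 := tw_natDegree a _ _
    have t3 : (tw a m G).natDegree ≤ m := tw_natDegree a _ _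
    have t4 : (X * tw a (m + 3) u + tw a (m + 3) v).natDegree ≤ m + 4 := by
      refine natDegree_add_le_of_degree_le ?_ (t2.trans (by omega))
      refine natDegree_mul_le.trans ?_
      have := natDegree_X_le (R := K)
      omega
    have t5 : (-(C a.1 * X + C a.2) * u + (X + C a.1) * v).natDegree ≤ m + 4 := by
      refine natDegree_add_le_of_degree_le ?_ ?_
      · refine natDegree_mul_le.trans ?_
        have : (-(C a.1 * X + C a.2) : K[X]).natDegree ≤ 1 := by
          rw [natDegree_neg]
          exact natDegree_linear_le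
        omega
      · refine natDegree_mul_le.trans ?_
        have : (X + C a.1 : K[X]).natDegree = 1 := natDegree_X_add_C a.1
        omega
    rw [hPol]
    refine (natDegree_sub_le _ _).trans (max_le ?_ ?_)
    · exact natDegree_mul_le.trans (add_le_add hGdeg t4)
    · refine (natDegree_C_mul_le _ _).trans ?_
      exact natDegree_mul_le.trans (add_le_add t3 t5)
  have hPol0 : Pol = 0 := by
    refine eq_zero_of_natDegree_lt_card_of_eval_eq_zero' Pol
      ((EE K q).filter (fun x => bil a x (x ^ q) = 0)) hPolRoot ?_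
    rw [h.La_card (h.rat1 a ha) (h.rat2 a ha) hd0]
    omega
  have hfin := hPolEval x y hxy
  rw [hPol0, eval_zero, mul_zero] at hfin
  have e4 : (x + a.1) * (y + a.1) = dl a := (bil_eq_zero_iff a x y).1 hxy
  have e5 : x + a.1 ≠ 0 := by
    intro h0
    rw [h0, zero_mul] at e4
    exact hd0 e4.symm
  exact sub_eq_zero.1 ((mul_eq_zero.1 hfin.symm).resolve_left (pow_ne_zero _ e5))

end Pool.Agent.SpreadN
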