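import Pool.Agent.Lib_MP_9e452d_n.NTriA

/-!
# Piece NTri: the four possibilities for `(u, v)`
-/

set_option autoImplicit false

namespace Pool.Agent.SpreadN

open Polynomial

/-- The homogenised form of `H`, of degree `n`, at `(-v, u)`, evaluated at `x`. -/
private theorem tri_homog_eval {K : Type*} [Field K] (H u v : K[X]) (n : ℕ) (hn : H.natDegree ≤ n) (x y : K)
    (hy : y * u.eval x + v.eval x = 0) :
    (∑ i ∈ Finset.range (n + 1), C (H.coeff i) * (-v) ^ i * u ^ (n - i)).eval x = u.eval x ^ n * H.eval y := by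
  have hv : -v.eval x = y * u.eval x := by linear_combination -hy
  rw [eval_finsetSum, eval_eq_sum_range' (Nat.lt_succ_of_le hn), Finset.mul_sum]
  refine Finset.sum_congr rfl fun i hi => ?_
  have hi' : i ≤ n := Nat.lt_succ_iff.mp (Finset.mem_range.mp hi)
  simp only [eval_mul, eval_pow, eval_C, eval_neg]
  rw [hv, mul_pow]
  have : u.eval x ^ n = u.eval x ^ i * u.eval x ^ (n - i) := by rw [← pow_add, Nat.add_sub_cancel' hi']
  rw [this]
  ring

/-- The fourth polynomial of the proof, evaluated. -/
private theorem tri_sum_eval {K : Type*} [Field K] (u v : K[X]) (d : ℕ) (hu : u.natDegree ≤ d)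
    (hv : v.natDegree ≤ d) (x y : K) (hy : y * u.eval x + v.eval x = 0) :
    (∑ i ∈ Finset.range (d + 1), (X * C (u.coeff i) + C (v.coeff i)) * (-v) ^ i * u ^ (d - i)).eval x =
      u.eval x ^ d * (x * u.eval y + v.eval y) := by
  have h1 := tri_homog_eval u u v d hu x y hy
  have h2 := tri_homog_eval v u v d hv x y hy
  have h3 : (∑ i ∈ Finset.range (d + 1), (X * C (u.coeff i) + C (v.coeff i)) * (-v) ^ i * u ^ (d - i)) =
      X * (∑ i ∈ Finset.range (d + 1), C (u.coeff i) * (-v) ^ i * u ^ (d - i)) +
        ∑ i ∈ Finset.range (d + 1), C (v.coeff i) * (-v) ^ i * u ^ (d - i) := by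
    rw [Finset.mul_sum, ← Finset.sum_add_distrib]
    refine Finset.sum_congr rfl fun i _ => ?_
    ring
  rw [h3, eval_add, eval_mul, eval_X, h1, h2]
  ring

/-- If the homogenised form of `H ≠ 0` vanishes at the coprime pair `(-v, u)` then `u`, `v` are constant. -/
private theorem tri_const {K : Type*} [Field K] {H u v : K[X]} (hH : H ≠ 0) (huv : IsCoprime u v)
    (hsum : ∑ i ∈ Finset.range (H.natDegree + 1), C (H.coeff i) * (-v) ^ i * u ^ (H.natDegree - i) = 0) :
    ∃ α β : K, u = C α ∧ v = C β := by
  set n := H.natDegree with hn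
  -- `u` divides the top term
  have hlead : u ∣ C (H.coeff n) * (-v) ^ n := by
    rw [Finset.sum_range_succ, Nat.sub_self, pow_zero, mul_one] at hsum
    have h1 : u ∣ ∑ i ∈ Finset.range n, C (H.coeff i) * (-v) ^ i * u ^ (n - i) := by
      refine Finset.dvd_sum fun i hi => ?_
      have hi' : n - i ≠ 0 := by
        have := Finset.mem_range.mp hi
        omega
      exact Dvd.dvd.mul_left (dvd_pow_self u hi') _
    have h2 : C (H.coeff n) * (-v) ^ n = -∑ i ∈ Finset.range n, C (H.coeff i) * (-v) ^ i * u ^ (n - i) := by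
      linear_combination hsum
    rw [h2]
    exact (dvd_neg).mpr h1
  have hcn : H.coeff n ≠ 0 := by
    rw [hn]
    exact mt leadingCoeff_eq_zero.mp hH
  have hcop : IsCoprime u ((-v) ^ n) := (huv.neg_right).pow_right
  have hunit : IsUnit u := by
    have h3 : u ∣ C (H.coeff n) := hcop.dvd_of_dvd_mul_right hlead
    exact isUnit_of_dvd_unit h3 (isUnit_C.mpr (isUnit_iff_ne_zero.mpr hcn))
  obtain ⟨a, ha, hau⟩ := Polynomial.isUnit_iff.mp hunit
  have ha0 : a ≠ 0 := ha.ne_zero
  refine ⟨a, (C a⁻¹ * v).coeff 0 * a, hau.symm, ?_⟩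
  have hcomp : H.comp (C (-a⁻¹) * v) = 0 := by
    have h4 : C (a ^ n) * H.comp (C (-a⁻¹) * v) = 0 := by
      rw [← hsum, comp, eval₂_eq_sum_range, ← hn, Finset.mul_sum]
      refine Finset.sum_congr rfl fun i hi => ?_
      have hi' : i ≤ n := Nat.lt_succ_iff.mp (Finset.mem_range.mp hi)
      have h5 : a ^ n = a ^ i * a ^ (n - i) := by rw [← pow_add, Nat.add_sub_cancel' hi']
      have h6 : (C (-a⁻¹) * v) ^ i = C ((a⁻¹) ^ i) * (-v) ^ i := by
        rw [mul_pow, ← C_pow, neg_pow, neg_pow v, C_mul, C_pow]
        simp only [C_neg, C_1]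
        ring
      have h7 : C (a ^ i) * C ((a⁻¹) ^ i) = (1 : K[X]) := by
        rw [← C_mul, ← mul_pow, mul_inv_cancel₀ ha0, one_pow, C_1]
      rw [h6, h5, C_mul, ← hau, ← C_pow]
      linear_combination (C (H.coeff i) * (-v) ^ i * C (a ^ (n - i))) * h7
    have h8 : (C (a ^ n) : K[X]) ≠ 0 := by
      rw [Ne, C_eq_zero]
      exact pow_ne_zero _ ha0
    exact (mul_eq_zero.mp h4).resolve_left h8
  rcases comp_eq_zero_iff.mp hcomp with h | h
  · exact absurd h hH
  · have h9 := h.2
    have h10 : v = C (-a) * (C (-a⁻¹) * v) := by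
      rw [← mul_assoc, ← C_mul, neg_mul_neg, mul_inv_cancel₀ ha0, C_1, one_mul]
    have h11 : v = C (-a * (C (-a⁻¹) * v).coeff 0) := by
      rw [C_mul, ← h9]
      exact h10
    have h12 : -a * (C (-a⁻¹) * v).coeff 0 = (C a⁻¹ * v).coeff 0 * a := by
      rw [coeff_C_mul, coeff_C_mul]
      ring
    rw [← h12]
    exact h11

/-- Assume `u ≠ 0`. For each of the infinitely many `x` with `u(x) ≠ 0` put `y = -v(x) / u(x)`; by the hypothesis
`x = y`, or `G(x) = 0`, or `x u(y) + v(y) = 0`, or `G(y) = 0`. Write `u = g u'`, `v = g v'` with `u', v'` coprime;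
`x u(y) + v(y) = g(y) (x u'(y) + v'(y))`. So the product of the polynomials
`X u + v`, `G`, `∑ (G g)_i (-v')^i u'^(n-i)` (`n = natDegree (G g)`) and
`∑ i ≤ d, (X u'_i + v'_i) (-v')^i u'^(d-i)` vanishes at infinitely many `x`, so one of them is zero. The first gives
`v = -X u`. The third, as `G g` splits, is a constant times a product of `-v' - κ u'`, so `v' = -κ u'`. The fourth is
`invol_aux`. -/
theorem trichotomy {K : Type*} [Field K] [IsAlgClosed K] (h2 : (2 : K) ≠ 0) {G u v : K[X]} (hG : G ≠ 0)
    (h : ∀ x y : K, y * u.eval x + v.eval x = 0 →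
      (x - y) * (G.eval x * (x * u.eval y + v.eval y)) ^ 2 * (G.eval y * u.eval x) = 0) :
    u = 0 ∨ (∃ κ : K, v = -C κ * u) ∨ v = -X * u ∨
      ∃ (g : K[X]) (α β γ : K), u = g * (C α * X + C β) ∧ v = g * (C β * X + C γ) ∧ β ^ 2 ≠ α * γ := by
  classical
  by_cases hu : u = 0
  · exact Or.inl hu
  right
  obtain ⟨u', hu'⟩ := EuclideanDomain.gcd_dvd_left u v
  obtain ⟨v', hv'⟩ := EuclideanDomain.gcd_dvd_right u v
  set g := EuclideanDomain.gcd u v with hg
  have hg0 : g ≠ 0 := by
    intro h0
    rw [h0, zero_mul] at hu'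
    exact hu hu'
  have hu'0 : u' ≠ 0 := by
    intro h0
    rw [h0, mul_zero] at hu'
    exact hu hu'
  have hcop : IsCoprime u' v' := by
    obtain ⟨a, b, hab⟩ : ∃ a b : K[X], g = u * a + v * b :=
      ⟨EuclideanDomain.gcdA u v, EuclideanDomain.gcdB u v, EuclideanDomain.gcd_eq_gcd_ab u v⟩
    refine ⟨a, b, ?_⟩
    have h1 : g * (a * u' + b * v') = g * 1 := by
      rw [mul_one]
      linear_combination -hab - a * hu' - b * hv'
    exact mul_left_cancel₀ hg0 h1
  clear_value g
  subst hu' hv'
  set d := max u'.natDegree v'.natDegree with hd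
  have hud : u'.natDegree ≤ d := le_max_left _ _
  have hvd : v'.natDegree ≤ d := le_max_right _ _
  set H := G * g with hH
  have hH0 : H ≠ 0 := mul_ne_zero hG hg0
  set P3 : K[X] := ∑ i ∈ Finset.range (H.natDegree + 1), C (H.coeff i) * (-v') ^ i * u' ^ (H.natDegree - i) with hP3
  set P4 : K[X] := ∑ i ∈ Finset.range (d + 1), (X * C (u'.coeff i) + C (v'.coeff i)) * (-v') ^ i * u' ^ (d - i)
    with hP4
  have hprod : (g * u') * (X * u' + v') * G * P3 * P4 = 0 := by
    apply Polynomial.funext
    intro x
    rw [eval_zero, eval_mul, eval_mul, eval_mul, eval_mul]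
    by_cases hx : (g * u').eval x = 0
    · rw [hx]
      ring
    · have hgx : g.eval x ≠ 0 := by
        intro h0
        exact hx (by rw [eval_mul, h0, zero_mul])
      have hux : u'.eval x ≠ 0 := by
        intro h0
        exact hx (by rw [eval_mul, h0, mul_zero])
      have hy' : (-v'.eval x / u'.eval x) * u'.eval x + v'.eval x = 0 := by
        field_simp
        ring
      generalize -v'.eval x / u'.eval x = y at hy'
      have hy : y * (g * u').eval x + (g * v').eval x = 0 := by
        rw [eval_mul, eval_mul]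
        linear_combination g.eval x * hy'
      have h3 := h x y hy
      rw [mul_eq_zero, mul_eq_zero, pow_eq_zero_iff (two_ne_zero), mul_eq_zero, mul_eq_zero] at h3
      rcases h3 with (h3 | h3 | h3) | h3 | h3
      · have : (X * u' + v').eval x = 0 := by
          rw [eval_add, eval_mul, eval_X]
          linear_combination u'.eval x * h3 + hy'
        rw [this]
        ring
      · rw [h3]
        ring
      · have h4 : g.eval y * (x * u'.eval y + v'.eval y) = 0 := by
          rw [eval_mul, eval_mul] at h3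
          linear_combination h3
        rcases mul_eq_zero.mp h4 with h5 | h5
        · have h6 : P3.eval x = 0 := by
            rw [hP3, tri_homog_eval H u' v' _ le_rfl x y hy', hH, eval_mul, h5]
            simp
          rw [h6]
          ring
        · have h6 : P4.eval x = 0 := by
            rw [hP4, tri_sum_eval u' v' d hud hvd x y hy', h5]
            simp
          rw [h6]
          ring
      · have h6 : P3.eval x = 0 := by
          rw [hP3, tri_homog_eval H u' v' _ le_rfl x y hy', hH, eval_mul, h3]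
          simp
        rw [h6]
        ring
      · exact absurd h3 hx
  have hconst : (∃ α β : K, u' = C α ∧ v' = C β) → ∃ κ : K, g * v' = -C κ * (g * u') := by
    rintro ⟨α, β, h1, h3⟩
    have hα : α ≠ 0 := by
      intro h0
      rw [h0, C_0] at h1
      exact hu'0 h1
    refine ⟨-(β / α), ?_⟩
    rw [h1, h3, C_neg, neg_neg]
    have : (C (β / α) * C α : K[X]) = C β := by
      rw [← C_mul, div_mul_cancel₀ _ hα]
    linear_combination -g * this
  rcases mul_eq_zero.mp hprod with h3 | h3
  · rcases mul_eq_zero.mp h3 with h4 | h4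
    · rcases mul_eq_zero.mp h4 with h5 | h5
      · rcases mul_eq_zero.mp h5 with h6 | h6
        · exact absurd h6 (mul_ne_zero hg0 hu'0)
        · right
          left
          linear_combination g * h6
      · exact absurd h5 hG
    · left
      exact hconst (tri_const hH0 hcop h4)
  · have hdc : u'.coeff d ≠ 0 ∨ v'.coeff d ≠ 0 := by
      by_cases hle : v'.natDegree ≤ u'.natDegree
      · left
        rw [hd, max_eq_left hle]
        exact mt leadingCoeff_eq_zero.mp hu'0
      · right
        have hlt : u'.natDegree < v'.natDegree := not_le.mp hle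
        rw [hd, max_eq_right hlt.le]
        refine mt leadingCoeff_eq_zero.mp ?_
        intro h0
        rw [h0, natDegree_zero] at hlt
        omega
    rcases invol_aux h2 hcop hud hvd hdc h3 with h4 | h4 | ⟨α, β, γ, h4, h5, h6⟩
    · left
      exact hconst h4
    · right
      left
      rw [h4]
      ring
    · right
      right
      exact ⟨g, α, β, γ, by rw [h4], by rw [h5], h6⟩

end Pool.Agent.SpreadN
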