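import Pool.Agent.Lib_MP_9e452d_n.NEa

/-!
# Piece NZero: the case where `M / g` is invariant under all `a`
-/

set_option autoImplicit false

namespace Pool.Agent.SpreadN

open Polynomial

variable {K : Type*} [Field K] [DecidableEq K] {q : ℕ} {A : Finset (K × K)} [IsAlgClosed K]

/-- If `x` maps to `y` under `a`, `x'` to `y'` under `a`, and `x'` to `y`, `x` to `y'` under `b`, `x ≠ x'`, then
`a` and `b` are orthogonal. (Eliminate `y` from `bil a x y = 0 = bil b x' y`:
`(Ba x + Ca) (x' + Bb) = (Bb x' + Cb) (x + Ba)`, likewise with `x, x'` exchanged, and subtract: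
`(x - x') (2 Ba Bb - Ca - Cb) = 0`.) -/
theorem orth_of_swap {a b : K × K} {x x' y y' : K} (hx : x ≠ x') (h1 : bil a x y = 0) (h2 : bil a x' y' = 0)
    (h3 : bil b x' y = 0) (h4 : bil b x y' = 0) : 2 * a.1 * b.1 = a.2 + b.2 := by
  unfold bil at h1 h2 h3 h4
  have h : (x - x') * (2 * a.1 * b.1 - (a.2 + b.2)) = 0 := by
    linear_combination (x' + b.1) * h1 - (x + a.1) * h3 - (x + b.1) * h2 + (x' + a.1) * h4
  have hne : x - x' ≠ 0 := sub_ne_zero.2 hx
  exact sub_eq_zero.1 ((mul_eq_zero.1 h).resolve_left hne)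

private def img (a : K × K) (x : K) : K := dl a / (x + a.1) - a.1

omit [DecidableEq K] [IsAlgClosed K] in
private theorem bil_iff' (a : K × K) (x y : K) : bil a x y = 0 ↔ (x + a.1) * (y + a.1) = dl a := by
  unfold bil dl
  constructor
  · intro h; linear_combination h
  · intro h; linear_combination h

omit [DecidableEq K] [IsAlgClosed K] in
private theorem bil_img {a : K × K} {x : K} (hx : x + a.1 ≠ 0) : bil a x (img a x) = 0 := by
  rw [bil_iff']
  unfold img
  field_simp
  ring

omit [DecidableEq K] [IsAlgClosed K] in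
private theorem img_unique {a : K × K} {x y : K} (hx : x + a.1 ≠ 0) (h : bil a x y = 0) : y = img a x := by
  have h' := bil_img (a := a) hx
  rw [bil_iff'] at h h'
  have := mul_left_cancel₀ hx (h.trans h'.symm)
  exact add_right_cancel this

omit [DecidableEq K] [IsAlgClosed K] in
private theorem bil_comm' (a : K × K) (x y : K) : bil a x y = bil a y x := by
  unfold bil; ring

private theorem add_ne {a : K × K} (h : OCov q A) (ha : a ∈ A) {x : K} (hx : x ∈ II K q) : x + a.1 ≠ 0 := by
  intro h0
  have hx' : x = - a.1 := eq_neg_of_add_eq_zero_left h0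
  have h2 : 2 ≤ q := by have := h.hq; omega
  have := (mem_II h2).1 hx
  apply this.2
  rw [hx', h.neg_pow, h.rat1 a ha]

private theorem II_sub_EE {x : K} (hx : x ∈ II K q) : x ∈ EE K q := (Finset.mem_sdiff.1 hx).1

private theorem img_pow (h : OCov q A) {a : K × K} (ha : a ∈ A) {x : K} (hx : x ∈ II K q) :
    (img a x) ^ q = img a (x ^ q) := by
  apply img_unique (add_ne h ha (h.pow_mem_II hx))
  rw [← h.bil_pow (h.rat1 a ha) (h.rat2 a ha), bil_img (add_ne h ha hx)]
  exact zero_pow (by have := h.hq; omega)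

private theorem img_mem_II (h : OCov q A) {a : K × K} (ha : a ∈ A) {x : K} (hx : x ∈ II K q) :
    img a x ∈ II K q := by
  have h2 : 2 ≤ q := by have := h.hq; omega
  have hxE := II_sub_EE hx
  have hxq := h.pow_mem_II hx
  rw [mem_II h2]
  constructor
  · rw [pow_two, pow_mul, img_pow h ha hx, img_pow h ha hxq, pow_pow_q h2 hxE]
  · intro hy
    have hb : bil a (img a x) x = 0 := by rw [bil_comm']; exact bil_img (add_ne h ha hx)
    have hb' : bil a (img a x) (x ^ q) = 0 := by
      have : bil a (img a x) x ^ q = 0 := by rw [hb]; exact zero_pow (by omega)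
      rw [h.bil_pow (h.rat1 a ha) (h.rat2 a ha), hy] at this
      exact this
    have hne : img a x + a.1 ≠ 0 := by
      intro h0
      have h3 := bil_img (add_ne h ha hx)
      rw [bil_iff', h0, mul_zero] at h3
      exact h.nd a ha h3.symm
    have e1 := img_unique hne hb
    have e2 := img_unique hne hb'
    exact ((mem_II h2).1 hx).2 (e2.trans e1.symm)

private theorem img_mu (h : OCov q A)
    (hE : ∀ a ∈ A, C (dl a ^ 2) * tw a (nG q A + nQ q A) (pg q A) * pM q A =
      pg q A * tw a (q + 3 + nG q A + nQ q A) (pM q A)) {a : K × K} (ha : a ∈ A) {x : K} (hx : x ∈ II K q)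
    (hmu : mu q A x = 0) : mu q A (img a x) = 0 := by
  have h2 : 2 ≤ q := by have := h.hq; omega
  have hxE := II_sub_EE hx
  have h1 := congrArg (eval x) (hE a ha)
  have hM : (pM q A).eval x = 0 := (eval_pM_eq_zero h2 hxE).2 hmu
  have hg : (pg q A).eval x ≠ 0 := by
    intro h0
    have := (eval_pg_eq_zero h2 hxE).1 h0
    omega
  rw [eval_mul, hM, mul_zero, eval_mul,
    tw_eval a (by rw [h.pM_natDegree]; omega) (bil_img (add_ne h ha hx))] at h1
  have h3 := (mul_eq_zero.1 h1.symm).resolve_left hg
  have h4 := (mul_eq_zero.1 h3).resolve_left (pow_ne_zero _ (add_ne h ha hx))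
  exact (eval_pM_eq_zero h2 (II_sub_EE (img_mem_II h ha hx))).1 h4

private theorem mu_zero_iff {x : K} : mu q A x = 0 ↔ ∀ a ∈ A, bil a x (x ^ q) ≠ 0 := by
  unfold mu
  rw [Finset.card_eq_zero, Finset.filter_eq_empty_iff]

private theorem img_inj (h : OCov q A) {x : K} (hx : x ∈ II K q) (hmu : mu q A x = 0) {a b : K × K} (ha : a ∈ A)
    (hb : b ∈ A) (hab : img a x = img b x) : a = b := by
  by_contra hne
  have h2 : 2 ≤ q := by have := h.hq; omega
  have e1 := bil_img (add_ne h ha hx)
  have e2 := bil_img (add_ne h hb hx)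
  rw [← hab] at e2
  set y := img a x with hy
  have e1' := e1
  have e2' := e2
  unfold bil at e1 e2
  have hB : a.1 ≠ b.1 := by
    intro hB
    apply hne
    apply Prod.ext hB
    rw [hB] at e1
    linear_combination e1 - e2
  have hs : (a.1 - b.1) * (x + y) = b.2 - a.2 := by linear_combination e1 - e2
  have hne' : a.1 - b.1 ≠ 0 := sub_ne_zero.2 hB
  have hsq : (x + y) ^ q = x + y := by
    have h3 : ((a.1 - b.1) * (x + y)) ^ q = (b.2 - a.2) ^ q := by rw [hs]
    rw [mul_pow, h.sub_pow, h.sub_pow, h.rat1 a ha, h.rat1 b hb, h.rat2 a ha, h.rat2 b hb, ← hs] at h3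
    exact mul_left_cancel₀ hne' h3
  have hpq : (x * y) ^ q = x * y := by
    have h3 : x * y = - (a.1 * (x + y) + a.2) := by linear_combination e1
    have h4 : (x * y) ^ q = (- (a.1 * (x + y) + a.2)) ^ q := by rw [h3]
    rw [h4, h.neg_pow, h.frob, mul_pow, h.rat1 a ha, h.rat2 a ha, hsq]
    linear_combination -e1
  have h5 : x ^ q + y ^ q = x + y := by rw [← h.frob]; exact hsq
  have h6 : x ^ q * y ^ q = x * y := by rw [← mul_pow]; exact hpq
  have h7 : (x ^ q - x) * (x ^ q - y) = 0 := by
    have : y ^ q = x + y - x ^ q := by linear_combination h5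
    rw [this] at h6
    linear_combination -h6
  have h8 : x ^ q ≠ x := ((mem_II h2).1 hx).2
  have h9 : x ^ q = y := sub_eq_zero.1 ((mul_eq_zero.1 h7).resolve_left (sub_ne_zero.2 h8))
  rw [← h9] at e1'
  exact mu_zero_iff.1 hmu a ha e1'

/-- Step 1: the irrational `x` with `mu x = 0` are permuted by all `a` in `A`. Let `x` be irrational with
`mu x = 0` and `y = dl a / (x + B) - B` its image (`x + B ≠ 0` as `B` is rational). `y` is in `EE` and irrational. At
`x` the hypothesis gives, as `pM(x) = 0` and `pg(x) ≠ 0`, that `tw pM` vanishes at `x`, so `pM(y) = 0` by `tw_eval`, so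
`mu y = 0`.
Step 2: fix such an `x` (`nW ≠ 0`) and put `x' = x ^ q`. Let `T` be the set of `b` in `A` such that
`bil b z z = 0` for some irrational `z` with `mu z = 0`; each such `z` has exactly one `b` (`nu_ne_zero`,
`nu_le_one`), and each `b` in `T` has exactly the two such roots `z`, `z ^ q`, so `2 * T.card = nW`. The elements
`a(x)` (`a` in `A`) and `b(x')` (`b` in `T`) are irrational with `mu = 0`, and they are all different:
`a(x) = a'(x)` with `a ≠ a'` means that two different rational pairs satisfy `x y + B (x + y) + C = 0`, so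
`x y` and `x + y` are rational (subtract: `(B - B') (x + y) = C' - C`, `B = B'` implies `C = C'`), so `y = x ^ q`, but
`mu x = 0`; the same for `b(x')`; and `a(x) = b(x') = y` gives, with `y' = y ^ q`, that `orth_of_swap` applies, so
`a` and `b` are orthogonal (or equal, but then `x = x'`): then for the root `z` of `b` with `mu z = 0`,
`bil a z (z ^ q) = z ^ (q+1) + Ba (z + z ^ q) + Ca = Cb - 2 Ba Bb + Ca = 0`, against `mu z = 0`.
So `A.card + T.card ≤ nW`, that is `(q - 2) + nW / 2 ≤ nW`. -/
theorem OCov.zero_case (h : OCov q A) (hW : nW q A ≠ 0)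
    (hE : ∀ a ∈ A, C (dl a ^ 2) * tw a (nG q A + nQ q A) (pg q A) * pM q A =
      pg q A * tw a (q + 3 + nG q A + nQ q A) (pM q A)) : 2 * (q - 2) ≤ nW q A := by
  have h2 : 2 ≤ q := by have := h.hq; omega
  set W := (II K q).filter (fun x => mu q A x = 0) with hWdef
  have hWc : nW q A = W.card := rfl
  have memW : ∀ {z : K}, z ∈ W ↔ z ∈ II K q ∧ mu q A z = 0 := by
    intro z; rw [hWdef, Finset.mem_filter]
  obtain ⟨x, hx⟩ : W.Nonempty := by
    rw [← Finset.card_pos]; rw [hWc] at hW; omega
  have hxI := (memW.1 hx).1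
  have hxE := II_sub_EE hxI
  have hx' : x ^ q ∈ W := by
    rw [memW]
    exact ⟨h.pow_mem_II hxI, by rw [h.mu_pow hxE]; exact (memW.1 hx).2⟩
  have hxne : x ≠ x ^ q := fun h0 => ((mem_II h2).1 hxI).2 h0.symm
  set T := A.filter (fun b => ∃ z ∈ W, bil b z z = 0) with hT
  -- the fibres
  have hcov : W ⊆ T.biUnion (fun b => W.filter (fun z => bil b z z = 0)) := by
    intro z hz
    have hzI := (memW.1 hz).1
    have hnu := h.nu_ne_zero hzI (memW.1 hz).2
    unfold nu at hnu
    obtain ⟨b, hb⟩ := Finset.card_pos.1 (Nat.pos_of_ne_zero hnu)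
    rw [Finset.mem_filter] at hb
    rw [Finset.mem_biUnion]
    refine ⟨b, ?_, ?_⟩
    · rw [hT, Finset.mem_filter]
      exact ⟨hb.1, z, hz, hb.2⟩
    · rw [Finset.mem_filter]
      exact ⟨hz, hb.2⟩
  have hWT : W.card ≤ T.card * 2 := by
    refine (Finset.card_le_card hcov).trans (Finset.card_biUnion_le_card_mul _ _ _ ?_)
    intro b _
    by_cases hem : (W.filter (fun z => bil b z z = 0)) = ∅
    · rw [hem]; simp
    · obtain ⟨z0, hz0⟩ := Finset.nonempty_iff_ne_empty.2 hem
      have hsub : W.filter (fun z => bil b z z = 0) ⊆ {z0, - z0 - 2 * b.1} := by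
        intro z hz
        rw [Finset.mem_filter] at hz hz0
        have e1 := hz.2
        have e2 := hz0.2
        unfold bil at e1 e2
        have h3 : (z - z0) * (z - (- z0 - 2 * b.1)) = 0 := by linear_combination e1 - e2
        rw [Finset.mem_insert, Finset.mem_singleton]
        rcases mul_eq_zero.1 h3 with h4 | h4
        · left; exact sub_eq_zero.1 h4
        · right; exact sub_eq_zero.1 h4
      exact (Finset.card_le_card hsub).trans Finset.card_le_two
  have hTA : T ⊆ A := Finset.filter_subset _ _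
  have hS1 : (A.image (fun a => img a x)).card = A.card := by
    apply Finset.card_image_of_injOn
    intro a ha b hb hab
    exact img_inj h hxI (memW.1 hx).2 ha hb hab
  have hS2 : (T.image (fun a => img a (x ^ q))).card = T.card := by
    apply Finset.card_image_of_injOn
    intro a ha b hb hab
    exact img_inj h (memW.1 hx').1 (memW.1 hx').2 (hTA ha) (hTA hb) hab
  have hsub1 : A.image (fun a => img a x) ⊆ W := by
    intro y hy
    obtain ⟨a, ha, rfl⟩ := Finset.mem_image.1 hy
    rw [memW]
    exact ⟨img_mem_II h ha hxI, img_mu h hE ha hxI (memW.1 hx).2⟩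
  have hsub2 : T.image (fun a => img a (x ^ q)) ⊆ W := by
    intro y hy
    obtain ⟨a, ha, rfl⟩ := Finset.mem_image.1 hy
    rw [memW]
    exact ⟨img_mem_II h (hTA ha) (memW.1 hx').1, img_mu h hE (hTA ha) (memW.1 hx').1 (memW.1 hx').2⟩
  have hdisj : Disjoint (A.image (fun a => img a x)) (T.image (fun a => img a (x ^ q))) := by
    rw [Finset.disjoint_left]
    intro y hy hy'
    obtain ⟨a, ha, rfl⟩ := Finset.mem_image.1 hy
    obtain ⟨b, hb, hab⟩ := Finset.mem_image.1 hy'
    have hbA := hTA hb
    have e1 := bil_img (add_ne h ha hxI)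
    have e3 := bil_img (add_ne h hbA (memW.1 hx').1)
    have hab' : img b (x ^ q) = img a x := hab
    rw [hab'] at e3
    have e2 : bil a (x ^ q) ((img a x) ^ q) = 0 := by
      rw [← h.bil_pow (h.rat1 a ha) (h.rat2 a ha), e1]
      exact zero_pow (by omega)
    have e4 : bil b x ((img a x) ^ q) = 0 := by
      have : bil b (x ^ q) (img a x) ^ q = 0 := by rw [e3]; exact zero_pow (by omega)
      rw [h.bil_pow (h.rat1 b hbA) (h.rat2 b hbA), pow_pow_q h2 hxE] at this
      exact this
    have horth := orth_of_swap hxne e1 e2 e3 e4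
    rw [hT, Finset.mem_filter] at hb
    obtain ⟨_, z, hz, hbz⟩ := hb
    have hzI := (memW.1 hz).1
    have hzne : z ^ q ≠ z := ((mem_II h2).1 hzI).2
    have hbz' : bil b (z ^ q) (z ^ q) = 0 := by
      rw [← h.bil_pow (h.rat1 b hbA) (h.rat2 b hbA), hbz]
      exact zero_pow (by omega)
    unfold bil at hbz hbz'
    have h5 : (z ^ q - z) * (z ^ q + z + 2 * b.1) = 0 := by linear_combination hbz' - hbz
    have h6 := (mul_eq_zero.1 h5).resolve_left (sub_ne_zero.2 hzne)
    apply mu_zero_iff.1 (memW.1 hz).2 a ha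
    unfold bil
    linear_combination (z + a.1) * h6 - hbz - horth
  have hfin : A.card + T.card ≤ W.card := by
    rw [← hS1, ← hS2, ← Finset.card_union_of_disjoint hdisj]
    exact Finset.card_le_card (Finset.union_subset hsub1 hsub2)
  have hA := h.cardA
  rw [hWc]
  omega

end Pool.Agent.SpreadN
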