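import Pool.Agent.Lib_MP_9e452d_n.NSq
import Pool.Agent.Lib_MP_9e452d_n.NZero
import Pool.Agent.Lib_MP_9e452d_n.NLac
import Pool.Agent.Lib_MP_9e452d_n.NOde
import Pool.Agent.Lib_MP_9e452d_n.NExt
import Pool.Agent.Lib_MP_9e452d_n.NTri
import Pool.Agent.Lib_MP_9e452d_n.NFin

/-!
# MP_9e452d_al: the main theorem over the algebraically closed field
-/

set_option autoImplicit false

namespace Pool.Agent.SpreadN

open Polynomial

variable {K : Type*} [Field K] [DecidableEq K] {q : ℕ} {A : Finset (K × K)} [IsAlgClosed K]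

theorem OCov.main (h : OCov q A) (hs : 9 * (nQ q A + nJ q A) + 15 * nG q A + 21 < q) :
    ∃ α β γ : K, α ^ q = α ∧ β ^ q = β ∧ γ ^ q = γ ∧ β ^ 2 ≠ α * γ ∧
      ∀ x ∈ II K q, α * x ^ (q + 1) + β * (x + x ^ q) + γ = 0 → nu A x ≠ 0 := by
  have hr1 := h.rel1
  have hr2 := h.rel2
  have hcA := h.cardA
  have hinf : Infinite K := IsAlgClosed.instInfinite
  by_cases hall : ∀ a ∈ A, C (dl a ^ 2) * tw a (nG q A + nQ q A) (pg q A) * pM q A =
      pg q A * tw a (q + 3 + nG q A + nQ q A) (pM q A)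
  · have := h.zero_case (by omega) hall
    omega
  push Not at hall
  obtain ⟨a, ha, hne⟩ := hall
  obtain ⟨r, hr, hE⟩ := h.exists_r ha
  have hr0 : r ≠ 0 := by
    intro h0
    rw [h0, mul_zero, sub_eq_zero] at hE
    exact hne hE
  obtain ⟨V, B, hV, hBF, hBc, hBV⟩ := h.square ha r hr hr0 hE (by omega)
  obtain ⟨u, v, hu, hv, huv⟩ := h.lacunary V B hV hBF hBV
  set d := B.card + 3 + (nG q A + nQ q A + nJ q A) with hd
  set Z2 : K[X] := ∏ x ∈ B, (X - C x) with hZ2
  have hZ2m : Z2.Monic := monic_prod_of_monic _ _ (fun x _ => monic_X_sub_C x)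
  have hZ2d : Z2.natDegree = B.card := by
    rw [hZ2, natDegree_prod_of_monic _ _ (fun x _ => monic_X_sub_C x)]
    simp
  set G : K[X] := pg q A * Z2 * pJ q A with hG
  have hGm : G.Monic := (pg_monic.mul hZ2m).mul pJ_monic
  have hGd : G.natDegree = nG q A + nQ q A + B.card + nJ q A := by
    rw [hG, Monic.natDegree_mul (pg_monic.mul hZ2m) pJ_monic, Monic.natDegree_mul pg_monic hZ2m, pg_natDegree,
      pJ_natDegree, hZ2d]
  have hode := fun a (ha : a ∈ A) (x y : K) (hxy : bil a x y = 0) =>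
    h.ode (B := B) (u := u) (v := v) hd (by omega) (by omega) hv huv ha x y hxy
  have hext := ext_zero A h.nd G u v d (by omega) (by omega) hv (by omega) hode
  have htri := trichotomy h.two hGm.ne_zero (fun x y hxy => ext_at G u v x y (hext x y) hxy)
  rcases htri with h1 | ⟨κ, h1⟩ | h1 | ⟨g, α, β, γ, h1, h2, h3⟩
  · exact absurd h1 (h.not_u_zero hv huv)
  · exact absurd h1 (h.not_const (by omega) huv κ)
  · exact absurd h1 (h.not_X (by omega) huv)
  · rw [h1, h2] at huv
    exact h.line_c hBF h3 huv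

end Pool.Agent.SpreadN
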