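import Pool.Agent.Lib_MP_9e452d_n.NLine

/-!
# Piece NNum: the two numerical relations and the degrees

Double counting. (1) `∑ x ∈ EE, mu x = (q - 2) (q + 1)` by `La_card`; and
`∑ x ∈ EE, mu x = ∑ (mu x - 1) + #{x ∈ EE : mu x ≠ 0} = nG + nQ + q ^ 2 - nZ - nW`. This gives `rel1`.
(2) `∑ x ∈ EE, nu x = 2 (q - 2)` by `Qa_card`; on `FF` we have `nu = mu`, so the sum over `FF` is
`nG + (q - nZ)`; on `II` we have `nu ≤ 1` and `nu = 1` if `mu = 0`, so the sum over `II` is `nW + nJ`. With `rel1`
this gives `rel2`.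
-/

set_option autoImplicit false

namespace Pool.Agent.SpreadN

open Polynomial

variable {K : Type*} [Field K] [DecidableEq K] {q : ℕ} {A : Finset (K × K)}

private theorem monic_prod_lin (s : Finset K) : (∏ x ∈ s, (X - C x : K[X])).Monic :=
  monic_prod_of_monic _ _ (fun x _ => monic_X_sub_C x)

private theorem monic_prod_lin_pow (s : Finset K) (f : K → ℕ) : (∏ x ∈ s, (X - C x : K[X]) ^ f x).Monic :=
  monic_prod_of_monic _ _ (fun x _ => (monic_X_sub_C x).pow _)

private theorem natDegree_prod_lin_pow (s : Finset K) (f : K → ℕ) :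
    (∏ x ∈ s, (X - C x : K[X]) ^ f x).natDegree = ∑ x ∈ s, f x := by
  rw [natDegree_prod_of_monic _ _ (fun x _ => (monic_X_sub_C x).pow _)]
  refine Finset.sum_congr rfl (fun x _ => ?_)
  rw [natDegree_pow, natDegree_X_sub_C, mul_one]

theorem pZ_monic : (pZ q A).Monic := monic_prod_lin _
theorem pW_monic : (pW q A).Monic := monic_prod_lin _
theorem pJ_monic : (pJ q A).Monic := monic_prod_lin _
theorem pQ_monic : (pQ q A).Monic := monic_prod_lin_pow _ _
theorem pG_monic : (pG q A).Monic := monic_prod_lin_pow _ _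
theorem pM_monic : (pM q A).Monic := pZ_monic.mul pW_monic
theorem pg_monic : (pg q A).Monic := pG_monic.mul pQ_monic

theorem pZ_natDegree : (pZ q A).natDegree = nZ q A := natDegree_finsetProd_X_sub_C_eq_card _ (fun x : K => x)
theorem pW_natDegree : (pW q A).natDegree = nW q A := natDegree_finsetProd_X_sub_C_eq_card _ (fun x : K => x)
theorem pJ_natDegree : (pJ q A).natDegree = nJ q A := natDegree_finsetProd_X_sub_C_eq_card _ (fun x : K => x)
theorem pQ_natDegree : (pQ q A).natDegree = nQ q A := natDegree_prod_lin_pow _ _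
theorem pG_natDegree : (pG q A).natDegree = nG q A := natDegree_prod_lin_pow _ _
theorem pg_natDegree : (pg q A).natDegree = nG q A + nQ q A := by
  unfold pg
  rw [pG_monic.natDegree_mul pQ_monic, pG_natDegree, pQ_natDegree]

variable [IsAlgClosed K]

/-- a sum over `EE` is the sum over `FF` plus the sum over `II` -/
private theorem OCov.sum_split (h : OCov q A) (f : K → ℕ) :
    ∑ x ∈ EE K q, f x = ∑ x ∈ FF K q, f x + ∑ x ∈ II K q, f x := by
  have hsub : FF K q ⊆ EE K q := FF_subset (by have := h.hq; omega)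
  unfold II
  rw [add_comm, Finset.sum_sdiff hsub]

private theorem sum_card_filter (s : Finset K) (p : K × K → K → Prop) [∀ a, DecidablePred (p a)]
    (B : Finset (K × K)) :
    ∑ x ∈ s, (B.filter (fun a => p a x)).card = ∑ a ∈ B, (s.filter (fun x => p a x)).card := by
  simp only [Finset.card_filter]
  exact Finset.sum_comm

private theorem OCov.sum_mu (h : OCov q A) : ∑ x ∈ EE K q, mu q A x = A.card * (q + 1) := by
  unfold mu
  rw [sum_card_filter (EE K q) (fun a x => bil a x (x ^ q) = 0) A, Finset.card_eq_sum_ones, Finset.sum_mul]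
  refine Finset.sum_congr rfl (fun a ha => ?_)
  rw [h.La_card (h.rat1 a ha) (h.rat2 a ha) (h.nd a ha), one_mul]

private theorem OCov.sum_nu (h : OCov q A) : ∑ x ∈ EE K q, nu A x = A.card * 2 := by
  unfold nu
  rw [sum_card_filter (EE K q) (fun a x => bil a x x = 0) A, Finset.card_eq_sum_ones, Finset.sum_mul]
  refine Finset.sum_congr rfl (fun a ha => ?_)
  rw [h.Qa_card (h.rat1 a ha) (h.rat2 a ha) (h.nd a ha), one_mul]

private theorem sum_sub_one (s : Finset K) (f : K → ℕ) :
    ∑ x ∈ s, f x + (s.filter (fun x => f x = 0)).card = ∑ x ∈ s, (f x - 1) + s.card := by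
  rw [Finset.card_filter, Finset.card_eq_sum_ones, ← Finset.sum_add_distrib, ← Finset.sum_add_distrib]
  refine Finset.sum_congr rfl (fun x _ => ?_)
  by_cases hx : f x = 0
  · rw [if_pos hx, hx]
  · rw [if_neg hx]
    omega

private theorem OCov.sum_nu_II (h : OCov q A) : ∑ x ∈ II K q, nu A x = nW q A + nJ q A := by
  unfold nW nJ
  rw [Finset.card_filter, Finset.card_filter, ← Finset.sum_add_distrib]
  refine Finset.sum_congr rfl (fun x hx => ?_)
  have h1 := h.nu_le_one hx
  by_cases h2 : mu q A x = 0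
  · have h3 := h.nu_ne_zero hx h2
    rw [if_pos h2, if_neg (by tauto)]
    omega
  · by_cases h3 : nu A x = 0
    · rw [if_neg h2, if_neg (by tauto), h3]
    · rw [if_neg h2, if_pos ⟨h2, h3⟩]
      omega

private theorem OCov.card_split (h : OCov q A) : (FF K q).card + (II K q).card = (EE K q).card := by
  have h1 := h.sum_split (fun _ => 1)
  simp only [Finset.sum_const, smul_eq_mul, mul_one] at h1
  exact h1.symm

theorem OCov.rel1 (h : OCov q A) : nG q A + nQ q A + q + 2 = nZ q A + nW q A := by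
  have h1 := h.sum_mu
  have h2 := h.sum_split (mu q A)
  have h3 : ∑ x ∈ FF K q, mu q A x + nZ q A = nG q A + (FF K q).card := sum_sub_one (FF K q) (mu q A)
  have h4 : ∑ x ∈ II K q, mu q A x + nW q A = nQ q A + (II K q).card := sum_sub_one (II K q) (mu q A)
  have h5 := h.card_split
  rw [h.card_EE] at h5
  have h6 := h.cardA
  obtain ⟨m, hm⟩ : ∃ m, A.card = m := ⟨_, rfl⟩
  rw [hm] at h1 h6
  subst h6
  have h7 : (m + 2) ^ 2 = m * (m + 2 + 1) + (m + 4) := by ring
  rw [h7] at h5
  omega

theorem OCov.rel2 (h : OCov q A) : 2 * nZ q A = 2 * nG q A + 6 + nQ q A + nJ q A := by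
  have h0 := h.rel1
  have h1 := h.sum_nu
  have h2 := h.sum_split (nu A)
  have h3 : ∑ x ∈ FF K q, mu q A x + nZ q A = nG q A + (FF K q).card := sum_sub_one (FF K q) (mu q A)
  have h4 := h.sum_nu_II
  have h5 : ∑ x ∈ FF K q, nu A x = ∑ x ∈ FF K q, mu q A x :=
    Finset.sum_congr rfl (fun x hx => h.nu_eq_mu hx)
  rw [h.card_FF] at h3
  have h6 := h.cardA
  omega

theorem OCov.pM_natDegree (h : OCov q A) : (pM q A).natDegree = q + 2 + nG q A + nQ q A := by
  have h0 := h.rel1
  unfold pM
  rw [pZ_monic.natDegree_mul pW_monic, pZ_natDegree, pW_natDegree]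
  omega

end Pool.Agent.SpreadN
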