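import Pool.Agent.Lib_MP_9e452d.Core
import Pool.Agent.Lib_MP_9e452d_n.NFCov

/-!
# Piece NPa: coordinates such that `∞` is not fixed, and the normalised covering set
-/

set_option autoImplicit false

namespace Pool.Agent.SpreadN

open Pool.Agent.SpreadPGL

variable {F : Type*} [Field F] [Fintype F] [DecidableEq F]

/-- Some point of the conic is not fixed. The proof of `core` in `Lib_MP_9e452d/Core.lean` (`hE1`, `hE2`) shows, for
`k + 3 = q`, `A.card + q + 3 ≤ 2 I.card` and `A.card + 2 I.card ≤ 2 k`. Here, for `k + 2 = q`, the same proof gives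
`q (q - 1) + A.card ≤ k (q + 1) + 2 I.card`, so `A.card + 2 ≤ 2 I.card`, and `A.card + 2 I.card ≤ 2 k`; so
`A.card ≤ k - 1 < q + 1`. -/
theorem exists_unfixed (h2 : ringChar F ≠ 2) {ι : Type*} [Fintype ι] (hι : Fintype.card ι + 2 = Fintype.card F)
    (a : ι → (Fin 3 → F)) (ha : ∀ i, a i ≠ 0)
    (K1 : ∀ z, ¬ IsSquare (D z) → ∃ i, B (a i) z = 0 ∨ ∃ c : F, z = c • a i) :
    ∃ o : Option F, ∀ i, B (a i) (cp o) ≠ 0 := by
  classical
  have h2' : (2 : F) ≠ 0 := Ring.two_ne_zero h2
  obtain ⟨c, hc⟩ := FiniteField.exists_nonsquare h2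
  have hc0 : c ≠ 0 := fun h => hc (h ▸ IsSquare.zero)
  set q := Fintype.card F with hq
  set k := Fintype.card ι with hk
  set S := Finset.univ.filter (fun z : Fin 3 → F => D z = c) with hS
  set I := Finset.univ.filter (fun i : ι => ¬ IsSquare (D (a i))) with hI
  set A := Finset.univ.filter (fun o : Option F => ∃ i, B (a i) (cp o) = 0) with hA
  have hl : ∀ i, (S.filter (fun z => B (a i) z = 0)).card
      + (Finset.univ.filter (fun o : Option F => B (a i) (cp o) = 0)).card ≤ q + 1 := by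
    intro i
    have := line_card h2' hc (a i) (ha i)
    rw [hS, Finset.filter_filter]
    exact this
  -- the conic points
  have hA1 : A.card ≤ ∑ i, (Finset.univ.filter (fun o : Option F => B (a i) (cp o) = 0)).card := by
    have : A ⊆ Finset.univ.biUnion (fun i => Finset.univ.filter (fun o : Option F => B (a i) (cp o) = 0)) := by
      intro o ho
      rw [hA, Finset.mem_filter] at ho
      obtain ⟨i, hi⟩ := ho.2
      rw [Finset.mem_biUnion]
      exact ⟨i, Finset.mem_univ _, Finset.mem_filter.2 ⟨Finset.mem_univ _, hi⟩⟩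
    exact (Finset.card_le_card this).trans Finset.card_biUnion_le
  have hS1 : S.card ≤ (∑ i, (S.filter (fun z => B (a i) z = 0)).card) + 2 * I.card := by
    have : S ⊆ (Finset.univ.biUnion (fun i => S.filter (fun z => B (a i) z = 0))) ∪
        I.biUnion (fun i => S.filter (fun z => ∃ c' : F, z = c' • a i)) := by
      intro z hz
      have hDz : D z = c := by
        rw [hS, Finset.mem_filter] at hz
        exact hz.2
      obtain ⟨i, h | ⟨c', h⟩⟩ := K1 z (by rw [hDz]; exact hc)
      · exact Finset.mem_union_left _ (Finset.mem_biUnion.2 ⟨i, Finset.mem_univ _, Finset.mem_filter.2 ⟨hz, h⟩⟩)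
      · refine Finset.mem_union_right _ (Finset.mem_biUnion.2 ⟨i, ?_, Finset.mem_filter.2 ⟨hz, c', h⟩⟩)
        rw [hI, Finset.mem_filter]
        refine ⟨Finset.mem_univ _, fun hsq => hc ?_⟩
        rw [← hDz, h, D_smul]
        exact (IsSquare.sq c').mul hsq
    refine (Finset.card_le_card this).trans ((Finset.card_union_le _ _).trans (Nat.add_le_add Finset.card_biUnion_le ?_))
    refine Finset.card_biUnion_le.trans ?_
    rw [mul_comm, ← smul_eq_mul]
    refine Finset.sum_le_card_nsmul _ _ _ (fun i _ => ?_)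
    -- at most two multiples
    rcases Finset.eq_empty_or_nonempty (S.filter (fun z => ∃ c' : F, z = c' • a i)) with he | ⟨z0, hz0⟩
    · rw [he]; simp
    · rw [Finset.mem_filter, hS, Finset.mem_filter] at hz0
      obtain ⟨⟨-, hz0c⟩, c0, hc0'⟩ := hz0
      have hsub : S.filter (fun z => ∃ c' : F, z = c' • a i) ⊆ {z0, - z0} := by
        intro z hz
        rw [Finset.mem_filter, hS, Finset.mem_filter] at hz
        obtain ⟨⟨-, hzc⟩, c1, hc1⟩ := hz
        rw [hc1, D_smul] at hzc
        rw [hc0', D_smul] at hz0c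
        have hD0 : D (a i) ≠ 0 := by
          intro h
          rw [h, mul_zero] at hzc
          exact hc0 hzc.symm
        have : D (a i) * ((c1 - c0) * (c1 + c0)) = 0 := by linear_combination hzc - hz0c
        rcases mul_eq_zero.1 ((mul_eq_zero.1 this).resolve_left hD0) with h | h
        · have : c1 = c0 := by linear_combination h
          rw [hc1, hc0', this]
          simp
        · have : c1 = - c0 := by linear_combination h
          rw [hc1, hc0', this]
          simp
      exact (Finset.card_le_card hsub).trans Finset.card_le_two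
  have hS0 : q * (q - 1) ≤ S.card := sphere_card c
  have hsum : (∑ i, (S.filter (fun z => B (a i) z = 0)).card)
      + (∑ i, (Finset.univ.filter (fun o : Option F => B (a i) (cp o) = 0)).card) ≤ k * (q + 1) := by
    rw [← Finset.sum_add_distrib]
    have := Finset.sum_le_card_nsmul (Finset.univ : Finset ι) _ (q + 1) (fun i _ => hl i)
    rwa [Finset.card_univ, smul_eq_mul] at this
  have hE1 : A.card + 2 ≤ 2 * I.card := by
    have h5 : q * (q - 1) + A.card ≤ k * (q + 1) + 2 * I.card := by omega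
    have h6 : q = k + 2 := by omega
    rw [h6] at h5
    have h7 : (k + 2) * (k + 2 - 1) = k * (k + 2 + 1) + 2 := by
      have : k + 2 - 1 = k + 1 := by omega
      rw [this]; ring
    omega
  have hE2 : A.card + 2 * I.card ≤ 2 * k := by
    have h3 : ∑ i, (Finset.univ.filter (fun o : Option F => B (a i) (cp o) = 0)).card ≤
        ∑ i, (if i ∈ I then 0 else 2) := by
      apply Finset.sum_le_sum
      intro i _
      split_ifs with h
      · rw [Nat.le_zero, Finset.card_eq_zero, Finset.filter_eq_empty_iff]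
        intro o _
        rw [hI, Finset.mem_filter] at h
        exact conic_none (a i) h.2 o
      · exact conic_two h2' (a i) (ha i)
    have h4 : ∑ i, (if i ∈ I then 0 else 2) + 2 * I.card = 2 * k := by
      have h5 : 2 * I.card = ∑ i, (if i ∈ I then 2 else 0) := by
        rw [Finset.sum_ite_mem, Finset.univ_inter, Finset.sum_const, smul_eq_mul, mul_comm]
      rw [h5, ← Finset.sum_add_distrib]
      have : ∀ i, ((if i ∈ I then 0 else 2) + (if i ∈ I then 2 else 0) : ℕ) = 2 := by
        intro i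
        split_ifs <;> rfl
      rw [Finset.sum_congr rfl (fun i _ => this i), Finset.sum_const, Finset.card_univ, smul_eq_mul, mul_comm]
    omega
  by_contra hcon
  push Not at hcon
  have hAu : A = Finset.univ := by
    rw [hA, Finset.filter_eq_self]
    intro o _
    exact hcon o
  have hAc : A.card = q + 1 := by
    rw [hAu, Finset.card_univ, Fintype.card_option]
  omega

/-- If `o = none` take `a' = a` (`B (a i) (cp none) = a i 2`). If `o = some t` take `a' i = φ (a i)` with the
linear isometry `φ z = ![z 0 - t z 2, - z 2, - (z 1 + 2 t z 0 - t ^ 2 z 2)]`; `φ z 2 = - B z (cp (some t))`,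
`D (φ z) = D z`, `B (φ y) (φ z) = B y z`, `φ` bijective. -/
theorem exists_coord (h2 : ringChar F ≠ 2) {ι : Type*} [Fintype ι] (hι : Fintype.card ι + 2 = Fintype.card F)
    (a : ι → (Fin 3 → F)) (ha : ∀ i, a i ≠ 0)
    (K1 : ∀ z, ¬ IsSquare (D z) → ∃ i, B (a i) z = 0 ∨ ∃ c : F, z = c • a i)
    (K2 : ∀ z, D z ≠ 0 → IsSquare (D z) → ∃ i, B (a i) z = 0 ∨ ∃ N, N ≠ 0 ∧ D N = 0 ∧ B (a i) N = 0 ∧ B N z = 0) :
    ∃ a' : ι → (Fin 3 → F), (∀ i, a' i 2 ≠ 0) ∧
      (∀ z, ¬ IsSquare (D z) → ∃ i, B (a' i) z = 0 ∨ ∃ c : F, z = c • a' i) ∧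
      (∀ z, D z ≠ 0 → IsSquare (D z) → ∃ i, B (a' i) z = 0 ∨
        ∃ N, N ≠ 0 ∧ D N = 0 ∧ B (a' i) N = 0 ∧ B N z = 0) := by
  have h2' : (2 : F) ≠ 0 := Ring.two_ne_zero h2
  obtain ⟨o, ho⟩ := exists_unfixed h2 hι a ha K1
  cases o with
  | none =>
    refine ⟨a, fun i => ?_, K1, K2⟩
    have := ho i
    rwa [B_cp_none] at this
  | some t =>
    obtain ⟨φ, hφ⟩ : ∃ φ : (Fin 3 → F) → (Fin 3 → F), ∀ z, φ z = ![z 0 - t * z 2, - z 2, - (z 1 + 2 * t * z 0 - t ^ 2 * z 2)] :=
      ⟨_, fun z => rfl⟩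
    obtain ⟨ψ, hψ⟩ : ∃ ψ : (Fin 3 → F) → (Fin 3 → F), ∀ y, ψ y = ![y 0 - t * y 1, - y 2 - 2 * t * (y 0 - t * y 1) - t ^ 2 * y 1, - y 1] :=
      ⟨_, fun z => rfl⟩
    have φ0 : ∀ z, φ z 0 = z 0 - t * z 2 := fun z => by rw [hφ]; rfl
    have φ1 : ∀ z, φ z 1 = - z 2 := fun z => by rw [hφ]; rfl
    have φ2 : ∀ z, φ z 2 = - (z 1 + 2 * t * z 0 - t ^ 2 * z 2) := fun z => by rw [hφ]; rfl
    have ψ0 : ∀ z, ψ z 0 = z 0 - t * z 1 := fun z => by rw [hψ]; rfl
    have ψ1 : ∀ y, ψ y 1 = - y 2 - 2 * t * (y 0 - t * y 1) - t ^ 2 * y 1 := fun z => by rw [hψ]; rfl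
    have ψ2 : ∀ z, ψ z 2 = - z 1 := fun z => by rw [hψ]; rfl
    have hφψ : ∀ y, φ (ψ y) = y := by
      intro y
      funext i
      fin_cases i
      · show φ (ψ y) 0 = y 0
        rw [φ0, ψ0, ψ2]; ring
      · show φ (ψ y) 1 = y 1
        rw [φ1, ψ2]; ring
      · show φ (ψ y) 2 = y 2
        rw [φ2, ψ1, ψ0, ψ2]; ring
    have hψφ : ∀ y, ψ (φ y) = y := by
      intro y
      funext i
      fin_cases i
      · show ψ (φ y) 0 = y 0
        rw [ψ0, φ0, φ1]; ring
      · show ψ (φ y) 1 = y 1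
        rw [ψ1, φ2, φ1, φ0]; ring
      · show ψ (φ y) 2 = y 2
        rw [ψ2, φ1]; ring
    have hD : ∀ z, D (φ z) = D z := by
      intro z
      unfold D
      rw [φ0, φ1, φ2]; ring
    have hB : ∀ y z, B (φ y) (φ z) = B y z := by
      intro y z
      unfold B
      rw [φ0, φ1, φ2, φ0, φ1, φ2]; ring
    have hDψ : ∀ z, D (ψ z) = D z := by
      intro z
      rw [← hD, hφψ]
    have hs : ∀ (c : F) z, φ (c • z) = c • φ z := by
      intro c z
      funext i
      fin_cases i
      · show φ (c • z) 0 = c * φ z 0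
        rw [φ0, φ0]; simp only [Pi.smul_apply, smul_eq_mul]; ring
      · show φ (c • z) 1 = c * φ z 1
        rw [φ1, φ1]; simp only [Pi.smul_apply, smul_eq_mul]; ring
      · show φ (c • z) 2 = c * φ z 2
        rw [φ2, φ2]; simp only [Pi.smul_apply, smul_eq_mul]; ring
    have hBψ : ∀ y z, B (φ y) z = B y (ψ z) := by
      intro y z
      rw [← hB y (ψ z), hφψ]
    refine ⟨fun i => φ (a i), fun i => ?_, fun z hz => ?_, fun z hz0 hzs => ?_⟩
    · show φ (a i) 2 ≠ 0
      rw [φ2]
      have := ho i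
      rw [B_cp_some] at this
      intro h
      apply this
      linear_combination -h
    · obtain ⟨i, h | ⟨c, h⟩⟩ := K1 (ψ z) (by rw [hDψ]; exact hz)
      · exact ⟨i, Or.inl (by show B (φ (a i)) z = 0; rw [hBψ]; exact h)⟩
      · refine ⟨i, Or.inr ⟨c, ?_⟩⟩
        show z = c • φ (a i)
        rw [← hs, ← h, hφψ]
    · obtain ⟨i, h | ⟨N, hN0, hND, hNa, hNz⟩⟩ := K2 (ψ z) (by rw [hDψ]; exact hz0) (by rw [hDψ]; exact hzs)
      · exact ⟨i, Or.inl (by show B (φ (a i)) z = 0; rw [hBψ]; exact h)⟩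
      · refine ⟨i, Or.inr ⟨φ N, ?_, ?_, ?_, ?_⟩⟩
        · intro h
          apply hN0
          rw [← hψφ N, h]
          funext j
          fin_cases j
          · show ψ 0 0 = 0
            rw [ψ0]; simp
          · show ψ 0 1 = 0
            rw [ψ1]; simp
          · show ψ 0 2 = 0
            rw [ψ2]; simp
        · rw [hD]; exact hND
        · show B (φ (a i)) (φ N) = 0
          rw [hB]; exact hNa
        · rw [hBψ]; exact hNz

end Pool.Agent.SpreadN
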