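import Pool.Agent.Lib_MP_9e452d.Core
import Pool.Agent.Lib_MP_9e452d_n.NFCov

/-!
# Piece NPb: the normalised covering set
-/

set_option autoImplicit false

namespace Pool.Agent.SpreadN

open Pool.Agent.SpreadPGL

variable {F : Type*} [Field F] [Fintype F] [DecidableEq F]

/-- the pair attached to a vector -/
private def pr (v : Fin 3 → F) : F × F :=
  if D v = 0 then (-(2 * (v 0 / v 2) + 1) / 2, (v 0 / v 2) * (v 0 / v 2 + 1)) else (- v 0 / v 2, - v 1 / v 2)

omit [Fintype F] in
private theorem pr_zero {v : Fin 3 → F} (h : D v = 0) :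
    pr v = (-(2 * (v 0 / v 2) + 1) / 2, (v 0 / v 2) * (v 0 / v 2 + 1)) := if_pos h

omit [Fintype F] in
private theorem pr_ne {v : Fin 3 → F} (h : D v ≠ 0) : pr v = (- v 0 / v 2, - v 1 / v 2) := if_neg h

omit [Fintype F] in
private theorem pr_nd (h2 : (2 : F) ≠ 0) {v : Fin 3 → F} (hv : v 2 ≠ 0) : (pr v).1 ^ 2 ≠ (pr v).2 := by
  by_cases h : D v = 0
  · rw [pr_zero h]
    intro he
    have e1 : ((-(2 * (v 0 / v 2) + 1) / 2) : F) ^ 2 = (v 0 / v 2) * (v 0 / v 2 + 1) := he
    have e2 : (-(2 * (v 0 / v 2) + 1) : F) ^ 2 = (v 0 / v 2) * (v 0 / v 2 + 1) * 2 ^ 2 := by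
      rw [← e1]
      field_simp
    exact one_ne_zero (α := F) (by linear_combination e2)
  · rw [pr_ne h]
    intro he
    have e1 : (- v 0 / v 2) ^ 2 = - v 1 / v 2 := he
    apply h
    unfold D
    field_simp at e1
    linear_combination e1

omit [Fintype F] in
/-- a point of the conic orthogonal to `v` is fixed by the pair of `v` -/
private theorem pr_fix (h2 : (2 : F) ≠ 0) {v : Fin 3 → F} (hv : v 2 ≠ 0) {u : F}
    (hu : B v (cp (some u)) = 0) : u ^ 2 + 2 * (pr v).1 * u + (pr v).2 = 0 := by
  rw [B_cp_some] at hu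
  by_cases h : D v = 0
  · rw [pr_zero h]
    show u ^ 2 + 2 * (-(2 * (v 0 / v 2) + 1) / 2) * u + (v 0 / v 2) * (v 0 / v 2 + 1) = 0
    obtain ⟨r, hr⟩ : ∃ r, r = v 0 / v 2 := ⟨_, rfl⟩
    have e0 : v 0 = r * v 2 := by rw [hr]; field_simp
    have e1 : v 1 = - r ^ 2 * v 2 := by
      unfold D at h
      apply mul_right_cancel₀ hv
      rw [e0] at h
      linear_combination h
    rw [e0, e1] at hu
    have e2 : v 2 * (u - r) ^ 2 = 0 := by linear_combination - hu
    have e3 : u - r = 0 := by
      have := (mul_eq_zero.1 e2).resolve_left hv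
      exact pow_eq_zero_iff (two_ne_zero) |>.1 this
    have e4 : u = r := by linear_combination e3
    rw [← hr, e4]
    field_simp
    ring
  · rw [pr_ne h]
    show u ^ 2 + 2 * (- v 0 / v 2) * u + (- v 1 / v 2) = 0
    field_simp
    linear_combination - hu

omit [Fintype F] in
/-- an isotropic vector -/
private theorem iso_eq {v : Fin 3 → F} (hv : v 2 ≠ 0) (h : D v = 0) :
    v 1 = - (v 0 / v 2) ^ 2 * v 2 ∧ B v (cp (some (v 0 / v 2))) = 0 := by
  unfold D at h
  constructor
  · field_simp
    linear_combination h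
  · rw [B_cp_some]
    field_simp
    linear_combination h

/-- The pair `(B, C)` corresponds to the vector `![-B, -C, 1]` (`D = B ^ 2 - C`; `x y + B (x + y) + C` is
`z 2 x y - z 0 (x + y) - z 1`). To `i` with `D (a i) ≠ 0` attach `(- a i 0 / a i 2, - a i 1 / a i 2)`. If
`D (a i) = 0` then `a i` is a multiple of `cp (some t)` with `t = a i 0 / a i 2` (`exists_cp`), and attach
`(B, C) = (-(2 t + 1) / 2, t (t + 1))`, which fixes `t` and `t + 1`. The image `A0` has at most `q - 2` elements, all
with `B ^ 2 ≠ C`; enlarge it to a set `A` of exactly `q - 2` pairs with `B ^ 2 ≠ C` (there are `q ^ 2 - q` such pairs;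
`Finset.exists_subsuperset_card_eq`).
* `int`: `z = ![-b, -c, 1]` has `D z = b ^ 2 - c`. By `K1` either `z` is proportional to `a i`, and then
  `(b, c) ∈ A`, or `B (a i) z = 0`; then `D (a i) ≠ 0` (`conic_none`) and the pair of `i` works.
* `ext`: for `s ≠ t` not fixed take `z = ![(s + t) / 2, - s t, 1]`, `D z = ((s - t) / 2) ^ 2`. `K2` gives an `i`. If
  `B (a i) z = 0` and `D (a i) ≠ 0`, the pair of `i` exchanges `s` and `t`. If `B (a i) z = 0` and `D (a i) = 0` then
  `a i` is a multiple of `cp (some r)` and `(r - s) (r - t) = 0`, so `s` or `t` is fixed by the pair of `i`. If there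
  is `N`, a multiple of `cp o'` (`exists_cp`), then `B N z = 0` gives `o' = some s` or `some t`, and `B (a i) N = 0`
  gives that `s` (or `t`) is fixed by the pair of `i` (in both cases `D (a i) ≠ 0`, `D (a i) = 0`: in the second case
  `B (cp (some r)) (cp (some s)) = -(r - s) ^ 2`, so `r = s`).
* `extinf`: the same with `z = ![1, -2 s, 0]`, `D z = 1`; here `o' = none` is impossible as `a i 2 ≠ 0`. -/
theorem exists_FCov (h2 : ringChar F ≠ 2) {ι : Type*} [Fintype ι] (hι : Fintype.card ι + 2 = Fintype.card F)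
    (a : ι → (Fin 3 → F)) (ha : ∀ i, a i 2 ≠ 0)
    (K1 : ∀ z, ¬ IsSquare (D z) → ∃ i, B (a i) z = 0 ∨ ∃ c : F, z = c • a i)
    (K2 : ∀ z, D z ≠ 0 → IsSquare (D z) → ∃ i, B (a i) z = 0 ∨ ∃ N, N ≠ 0 ∧ D N = 0 ∧ B (a i) N = 0 ∧ B N z = 0) :
    ∃ A : Finset (F × F), FCov A := by
  classical
  have h2' : (2 : F) ≠ 0 := Ring.two_ne_zero h2
  -- the set `A`
  have hcard0 : ((Finset.univ : Finset ι).image (fun i => pr (a i))).card ≤ Fintype.card ι :=
    Finset.card_image_le.trans (by rw [Finset.card_univ])
  have hsub0 : (Finset.univ : Finset ι).image (fun i => pr (a i)) ⊆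
      (Finset.univ : Finset (F × F)).filter (fun p => p.1 ^ 2 ≠ p.2) := by
    intro p hp
    obtain ⟨i, _, rfl⟩ := Finset.mem_image.1 hp
    exact Finset.mem_filter.2 ⟨Finset.mem_univ _, pr_nd h2' (ha i)⟩
  have hbig : Fintype.card ι ≤ ((Finset.univ : Finset (F × F)).filter (fun p => p.1 ^ 2 ≠ p.2)).card := by
    have h3 : ((Finset.univ : Finset F).image (fun x : F => (x, x ^ 2 + 1))).card = Fintype.card F := by
      rw [Finset.card_image_of_injective _ (fun x y hxy => congrArg Prod.fst hxy), Finset.card_univ]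
    have h4 : (Finset.univ : Finset F).image (fun x : F => (x, x ^ 2 + 1)) ⊆
        (Finset.univ : Finset (F × F)).filter (fun p => p.1 ^ 2 ≠ p.2) := by
      intro p hp
      obtain ⟨x, _, rfl⟩ := Finset.mem_image.1 hp
      refine Finset.mem_filter.2 ⟨Finset.mem_univ _, fun he => ?_⟩
      have e1 : x ^ 2 = x ^ 2 + 1 := he
      exact one_ne_zero (α := F) (by linear_combination - e1)
    have h5 := Finset.card_le_card h4
    omega
  obtain ⟨A, hA0, hA1, hA2⟩ := Finset.exists_subsuperset_card_eq hsub0 hcard0 hbig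
  have hmem : ∀ i, pr (a i) ∈ A := fun i => hA0 (Finset.mem_image_of_mem _ (Finset.mem_univ i))
  have hmem' : ∀ i, D (a i) ≠ 0 → (- a i 0 / a i 2, - a i 1 / a i 2) ∈ A := fun i hi => by
    have := hmem i
    rwa [pr_ne hi] at this
  refine ⟨A, ⟨h2, by rw [hA2]; exact hι, fun p hp => (Finset.mem_filter.1 (hA1 hp)).2, ?_, ?_, ?_⟩⟩
  · -- internal points
    intro b c hbc
    have hD : D (![-b, -c, 1] : Fin 3 → F) = b ^ 2 - c := by
      simp [D]
      ring
    have hns : ¬ IsSquare (D (![-b, -c, 1] : Fin 3 → F)) := by rw [hD]; exact hbc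
    obtain ⟨i, hi | ⟨k, hk⟩⟩ := K1 _ hns
    · right
      have hDi : D (a i) ≠ 0 := by
        intro h0
        have hne : a i ≠ 0 := fun h => ha i (by rw [h]; rfl)
        obtain ⟨o, k, hk, he⟩ := exists_cp hne h0
        rw [B_comm, he, B_smul] at hi
        exact conic_none _ hns o ((mul_eq_zero.1 hi).resolve_left hk)
      refine ⟨_, hmem' i hDi, ?_⟩
      show c - 2 * (- a i 0 / a i 2) * b + - a i 1 / a i 2 = 0
      have e1 : 2 * a i 0 * (-b) + a i 1 * 1 + a i 2 * (-c) = 0 := by
        have := hi
        simp only [B] at this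
        simpa using this
      have h3 := ha i
      field_simp
      linear_combination - e1
    · left
      have h0 : -b = k * a i 0 := congrFun hk 0
      have h1 : -c = k * a i 1 := congrFun hk 1
      have h3 : (1 : F) = k * a i 2 := congrFun hk 2
      have hDi : D (a i) ≠ 0 := by
        intro h4
        apply hns
        rw [hk, D_smul, h4, mul_zero]
        exact IsSquare.zero
      have h5 := hmem' i hDi
      have h6 := ha i
      have e1 : - a i 0 / a i 2 = b := by
        field_simp
        linear_combination (a i 2) * h0 - a i 0 * h3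
      have e2 : - a i 1 / a i 2 = c := by
        field_simp
        linear_combination (a i 2) * h1 - a i 1 * h3
      rw [e1, e2] at h5
      exact h5
  · -- two points
    intro s t hst hs ht
    have hD : D (![(s + t) / 2, - (s * t), 1] : Fin 3 → F) = ((s - t) / 2) ^ 2 := by
      simp [D]
      field_simp
      ring
    have hne : ((s - t) / 2) ^ 2 ≠ 0 := pow_ne_zero 2 (div_ne_zero (sub_ne_zero.2 hst) h2')
    obtain ⟨i, hi | ⟨N, hN0, hDN, hN1, hN2⟩⟩ := K2 (![(s + t) / 2, - (s * t), 1] : Fin 3 → F)
      (by rw [hD]; exact hne) (by rw [hD]; exact ⟨(s - t) / 2, sq _⟩)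
    · have e1 : 2 * a i 0 * ((s + t) / 2) + a i 1 * 1 + a i 2 * (- (s * t)) = 0 := by
        have := hi
        simp only [B] at this
        simpa using this
      have e2 : a i 0 * (s + t) + a i 1 - a i 2 * (s * t) = 0 := by
        have e3 : 2 * a i 0 * ((s + t) / 2) = a i 0 * (s + t) := by field_simp
        linear_combination e1 - e3
      have h3 := ha i
      by_cases hDi : D (a i) = 0
      · exfalso
        obtain ⟨h4, h5⟩ := iso_eq h3 hDi
        obtain ⟨r, hr⟩ : ∃ r, r = a i 0 / a i 2 := ⟨_, rfl⟩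
        have e0 : a i 0 = r * a i 2 := by rw [hr]; field_simp
        rw [← hr] at h4 h5
        rw [e0, h4] at e2
        have e3 : a i 2 * ((s - r) * (t - r)) = 0 := by linear_combination - e2
        have h6 := pr_fix h2' h3 h5
        rcases mul_eq_zero.1 ((mul_eq_zero.1 e3).resolve_left h3) with h7 | h7
        · rw [← sub_eq_zero.1 h7] at h6
          exact hs _ (hmem i) h6
        · rw [← sub_eq_zero.1 h7] at h6
          exact ht _ (hmem i) h6
      · refine ⟨_, hmem' i hDi, ?_⟩
        show s * t + (- a i 0 / a i 2) * (s + t) + - a i 1 / a i 2 = 0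
        field_simp
        linear_combination - e2
    · exfalso
      obtain ⟨o, k, hk, rfl⟩ := exists_cp hN0 hDN
      rw [B_smul] at hN1
      have h4 := (mul_eq_zero.1 hN1).resolve_left hk
      rw [B_comm, B_smul] at hN2
      have h5 := (mul_eq_zero.1 hN2).resolve_left hk
      cases o with
      | none =>
        rw [B_cp_none] at h5
        exact one_ne_zero h5
      | some u =>
        have h6 := pr_fix h2' (ha i) h4
        rw [B_cp_some] at h5
        have h7 : 2 * ((s + t) / 2) * u + - (s * t) - 1 * u ^ 2 = 0 := h5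
        have e3 : 2 * ((s + t) / 2) * u = (s + t) * u := by field_simp
        have h8 : (u - s) * (u - t) = 0 := by linear_combination e3 - h7
        rcases mul_eq_zero.1 h8 with h9 | h9
        · rw [sub_eq_zero.1 h9] at h6
          exact hs _ (hmem i) h6
        · rw [sub_eq_zero.1 h9] at h6
          exact ht _ (hmem i) h6
  · -- the point at infinity
    intro s hs
    have hD : D (![1, - (2 * s), 0] : Fin 3 → F) = 1 := by
      simp [D]
    obtain ⟨i, hi | ⟨N, hN0, hDN, hN1, hN2⟩⟩ := K2 (![1, - (2 * s), 0] : Fin 3 → F)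
      (by rw [hD]; exact one_ne_zero) (by rw [hD]; exact ⟨1, (one_mul 1).symm⟩)
    · have e1 : 2 * a i 0 * 1 + a i 1 * 0 + a i 2 * (- (2 * s)) = 0 := by
        have := hi
        simp only [B] at this
        simpa using this
      have e2 : a i 0 = a i 2 * s := by
        apply mul_left_cancel₀ h2'
        linear_combination e1
      have h3 := ha i
      by_cases hDi : D (a i) = 0
      · exfalso
        obtain ⟨_, h5⟩ := iso_eq h3 hDi
        have h7 : a i 0 / a i 2 = s := by rw [e2]; field_simp
        rw [h7] at h5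
        exact hs _ (hmem i) (pr_fix h2' h3 h5)
      · refine ⟨_, hmem' i hDi, ?_⟩
        show s + - a i 0 / a i 2 = 0
        rw [e2]
        field_simp
        ring
    · exfalso
      obtain ⟨o, k, hk, rfl⟩ := exists_cp hN0 hDN
      rw [B_smul] at hN1
      have h4 := (mul_eq_zero.1 hN1).resolve_left hk
      rw [B_comm, B_smul] at hN2
      have h5 := (mul_eq_zero.1 hN2).resolve_left hk
      cases o with
      | none =>
        rw [B_cp_none] at h4
        exact ha i h4
      | some u =>
        have h6 := pr_fix h2' (ha i) h4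
        rw [B_cp_some] at h5
        have h7 : 2 * 1 * u + - (2 * s) - 0 * u ^ 2 = 0 := h5
        have h8 : u = s := by
          apply mul_left_cancel₀ h2'
          linear_combination h7
        rw [h8] at h6
        exact hs _ (hmem i) h6

end Pool.Agent.SpreadN
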