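import Pool.Agent.Lib_MP_9e452d_n.NFCov
import Pool.Agent.Lib_MP_9e452d_n.NNum

/-!
# Piece NPc: from `F` to an algebraically closed field `K` containing `F`
-/

set_option autoImplicit false

namespace Pool.Agent.SpreadN

open Polynomial

/-- the image of `A` in `K × K` -/
noncomputable def mapA {F : Type*} [Field F] (K : Type*) [Field K] [DecidableEq K] [Algebra F K]
    (A : Finset (F × F)) : Finset (K × K) :=
  A.image (fun a => (algebraMap F K a.1, algebraMap F K a.2))

variable {F : Type*} [Field F] [Fintype F] [DecidableEq F] {K : Type*} [Field K] [DecidableEq K] [Algebra F K]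

/-- `x ^ q = x` exactly for the elements of `F` (`X ^ q - X` has the `q` roots in `F` and no others) -/
theorem pow_card_eq_iff (x : K) : x ^ Fintype.card F = x ↔ ∃ y : F, algebraMap F K y = x := by
  constructor
  · intro hx
    by_contra hn
    push Not at hn
    have hq : 1 < Fintype.card F := Fintype.one_lt_card
    have hP : (X ^ Fintype.card F - X : K[X]) ≠ 0 := FiniteField.X_pow_card_sub_X_ne_zero K hq
    let S : Finset K := Finset.univ.image (algebraMap F K)
    have hS : S.card = Fintype.card F := by
      rw [Finset.card_image_of_injective _ (algebraMap F K).injective, Finset.card_univ]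
    have hxS : x ∉ S := by
      intro h
      obtain ⟨y, _, hy⟩ := Finset.mem_image.mp h
      exact hn y hy
    have h1 : insert x S ⊆ (X ^ Fintype.card F - X : K[X]).roots.toFinset := by
      intro z hz
      rw [Multiset.mem_toFinset, mem_roots hP, IsRoot.def, eval_sub, eval_pow, eval_X, sub_eq_zero]
      rcases Finset.mem_insert.mp hz with rfl | hz
      · exact hx
      · obtain ⟨y, _, rfl⟩ := Finset.mem_image.mp hz
        rw [← map_pow, FiniteField.pow_card]
    have h2 := Finset.card_le_card h1
    rw [Finset.card_insert_of_notMem hxS, hS] at h2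
    have h3 : (X ^ Fintype.card F - X : K[X]).roots.toFinset.card ≤ Fintype.card F := by
      refine (Multiset.toFinset_card_le _).trans ((card_roots' _).trans ?_)
      rw [FiniteField.X_pow_card_sub_X_natDegree_eq K hq]
    omega
  · rintro ⟨y, rfl⟩
    rw [← map_pow, FiniteField.pow_card]

omit [DecidableEq F] [DecidableEq K] in
private theorem npc_frob (x y : K) :
    (x + y) ^ Fintype.card F = x ^ Fintype.card F + y ^ Fintype.card F := by
  have h := map_add (FiniteField.frobeniusAlgHom F K) x y
  rw [FiniteField.frobeniusAlgHom_apply, FiniteField.frobeniusAlgHom_apply,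
    FiniteField.frobeniusAlgHom_apply] at h
  exact h

/-- For irrational `x` in the field with `q ^ 2` elements, `x + x ^ q = -2 b` and `x ^ (q + 1) = c` with
`b, c ∈ F`, and `b ^ 2 - c` is not a square in `F`: otherwise `x` would be a root of a quadratic polynomial over `F`
with a root in `F`. -/
theorem exists_bc (h2 : ringChar F ≠ 2) {x : K} (hx : x ^ (Fintype.card F ^ 2) = x) (hx' : x ^ Fintype.card F ≠ x) :
    ∃ b c : F, x + x ^ Fintype.card F = algebraMap F K (-2 * b) ∧ x ^ (Fintype.card F + 1) = algebraMap F K c ∧
      ¬ IsSquare (b ^ 2 - c) := by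
  have h20 : (2 : F) ≠ 0 := Ring.two_ne_zero h2
  have hxq : (x ^ Fintype.card F) ^ Fintype.card F = x := by
    rw [← pow_mul, ← sq, hx]
  obtain ⟨t, ht⟩ := (pow_card_eq_iff (F := F) (x + x ^ Fintype.card F)).mp (by
    rw [npc_frob, hxq, add_comm])
  obtain ⟨c, hc⟩ := (pow_card_eq_iff (F := F) (x ^ (Fintype.card F + 1))).mp (by
    rw [← pow_mul, mul_comm, pow_mul, pow_succ, hxq, pow_succ, mul_comm])
  refine ⟨-t / 2, c, ?_, hc.symm, ?_⟩
  · rw [← ht]
    congr 1
    field_simp
  · rintro ⟨d, hd⟩
    have hc2 : c = t ^ 2 / 4 - d * d := by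
      rw [← hd]
      have h4 : (4 : F) ≠ 0 := by
        have h5 : (4 : F) = 2 * 2 := by norm_num
        rw [h5]
        exact mul_ne_zero h20 h20
      field_simp
      ring
    have h3 : (x - algebraMap F K (t / 2 + d)) * (x - algebraMap F K (t / 2 - d)) = 0 := by
      have h6 : algebraMap F K (t / 2 + d) * algebraMap F K (t / 2 - d) = algebraMap F K c := by
        rw [← map_mul, hc2]
        congr 1
        have h4 : (4 : F) ≠ 0 := by
          have h5 : (4 : F) = 2 * 2 := by norm_num
          rw [h5]
          exact mul_ne_zero h20 h20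
        field_simp
        ring
      have h7 : algebraMap F K (t / 2 + d) + algebraMap F K (t / 2 - d) = algebraMap F K t := by
        rw [← map_add]
        congr 1
        field_simp
        ring
      calc (x - algebraMap F K (t / 2 + d)) * (x - algebraMap F K (t / 2 - d))
          = x ^ 2 - x * (algebraMap F K (t / 2 + d) + algebraMap F K (t / 2 - d)) +
            algebraMap F K (t / 2 + d) * algebraMap F K (t / 2 - d) := by ring
        _ = 0 := by
            rw [h6, h7, ht, hc]
            ring
    rcases mul_eq_zero.mp h3 with h | h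
    · refine hx' ((pow_card_eq_iff (F := F) x).mpr ⟨_, (sub_eq_zero.mp h).symm⟩)
    · refine hx' ((pow_card_eq_iff (F := F) x).mpr ⟨_, (sub_eq_zero.mp h).symm⟩)

/-- `frob`: the Frobenius of `F` on `K` (`FiniteField.frobeniusAlgHom F K` or `add_pow_expChar_pow`). `int`: by
`exists_bc` and `FCov.int`; if `(b, c) ∈ A` then `x ^ 2 + 2 b x + c = 0`, and `c - 2 B b + C = 0` is
`x ^ (q + 1) + B (x + x ^ q) + C = 0`. -/
theorem FCov.ocov {A : Finset (F × F)} (hA : FCov A) : OCov (Fintype.card F) (mapA K A) := by
  have hinj : Function.Injective (algebraMap F K) := (algebraMap F K).injective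
  have h20 : (2 : F) ≠ 0 := Ring.two_ne_zero hA.two
  refine ⟨?_, ?_, ?_, npc_frob, ?_, ?_, ?_, ?_, ?_⟩
  · have h1 := hA.card
    have h2 := FiniteField.odd_card_of_char_ne_two hA.two
    have h3 : 1 < Fintype.card F := Fintype.one_lt_card
    omega
  · have h1 := congrArg (algebraMap F K) (FiniteField.cast_card_eq_zero F)
    rw [map_natCast, map_zero] at h1
    exact h1
  · intro h
    apply h20
    apply hinj
    rw [map_zero, ← h, map_ofNat]
  · unfold mapA
    rw [Finset.card_image_of_injective _ (fun a b h => Prod.ext (hinj (Prod.mk.inj h).1)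
      (hinj (Prod.mk.inj h).2))]
    exact hA.card
  · intro a ha
    obtain ⟨a', _, rfl⟩ := Finset.mem_image.mp ha
    exact (pow_card_eq_iff (F := F) _).mpr ⟨_, rfl⟩
  · intro a ha
    obtain ⟨a', _, rfl⟩ := Finset.mem_image.mp ha
    exact (pow_card_eq_iff (F := F) _).mpr ⟨_, rfl⟩
  · intro a ha
    obtain ⟨a', ha', rfl⟩ := Finset.mem_image.mp ha
    intro h
    apply hA.nd a' ha'
    apply hinj
    rw [map_pow]
    exact sub_eq_zero.mp h
  · intro x hx hx'
    obtain ⟨b, c, h1, h2, h3⟩ := exists_bc hA.two hx hx'
    have h1' : x + x ^ Fintype.card F = -2 * algebraMap F K b := by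
      rw [h1, map_mul, map_neg, map_ofNat]
    rcases hA.int b c h3 with h | ⟨a, ha, h⟩
    · right
      refine ⟨_, Finset.mem_image_of_mem _ h, ?_⟩
      show x * x + algebraMap F K b * (x + x) + algebraMap F K c = 0
      rw [← h2, pow_succ]
      have h4 : x ^ Fintype.card F = -2 * algebraMap F K b - x := by
        rw [← h1']
        ring
      rw [h4]
      ring
    · left
      refine ⟨_, Finset.mem_image_of_mem _ ha, ?_⟩
      show x * x ^ Fintype.card F + algebraMap F K a.1 * (x + x ^ Fintype.card F) +
        algebraMap F K a.2 = 0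
      have h5 := congrArg (algebraMap F K) h
      rw [map_add, map_sub, map_mul, map_mul, map_ofNat, map_zero] at h5
      rw [h1', ← h5, ← h2, pow_succ]
      ring

end Pool.Agent.SpreadN
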