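import Pool.Agent.Lib_MP_9e452d_n.NPc

/-!
# Piece NPc2: the numbers over `K`
-/

set_option autoImplicit false

namespace Pool.Agent.SpreadN

open Polynomial

variable {F : Type*} [Field F] [Fintype F] [DecidableEq F] {K : Type*} [Field K] [DecidableEq K] [Algebra F K]

variable [IsAlgClosed K]

omit [IsAlgClosed K] in
private theorem mu_eq_zero_iff (q : ℕ) (A : Finset (K × K)) (x : K) :
    mu q A x = 0 ↔ ∀ a ∈ A, bil a x (x ^ q) ≠ 0 := by
  unfold mu
  rw [Finset.card_eq_zero, Finset.filter_eq_empty_iff]

omit [Fintype F] [DecidableEq F] [IsAlgClosed K] in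
private theorem forall_mapA (A : Finset (F × F)) (P : K × K → Prop) :
    (∀ a ∈ mapA K A, P a) ↔ ∀ a ∈ A, P (algebraMap F K a.1, algebraMap F K a.2) := by
  unfold mapA
  rw [Finset.forall_mem_image]

/-- `FF K q` is the image of `F` -/
theorem FCov.nZ_eq {A : Finset (F × F)} (hA : FCov A) : nZ (Fintype.card F) (mapA K A) = fz A := by
  have hO := hA.ocov (K := K)
  have hq : 2 ≤ Fintype.card F := by have := hO.hq; omega
  unfold nZ fz
  symm
  refine Finset.card_bij (fun s _ => algebraMap F K s) ?_ ?_ ?_
  · intro s hs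
    rw [Finset.mem_filter] at hs
    rw [Finset.mem_filter, mem_FF hq, mu_eq_zero_iff, forall_mapA]
    have hsq : algebraMap F K s ^ Fintype.card F = algebraMap F K s := (pow_card_eq_iff _).2 ⟨s, rfl⟩
    refine ⟨hsq, ?_⟩
    intro a ha h0
    refine hs.2 a ha ?_
    apply (algebraMap F K).injective
    rw [hsq] at h0
    unfold bil at h0
    simp only [map_add, map_mul, map_pow, map_zero, map_ofNat]
    simp only at h0
    linear_combination h0
  · intro s _ t _ hst
    exact (algebraMap F K).injective hst
  · intro x hx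
    rw [Finset.mem_filter, mem_FF hq, mu_eq_zero_iff, forall_mapA] at hx
    obtain ⟨hx1, hx2⟩ := hx
    obtain ⟨s, rfl⟩ := (pow_card_eq_iff x).1 hx1
    refine ⟨s, ?_, rfl⟩
    rw [Finset.mem_filter]
    refine ⟨Finset.mem_univ _, ?_⟩
    intro a ha h0
    refine hx2 a ha ?_
    rw [hx1]
    unfold bil
    have h1 := congrArg (algebraMap F K) h0
    simp only [map_add, map_mul, map_pow, map_zero, map_ofNat] at h1
    simp only
    linear_combination h1

/-- each `(b, c) ∈ fT A` has the two irrational roots `x, x ^ q` of `x ^ 2 + 2 b x + c`, with `mu x = 0`, and `x`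
determines `(b, c)` -/
theorem FCov.le_nW {A : Finset (F × F)} (hA : FCov A) : 2 * (fT A).card ≤ nW (Fintype.card F) (mapA K A) := by
  have hO := hA.ocov (K := K)
  have hq : 2 ≤ Fintype.card F := by have := hO.hq; omega
  have hrt : ∀ p : F × F, ∃ r : K, r ^ 2 = algebraMap F K (p.1 ^ 2 - p.2) := fun p =>
    IsAlgClosed.exists_pow_nat_eq _ (by norm_num)
  choose r hr using hrt
  have hFb : ∀ b : F, algebraMap F K b ^ Fintype.card F = algebraMap F K b := fun b => (pow_card_eq_iff _).2 ⟨b, rfl⟩
  -- the square roots are mapped to their negatives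
  have hrq : ∀ p : F × F, ¬ IsSquare (p.1 ^ 2 - p.2) → r p ^ Fintype.card F = - r p := by
    intro p hp
    have h1 : (r p ^ Fintype.card F) ^ 2 = (r p) ^ 2 := by
      rw [← pow_mul, mul_comm, pow_mul, hr p, hFb]
    rcases sq_eq_sq_iff_eq_or_eq_neg.1 h1 with h | h
    · exfalso
      obtain ⟨y, hy⟩ := (pow_card_eq_iff (r p)).1 h
      apply hp
      refine ⟨y, ?_⟩
      apply (algebraMap F K).injective
      rw [← hr p, ← hy, map_mul]
      ring
    · exact h
  have hr0 : ∀ p : F × F, ¬ IsSquare (p.1 ^ 2 - p.2) → r p ≠ 0 := by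
    intro p hp h0
    apply hp
    have h1 := hr p
    rw [h0] at h1
    have h2 : algebraMap F K (p.1 ^ 2 - p.2) = algebraMap F K 0 := by
      rw [← h1]; simp
    have h3 := (algebraMap F K).injective h2
    rw [h3]
    exact ⟨0, by simp⟩
  let g : (F × F) × Bool → K := fun z => - algebraMap F K z.1.1 + (if z.2 then r z.1 else - r z.1)
  have hgq : ∀ z : (F × F) × Bool, ¬ IsSquare (z.1.1 ^ 2 - z.1.2) →
      g z ^ Fintype.card F = - algebraMap F K z.1.1 - (if z.2 then r z.1 else - r z.1) := by
    intro z hz
    simp only [g]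
    rw [hO.frob, hO.neg_pow, hFb]
    by_cases h : z.2 = true
    · simp only [h, if_true]
      rw [hrq _ hz]
      ring
    · simp only [h]
      rw [if_neg (by decide), hO.neg_pow, hrq _ hz]
      ring
  have hs2 : ∀ z : (F × F) × Bool, (if z.2 then r z.1 else - r z.1) ^ 2 = algebraMap F K (z.1.1 ^ 2 - z.1.2) := by
    intro z
    by_cases h : z.2 = true
    · simp only [h, if_true]
      exact hr _
    · simp only [h]
      rw [if_neg (by decide), neg_sq]
      exact hr _
  have hs0 : ∀ z : (F × F) × Bool, ¬ IsSquare (z.1.1 ^ 2 - z.1.2) → (if z.2 then r z.1 else - r z.1) ≠ 0 := by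
    intro z hz
    by_cases h : z.2 = true
    · simp only [h, if_true]
      exact hr0 _ hz
    · simp only [h]
      rw [if_neg (by decide)]
      exact neg_ne_zero.2 (hr0 _ hz)
  have hfT : ∀ z : (F × F) × Bool, z ∈ fT A ×ˢ (Finset.univ : Finset Bool) →
      ¬ IsSquare (z.1.1 ^ 2 - z.1.2) ∧ ∀ a ∈ A, z.1.2 - 2 * a.1 * z.1.1 + a.2 ≠ 0 := by
    intro z hz
    rw [Finset.mem_product] at hz
    have := hz.1
    unfold fT at this
    rw [Finset.mem_filter] at this
    exact this.2
  have hcard : 2 * (fT A).card = (fT A ×ˢ (Finset.univ : Finset Bool)).card := by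
    rw [Finset.card_product]
    simp [mul_comm]
  rw [hcard]
  unfold nW
  refine Finset.card_le_card_of_injOn g ?_ ?_
  · intro z hz
    obtain ⟨hz1, hz2⟩ := hfT z hz
    have hg := hgq z hz1
    have h2 := hs2 z
    have h0 := hs0 z hz1
    have hgdef : g z = - algebraMap F K z.1.1 + (if z.2 then r z.1 else - r z.1) := rfl
    set s : K := (if z.2 then r z.1 else - r z.1) with hs
    have hne : g z ^ Fintype.card F ≠ g z := by
      rw [hg, hgdef]
      intro h
      apply h0
      have h3 : (2 : K) * s = 0 := by linear_combination -h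
      rcases mul_eq_zero.1 h3 with h4 | h4
      · exact absurd h4 hO.two
      · exact h4
    have hsq : s ^ Fintype.card F = - s := by
      have h5 : g z ^ Fintype.card F = - algebraMap F K z.1.1 + s ^ Fintype.card F := by
        rw [hgdef, hO.frob, hO.neg_pow, hFb]
      rw [hg] at h5
      linear_combination -h5
    have hqq : g z ^ (Fintype.card F ^ 2) = g z := by
      rw [sq, pow_mul, hg, hO.sub_pow, hO.neg_pow, hFb, hsq, hgdef]
      ring
    rw [Finset.mem_coe, Finset.mem_filter, mem_II hq, mu_eq_zero_iff, forall_mapA]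
    refine ⟨⟨hqq, hne⟩, ?_⟩
    intro a ha h6
    refine hz2 a ha ?_
    apply (algebraMap F K).injective
    rw [hg, hgdef] at h6
    unfold bil at h6
    simp only [map_add, map_sub, map_mul, map_pow, map_zero, map_ofNat] at h2 h6 ⊢
    linear_combination h6 + h2
  · intro z hz w hw hzw
    rw [Finset.mem_coe] at hz hw
    obtain ⟨hz1, _⟩ := hfT z hz
    obtain ⟨hw1, _⟩ := hfT w hw
    have hgz := hgq z hz1
    have hgw := hgq w hw1
    have hz2 := hs2 z
    have hw2 := hs2 w
    have hz0 := hs0 z hz1
    have hw0 := hs0 w hw1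
    have hgz' : g z = - algebraMap F K z.1.1 + (if z.2 then r z.1 else - r z.1) := rfl
    have hgw' : g w = - algebraMap F K w.1.1 + (if w.2 then r w.1 else - r w.1) := rfl
    have hqe : g z ^ Fintype.card F = g w ^ Fintype.card F := by rw [hzw]
    rw [hgz, hgw] at hqe
    have hzw' := hzw
    rw [hgz', hgw'] at hzw'
    have hb : algebraMap F K z.1.1 = algebraMap F K w.1.1 := by
      have h3 : (2 : K) * (algebraMap F K z.1.1 - algebraMap F K w.1.1) = 0 := by
        linear_combination -hqe - hzw'
      rcases mul_eq_zero.1 h3 with h4 | h4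
      · exact absurd h4 hO.two
      · exact sub_eq_zero.1 h4
    have hse : (if z.2 then r z.1 else - r z.1) = (if w.2 then r w.1 else - r w.1) := by
      linear_combination hzw' + hb
    have hb' : z.1.1 = w.1.1 := (algebraMap F K).injective hb
    have hc' : z.1.2 = w.1.2 := by
      rw [hse, hw2] at hz2
      have h5 := (algebraMap F K).injective hz2
      rw [hb'] at h5
      exact (sub_right_injective h5).symm
    have hp : z.1 = w.1 := Prod.ext hb' hc'
    refine Prod.ext hp ?_
    rw [hp] at hse
    have hr1 := hr0 _ hw1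
    have hrne : r w.1 ≠ - r w.1 := by
      intro h
      have h3 : (2 : K) * r w.1 = 0 := by linear_combination h
      rcases mul_eq_zero.1 h3 with h4 | h4
      · exact hO.two h4
      · exact hr1 h4
    rcases hz3 : z.2 with _ | _ <;> rcases hw3 : w.2 with _ | _
    · rfl
    · rw [hz3, hw3] at hse
      simp only [if_true] at hse
      rw [if_neg (by decide)] at hse
      exact absurd hse.symm hrne
    · rw [hz3, hw3] at hse
      simp only [if_true] at hse
      rw [if_neg (by decide)] at hse
      exact absurd hse hrne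
    · rfl

end Pool.Agent.SpreadN
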