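import Pool.Agent.Lib_MP_9e452d_n.NPc2
import Pool.Agent.Lib_MP_9e452d_n.NFd

/-!
# Piece NPd: the final counting, transferred
-/

set_option autoImplicit false

namespace Pool.Agent.SpreadN

open Polynomial Pool.Agent.SpreadPGL

variable {F : Type*} [Field F] [Fintype F] [DecidableEq F] {K : Type*} [Field K] [DecidableEq K] [Algebra F K]
  [IsAlgClosed K]

omit [Fintype F] [DecidableEq F] [DecidableEq K] [IsAlgClosed K] in
/-- `1` and `w` are independent over `F` -/
theorem npd_indep {d : F} (hd : ¬ IsSquare d) {w : K} (hw : w ^ 2 = algebraMap F K d) {p r : F}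
    (h : algebraMap F K p + w * algebraMap F K r = 0) : p = 0 ∧ r = 0 := by
  have hinj := (algebraMap F K).injective
  have hr : r = 0 := by
    by_contra hr
    apply hd
    refine ⟨p / r, hinj ?_⟩
    have hr' : algebraMap F K r ≠ 0 := by
      rw [Ne, map_eq_zero]; exact hr
    have hw' : w = - (algebraMap F K p / algebraMap F K r) := by
      field_simp
      linear_combination h
    rw [← hw, hw', map_mul, map_div₀]
    ring
  refine ⟨?_, hr⟩
  rw [hr, map_zero, mul_zero, add_zero, map_eq_zero] at h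
  exact h

omit [DecidableEq F] [DecidableEq K] [IsAlgClosed K] in
theorem npd_rat (y : F) : algebraMap F K y ^ Fintype.card F = algebraMap F K y := by
  rw [← map_pow, FiniteField.pow_card]

omit [DecidableEq F] [DecidableEq K] [IsAlgClosed K] in
theorem npd_wq {d : F} (hd : ¬ IsSquare d) {w : K} (hw : w ^ 2 = algebraMap F K d)
    (hiff : w ^ Fintype.card F = w → ∃ y : F, algebraMap F K y = w) : w ^ Fintype.card F = - w := by
  have h1 : (w ^ Fintype.card F) ^ 2 = w ^ 2 := by
    rw [← pow_mul, mul_comm, pow_mul, hw, npd_rat]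
  rcases sq_eq_sq_iff_eq_or_eq_neg.1 h1 with h | h
  · obtain ⟨y, hy⟩ := hiff h
    exfalso
    apply hd
    refine ⟨y, (algebraMap F K).injective ?_⟩
    rw [← hw, ← hy, map_mul, sq]
  · exact h

omit [Fintype F] [DecidableEq F] in
theorem npd_z2 {z : Fin 3 → F} (hz : ¬ IsSquare (D z)) : z 2 ≠ 0 := by
  intro h
  apply hz
  refine ⟨z 0, ?_⟩
  simp only [D, h]
  ring

/-- the point of `K` attached to `z` -/
noncomputable def npdx (w : K) (z : Fin 3 → F) : K := (algebraMap F K (z 0) + w) / algebraMap F K (z 2)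

omit [IsAlgClosed K] in
theorem npd_xq {A : Finset (F × F)} (hA : FCov A) {w : K} {z : Fin 3 → F} (hz : ¬ IsSquare (D z))
    (hw : w ^ 2 = algebraMap F K (D z)) :
    npdx w z ^ Fintype.card F = (algebraMap F K (z 0) - w) / algebraMap F K (z 2) := by
  have h : OCov (Fintype.card F) (mapA K A) := hA.ocov
  rw [npdx, div_pow, h.frob, npd_rat, npd_rat, npd_wq hz hw (fun h => (pow_card_eq_iff w).1 h), sub_eq_add_neg]

omit [IsAlgClosed K] in
theorem npd_mem {A : Finset (F × F)} (hA : FCov A) {w : K} {z : Fin 3 → F} (hz : ¬ IsSquare (D z))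
    (hw : w ^ 2 = algebraMap F K (D z)) : npdx w z ∈ II K (Fintype.card F) := by
  have h : OCov (Fintype.card F) (mapA K A) := hA.ocov
  have h2 : algebraMap F K (z 2) ≠ 0 := by
    rw [Ne, map_eq_zero]; exact npd_z2 hz
  have hw0 : w ≠ 0 := by
    intro h0
    apply hz
    rw [h0, zero_pow two_ne_zero, eq_comm, map_eq_zero] at hw
    rw [hw]
    exact IsSquare.zero
  rw [mem_II (by have := h.hq; omega)]
  refine ⟨?_, ?_⟩
  · rw [sq, pow_mul, npd_xq hA hz hw, div_pow, h.sub_pow, npd_rat, npd_rat,
      npd_wq hz hw (fun h => (pow_card_eq_iff w).1 h), sub_neg_eq_add, npdx]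
  · rw [npd_xq hA hz hw, npdx]
    intro he
    have he2 : (2 : K) * w = 0 := by
      field_simp at he
      linear_combination -he
    exact (mul_ne_zero h.two hw0) he2

omit [IsAlgClosed K] in
theorem npd_bil {A : Finset (F × F)} (hA : FCov A) {w : K} {z : Fin 3 → F} (hz : ¬ IsSquare (D z))
    (hw : w ^ 2 = algebraMap F K (D z)) (b c : F) :
    bil (algebraMap F K b, algebraMap F K c) (npdx w z) (npdx w z ^ Fintype.card F) = 0 ↔
      B ![-b, -c, 1] z = 0 := by
  have h2 : algebraMap F K (z 2) ≠ 0 := by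
    rw [Ne, map_eq_zero]; exact npd_z2 hz
  have key : bil (algebraMap F K b, algebraMap F K c) (npdx w z) (npdx w z ^ Fintype.card F)
      = - algebraMap F K (B ![-b, -c, 1] z) / algebraMap F K (z 2) := by
    rw [npd_xq hA hz hw, npdx, bil]
    simp only [B, D, map_add, map_mul, map_pow, map_neg, map_one, map_ofNat, Matrix.cons_val_zero, Matrix.cons_val_one,
      Matrix.cons_val] at hw ⊢
    field_simp
    linear_combination -hw
  rw [key, div_eq_zero_iff, neg_eq_zero, map_eq_zero]
  constructor
  · rintro (h | h)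
    · exact h
    · exact absurd h h2
  · exact fun h => Or.inl h

omit [IsAlgClosed K] in
theorem npd_fix {A : Finset (F × F)} (hA : FCov A) {w : K} {z : Fin 3 → F} (hz : ¬ IsSquare (D z))
    (hw : w ^ 2 = algebraMap F K (D z)) (b c : F) :
    bil (algebraMap F K b, algebraMap F K c) (npdx w z) (npdx w z) = 0 ↔
      ∃ t : F, z = t • ![-b, -c, 1] := by
  have h : OCov (Fintype.card F) (mapA K A) := hA.ocov
  have h20 := npd_z2 hz
  have h2 : algebraMap F K (z 2) ≠ 0 := by
    rw [Ne, map_eq_zero]; exact h20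
  have h2F : (2 : F) ≠ 0 := by
    intro h0
    apply h.two
    have := congrArg (algebraMap F K) h0
    rwa [map_ofNat, map_zero] at this
  have key : bil (algebraMap F K b, algebraMap F K c) (npdx w z) (npdx w z) * algebraMap F K (z 2) ^ 2
      = algebraMap F K (z 0 ^ 2 + D z + 2 * b * z 2 * z 0 + c * z 2 ^ 2) + w * algebraMap F K (2 * z 0 + 2 * b * z 2) := by
    rw [npdx, bil]
    simp only [map_add, map_mul, map_pow, map_ofNat]
    rw [← hw]
    field_simp
    ring
  constructor
  · intro h0
    rw [h0, zero_mul] at key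
    obtain ⟨e1, e2⟩ := npd_indep hz hw key.symm
    have e3 : z 0 = - b * z 2 := by
      have : (2 : F) * (z 0 + b * z 2) = 0 := by linear_combination e2
      have := (mul_eq_zero.1 this).resolve_left h2F
      linear_combination this
    have e4 : z 1 = - c * z 2 := by
      have e5 : z 2 * (z 1 + c * z 2) = 0 := by
        rw [D, e3] at e1
        linear_combination e1
      have := (mul_eq_zero.1 e5).resolve_left h20
      linear_combination this
    refine ⟨z 2, ?_⟩
    funext i
    fin_cases i
    · simp [e3, mul_comm]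
    · simp [e4, mul_comm]
    · simp
  · rintro ⟨t, ht⟩
    have e2 : z 2 = t := by rw [ht]; simp
    have e0 : z 0 = - b * t := by rw [ht]; simp [mul_comm]
    have e1 : z 1 = - c * t := by rw [ht]; simp [mul_comm]
    have hz0 : z 0 ^ 2 + D z + 2 * b * z 2 * z 0 + c * z 2 ^ 2 = 0 := by
      rw [D, e2, e0, e1]; ring
    have hz1 : 2 * z 0 + 2 * b * z 2 = 0 := by
      rw [e2, e0]; ring
    rw [hz0, hz1, map_zero, mul_zero, add_zero] at key
    exact (mul_eq_zero.1 key).resolve_right (pow_ne_zero 2 h2)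

/-- the family of vectors of `A` -/
def npda (A : Finset (F × F)) (i : {x // x ∈ A}) : Fin 3 → F := ![-i.1.1, -i.1.2, 1]

omit [Fintype F] [DecidableEq F] [IsAlgClosed K] in
theorem npd_card (A : Finset (F × F)) (P : K × K → Prop) [DecidablePred P] (Q : {x // x ∈ A} → Prop) [DecidablePred Q]
    (hPQ : ∀ i : {x // x ∈ A}, P (algebraMap F K i.1.1, algebraMap F K i.1.2) ↔ Q i) :
    ((mapA K A).filter P).card = (Finset.univ.filter Q).card := by
  classical
  symm
  refine Finset.card_bij (fun i _ => (algebraMap F K i.1.1, algebraMap F K i.1.2)) ?_ ?_ ?_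
  · intro i hi
    rw [Finset.mem_filter] at hi ⊢
    refine ⟨?_, (hPQ i).2 hi.2⟩
    rw [mapA, Finset.mem_image]
    exact ⟨i.1, i.2, rfl⟩
  · intro i _ j _ hij
    rw [Prod.mk.injEq] at hij
    apply Subtype.ext
    exact Prod.ext ((algebraMap F K).injective hij.1) ((algebraMap F K).injective hij.2)
  · intro y hy
    rw [Finset.mem_filter, mapA, Finset.mem_image] at hy
    obtain ⟨⟨x, hx, rfl⟩, hP⟩ := hy
    refine ⟨⟨x, hx⟩, ?_, rfl⟩
    rw [Finset.mem_filter]
    exact ⟨Finset.mem_univ _, (hPQ ⟨x, hx⟩).1 hP⟩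

omit [IsAlgClosed K] in
theorem npd_mu {A : Finset (F × F)} (hA : FCov A) {w : K} {z : Fin 3 → F} (hz : ¬ IsSquare (D z))
    (hw : w ^ 2 = algebraMap F K (D z)) :
    mu (Fintype.card F) (mapA K A) (npdx w z) =
      (Finset.univ.filter (fun i : {x // x ∈ A} => B (npda A i) z = 0)).card := by
  rw [mu]
  exact npd_card A _ _ (fun i => npd_bil hA hz hw i.1.1 i.1.2)

omit [IsAlgClosed K] in
theorem npd_nu {A : Finset (F × F)} (hA : FCov A) {w : K} {z : Fin 3 → F} (hz : ¬ IsSquare (D z))
    (hw : w ^ 2 = algebraMap F K (D z)) :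
    nu (mapA K A) (npdx w z) =
      (Finset.univ.filter (fun i : {x // x ∈ A} => ∃ t : F, z = t • npda A i)).card := by
  rw [nu]
  exact npd_card A _ _ (fun i => npd_fix hA hz hw i.1.1 i.1.2)

theorem npd_sum {A : Finset (F × F)} (hA : FCov A) {ν : F} (hν : ¬ IsSquare ν) :
    ∑ z ∈ Finset.univ.filter (fun z : Fin 3 → F => D z = ν), exc (npda A) z ≤
      nQ (Fintype.card F) (mapA K A) + nJ (Fintype.card F) (mapA K A) := by
  have h : OCov (Fintype.card F) (mapA K A) := hA.ocov
  obtain ⟨w, hw⟩ := IsAlgClosed.exists_pow_nat_eq (algebraMap F K ν) (n := 2) (by norm_num)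
  have hw0 : w ≠ 0 := by
    intro h0
    apply hν
    rw [h0, zero_pow two_ne_zero, eq_comm, map_eq_zero] at hw
    rw [hw]
    exact IsSquare.zero
  have e1 : ∀ z ∈ Finset.univ.filter (fun z : Fin 3 → F => D z = ν), exc (npda A) z =
      mu (Fintype.card F) (mapA K A) (npdx w z) + nu (mapA K A) (npdx w z) - 1 := by
    intro z hz
    rw [Finset.mem_filter] at hz
    have hz1 : ¬ IsSquare (D z) := by rw [hz.2]; exact hν
    have hz2 : w ^ 2 = algebraMap F K (D z) := by rw [hz.2]; exact hw
    rw [npd_mu hA hz1 hz2, npd_nu hA hz1 hz2, exc]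
  have hinj : Set.InjOn (fun z : Fin 3 → F => npdx w z)
      (Finset.univ.filter (fun z : Fin 3 → F => D z = ν) : Finset (Fin 3 → F)) := by
    intro z hz z' hz' he
    rw [Finset.mem_coe, Finset.mem_filter] at hz hz'
    have hz1 : ¬ IsSquare (D z) := by rw [hz.2]; exact hν
    have hz2 : w ^ 2 = algebraMap F K (D z) := by rw [hz.2]; exact hw
    have hz1' : ¬ IsSquare (D z') := by rw [hz'.2]; exact hν
    have hz2' : w ^ 2 = algebraMap F K (D z') := by rw [hz'.2]; exact hw
    have g := npd_z2 hz1
    have g' := npd_z2 hz1'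
    have gK : algebraMap F K (z 2) ≠ 0 := by rw [Ne, map_eq_zero]; exact g
    have gK' : algebraMap F K (z' 2) ≠ 0 := by rw [Ne, map_eq_zero]; exact g'
    have he' : npdx w z = npdx w z' := he
    rw [npdx, npdx, div_eq_div_iff gK gK'] at he'
    have he2 : algebraMap F K (z 0 * z' 2 - z' 0 * z 2) + w * algebraMap F K (z' 2 - z 2) = 0 := by
      simp only [map_sub, map_mul]
      linear_combination he'
    obtain ⟨k1, k2⟩ := npd_indep hν hw he2
    have k3 : z' 2 = z 2 := by linear_combination k2
    have k4 : z 0 = z' 0 := by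
      rw [k3] at k1
      have : (z 0 - z' 0) * z 2 = 0 := by linear_combination k1
      have := (mul_eq_zero.1 this).resolve_right g
      linear_combination this
    have k5 : z 1 = z' 1 := by
      have e := hz.2.trans hz'.2.symm
      rw [D, D, k4, k3] at e
      have : (z 1 - z' 1) * z 2 = 0 := by linear_combination e
      have := (mul_eq_zero.1 this).resolve_right g
      linear_combination this
    funext i
    fin_cases i
    · exact k4
    · exact k5
    · exact k3.symm
  calc ∑ z ∈ Finset.univ.filter (fun z : Fin 3 → F => D z = ν), exc (npda A) z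
      = ∑ z ∈ Finset.univ.filter (fun z : Fin 3 → F => D z = ν),
        (mu (Fintype.card F) (mapA K A) (npdx w z) + nu (mapA K A) (npdx w z) - 1) := Finset.sum_congr rfl e1
    _ = ∑ x ∈ (Finset.univ.filter (fun z : Fin 3 → F => D z = ν)).image (fun z => npdx w z),
        (mu (Fintype.card F) (mapA K A) x + nu (mapA K A) x - 1) := by rw [Finset.sum_image hinj]
    _ ≤ ∑ x ∈ II K (Fintype.card F), (mu (Fintype.card F) (mapA K A) x + nu (mapA K A) x - 1) := by
        apply Finset.sum_le_sum_of_subset
        intro x hx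
        rw [Finset.mem_image] at hx
        obtain ⟨z, hz, rfl⟩ := hx
        rw [Finset.mem_filter] at hz
        have hz1 : ¬ IsSquare (D z) := by rw [hz.2]; exact hν
        have hz2 : w ^ 2 = algebraMap F K (D z) := by rw [hz.2]; exact hw
        exact npd_mem hA hz1 hz2
    _ = ∑ x ∈ II K (Fintype.card F), ((mu (Fintype.card F) (mapA K A) x - 1) +
        (if mu (Fintype.card F) (mapA K A) x ≠ 0 ∧ nu (mapA K A) x ≠ 0 then 1 else 0)) := by
        apply Finset.sum_congr rfl
        intro x hx
        have n1 := h.nu_le_one hx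
        have n2 := h.nu_ne_zero hx
        by_cases hm : mu (Fintype.card F) (mapA K A) x = 0
        · rw [if_neg (fun hh => hh.1 hm)]
          omega
        · by_cases hn : nu (mapA K A) x = 0
          · rw [if_neg (fun hh => hh.2 hn)]
            omega
          · rw [if_pos ⟨hm, hn⟩]
            omega
    _ = nQ (Fintype.card F) (mapA K A) + nJ (Fintype.card F) (mapA K A) := by
        rw [Finset.sum_add_distrib, nQ, nJ, Finset.card_filter]

/-- Let `α, β, γ` be the images of `α0, β0, γ0 ∈ F` and `c = ![-β0, -γ0, α0]`; `D c = β0 ^ 2 - α0 γ0 ≠ 0`. Apply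
`fc` to the family `a` indexed by `A` (subtype) with `a i = ![-i.1, -i.2, 1]`:
* `K1`: for `z` with `D z` not a square, `z 2 ≠ 0`, apply `FCov.int` to `b = - z 0 / z 2`, `c = - z 1 / z 2`.
* `Hc`: let `w ∈ K`, `w ^ 2 = D z`, so `w ^ q = - w` (`w` is not in `F`), and `x = (z 0 + w) / z 2`. Then
  `x ^ q = (z 0 - w) / z 2`, `x ∈ II K q`, `x + x ^ q = 2 z 0 / z 2`, `x ^ (q + 1) = - z 1 / z 2` and
  `α x ^ (q+1) + β (x + x ^ q) + γ = - B c z / z 2 = 0`. So `nu x ≠ 0`, which gives `(B, C) ∈ A` with
  `2 B = -(x + x ^ q)`, `C = x ^ (q + 1)` (`nu_le_one` has this computation), that is `z = z 2 • ![-B, -C, 1]`.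
Finally `∑ z with D z = ν, exc a z ≤ ∑ x ∈ II K q, (mu x + nu x - 1) = nQ + nJ`: fix `w` with `w ^ 2 = ν`; the map
`z ↦ (z 0 + w) / z 2` is injective from the `z` with `D z = ν` to `II K q` (the real part `z 0 / z 2` and
`w / z 2` are determined), and `B (a i) z = 0` if and only if `bil i x (x ^ q) = 0`, `z = t • a i` for some `t` if
and only if `bil i x x = 0`. And on `II`: `mu x + nu x - 1 = (mu x - 1) + (1 if mu x ≠ 0 and nu x ≠ 0)`
(`nu_le_one`, `nu_ne_zero`). -/
theorem FCov.excess {A : Finset (F × F)} (hA : FCov A) {α β γ : K} (hα : α ^ Fintype.card F = α)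
    (hβ : β ^ Fintype.card F = β) (hγ : γ ^ Fintype.card F = γ) (hn : β ^ 2 ≠ α * γ)
    (hc : ∀ x ∈ II K (Fintype.card F), α * x ^ (Fintype.card F + 1) + β * (x + x ^ Fintype.card F) + γ = 0 →
      nu (mapA K A) x ≠ 0) :
    Fintype.card F ≤ 2 * (nQ (Fintype.card F) (mapA K A) + nJ (Fintype.card F) (mapA K A)) + 7 := by
  have h : OCov (Fintype.card F) (mapA K A) := hA.ocov
  obtain ⟨α0, rfl⟩ := (pow_card_eq_iff α).1 hα
  obtain ⟨β0, rfl⟩ := (pow_card_eq_iff β).1 hβ
  obtain ⟨γ0, rfl⟩ := (pow_card_eq_iff γ).1 hγ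
  obtain ⟨ν, hν⟩ := FiniteField.exists_nonsquare hA.two
  have hsum := npd_sum (K := K) hA hν
  have hfc := fc (ι := {x // x ∈ A}) hA.two (by rw [Fintype.card_coe]; exact hA.card) (npda A)
    (by
      intro i
      have := hA.nd i.1 i.2
      intro h0
      apply this
      simp only [npda, D, Matrix.cons_val_zero, Matrix.cons_val_one, Matrix.cons_val] at h0
      linear_combination h0)
    (by
      intro i j t hij
      have q0 := congrFun hij 0
      have q1 := congrFun hij 1
      have q2 := congrFun hij 2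
      simp only [npda, Pi.smul_apply, smul_eq_mul, Matrix.cons_val_zero, Matrix.cons_val_one, Matrix.cons_val] at q0 q1 q2
      rw [mul_one] at q2
      rw [← q2, one_mul] at q0 q1
      exact Subtype.ext (Prod.ext (neg_inj.1 q0) (neg_inj.1 q1)))
    (by
      intro z hz
      have h20 := npd_z2 hz
      have hns : ¬ IsSquare ((- z 0 / z 2) ^ 2 - (- z 1 / z 2)) := by
        rintro ⟨r, hr⟩
        apply hz
        refine ⟨r * z 2, ?_⟩
        have : D z = ((- z 0 / z 2) ^ 2 - (- z 1 / z 2)) * z 2 ^ 2 := by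
          rw [D]
          field_simp
          ring
        rw [this, hr]
        ring
      rcases hA.int _ _ hns with hm | ⟨a, ha, hm⟩
      · refine ⟨⟨_, hm⟩, Or.inr ⟨z 2, ?_⟩⟩
        funext i
        fin_cases i
        · simp only [npda, Pi.smul_apply, smul_eq_mul, Fin.zero_eta, Matrix.cons_val_zero]
          field_simp
        · simp only [npda, Pi.smul_apply, smul_eq_mul, Fin.mk_one, Matrix.cons_val_one, Matrix.cons_val_zero]
          field_simp
        · simp [npda]
      · refine ⟨⟨a, ha⟩, Or.inl ?_⟩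
        simp only [npda, B, Matrix.cons_val_zero, Matrix.cons_val_one, Matrix.cons_val]
        field_simp at hm
        linear_combination -hm)
    ![-β0, -γ0, α0]
    (by
      intro h0
      apply hn
      simp only [D, Matrix.cons_val_zero, Matrix.cons_val_one, Matrix.cons_val] at h0
      rw [← map_pow, ← map_mul]
      congr 1
      linear_combination h0)
    (by
      intro z hz hB
      have h20 := npd_z2 hz
      have h2 : algebraMap F K (z 2) ≠ 0 := by
        rw [Ne, map_eq_zero]; exact h20
      obtain ⟨w, hw⟩ := IsAlgClosed.exists_pow_nat_eq (algebraMap F K (D z)) (n := 2) (by norm_num)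
      have hx := hc (npdx w z) (npd_mem hA hz hw) (by
        rw [pow_succ, npd_xq hA hz hw, npdx]
        have hB' := congrArg (algebraMap F K) hB
        simp only [B, D, map_add, map_mul, map_pow, map_neg, map_zero, map_ofNat, Matrix.cons_val_zero,
          Matrix.cons_val_one, Matrix.cons_val] at hw hB'
        field_simp
        linear_combination (-(algebraMap F K (z 2))) * hB' - (algebraMap F K α0) * hw)
      rw [npd_nu hA hz hw, Ne, Finset.card_eq_zero, ← Ne, ← Finset.nonempty_iff_ne_empty] at hx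
      obtain ⟨i, hi⟩ := hx
      rw [Finset.mem_filter] at hi
      exact ⟨i, hi.2⟩)
    ν hν
  omega

end Pool.Agent.SpreadN
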