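import Pool.Agent.Lib_MP_9e452d_n.NKey

/-!
# Piece NSev: the relation `M ^ 2 J = 2 Z ^ 2 Q` on the rational points
-/

set_option autoImplicit false

namespace Pool.Agent.SpreadN

open Polynomial

variable {K : Type*} [Field K] [DecidableEq K] {q : ℕ} {A : Finset (K × K)}

private theorem ne_of_FF_II {x y : K} (hx : x ∈ FF K q) (hy : y ∈ II K q) : x ≠ y := by
  rintro rfl
  exact (Finset.mem_sdiff.1 hy).2 hx

/-- `pJ` and `pQ`, `pW` have no rational roots -/
theorem eval_pJ_ne {x : K} (hx : x ∈ FF K q) : (pJ q A).eval x ≠ 0 := by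
  unfold pJ
  rw [eval_prod, Finset.prod_ne_zero_iff]
  intro y hy
  rw [eval_sub, eval_X, eval_C, sub_ne_zero]
  exact ne_of_FF_II hx (Finset.mem_filter.1 hy).1

theorem eval_pW_ne {x : K} (hx : x ∈ FF K q) : (pW q A).eval x ≠ 0 := by
  unfold pW
  rw [eval_prod, Finset.prod_ne_zero_iff]
  intro y hy
  rw [eval_sub, eval_X, eval_C, sub_ne_zero]
  exact ne_of_FF_II hx (Finset.mem_filter.1 hy).1

/-- for rational `x`: `pZ(x) = 0` if and only if `mu x = 0` -/
theorem eval_pZ_eq_zero {x : K} (hx : x ∈ FF K q) : (pZ q A).eval x = 0 ↔ mu q A x = 0 := by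
  unfold pZ
  rw [eval_prod, Finset.prod_eq_zero_iff]
  constructor
  · rintro ⟨y, hy, hxy⟩
    rw [eval_sub, eval_X, eval_C, sub_eq_zero] at hxy
    rw [hxy]
    exact (Finset.mem_filter.1 hy).2
  · intro h
    refine ⟨x, Finset.mem_filter.2 ⟨hx, h⟩, ?_⟩
    rw [eval_sub, eval_X, eval_C, sub_self]

variable [IsAlgClosed K]

/-- The product of the `x ^ 2 + 2 B x + C`. Every root is in `EE` and the multiplicity of `x` is `nu x`
(`Qa_eq`). For rational `x` we have `nu x = mu x`; for irrational `x` we have `nu x ≤ 1` with `nu x = 1` if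
`mu x = 0`. -/
theorem OCov.prod_Qa (h : OCov q A) : ∏ a ∈ A, (X ^ 2 + C (2 * a.1) * X + C a.2 : K[X]) =
    (∏ x ∈ (FF K q).filter (fun x => mu q A x ≠ 0), (X - C x)) * pG q A * pW q A * pJ q A := by
  have hq2 : 2 ≤ q := by have := h.hq; omega
  have h1 : ∏ a ∈ A, (X ^ 2 + C (2 * a.1) * X + C a.2 : K[X]) =
      ∏ x ∈ EE K q, (X - C x) ^ nu A x := by
    have e1 : ∏ a ∈ A, (X ^ 2 + C (2 * a.1) * X + C a.2 : K[X]) =
        ∏ a ∈ A, ∏ x ∈ EE K q, (if bil a x x = 0 then (X - C x) else 1) := by
      refine Finset.prod_congr rfl ?_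
      intro a ha
      rw [h.Qa_eq (h.rat1 a ha) (h.rat2 a ha) (h.nd a ha), Finset.prod_filter]
    rw [e1, Finset.prod_comm]
    refine Finset.prod_congr rfl ?_
    intro x _
    rw [← Finset.prod_filter, Finset.prod_const]
    rfl
  have h2 : ∏ x ∈ EE K q, ((X - C x) ^ nu A x : K[X]) =
      (∏ x ∈ II K q, (X - C x) ^ nu A x) * ∏ x ∈ FF K q, (X - C x) ^ nu A x := by
    unfold II
    exact (Finset.prod_sdiff (FF_subset hq2)).symm
  have h3 : ∏ x ∈ FF K q, ((X - C x) ^ nu A x : K[X]) =
      (∏ x ∈ (FF K q).filter (fun x => mu q A x ≠ 0), (X - C x)) * pG q A := by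
    unfold pG
    rw [Finset.prod_filter, ← Finset.prod_mul_distrib]
    refine Finset.prod_congr rfl ?_
    intro x hx
    rw [h.nu_eq_mu hx]
    by_cases hmu : mu q A x = 0
    · simp [hmu]
    · rw [if_pos hmu, ← pow_succ']
      congr 1
      omega
  have h4 : ∏ x ∈ II K q, ((X - C x) ^ nu A x : K[X]) = pW q A * pJ q A := by
    unfold pW pJ
    rw [Finset.prod_filter, Finset.prod_filter, ← Finset.prod_mul_distrib]
    refine Finset.prod_congr rfl ?_
    intro x hx
    have hle := h.nu_le_one hx
    by_cases hmu : mu q A x = 0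
    · have hne := h.nu_ne_zero hx hmu
      have h1 : nu A x = 1 := by omega
      simp [hmu, h1]
    · by_cases hnu : nu A x = 0
      · simp [hmu, hnu]
      · have h1 : nu A x = 1 := by omega
        simp [hmu, h1]
  rw [h1, h2, h3, h4]
  ring

private theorem deriv_prod_erase {ι : Type*} [DecidableEq ι] (s : Finset ι) (f : ι → K[X]) {a : ι}
    (ha : a ∈ s) {x : K} (hx : (f a).eval x = 0) :
    (derivative (∏ b ∈ s, f b)).eval x =
      (derivative (f a)).eval x * ∏ b ∈ s.erase a, (f b).eval x := by
  rw [← Finset.mul_prod_erase s f ha, derivative_mul, eval_add, eval_mul, eval_mul, hx, zero_mul,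
    add_zero, eval_prod]

/-- For rational `x` with `mu x = 0` both sides vanish (`pZ` divides `pM`). Let `mu x = 1` and let `a` be the
element of `A` with `bil a x x = 0`. Put `R = ∏ b ∈ A.erase a, bil b x x ≠ 0` (note `bil b x (x ^ q) = bil b x x`).
* `deriv_key` gives `pM(x) (x + B) R' = - pg(x)`, where the `r` there is
  `∏ b ∈ A.erase a, bil b x (x ^ q) = R` (better repeat the two lines of the proof of `deriv_key` here, to have this
  explicit `r`).
* the derivative of `prod_Qa` at `x`: `2 (x + B) R = S'(x) pG(x) pW(x) pJ(x)` with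
  `S = ∏ x ∈ FF.filter (mu ≠ 0), (X - C x)` (`S(x) = 0`).
* `pZ * S = X ^ q - X` (`prod_FF`), so `pZ(x) S'(x) = -1`.
So `2 pg(x) pZ(x) = - 2 pM(x) (x + B) R pZ(x) = - pM(x) pZ(x) S'(x) pG(x) pW(x) pJ(x) = pM(x) pG(x) pW(x) pJ(x)`.
Cancel `pG(x) ≠ 0` (as `mu x = 1`): `2 pQ(x) pZ(x) = pM(x) pW(x) pJ(x)`; multiply by `pZ(x)`. -/
theorem OCov.sev (h : OCov q A) {x : K} (hx : x ∈ FF K q) (hmu : mu q A x ≤ 1) :
    (pM q A).eval x ^ 2 * (pJ q A).eval x = 2 * (pZ q A).eval x ^ 2 * (pQ q A).eval x := by
  have hq2 : 2 ≤ q := by have := h.hq; omega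
  have hMZ : (pM q A).eval x = (pZ q A).eval x * (pW q A).eval x := by
    unfold pM
    rw [eval_mul]
  by_cases hmu0 : mu q A x = 0
  · have hZ := (eval_pZ_eq_zero (A := A) hx).2 hmu0
    rw [hMZ, hZ]
    ring
  · have hmu1 : mu q A x = 1 := by omega
    have hxq : x ^ q = x := (mem_FF hq2).1 hx
    have hxE : x ∈ EE K q := FF_subset hq2 hx
    have hxqq : x ^ (q ^ 2) = x := (mem_EE hq2).1 hxE
    obtain ⟨a, ha⟩ := Finset.card_eq_one.1 hmu1
    have haA : a ∈ A ∧ bil a x (x ^ q) = 0 := by
      have : a ∈ A.filter (fun a => bil a x (x ^ q) = 0) := by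
        rw [ha]
        exact Finset.mem_singleton_self a
      exact Finset.mem_filter.1 this
    have hax : bil a x x = 0 := by
      have := haA.2
      rwa [hxq] at this
    set R : K := ∏ b ∈ A.erase a, bil b x x with hR
    -- the derivative of `key`
    have hq0 : (q : K) = 0 := h.q0
    have s1 : (pM q A).eval x * ((x + a.1) * R) = - (pg q A).eval x := by
      have hk := congrArg (fun p : K[X] => (derivative p).eval x) h.key
      simp only [derivative_mul, eval_add, eval_mul, derivative_sub, derivative_X_pow, derivative_X,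
        eval_sub, eval_pow, eval_X, eval_one] at hk
      have hzero : (∏ b ∈ A, La q b).eval x = 0 := by
        rw [eval_prod]
        refine Finset.prod_eq_zero haA.1 ?_
        rw [h.eval_La (h.rat1 a haA.1) x]
        exact haA.2
      have hder : (derivative (∏ b ∈ A, La q b)).eval x = (x + a.1) * R := by
        rw [deriv_prod_erase A (La q) haA.1 (by rw [h.eval_La (h.rat1 a haA.1) x]; exact haA.2),
          h.eval_deriv_La (h.rat1 a haA.1) x, hxq, hR]
        congr 1
        refine Finset.prod_congr rfl ?_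
        intro b hb
        rw [h.eval_La (h.rat1 b (Finset.mem_of_mem_erase hb)) x, hxq]
      rw [hzero, hder, hxqq, sub_self, zero_mul, mul_zero, zero_add, add_zero] at hk
      rw [hk]
      simp [hq0]
    -- the derivative of `prod_Qa`
    set S : K[X] := ∏ y ∈ (FF K q).filter (fun y => mu q A y ≠ 0), (X - C y) with hS
    have hSx : S.eval x = 0 := by
      rw [hS, eval_prod]
      refine Finset.prod_eq_zero (Finset.mem_filter.2 ⟨hx, hmu0⟩) ?_
      rw [eval_sub, eval_X, eval_C, sub_self]
    have s2 : 2 * (x + a.1) * R =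
        (derivative S).eval x * (pG q A).eval x * (pW q A).eval x * (pJ q A).eval x := by
      have hk := congrArg (fun p : K[X] => (derivative p).eval x) h.prod_Qa
      have hQ : ∀ b : K × K, (X ^ 2 + C (2 * b.1) * X + C b.2 : K[X]).eval x = bil b x x := by
        intro b
        simp only [eval_add, eval_mul, eval_pow, eval_X, eval_C]
        unfold bil
        ring
      have hder : (derivative (∏ b ∈ A, (X ^ 2 + C (2 * b.1) * X + C b.2 : K[X]))).eval x =
          2 * (x + a.1) * R := by
        rw [deriv_prod_erase A (fun b : K × K => (X ^ 2 + C (2 * b.1) * X + C b.2 : K[X])) haA.1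
          (by rw [hQ a]; exact hax)]
        congr 1
        · simp only [derivative_add, derivative_X_pow, derivative_mul, derivative_C, derivative_X,
            zero_mul, zero_add, mul_one, add_zero, eval_add, eval_mul, eval_pow, eval_X, eval_C,
            eval_natCast]
          push_cast
          ring
        · rw [hR]
          refine Finset.prod_congr rfl ?_
          intro b _
          exact hQ b
      have hk' : (derivative (∏ b ∈ A, (X ^ 2 + C (2 * b.1) * X + C b.2 : K[X]))).eval x =
          (derivative (S * pG q A * pW q A * pJ q A)).eval x := hk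
      rw [hder] at hk'
      rw [hk']
      simp only [derivative_mul, eval_add, eval_mul, hSx, zero_mul, add_zero]
    -- `pZ * S = X ^ q - X`
    have s3 : (pZ q A).eval x * (derivative S).eval x = -1 := by
      have hZS : pZ q A * S = (X ^ q - X : K[X]) := by
        rw [← h.prod_FF, hS]
        unfold pZ
        exact Finset.prod_filter_mul_prod_filter_not (FF K q) (fun y => mu q A y = 0)
          (fun y => (X - C y : K[X]))
      have hk := congrArg (fun p : K[X] => (derivative p).eval x) hZS
      simp only [derivative_mul, eval_add, eval_mul, derivative_sub, derivative_X_pow, derivative_X,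
        eval_sub, eval_pow, eval_X, eval_one, hSx, mul_zero, zero_add] at hk
      rw [hk]
      simp [hq0]
    -- `pG(x) ≠ 0`
    have s4 : (pG q A).eval x ≠ 0 := by
      unfold pG
      rw [eval_prod, Finset.prod_ne_zero_iff]
      intro y hy
      rw [eval_pow, eval_sub, eval_X, eval_C]
      by_cases hxy : x = y
      · subst hxy
        rw [hmu1]
        simp
      · exact pow_ne_zero _ (sub_ne_zero.2 hxy)
    have hgG : (pg q A).eval x = (pG q A).eval x * (pQ q A).eval x := by
      unfold pg
      rw [eval_mul]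
    -- conclusion
    have s5 : (pG q A).eval x * (2 * (pQ q A).eval x * (pZ q A).eval x) =
        (pG q A).eval x * ((pM q A).eval x * (pW q A).eval x * (pJ q A).eval x) := by
      have e1 : (pG q A).eval x * (2 * (pQ q A).eval x * (pZ q A).eval x) =
          2 * (pg q A).eval x * (pZ q A).eval x := by
        rw [hgG]
        ring
      have e2 : (pg q A).eval x = - ((pM q A).eval x * ((x + a.1) * R)) := by
        rw [s1]
        ring
      rw [e1, e2]
      calc 2 * -((pM q A).eval x * ((x + a.1) * R)) * (pZ q A).eval x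
          = - (pM q A).eval x * (2 * (x + a.1) * R) * (pZ q A).eval x := by ring
        _ = - (pM q A).eval x * ((derivative S).eval x * (pG q A).eval x * (pW q A).eval x *
            (pJ q A).eval x) * (pZ q A).eval x := by rw [s2]
        _ = - (pM q A).eval x * ((pZ q A).eval x * (derivative S).eval x) * ((pG q A).eval x *
            (pW q A).eval x * (pJ q A).eval x) := by ring
        _ = (pG q A).eval x * ((pM q A).eval x * (pW q A).eval x * (pJ q A).eval x) := by
            rw [s3]
            ring
    have s6 := mul_left_cancel₀ s4 s5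
    calc (pM q A).eval x ^ 2 * (pJ q A).eval x
        = (pM q A).eval x * (pW q A).eval x * (pJ q A).eval x * (pZ q A).eval x := by
          rw [sq]
          nth_rewrite 2 [hMZ]
          ring
      _ = 2 * (pQ q A).eval x * (pZ q A).eval x * (pZ q A).eval x := by rw [← s6]
      _ = 2 * (pZ q A).eval x ^ 2 * (pQ q A).eval x := by ring

end Pool.Agent.SpreadN
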