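import Pool.Agent.Lib_MP_9e452d_n.NSev
import Pool.Agent.Lib_MP_9e452d_n.NTw

/-!
# Piece NTs: the transformed relation `(M^a) ^ 2 J^a = 2 (Z^a) ^ 2 Q^a` on the rational points
-/

set_option autoImplicit false

namespace Pool.Agent.SpreadN

open Polynomial

variable {K : Type*} [Field K] [DecidableEq K] {q : ℕ} {A : Finset (K × K)}

/-- the rational points `x` such that `2 ≤ mu` at `x` or at its image under `a` -/
noncomputable def bad (q : ℕ) (A : Finset (K × K)) (a : K × K) : Finset K :=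
  (FF K q).filter (fun x => 2 ≤ mu q A x ∨ (x + a.1 ≠ 0 ∧ 2 ≤ mu q A (dl a / (x + a.1) - a.1)))

private theorem two_le_of (h : OCov q A) : 2 ≤ q := by
  have := h.hq
  omega

private theorem dl_pow (h : OCov q A) {a : K × K} (h1 : a.1 ^ q = a.1) (h2 : a.2 ^ q = a.2) :
    dl a ^ q = dl a := by
  unfold dl
  rw [h.sub_pow, ← pow_mul, mul_comm, pow_mul, h1, h2]

private theorem phi_mem (h : OCov q A) {a : K × K} (h1 : a.1 ^ q = a.1) (h2 : a.2 ^ q = a.2)
    {x : K} (hx : x ∈ FF K q) : dl a / (x + a.1) - a.1 ∈ FF K q := by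
  rw [mem_FF (two_le_of h)] at hx ⊢
  rw [h.sub_pow, div_pow, dl_pow h h1 h2, h.frob, hx, h1]

private theorem phi_bil {a : K × K} {x : K} (hx : x + a.1 ≠ 0) :
    bil a x (dl a / (x + a.1) - a.1) = 0 := by
  have h0 : (x + a.1) * (dl a / (x + a.1)) = dl a := mul_div_cancel₀ _ hx
  have h1 : bil a x (dl a / (x + a.1) - a.1) = (x + a.1) * (dl a / (x + a.1)) - dl a := by
    unfold bil
    rw [show a.2 = a.1 ^ 2 - dl a by unfold dl; ring]
    ring
  rw [h1, h0, sub_self]

private theorem card_two_le (S : Finset K) (f : K → ℕ) :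
    (S.filter (fun x => 2 ≤ f x)).card ≤ ∑ x ∈ S, (f x - 1) := by
  rw [Finset.card_eq_sum_ones, Finset.sum_filter]
  refine Finset.sum_le_sum fun x _ => ?_
  split_ifs with h
  · omega
  · omega

/-- each rational `y` with `2 ≤ mu y` contributes at least one to `nG`; the involution `x ↦ dl a / (x + B) - B` is
injective and preserves `FF` (if `a` is rational) -/
theorem OCov.bad_card (h : OCov q A) {a : K × K} (h1 : a.1 ^ q = a.1) (h2 : a.2 ^ q = a.2) (hd : dl a ≠ 0) :
    (bad q A a).card ≤ 2 * nG q A := by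
  have e1 : ((FF K q).filter (fun x => 2 ≤ mu q A x)).card ≤ nG q A :=
    card_two_le (FF K q) (mu q A)
  have e2 : ((FF K q).filter (fun x => x + a.1 ≠ 0 ∧
      2 ≤ mu q A (dl a / (x + a.1) - a.1))).card ≤ nG q A := by
    refine le_trans (Finset.card_le_card_of_injOn (fun x => dl a / (x + a.1) - a.1) ?_ ?_) e1
    · intro x hx
      rw [Finset.mem_coe, Finset.mem_filter] at hx
      rw [Finset.mem_coe, Finset.mem_filter]
      exact ⟨phi_mem h h1 h2 hx.1, hx.2.2⟩
    · intro x hx x' hx' e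
      rw [Finset.mem_coe, Finset.mem_filter] at hx hx'
      have e' : dl a / (x + a.1) = dl a / (x' + a.1) := sub_left_injective e
      rw [div_eq_div_iff hx.2.1 hx'.2.1] at e'
      exact (add_right_cancel (mul_left_cancel₀ hd e')).symm
  have e3 : bad q A a ⊆ (FF K q).filter (fun x => 2 ≤ mu q A x) ∪
      (FF K q).filter (fun x => x + a.1 ≠ 0 ∧ 2 ≤ mu q A (dl a / (x + a.1) - a.1)) := by
    intro x hx
    unfold bad at hx
    rw [Finset.mem_filter] at hx
    rw [Finset.mem_union, Finset.mem_filter, Finset.mem_filter]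
    exact hx.2.elim (fun h' => Or.inl ⟨hx.1, h'⟩) (fun h' => Or.inr ⟨hx.1, h'⟩)
  have e4 := (Finset.card_le_card e3).trans (Finset.card_union_le _ _)
  omega

private theorem mu_phi_le {a : K × K} {x : K} (hx : x ∈ FF K q) (hb : x ∉ bad q A a)
    (hx0 : x + a.1 ≠ 0) : mu q A (dl a / (x + a.1) - a.1) ≤ 1 := by
  by_contra hn
  apply hb
  unfold bad
  rw [Finset.mem_filter]
  exact ⟨hx, Or.inr ⟨hx0, by omega⟩⟩

private theorem eq_neg_of {a : K × K} {x : K} (hx0 : x + a.1 = 0) : x = - a.1 :=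
  eq_neg_of_add_eq_zero_left hx0

variable [IsAlgClosed K]

/-- If `x = -B` both sides vanish by `tw_eval_neg_of_lt` (`natDegree pM < q + 3 + ..`, `natDegree pZ < nZ + 1`).
Otherwise let `y = dl a / (x + B) - B`, again rational, with `bil a x y = 0` and `mu y ≤ 1`. By `tw_eval` and `sev` at
`y` it remains to compare the powers of `x + B`: the exponents are `2 (q + 3 + nG + nQ) + nJ` and
`2 (nZ + 1) + nQ`, and by `rel2` their difference is `2 (q - 1)`; and `(x + B) ^ (q - 1) = 1`. -/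
theorem OCov.tsev (h : OCov q A) {a : K × K} (ha : a ∈ A) {x : K} (hx : x ∈ FF K q) (hb : x ∉ bad q A a) :
    (tw a (q + 3 + nG q A + nQ q A) (pM q A)).eval x ^ 2 * (tw a (nJ q A) (pJ q A)).eval x =
      2 * (tw a (nZ q A + 1) (pZ q A)).eval x ^ 2 * (tw a (nQ q A) (pQ q A)).eval x := by
  by_cases hx0 : x + a.1 = 0
  · rw [eq_neg_of hx0, tw_eval_neg_of_lt a (f := pM q A) (by rw [h.pM_natDegree]; omega),
      tw_eval_neg_of_lt a (f := pZ q A) (by rw [pZ_natDegree]; omega)]
    ring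
  · have hbil := phi_bil hx0
    have hy := phi_mem h (h.rat1 a ha) (h.rat2 a ha) hx
    have hsev := h.sev hy (mu_phi_le hx hb hx0)
    rw [tw_eval a (f := pM q A) (by rw [h.pM_natDegree]; omega) hbil,
      tw_eval a (f := pJ q A) (by rw [pJ_natDegree]) hbil,
      tw_eval a (f := pZ q A) (by rw [pZ_natDegree]; omega) hbil,
      tw_eval a (f := pQ q A) (by rw [pQ_natDegree]) hbil]
    generalize hyd : dl a / (x + a.1) - a.1 = y at hsev
    have hr := h.rel2
    have hq1 : (x + a.1) ^ q = x + a.1 := by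
      rw [h.frob, (mem_FF (two_le_of h)).1 hx, h.rat1 a ha]
    have hpow : (x + a.1) ^ (2 * (q + 3 + nG q A + nQ q A) + nJ q A) =
        (x + a.1) ^ (2 * (nZ q A + 1) + nQ q A) := by
      have e1 : 2 * (q + 3 + nG q A + nQ q A) + nJ q A = q * 2 + (2 * nZ q A + nQ q A) := by
        omega
      have e2 : 2 * (nZ q A + 1) + nQ q A = 2 + (2 * nZ q A + nQ q A) := by omega
      rw [e1, e2, pow_add _ (q * 2), pow_mul, hq1, ← pow_add]
    calc ((x + a.1) ^ (q + 3 + nG q A + nQ q A) * (pM q A).eval y) ^ 2 *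
          ((x + a.1) ^ nJ q A * (pJ q A).eval y)
        = (x + a.1) ^ (2 * (q + 3 + nG q A + nQ q A) + nJ q A) *
          ((pM q A).eval y ^ 2 * (pJ q A).eval y) := by
            ring
      _ = (x + a.1) ^ (2 * (nZ q A + 1) + nQ q A) *
          (2 * (pZ q A).eval y ^ 2 * (pQ q A).eval y) := by rw [hpow, hsev]
      _ = 2 * ((x + a.1) ^ (nZ q A + 1) * (pZ q A).eval y) ^ 2 *
          ((x + a.1) ^ nQ q A * (pQ q A).eval y) := by
            ring

/-- `tw pJ` has no rational root: for `x ≠ -B` it is `(x + B) ^ nJ * pJ(y)` with `y` rational; at `-B` it is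
`dl a ^ nJ` -/
theorem OCov.tw_pJ_ne (h : OCov q A) {a : K × K} (ha : a ∈ A) {x : K} (hx : x ∈ FF K q) :
    (tw a (nJ q A) (pJ q A)).eval x ≠ 0 := by
  by_cases hx0 : x + a.1 = 0
  · rw [eq_neg_of hx0, tw_eval_neg]
    have h1 : (pJ q A).coeff (nJ q A) = 1 := by
      rw [← pJ_natDegree (q := q) (A := A)]
      exact pJ_monic
    rw [h1, one_mul]
    exact pow_ne_zero _ (h.nd a ha)
  · rw [tw_eval a (f := pJ q A) (by rw [pJ_natDegree]) (phi_bil hx0)]
    exact mul_ne_zero (pow_ne_zero _ hx0)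
      (eval_pJ_ne (phi_mem h (h.rat1 a ha) (h.rat2 a ha) hx))

/-- `tw pg` has no rational root outside `bad` -/
theorem OCov.tw_pg_ne (h : OCov q A) {a : K × K} (ha : a ∈ A) {x : K} (hx : x ∈ FF K q) (hb : x ∉ bad q A a) :
    (tw a (nG q A + nQ q A) (pg q A)).eval x ≠ 0 := by
  by_cases hx0 : x + a.1 = 0
  · rw [eq_neg_of hx0, tw_eval_neg]
    have h1 : (pg q A).coeff (nG q A + nQ q A) = 1 := by
      rw [← pg_natDegree (q := q) (A := A)]
      exact pg_monic
    rw [h1, one_mul]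
    exact pow_ne_zero _ (h.nd a ha)
  · rw [tw_eval a (f := pg q A) (by rw [pg_natDegree]) (phi_bil hx0)]
    refine mul_ne_zero (pow_ne_zero _ hx0) fun h0 => ?_
    have hy := FF_subset (two_le_of h) (phi_mem h (h.rat1 a ha) (h.rat2 a ha) hx)
    have h2 := (eval_pg_eq_zero (two_le_of h) hy).1 h0
    have h3 := mu_phi_le hx hb hx0
    omega

end Pool.Agent.SpreadN
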