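import Pool.Agent.Lib_MP_9e452d_n.NEa
import Pool.Agent.Lib_MP_9e452d_n.NTs

/-!
# Piece NSq: the squaring step
-/

set_option autoImplicit false

namespace Pool.Agent.SpreadN

open Polynomial

/-- In `K[X]`, `K` algebraically closed: if `Y ^ 2 = c S U ^ 2` with `c ≠ 0` and `U ≠ 0` then `U` divides `Y`
(`K[X]` is a UFD / normalized GCD monoid: `U ^ 2 ∣ Y ^ 2`, `pow_dvd_pow_iff`) and `Y = U V`, `V ^ 2 = c S`. -/
theorem sq_step {K : Type*} [Field K] {Y S U : K[X]} {c : K} (hU : U ≠ 0) (hY : Y ^ 2 = C c * S * U ^ 2) :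
    ∃ V : K[X], Y = U * V ∧ V ^ 2 = C c * S := by
  have h1 : U ^ 2 ∣ Y ^ 2 := ⟨C c * S, by rw [hY]; ring⟩
  have h2 : U ∣ Y := (UniqueFactorizationMonoid.pow_dvd_pow_iff_dvd two_ne_zero).1 h1
  obtain ⟨V, hV⟩ := h2
  refine ⟨V, hV, ?_⟩
  have h3 : U ^ 2 * (V ^ 2 - C c * S) = 0 := by
    rw [hV] at hY
    linear_combination hY
  have h4 := (mul_eq_zero.1 h3).resolve_left (pow_ne_zero 2 hU)
  linear_combination h4

private theorem nd_mul {K : Type*} [Field K] {f g : K[X]} {m n : ℕ} (hf : f.natDegree ≤ m) (hg : g.natDegree ≤ n) :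
    (f * g).natDegree ≤ m + n := natDegree_mul_le_of_le hf hg

private theorem nd_sq {K : Type*} [Field K] {f : K[X]} {m : ℕ} (hf : f.natDegree ≤ m) :
    (f ^ 2).natDegree ≤ 2 * m := natDegree_pow_le_of_le 2 hf

private theorem nd_C {K : Type*} [Field K] (c : K) : (C c : K[X]).natDegree ≤ 0 := (natDegree_C c).le

variable {K : Type*} [Field K] [DecidableEq K] {q : ℕ} {A : Finset (K × K)} [IsAlgClosed K]

/-- Notation: `e = nG + nQ`, `g = pg`, `M = pM`, `Z = pZ`, `J = pJ`, `Q = pQ`, `D = dl a`, `g' = tw a e g`,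
`M' = tw a (q + 3 + e) M`, `J' = tw a nJ J`, `Z' = tw a (nZ + 1) Z`, `Q' = tw a nQ Q`, `r` as in `exists_r` and
`h = (X ^ 2 + 2 B X + C) r`, of degree at most `2 e + 4`. At a rational `x` we have `La(x) = x ^ 2 + 2 B x + C`
(`eval_La`), so `D ^ 2 g' M - h = g M'` at `x`. Let `x` be rational and not in `bad`. Squaring and multiplying by
`J J'`, with `M ^ 2 J = 2 Z ^ 2 Q` (`sev`) and `M' ^ 2 J' = 2 Z' ^ 2 Q'` (`tsev`):
`Y := 2 D ^ 4 g' ^ 2 J' Z ^ 2 Q + h ^ 2 J J' - 2 g ^ 2 J Z' ^ 2 Q' = 2 D ^ 2 g' M h J J'` at `x`, (*)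
and squaring again `Y ^ 2 = 8 D ^ 4 Q J (Z g' h J') ^ 2` at `x`. Both sides of the last equation are polynomials of
degree at most `4 (nZ + 1) + 2 (nQ + nJ) + 4 e` (use `rel2`), and there are at least `q - 2 nG` such points `x`
(`bad_card`, `card_FF`), so by `hs` it is an identity of polynomials. If `h ≠ 0` then `U = Z g' h J' ≠ 0`
(`g' ≠ 0` and `J' ≠ 0`: they do not vanish at some rational point, `tw_pg_ne`, `tw_pJ_ne`), so by `sq_step` `Y = U V`,
`V ^ 2 = 8 D ^ 4 Q J`, whence `2 natDegree V ≤ nQ + nJ`. Outside the set `B` of the rational `x` in `bad` or with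
`h(x) = 0` (at most `2 nG + 2 e + 4`), (*) is `Z g' h J' V = 2 D ^ 2 g' M h J J'`, so `2 D ^ 2 M J = Z V`. The polynomial
wanted is `V / (2 D ^ 2)`. -/
theorem OCov.square (h : OCov q A) {a : K × K} (ha : a ∈ A) (r : K[X])
    (hr : r.natDegree ≤ 2 * (nG q A + nQ q A) + 2) (hr0 : r ≠ 0)
    (hE : C (dl a ^ 2) * tw a (nG q A + nQ q A) (pg q A) * pM q A
      - pg q A * tw a (q + 3 + nG q A + nQ q A) (pM q A) = La q a * r)
    (hs : 4 * (nZ q A + 1) + 2 * (nQ q A + nJ q A) + 4 * (nG q A + nQ q A) + 2 * nG q A < q) :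
    ∃ (V : K[X]) (B : Finset K), 2 * V.natDegree ≤ nQ q A + nJ q A ∧ B ⊆ FF K q ∧
      B.card ≤ 2 * nG q A + (2 * (nG q A + nQ q A) + 4) ∧
      ∀ x ∈ FF K q, x ∉ B → (pM q A).eval x * (pJ q A).eval x = (pZ q A).eval x * V.eval x := by
  have hrel := h.rel2
  have h2 := h.two
  have hdl := h.nd a ha
  have hr1 := h.rat1 a ha
  have hr2 := h.rat2 a ha
  set e := nG q A + nQ q A with he
  set g' := tw a e (pg q A) with hg'
  set M' := tw a (q + 3 + nG q A + nQ q A) (pM q A) with hM'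
  set J' := tw a (nJ q A) (pJ q A) with hJ'
  set Z' := tw a (nZ q A + 1) (pZ q A) with hZ'
  set Q' := tw a (nQ q A) (pQ q A) with hQ'
  set D := dl a with hD
  set h0 : K[X] := (X ^ 2 + C (2 * a.1) * X + C a.2) * r with hh0
  have hqm : (X ^ 2 + C (2 * a.1) * X + C a.2 : K[X]).Monic := by
    monicity!
  have hqd : (X ^ 2 + C (2 * a.1) * X + C a.2 : K[X]).natDegree ≤ 2 := by
    compute_degree
  have hh0n : h0 ≠ 0 := mul_ne_zero hqm.ne_zero hr0
  have hh0d : h0.natDegree ≤ 2 * e + 4 := (nd_mul hqd hr).trans (by omega)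
  have dg' : g'.natDegree ≤ e := tw_natDegree _ _ _
  have dJ' : J'.natDegree ≤ nJ q A := tw_natDegree _ _ _
  have dZ' : Z'.natDegree ≤ nZ q A + 1 := tw_natDegree _ _ _
  have dQ' : Q'.natDegree ≤ nQ q A := tw_natDegree _ _ _
  have dg : (pg q A).natDegree ≤ e := pg_natDegree.le
  have dJ : (pJ q A).natDegree ≤ nJ q A := pJ_natDegree.le
  have dZ : (pZ q A).natDegree ≤ nZ q A := pZ_natDegree.le
  have dQ : (pQ q A).natDegree ≤ nQ q A := pQ_natDegree.le
  set Y : K[X] := C (2 * D ^ 4) * g' ^ 2 * J' * pZ q A ^ 2 * pQ q A + h0 ^ 2 * pJ q A * J'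
    - C 2 * pg q A ^ 2 * pJ q A * Z' ^ 2 * Q' with hY
  set U : K[X] := pZ q A * g' * h0 * J' with hU
  set N1 := 2 * (nZ q A + 1) + (nQ q A + nJ q A) + 2 * e with hN1
  have dY : Y.natDegree ≤ N1 := by
    have t1 : (C (2 * D ^ 4) * g' ^ 2 * J' * pZ q A ^ 2 * pQ q A).natDegree ≤ N1 := 
      (nd_mul (nd_mul (nd_mul (nd_mul (nd_C _) (nd_sq dg')) dJ') (nd_sq dZ)) dQ).trans (by omega)
    have t2 : (h0 ^ 2 * pJ q A * J').natDegree ≤ N1 :=
      (nd_mul (nd_mul (nd_sq hh0d) dJ) dJ').trans (by omega)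
    have t3 : (C 2 * pg q A ^ 2 * pJ q A * Z' ^ 2 * Q').natDegree ≤ N1 :=
      (nd_mul (nd_mul (nd_mul (nd_mul (nd_C _) (nd_sq dg)) dJ) (nd_sq dZ')) dQ').trans (by omega)
    exact (natDegree_sub_le_of_le (natDegree_add_le_of_degree_le t1 t2) t3).trans (max_self _).le
  have dU : U.natDegree ≤ nZ q A + e + (2 * e + 4) + nJ q A := nd_mul (nd_mul (nd_mul dZ dg') hh0d) dJ'
  -- the pointwise identity
  have hpt : ∀ x ∈ FF K q, x ∉ bad q A a → Y.eval x = 2 * D ^ 2 * g'.eval x * (pM q A).eval x * h0.eval x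
      * (pJ q A).eval x * J'.eval x ∧
      (pM q A).eval x ^ 2 * (pJ q A).eval x = 2 * (pZ q A).eval x ^ 2 * (pQ q A).eval x := by
    intro x hx hb
    have hmu : mu q A x ≤ 1 := by
      by_contra hcon
      apply hb
      rw [bad, Finset.mem_filter]
      exact ⟨hx, Or.inl (by omega)⟩
    have e1 := h.sev hx hmu
    have e2 := h.tsev ha hx hb
    have e3 := congrArg (Polynomial.eval x) hE
    have hq : 2 ≤ q := by have := h.hq; omega
    have e4 : (La q a).eval x = x ^ 2 + 2 * a.1 * x + a.2 := by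
      rw [h.eval_La hr1, (mem_FF hq).1 hx, bil]
      ring
    have e5 : h0.eval x = (La q a).eval x * r.eval x := by
      rw [e4, hh0]
      simp
    rw [eval_sub, eval_mul, eval_mul, eval_mul, eval_mul, eval_C, ← e5] at e3
    refine ⟨?_, e1⟩
    rw [hY]
    simp only [eval_sub, eval_add, eval_mul, eval_pow, eval_C]
    have e6 : ((pg q A).eval x * M'.eval x) ^ 2 * (pJ q A).eval x * J'.eval x =
        (D ^ 2 * g'.eval x * (pM q A).eval x - h0.eval x) ^ 2 * (pJ q A).eval x * J'.eval x := by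
      rw [← e3]; ring
    linear_combination -e6 - (D ^ 4 * g'.eval x ^ 2 * J'.eval x) * e1 + ((pg q A).eval x ^ 2 * (pJ q A).eval x) * e2
  -- enough points
  set S := (FF K q) \ bad q A a with hS
  have hbs : bad q A a ⊆ FF K q := Finset.filter_subset _ _
  have hScard : 2 * N1 < S.card := by
    have t1 := Finset.card_sdiff_add_card_eq_card hbs
    rw [h.card_FF, ← hS] at t1
    have t2 := h.bad_card hr1 hr2 hdl
    omega
  have hmemS : ∀ x ∈ S, x ∈ FF K q ∧ x ∉ bad q A a := fun x hx => Finset.mem_sdiff.1 hx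
  have hYY : Y ^ 2 = C (8 * D ^ 4) * (pQ q A * pJ q A) * U ^ 2 := by
    refine Polynomial.eq_of_degree_sub_lt_of_eval_finset_eq S ?_ ?_
    · have t1 : (Y ^ 2).natDegree ≤ 2 * N1 := nd_sq dY
      have t2 : (C (8 * D ^ 4) * (pQ q A * pJ q A) * U ^ 2).natDegree ≤ 2 * N1 :=
        (nd_mul (nd_mul (nd_C _) (nd_mul dQ dJ)) (nd_sq dU)).trans (by omega)
      have t3 : (Y ^ 2 - C (8 * D ^ 4) * (pQ q A * pJ q A) * U ^ 2).natDegree ≤ 2 * N1 :=
        (natDegree_sub_le_of_le t1 t2).trans (max_self _).le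
      exact degree_le_natDegree.trans_lt (by exact_mod_cast lt_of_le_of_lt t3 hScard)
    · intro x hx
      obtain ⟨hx1, hx2⟩ := hmemS x hx
      obtain ⟨e1, e2⟩ := hpt x hx1 hx2
      simp only [eval_mul, eval_pow, eval_C]
      rw [e1, hU]
      simp only [eval_mul]
      linear_combination (4 * D ^ 4 * g'.eval x ^ 2 * h0.eval x ^ 2 * (pJ q A).eval x * J'.eval x ^ 2) * e2
  obtain ⟨x0, hx0⟩ : S.Nonempty := Finset.card_pos.1 (by omega)
  have hg'0 : g' ≠ 0 := by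
    intro h0'
    apply h.tw_pg_ne ha (hmemS x0 hx0).1 (hmemS x0 hx0).2
    rw [← he, ← hg', h0', eval_zero]
  have hJ'0 : J' ≠ 0 := by
    intro h0'
    apply h.tw_pJ_ne ha (hmemS x0 hx0).1
    rw [← hJ', h0', eval_zero]
  have hU0 : U ≠ 0 := mul_ne_zero (mul_ne_zero (mul_ne_zero pZ_monic.ne_zero hg'0) hh0n) hJ'0
  obtain ⟨V, hV1, hV2⟩ := sq_step hU0 hYY
  have hD2 : (2 * D ^ 2 : K) ≠ 0 := mul_ne_zero h2 (pow_ne_zero 2 hdl)
  refine ⟨C ((2 * D ^ 2)⁻¹) * V, bad q A a ∪ (FF K q).filter (fun x => h0.eval x = 0), ?_, ?_, ?_, ?_⟩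
  · have t1 : (V ^ 2).natDegree = 2 * V.natDegree := natDegree_pow V 2
    have t2 : (V ^ 2).natDegree ≤ nQ q A + nJ q A := by
      rw [hV2]
      exact (nd_mul (nd_C _) (nd_mul dQ dJ)).trans (by omega)
    have t3 : (C ((2 * D ^ 2)⁻¹) * V).natDegree ≤ V.natDegree := natDegree_C_mul_le _ _
    omega
  · exact Finset.union_subset hbs (Finset.filter_subset _ _)
  · refine (Finset.card_union_le _ _).trans (Nat.add_le_add (h.bad_card hr1 hr2 hdl) ?_)
    refine le_trans ?_ hh0d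
    refine le_trans ?_ (Polynomial.card_roots' h0)
    refine le_trans (Finset.card_le_card ?_) (Multiset.toFinset_card_le _)
    intro x hx
    rw [Finset.mem_filter] at hx
    rw [Multiset.mem_toFinset, mem_roots hh0n]
    exact hx.2
  · intro x hx hxB
    rw [Finset.mem_union, not_or, Finset.mem_filter, not_and] at hxB
    obtain ⟨hb, hx0'⟩ := hxB
    have hhx := hx0' hx
    obtain ⟨e1, e2⟩ := hpt x hx hb
    have e3 := congrArg (Polynomial.eval x) hV1
    rw [e1, hU] at e3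
    simp only [eval_mul] at e3
    have e4 := h.tw_pg_ne ha hx hb
    have e5 := h.tw_pJ_ne ha hx
    rw [← he, ← hg'] at e4
    rw [← hJ'] at e5
    have e6 : (g'.eval x * h0.eval x * J'.eval x) *
        (2 * D ^ 2 * ((pM q A).eval x * (pJ q A).eval x) - (pZ q A).eval x * V.eval x) = 0 := by
      linear_combination e3
    have e7 := (mul_eq_zero.1 e6).resolve_left (mul_ne_zero (mul_ne_zero e4 hhx) e5)
    simp only [eval_mul, eval_C]
    field_simp
    linear_combination e7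

end Pool.Agent.SpreadN
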