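import Pool.Agent.Lib_MP_9e452d.Main
import Pool.Agent.Lib_MP_9e452d_n.NMain
import Pool.Agent.Lib_MP_9e452d_n.NCBd
import Pool.Agent.Lib_MP_9e452d_n.NPa
import Pool.Agent.Lib_MP_9e452d_n.NPb
import Pool.Agent.Lib_MP_9e452d_n.NPd

/-!
# MP_9e452d_al: the spread of `PGL(2, q)` is `q - 2` for `q ≥ 1210`
-/

set_option autoImplicit false

namespace Pool.Agent.SpreadN

open Pool.Agent.SpreadPGL Matrix MatrixGroups

variable {F : Type*} [Field F] [Fintype F]

theorem no_FCov [DecidableEq F] (hq : 1210 ≤ Fintype.card F) (A : Finset (F × F)) (hA : FCov A) : False := by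
  classical
  set K := AlgebraicClosure F
  have hO : OCov (Fintype.card F) (mapA K A) := hA.ocov
  have h1 : nZ (Fintype.card F) (mapA K A) = fz A := hA.nZ_eq
  have h2 : 2 * (fT A).card ≤ nW (Fintype.card F) (mapA K A) := hA.le_nW
  have h3 := cb hA
  have h4 := hO.rel1
  have h5 := hO.rel2
  set z := fz A
  set W := nW (Fintype.card F) (mapA K A)
  set g := nG (Fintype.card F) (mapA K A)
  set Q := nQ (Fintype.card F) (mapA K A)
  set J := nJ (Fintype.card F) (mapA K A)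
  rw [h1] at h4 h5
  have h6 : (z + 1) * (z + 3) ≤ 4 * W := by omega
  have h7 : 9 * (Q + J) + 15 * g + 21 < Fintype.card F := by
    by_contra hcon
    push Not at hcon
    have h8 : Fintype.card F + 33 ≤ 18 * z := by omega
    have h9 : W + 4 ≤ Fintype.card F + z := by omega
    have h10 : 70 ≤ z := by omega
    nlinarith
  obtain ⟨α, β, γ, e1, e2, e3, e4, e5⟩ := hO.main h7
  have h11 := hA.excess e1 e2 e3 e4 e5
  omega

theorem core2 [DecidableEq F] (h2 : ringChar F ≠ 2) (hq : 1210 ≤ Fintype.card F) {ι : Type*} [Fintype ι]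
    (hι : Fintype.card ι + 2 = Fintype.card F) (a : ι → (Fin 3 → F)) (ha : ∀ i, a i ≠ 0)
    (K1 : ∀ z, ¬ IsSquare (D z) → ∃ i, B (a i) z = 0 ∨ ∃ c : F, z = c • a i)
    (K2 : ∀ z, D z ≠ 0 → IsSquare (D z) → ∃ i, B (a i) z = 0 ∨ ∃ N, N ≠ 0 ∧ D N = 0 ∧ B (a i) N = 0 ∧ B N z = 0) :
    False := by
  obtain ⟨a', h1, K1', K2'⟩ := exists_coord h2 hι a ha K1 K2
  obtain ⟨A, hA⟩ := exists_FCov h2 hι a' h1 K1' K2'
  exact no_FCov hq A hA

theorem spread_lower2 (h2 : ringChar F ≠ 2) (hq : 1210 ≤ Fintype.card F) :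
    SpreadAtLeast (Matrix.ProjGenLinGroup (Fin 2) F) (Fintype.card F - 2) := by
  classical
  have h2' : (2 : F) ≠ 0 := Ring.two_ne_zero h2
  intro x hx
  by_contra hcon
  push Not at hcon
  choose g hg using fun i => ProjGenLinGroup.mk_surjective (x i)
  refine core2 h2 hq (ι := Fin (Fintype.card F - 2)) (by rw [Fintype.card_fin]; omega)
    (fun i => tl (g i : Matrix (Fin 2) (Fin 2) F)) (fun i => tl_ne h2' _ (by rw [hg]; exact hx i)) ?_ ?_
  · intro z hz
    obtain ⟨y, hy⟩ := exists_y_nonsplit h2 z hz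
    obtain ⟨i, hi⟩ := hcon y
    exact ⟨i, hy (g i) (by rw [hg]; exact hx i) (by rw [hg]; exact hi)⟩
  · intro z hz0 hz
    obtain ⟨y, hy⟩ := exists_y_split h2 (by omega) z hz0 hz
    obtain ⟨i, hi⟩ := hcon y
    exact ⟨i, hy (g i) (by rw [hg]; exact hi)⟩

/-- the spread of `PGL(2, q)`, `q ≥ 1210` odd, is `q - 2` -/
theorem main2 (h2 : ringChar F ≠ 2) (hq : 1210 ≤ Fintype.card F) :
    IsSpread (Matrix.ProjGenLinGroup (Fin 2) F) (Fintype.card F - 2) := by
  refine ⟨spread_lower2 h2 hq, fun k hk => ?_⟩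
  by_contra hlt
  exact spread_upper h2 (SpreadAtLeast.mono (by omega) hk)

end Pool.Agent.SpreadN
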