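import Mathlib

/-!
# Piece NTriA: coprime polynomials with `φ ∘ φ = id`, `φ = -v / u`
-/

set_option autoImplicit false

namespace Pool.Agent.SpreadN

open Polynomial

private theorem lin_natDegree_le {K : Type*} [Field K] (a b : K) : (X * C a + C b : K[X]).natDegree ≤ 1 := by
  have h : (X * C a + C b : K[X]) = C a * X + C b := by ring
  rw [h]
  exact natDegree_linear_le

private theorem lin_ne_zero {K : Type*} [Field K] {a b : K} (h : a ≠ 0 ∨ b ≠ 0) : (X * C a + C b : K[X]) ≠ 0 := by
  intro h0
  have h1 : (X * C a + C b : K[X]).coeff 1 = a := by simp [coeff_C]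
  have h2 : (X * C a + C b : K[X]).coeff 0 = b := by simp
  rw [h0, coeff_zero] at h1 h2
  rcases h with h | h
  · exact h h1.symm
  · exact h h2.symm

private theorem quad_eq_zero {K : Type*} [Field K] {p q r : K} (h : C p * X ^ 2 + C q * X + C r = (0 : K[X])) :
    p = 0 ∧ q = 0 ∧ r = 0 := by
  refine ⟨?_, ?_, ?_⟩
  · have := congrArg (fun f : K[X] => f.coeff 2) h
    simpa [coeff_X, coeff_C] using this
  · have := congrArg (fun f : K[X] => f.coeff 1) h
    simpa [coeff_X, coeff_C, coeff_X_pow] using this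
  · have := congrArg (fun f : K[X] => f.coeff 0) h
    simpa [coeff_X, coeff_C, coeff_X_pow] using this

/-- Let `u`, `v` be coprime, `d` the maximum of their degrees and
`∑ i ≤ d, (X u_i + v_i) (-v)^i u^(d-i) = 0`. Modulo `u`: `u ∣ X u_d + v_d` (nonzero, as `u_d`, `v_d` are not both 0);
modulo `v`: `v ∣ X u_0 + v_0`, and this is nonzero, as otherwise `X` divides `u` and `v`. So `d ≤ 1`. If `d = 0` then
`u, v` are constant. If `d = 1`, expanding `(X u_0 + v_0) u - (X u_1 + v_1) v = 0` gives `u_1 (u_0 - v_1) = 0`,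
`(u_0 - v_1) (u_0 + v_1) = 0`, `v_0 (u_0 - v_1) = 0`; so `u_0 = v_1`, or `u_1 = v_0 = 0` and `v_1 = -u_0`, which
is `v = -X u`. -/
theorem invol_aux {K : Type*} [Field K] (h2 : (2 : K) ≠ 0) {u v : K[X]} (huv : IsCoprime u v) {d : ℕ}
    (hu : u.natDegree ≤ d) (hv : v.natDegree ≤ d) (hd : u.coeff d ≠ 0 ∨ v.coeff d ≠ 0)
    (hsum : ∑ i ∈ Finset.range (d + 1), (X * C (u.coeff i) + C (v.coeff i)) * (-v) ^ i * u ^ (d - i) = 0) :
    (∃ α β : K, u = C α ∧ v = C β) ∨ v = -X * u ∨
      ∃ α β γ : K, u = C α * X + C β ∧ v = C β * X + C γ ∧ β ^ 2 ≠ α * γ := by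
  -- modulo `u`
  have hudvd : u ∣ X * C (u.coeff d) + C (v.coeff d) := by
    have h1 : u ∣ (X * C (u.coeff d) + C (v.coeff d)) * (-v) ^ d := by
      rw [Finset.sum_range_succ, Nat.sub_self, pow_zero, mul_one] at hsum
      have h1 : u ∣ ∑ i ∈ Finset.range d, (X * C (u.coeff i) + C (v.coeff i)) * (-v) ^ i * u ^ (d - i) := by
        refine Finset.dvd_sum fun i hi => ?_
        have hi' : d - i ≠ 0 := by
          have := Finset.mem_range.mp hi
          omega
        exact Dvd.dvd.mul_left (dvd_pow_self u hi') _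
      have h3 : (X * C (u.coeff d) + C (v.coeff d)) * (-v) ^ d =
          -∑ i ∈ Finset.range d, (X * C (u.coeff i) + C (v.coeff i)) * (-v) ^ i * u ^ (d - i) := by
        linear_combination hsum
      rw [h3]
      exact (dvd_neg).mpr h1
    exact ((huv.neg_right).pow_right).dvd_of_dvd_mul_right h1
  have hudeg : u.natDegree ≤ 1 :=
    (natDegree_le_of_dvd hudvd (lin_ne_zero hd)).trans (lin_natDegree_le _ _)
  -- modulo `v`
  have h00 : u.coeff 0 ≠ 0 ∨ v.coeff 0 ≠ 0 := by
    by_contra hcon
    push Not at hcon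
    have hXu : X ∣ u := X_dvd_iff.mpr hcon.1
    have hXv : X ∣ v := X_dvd_iff.mpr hcon.2
    exact not_isUnit_X (huv.isUnit_of_dvd' hXu hXv)
  have hvdvd : v ∣ X * C (u.coeff 0) + C (v.coeff 0) := by
    have h1 : v ∣ (X * C (u.coeff 0) + C (v.coeff 0)) * u ^ d := by
      rw [Finset.sum_range_succ', pow_zero, mul_one, Nat.sub_zero] at hsum
      have h1 : v ∣ ∑ i ∈ Finset.range d, (X * C (u.coeff (i + 1)) + C (v.coeff (i + 1))) * (-v) ^ (i + 1) *
          u ^ (d - (i + 1)) := by
        refine Finset.dvd_sum fun i _ => ?_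
        have h4 : v ∣ (-v) ^ (i + 1) := (dvd_neg.mpr dvd_rfl).trans (dvd_pow_self _ (Nat.succ_ne_zero i))
        exact Dvd.dvd.mul_right (Dvd.dvd.mul_left h4 _) _
      have h3 : (X * C (u.coeff 0) + C (v.coeff 0)) * u ^ d =
          -∑ i ∈ Finset.range d, (X * C (u.coeff (i + 1)) + C (v.coeff (i + 1))) * (-v) ^ (i + 1) *
          u ^ (d - (i + 1)) := by
        linear_combination hsum
      rw [h3]
      exact (dvd_neg).mpr h1
    exact ((huv.symm).pow_right).dvd_of_dvd_mul_right h1
  have hvdeg : v.natDegree ≤ 1 :=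
    (natDegree_le_of_dvd hvdvd (lin_ne_zero h00)).trans (lin_natDegree_le _ _)
  have hd1 : d ≤ 1 := by
    rcases hd with h | h
    · exact (le_natDegree_of_ne_zero h).trans hudeg
    · exact (le_natDegree_of_ne_zero h).trans hvdeg
  interval_cases d
  · left
    exact ⟨u.coeff 0, v.coeff 0, eq_C_of_natDegree_le_zero hu, eq_C_of_natDegree_le_zero hv⟩
  · right
    have hu' : u = C (u.coeff 1) * X + C (u.coeff 0) := eq_X_add_C_of_natDegree_le_one hudeg
    have hv' : v = C (v.coeff 1) * X + C (v.coeff 0) := eq_X_add_C_of_natDegree_le_one hvdeg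
    set a := u.coeff 1 with ha
    set b := u.coeff 0 with hb
    set c := v.coeff 1 with hc
    set e := v.coeff 0 with he
    have hexp : C (a * (b - c)) * X ^ 2 + C ((b - c) * (b + c)) * X + C (e * (b - c)) = (0 : K[X]) := by
      have h5 : (X * C b + C e) * u - (X * C a + C c) * v = 0 := by
        rw [Finset.sum_range_succ, Finset.sum_range_one, ← ha, ← hb, ← hc, ← he] at hsum
        simp only [pow_zero, mul_one, Nat.sub_zero, pow_one, Nat.sub_self] at hsum
        linear_combination hsum
      rw [hu', hv'] at h5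
      rw [← h5]
      simp only [C_mul, C_sub, C_add]
      ring
    obtain ⟨e2, e1, e0⟩ := quad_eq_zero hexp
    by_cases hbc : b = c
    · right
      refine ⟨a, b, e, hu', ?_, ?_⟩
      · rw [hbc]; exact hv'
      · intro hbad
        rw [hbc] at hbad
        have hrel : C c * u = C a * v := by
          rw [hu', hv', hbc]
          have : (C c * C c : K[X]) = C a * C e := by rw [← C_mul, ← C_mul, ← hbad, sq]
          linear_combination this
        by_cases ha0 : a = 0
        · rw [ha0, zero_mul] at hbad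
          have hc0 : c = 0 := by simpa using hbad
          rcases hd with h | h
          · exact h ha0
          · exact h hc0
        · have hdvd : u ∣ v := by
            have h6 : u ∣ C a * v := ⟨C c, by rw [← hrel]; ring⟩
            exact (isUnit_C.mpr (isUnit_iff_ne_zero.mpr ha0)).dvd_mul_left.mp h6
          have hunit : IsUnit u := huv.isUnit_of_dvd' dvd_rfl hdvd
          have h7 : u.natDegree = 0 := natDegree_eq_zero_of_isUnit hunit
          have h8 : 1 ≤ u.natDegree := le_natDegree_of_ne_zero ha0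
          omega
    · left
      have hbc' : b - c ≠ 0 := sub_ne_zero.mpr hbc
      have ha0 : a = 0 := by simpa [hbc'] using e2
      have he0 : e = 0 := by simpa [hbc'] using e0
      have hcb : c = -b := by
        have h9 : b + c = 0 := by simpa [hbc'] using e1
        linear_combination h9
      rw [hv', hu', ha0, he0, hcb]
      simp only [C_0, C_neg]
      ring

end Pool.Agent.SpreadN
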